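import Pool.Agent.Lib_helper12.NZ.Base

set_option autoImplicit false

open Finset

namespace Pool.Agent.Lib_helper12.NZ

theorem AR10_mul (Δ : ℕ) (B C : ℝ) (hB : 0 ≤ B) (p q : Polynomial ℤ) (h1 : p.natDegree ≤ Δ)
    (h2 : ∀ l, |(p.coeff l : ℝ)| ≤ B) (h3 : ∀ l, |(q.coeff l : ℝ)| ≤ C) (l : ℕ) :
    |((p * q).coeff l : ℝ)| ≤ ((Δ + 1) * B) * C := by
  have hC : 0 ≤ C := le_trans (abs_nonneg _) (h3 0)
  rw [Polynomial.coeff_mul, Finset.Nat.sum_antidiagonal_eq_sum_range_succ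
    (fun i j => p.coeff i * q.coeff j)]
  push_cast
  refine (Finset.abs_sum_le_sum_abs _ _).trans ?_
  have hstep : ∑ i ∈ range (l + 1), |(p.coeff i : ℝ) * (q.coeff (l - i) : ℝ)| ≤
      ∑ i ∈ range (l + 1), (if i ∈ range (Δ + 1) then B * C else 0) := by
    refine Finset.sum_le_sum fun i _ => ?_
    split_ifs with hi
    · rw [abs_mul]
      exact mul_le_mul (h2 i) (h3 _) (abs_nonneg _) hB
    · have : p.coeff i = 0 := by
        apply Polynomial.coeff_eq_zero_of_natDegree_lt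
        simp only [Finset.mem_range] at hi
        omega
      simp [this]
  refine hstep.trans ?_
  rw [← Finset.sum_filter]
  rw [Finset.sum_const, nsmul_eq_mul]
  have hcard : (((range (l + 1)).filter (· ∈ range (Δ + 1))).card : ℝ) ≤ (Δ : ℝ) + 1 := by
    have h : ((range (l + 1)).filter (· ∈ range (Δ + 1))).card ≤ (range (Δ + 1)).card :=
      Finset.card_le_card fun i hi => (Finset.mem_filter.1 hi).2
    rw [Finset.card_range] at h
    exact_mod_cast h
  calc _ ≤ ((Δ : ℝ) + 1) * (B * C) :=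
        mul_le_mul_of_nonneg_right hcard (mul_nonneg hB hC)
    _ = _ := by ring

theorem AR10_prod {ι : Type*} (Δ : ℕ) (B : ℝ) (hB : 1 ≤ B) (f : ι → Polynomial ℤ)
    (h1 : ∀ i, (f i).natDegree ≤ Δ) (h2 : ∀ i l, |((f i).coeff l : ℝ)| ≤ B) (s : Finset ι) :
    ∀ l, |((∏ i ∈ s, f i).coeff l : ℝ)| ≤ ((Δ + 1) * B) ^ s.card := by
  classical
  induction s using Finset.induction_on with
  | empty =>
    intro l
    simp only [Finset.prod_empty, Finset.card_empty, pow_zero, Polynomial.coeff_one]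
    split_ifs <;> simp
  | insert a s ha ih =>
    intro l
    rw [Finset.prod_insert ha, Finset.card_insert_of_notMem ha, pow_succ']
    exact AR10_mul Δ B _ (by linarith) _ _ (h1 a) (h2 a) ih l

theorem AR10 (m Δ : ℕ) (Bd : ℝ) (hB : 1 ≤ Bd) (S : Matrix (Fin m) (Fin m) (Polynomial ℤ))
    (h1 : ∀ i j, (S i j).natDegree ≤ Δ) (h2 : ∀ i j l, |((S i j).coeff l : ℝ)| ≤ Bd) (l : ℕ) :
    |(S.det.coeff l : ℝ)| ≤ m.factorial * ((Δ + 1) * Bd) ^ m := by
  rw [Matrix.det_apply', Polynomial.finsetSum_coeff]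
  push_cast
  refine (Finset.abs_sum_le_sum_abs _ _).trans ?_
  have : ∀ σ ∈ (Finset.univ : Finset (Equiv.Perm (Fin m))),
      |((((((Equiv.Perm.sign σ : ℤˣ) : ℤ) : Polynomial ℤ) * ∏ i, S (σ i) i).coeff l : ℤ) : ℝ)| ≤
        ((Δ + 1) * Bd) ^ m := by
    intro σ _
    have h := AR10_prod Δ Bd hB (fun i => S (σ i) i) (fun i => h1 _ _) (fun i => h2 _ _)
      Finset.univ l
    rw [Finset.card_univ, Fintype.card_fin] at h
    rcases Int.units_eq_one_or (Equiv.Perm.sign σ) with hs | hs <;> rw [hs] <;> simpa using h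
  refine (Finset.sum_le_sum this).trans ?_
  rw [Finset.sum_const, Finset.card_univ, Fintype.card_perm, Fintype.card_fin, nsmul_eq_mul]

end Pool.Agent.Lib_helper12.NZ
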