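import Pool.Agent.Lib_helper12.NZ.Base

set_option autoImplicit false

open Finset
open scoped ENNReal

namespace Pool.Agent.Lib_helper12.NZ

section
variable {A : Type*} [CommRing A] {δ : A → A}

theorem AR3_zero (hδ : IsDer δ) : δ 0 = 0 := by
  have h := hδ.add 0 0
  rw [add_zero] at h
  exact left_eq_add.1 h

theorem AR3_one (hδ : IsDer δ) : δ 1 = 0 := by
  have h := hδ.mul 1 1
  rw [mul_one, mul_one, one_mul] at h
  exact left_eq_add.1 h

theorem AR3_pow (hδ : IsDer δ) (T : A) (l : ℕ) : T * δ (T ^ l) = (l : A) * T ^ l * δ T := by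
  induction l with
  | zero => simp [AR3_one hδ]
  | succ l ih =>
      rw [pow_succ, hδ.mul]
      have : T * (δ (T ^ l) * T + T ^ l * δ T) = (T * δ (T ^ l)) * T + T * T ^ l * δ T := by ring
      rw [this, ih]
      push_cast
      ring

theorem AR3_opA_smul (m : ℕ) (b : ℕ → A) (a : A) (w : Fin m → A) (i : Fin m) :
    opA m b (fun i => a * w i) i = a * opA m b w i := by
  unfold opA
  by_cases h : i.1 + 1 < m
  · simp only [dif_pos h]; ring
  · simp only [dif_neg h]
    rw [mul_neg, Finset.mul_sum]
    congr 1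
    exact Finset.sum_congr rfl fun j _ => by ring

theorem AR3_opA_add (m : ℕ) (b : ℕ → A) (v w : Fin m → A) (i : Fin m) :
    opA m b (v + w) i = opA m b v i + opA m b w i := by
  unfold opA
  by_cases h : i.1 + 1 < m
  · simp only [dif_pos h, Pi.add_apply]; ring
  · simp only [dif_neg h, Pi.add_apply]
    rw [← neg_add, ← Finset.sum_add_distrib]
    congr 1
    exact Finset.sum_congr rfl fun j _ => by ring

theorem AR3_opE_add (hδ : IsDer δ) (m : ℕ) (b : ℕ → A) (k : ℕ) (v w : Fin m → A) :
    opE δ m b k (v + w) = opE δ m b k v + opE δ m b k w := by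
  funext i
  rw [Pi.add_apply]
  simp only [opE]
  rw [AR3_opA_add, Pi.add_apply, hδ.add]
  ring

end

theorem AR3_opA_map {A B : Type*} [CommRing A] [CommRing B] (m : ℕ) (b : ℕ → A) (φ : A →+* B)
    (v : Fin m → A) (i : Fin m) :
    φ (opA m b v i) = opA m (fun j => φ (b j)) (fun i => φ (v i)) i := by
  unfold opA
  by_cases h : i.1 + 1 < m
  · simp only [dif_pos h, map_mul]
  · simp only [dif_neg h, map_neg, map_sum, map_mul]

theorem AR3 {A B : Type*} [CommRing A] [CommRing B] (δ : A → A) (δ' : B → B) (hδ : IsDer δ)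
    (hδ' : IsDer δ') (m : ℕ) (b : ℕ → A) (k : ℕ) :
    (∀ v w : Fin m → A, brk δ m b k (v + w) = brk δ m b k v + brk δ m b k w) ∧
    (∀ φ : A →+* B, (∀ a, φ (δ a) = δ' (φ a)) → ∀ (v : Fin m → A),
      (fun i => φ (brk δ m b k v i)) = brk δ' m (fun j => φ (b j)) k (fun i => φ (v i))) ∧
    (∀ (Y : Fin m → A), (∀ i, b m * δ (Y i) = opA m b Y i) → ∀ q : A,
      brk δ m b k (fun i => q * Y i) = fun i => (b m) ^ k * δ^[k] q * Y i) := by
  refine ⟨?_, ?_, ?_⟩
  · intro v w
    induction k with
    | zero => rfl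
    | succ k ih =>
        show opE δ m b k (brk δ m b k (v + w)) = opE δ m b k (brk δ m b k v) +
          opE δ m b k (brk δ m b k w)
        rw [ih, AR3_opE_add hδ]
  · intro φ hφ v
    induction k with
    | zero => rfl
    | succ k ih =>
        show (fun i => φ (opE δ m b k (brk δ m b k v) i)) =
          opE δ' m (fun j => φ (b j)) k (brk δ' m (fun j => φ (b j)) k (fun i => φ (v i)))
        rw [← ih]
        funext i
        simp only [opE, map_sub, map_mul, hφ, map_natCast]
        rw [AR3_opA_map]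
  · intro Y hY q
    induction k with
    | zero => funext i; simp [brk]
    | succ k ih =>
        show opE δ m b k (brk δ m b k (fun i => q * Y i)) = _
        rw [ih]
        funext i
        simp only [opE]
        rw [AR3_opA_smul, hδ.mul, hδ.mul, Function.iterate_succ_apply', ← hY i]
        have h4 := AR3_pow hδ (b m) k
        calc b m * ((δ (b m ^ k) * δ^[k] q + b m ^ k * δ (δ^[k] q)) * Y i +
              b m ^ k * δ^[k] q * δ (Y i)) - b m ^ k * δ^[k] q * (b m * δ (Y i)) -
              (k : A) * δ (b m) * (b m ^ k * δ^[k] q * Y i)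
            = (b m * δ (b m ^ k)) * δ^[k] q * Y i + b m ^ (k + 1) * δ (δ^[k] q) * Y i -
              (k : A) * δ (b m) * (b m ^ k * δ^[k] q * Y i) := by ring
          _ = _ := by rw [h4]; ring

end Pool.Agent.Lib_helper12.NZ
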