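import Pool.Agent.Lib_helper12.NZ.Base
import Pool.Agent.Lib_helper12.NZ.Fin.U_NZ_AR3_helper4

set_option autoImplicit false

open Finset
open scoped ENNReal

namespace Pool.Agent.Lib_helper12.NZ

open Polynomial in
/-- lowest coefficient of a product -/
theorem AR11_low {K : Type*} [Field K] {f g : Polynomial K} {o n : ℕ}
    (hf : ∀ x < o, f.coeff x = 0) (hg : ∀ y < n, g.coeff y = 0) :
    (f * g).coeff (o + n) = f.coeff o * g.coeff n := by
  rw [Polynomial.coeff_mul, Finset.sum_eq_single (o, n)]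
  · rintro ⟨x, y⟩ hxy hne
    rw [Finset.HasAntidiagonal.mem_antidiagonal] at hxy
    simp only at hxy ⊢
    by_cases hx : x < o
    · rw [hf x hx, zero_mul]
    · have hy : y < n := by
        by_contra hy
        apply hne
        have h1 : x = o := by omega
        have h2 : y = n := by omega
        rw [h1, h2]
      rw [hg y hy, mul_zero]
  · intro h
    exfalso
    apply h
    rw [Finset.HasAntidiagonal.mem_antidiagonal]

/-- a nonzero coefficient of a product -/
theorem AR11_mul {K : Type*} [Field K] {f g : Polynomial K} {n : ℕ} (h : (f * g).coeff n ≠ 0) :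
    ∃ x y, x + y = n ∧ f.coeff x ≠ 0 ∧ g.coeff y ≠ 0 := by
  rw [Polynomial.coeff_mul] at h
  obtain ⟨⟨x, y⟩, hxy, hne⟩ := Finset.exists_ne_zero_of_sum_ne_zero h
  rw [Finset.HasAntidiagonal.mem_antidiagonal] at hxy
  exact ⟨x, y, hxy, left_ne_zero_of_mul hne, right_ne_zero_of_mul hne⟩

theorem AR11_der {K : Type*} [Field K] {f : Polynomial K} {n : ℕ} (h : (dP K f).coeff n ≠ 0) :
    f.coeff (n + 1) ≠ 0 := by
  unfold dP at h
  rw [Polynomial.coeff_derivative] at h
  exact left_ne_zero_of_mul h

/-- weights -/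
def AR11_W {K : Type*} [Field K] {m : ℕ} (a β : ℤ) (v : Fin m → Polynomial K) (s : ℤ) : Prop :=
  ∀ (i : Fin m) (n : ℕ), (v i).coeff n ≠ 0 → s ≤ β * n + a * (i : ℕ)

def AR11_L {K : Type*} [Field K] {m : ℕ} (a β : ℤ) (i0 : ℕ) (v : Fin m → Polynomial K) (s : ℤ) :
    Prop :=
  ∃ (i : Fin m) (n : ℕ), i0 ≤ (i : ℕ) ∧ (v i).coeff n ≠ 0 ∧ β * n + a * (i : ℕ) = s

section
variable {K : Type*} [Field K] {m : ℕ} {b : ℕ → Polynomial K} {a β : ℤ} {o : ℕ → ℕ} {i0 : ℕ}

theorem AR11_main (hβ : 0 < β) (hab : β < a)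
    (ho : ∀ j ≤ m, ∀ x < o j, (b j).coeff x = 0)
    (hom : (b m).coeff (o m) ≠ 0)
    (hle : ∀ j < m, b j ≠ 0 → β * ((o m : ℤ) - o j) ≤ a * ((m : ℤ) - j))
    (hi0m : i0 < m) (hi0c : (b i0).coeff (o i0) ≠ 0)
    (hi0e : β * ((o m : ℤ) - o i0) = a * ((m : ℤ) - i0))
    (hi0l : ∀ j < i0, b j ≠ 0 → β * ((o m : ℤ) - o j) < a * ((m : ℤ) - j))
    (v : Fin m → Polynomial K) (s : ℤ) (hW : AR11_W a β v s) (hL : AR11_L a β i0 v s) (k : ℕ) :
    AR11_W a β (opE (dP K) m b k v) (s + β * o m - a) ∧
      AR11_L a β i0 (opE (dP K) m b k v) (s + β * o m - a) := by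
  have hge : ∀ j ≤ m, ∀ x, (b j).coeff x ≠ 0 → o j ≤ x := by
    intro j hj x hx
    by_contra hcon
    push Not at hcon
    exact hx (ho j hj x hcon)
  -- weights of the four terms
  have hT1 : ∀ (i : Fin m) (n : ℕ), (b m * dP K (v i)).coeff n ≠ 0 →
      s + β * o m - a < β * n + a * (i : ℕ) := by
    intro i n hn
    obtain ⟨x, y, hxy, hx, hy⟩ := AR11_mul hn
    have h1 := hge m le_rfl x hx
    have h2 := hW i (y + 1) (AR11_der hy)
    have h3 : (o m : ℤ) ≤ x := by exact_mod_cast h1
    have h4 : (n : ℤ) = x + y := by rw [← hxy]; push_cast; ring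
    push_cast at h2
    rw [h4]
    nlinarith
  have hT2 : ∀ (i : Fin m) (n : ℕ), ((k : Polynomial K) * dP K (b m) * v i).coeff n ≠ 0 →
      s + β * o m - a < β * n + a * (i : ℕ) := by
    intro i n hn
    obtain ⟨x, y, hxy, hx, hy⟩ := AR11_mul hn
    have hx' : (dP K (b m)).coeff x ≠ 0 := by
      intro h0
      apply hx
      rw [← Polynomial.C_eq_natCast, Polynomial.coeff_C_mul, h0, mul_zero]
    have h1 := hge m le_rfl _ (AR11_der hx')
    have h2 := hW i y hy
    have h3 : (o m : ℤ) ≤ x + 1 := by exact_mod_cast h1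
    have h4 : (n : ℤ) = x + y := by rw [← hxy]; push_cast; ring
    rw [h4]
    nlinarith
  have hT3 : ∀ (i i' : Fin m) (n : ℕ), (i' : ℕ) = i + 1 → (b m * v i').coeff n ≠ 0 →
      s + β * o m - a ≤ β * n + a * (i : ℕ) := by
    intro i i' n hi hn
    obtain ⟨x, y, hxy, hx, hy⟩ := AR11_mul hn
    have h1 := hge m le_rfl x hx
    have h2 := hW i' y hy
    have h3 : (o m : ℤ) ≤ x := by exact_mod_cast h1
    have h4 : (n : ℤ) = x + y := by rw [← hxy]; push_cast; ring
    rw [hi] at h2
    push_cast at h2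
    rw [h4]
    nlinarith
  have hT4 : ∀ (j : Fin m) (n : ℕ), (b j * v j).coeff n ≠ 0 →
      s + β * o m - a ≤ β * n + a * ((m : ℤ) - 1) := by
    intro j n hn
    obtain ⟨x, y, hxy, hx, hy⟩ := AR11_mul hn
    have h1 := hge j j.isLt.le x hx
    have h2 := hW j y hy
    have h3 : (o j : ℤ) ≤ x := by exact_mod_cast h1
    have h4 : (n : ℤ) = x + y := by rw [← hxy]; push_cast; ring
    have hbj : b j ≠ 0 := by
      intro h0
      rw [h0] at hx
      simp at hx
    have h5 := hle j j.isLt hbj
    rw [h4]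
    nlinarith
  have hWE : AR11_W a β (opE (dP K) m b k v) (s + β * o m - a) := by
    intro i n hn
    by_contra hcon
    push Not at hcon
    apply hn
    have e1 : (b m * dP K (v i)).coeff n = 0 := by
      by_contra h; have := hT1 i n h; linarith
    have e2 : ((k : Polynomial K) * dP K (b m) * v i).coeff n = 0 := by
      by_contra h; have := hT2 i n h; linarith
    have e3 : (opA m b v i).coeff n = 0 := by
      unfold opA
      split_ifs with hi
      · by_contra h
        have := hT3 i ⟨i.1 + 1, hi⟩ n rfl h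
        linarith
      · rw [Polynomial.coeff_neg, Polynomial.finsetSum_coeff, neg_eq_zero]
        apply Finset.sum_eq_zero
        intro j _
        by_contra h
        have := hT4 j n h
        have him : ((i : ℕ) : ℤ) = (m : ℤ) - 1 := by
          have := i.isLt
          push Not at hi
          omega
        rw [him] at hcon
        linarith
    unfold opE
    rw [Polynomial.coeff_sub, Polynomial.coeff_sub, e1, e2, e3]
    ring
  refine ⟨hWE, ?_⟩
  -- leading part
  have hvlow : ∀ (i : Fin m) (n : ℕ), β * n + a * (i : ℕ) = s → ∀ y < n, (v i).coeff y = 0 := by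
    intro i n hn y hy
    by_contra h
    have := hW i y h
    have h1 : (y : ℤ) < n := by exact_mod_cast hy
    nlinarith
  by_cases hcase : ∃ (i : Fin m) (n : ℕ), i0 < (i : ℕ) ∧ (v i).coeff n ≠ 0 ∧ β * n + a * (i : ℕ) = s
  · obtain ⟨i, n, hi, hne, hs⟩ := hcase
    have hi1 : 1 ≤ (i : ℕ) := by omega
    refine ⟨⟨(i : ℕ) - 1, by have := i.isLt; omega⟩, o m + n, by simp only; omega, ?_, ?_⟩
    · have hlt : (i : ℕ) - 1 + 1 < m := by have := i.isLt; omega
      have hwt : β * ((o m + n : ℕ) : ℤ) + a * (((i : ℕ) - 1 : ℕ) : ℤ) = s + β * o m - a := by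
        push_cast [hi1]
        linarith
      have e1 : (b m * dP K (v ⟨(i : ℕ) - 1, by have := i.isLt; omega⟩)).coeff (o m + n) = 0 := by
        by_contra h
        have := hT1 _ _ h
        simp only at this
        linarith
      have e2 : ((k : Polynomial K) * dP K (b m) * v ⟨(i : ℕ) - 1, by have := i.isLt; omega⟩).coeff
          (o m + n) = 0 := by
        by_contra h
        have := hT2 _ _ h
        simp only at this
        linarith
      have e3 : (b m * v i).coeff (o m + n) = (b m).coeff (o m) * (v i).coeff n :=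
        AR11_low (ho m le_rfl) (hvlow i n hs)
      unfold opE
      rw [Polynomial.coeff_sub, Polynomial.coeff_sub, e1, e2]
      unfold opA
      rw [dif_pos hlt]
      have hii : (⟨(i : ℕ) - 1 + 1, hlt⟩ : Fin m) = i := Fin.ext (by simp only; omega)
      rw [hii, e3, zero_sub, sub_zero, neg_ne_zero]
      exact mul_ne_zero hom hne
    · simp only
      push_cast [hi1]
      linarith
  · push Not at hcase
    obtain ⟨i, n, hi, hne, hs⟩ := hL
    have hii0 : (i : ℕ) = i0 := by
      by_contra h
      exact hcase i n (by omega) hne hs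
    have hmpos : 0 < m := by omega
    refine ⟨⟨m - 1, by omega⟩, o i0 + n, by simp only; omega, ?_, ?_⟩
    · have hwt : β * ((o i0 + n : ℕ) : ℤ) + a * ((m : ℤ) - 1) = s + β * o m - a := by
        rw [hii0] at hs
        push_cast
        nlinarith
      have hm1 : (((m - 1 : ℕ)) : ℤ) = (m : ℤ) - 1 := by push_cast [hmpos]; ring
      have e1 : (b m * dP K (v ⟨m - 1, by omega⟩)).coeff (o i0 + n) = 0 := by
        by_contra h
        have := hT1 _ _ h
        simp only at this
        rw [hm1] at this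
        linarith
      have e2 : ((k : Polynomial K) * dP K (b m) * v ⟨m - 1, by omega⟩).coeff (o i0 + n) = 0 := by
        by_contra h
        have := hT2 _ _ h
        simp only at this
        rw [hm1] at this
        linarith
      have e3 : (∑ j : Fin m, b j * v j).coeff (o i0 + n) = (b i0).coeff (o i0) * (v i).coeff n := by
        rw [Polynomial.finsetSum_coeff, Finset.sum_eq_single i]
        · rw [hii0]
          exact AR11_low (ho i0 hi0m.le) (hvlow i n hs)
        · intro j _ hji
          by_contra h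
          obtain ⟨x, y, hxy, hx, hy⟩ := AR11_mul h
          have h1 := hge j j.isLt.le x hx
          have h2 := hW j y hy
          have h3 : (o j : ℤ) ≤ x := by exact_mod_cast h1
          have h4 : ((o i0 + n : ℕ) : ℤ) = x + y := by rw [← hxy]; push_cast; ring
          have hbj : b j ≠ 0 := by
            intro h0
            rw [h0] at hx
            simp at hx
          have h5 := hle j j.isLt hbj
          rw [h4] at hwt
          -- everything is an equality
          have h6 : β * ((o m : ℤ) - o j) = a * ((m : ℤ) - (j : ℕ)) := by nlinarith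
          have h7 : β * (y : ℤ) + a * (j : ℕ) = s := by nlinarith
          have h8 : i0 ≤ (j : ℕ) := by
            by_contra hlt
            push Not at hlt
            have := hi0l j hlt hbj
            linarith
          have h9 : i0 < (j : ℕ) := by
            rcases h8.lt_or_eq with h9 | h9
            · exact h9
            · exfalso
              apply hji
              apply Fin.ext
              omega
          exact hcase j y h9 hy h7
        · intro h
          exact absurd (Finset.mem_univ i) h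
      unfold opE
      rw [Polynomial.coeff_sub, Polynomial.coeff_sub, e1, e2]
      unfold opA
      rw [dif_neg (by simp only; omega), Polynomial.coeff_neg, e3, zero_sub, sub_zero, neg_neg]
      exact mul_ne_zero hi0c hne
    · rw [hii0] at hs
      simp only
      push_cast [hmpos]
      nlinarith

theorem AR11_brk (hβ : 0 < β) (hab : β < a)
    (ho : ∀ j ≤ m, ∀ x < o j, (b j).coeff x = 0)
    (hom : (b m).coeff (o m) ≠ 0)
    (hle : ∀ j < m, b j ≠ 0 → β * ((o m : ℤ) - o j) ≤ a * ((m : ℤ) - j))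
    (hi0m : i0 < m) (hi0c : (b i0).coeff (o i0) ≠ 0)
    (hi0e : β * ((o m : ℤ) - o i0) = a * ((m : ℤ) - i0))
    (hi0l : ∀ j < i0, b j ≠ 0 → β * ((o m : ℤ) - o j) < a * ((m : ℤ) - j)) (hm : 1 ≤ m) :
    ∀ k : ℕ, ∃ s : ℤ, AR11_W a β (brk (dP K) m b k (Pi.single (⟨m - 1, by omega⟩ : Fin m) 1)) s ∧
      AR11_L a β i0 (brk (dP K) m b k (Pi.single (⟨m - 1, by omega⟩ : Fin m) 1)) s
  | 0 => by
      refine ⟨a * ((m - 1 : ℕ) : ℤ), ?_, ?_⟩
      · intro i n hn
        unfold brk at hn
        by_cases hi : i = ⟨m - 1, by omega⟩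
        · subst hi
          simp only
          have : (0 : ℤ) ≤ β * n := by positivity
          linarith
        · rw [Pi.single_eq_of_ne hi] at hn
          simp at hn
      · refine ⟨⟨m - 1, by omega⟩, 0, by simp only; omega, ?_, ?_⟩
        · unfold brk
          rw [Pi.single_eq_same]
          simp
        · simp
  | (k + 1) => by
      obtain ⟨s, h1, h2⟩ := AR11_brk hβ hab ho hom hle hi0m hi0c hi0e hi0l hm k
      obtain ⟨h3, h4⟩ := AR11_main hβ hab ho hom hle hi0m hi0c hi0e hi0l _ s h1 h2 k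
      exact ⟨_, h3, h4⟩

end

/-- the case of an irregular point at the origin -/
theorem AR11_zero {K : Type*} [Field K] (m : ℕ) (hm : 1 ≤ m) (b : ℕ → Polynomial K)
    (h : ∃ i < m, Irr m i (b m) (b i) 0) (k : ℕ) :
    ∃ j, brk (dP K) m b k (Pi.single (⟨m - 1, by omega⟩ : Fin m) 1) j ≠ 0 := by
  classical
  obtain ⟨i, him, hbm, hbi, hirr⟩ := h
  set o : ℕ → ℕ := fun j => (b j).natTrailingDegree with ho
  rw [Polynomial.rootMultiplicity_eq_natTrailingDegree', Polynomial.rootMultiplicity_eq_natTrailingDegree'] at hirr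
  -- the indices
  set S : Finset ℕ := (Finset.range m).filter (fun j => b j ≠ 0) with hS
  have hiS : i ∈ S := by
    rw [hS, Finset.mem_filter, Finset.mem_range]
    exact ⟨him, hbi⟩
  set sl : ℕ → ℚ := fun j => ((o m : ℚ) - o j) / ((m : ℚ) - j) with hsl
  obtain ⟨j0, hj0S, hj0⟩ := Finset.exists_max_image S sl ⟨i, hiS⟩
  have hpos : ∀ j ∈ S, (0 : ℚ) < (m : ℚ) - j := by
    intro j hj
    rw [hS, Finset.mem_filter, Finset.mem_range] at hj
    have : (j : ℚ) < m := by exact_mod_cast hj.1
    linarith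
  have hj0m : j0 < m := by
    rw [hS, Finset.mem_filter, Finset.mem_range] at hj0S
    exact hj0S.1
  set β : ℤ := (m : ℤ) - j0 with hβ
  set a : ℤ := (o m : ℤ) - o j0 with ha
  have hβpos : 0 < β := by rw [hβ]; omega
  have hcross : ∀ j ∈ S, β * ((o m : ℤ) - o j) ≤ a * ((m : ℤ) - j) := by
    intro j hj
    have h1 := hj0 j hj
    simp only [hsl] at h1
    rw [div_le_div_iff₀ (hpos j hj) (hpos j0 hj0S)] at h1
    have h2 : ((β * ((o m : ℤ) - o j) : ℤ) : ℚ) ≤ ((a * ((m : ℤ) - j) : ℤ) : ℚ) := by
      rw [hβ, ha]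
      push_cast
      linarith
    exact_mod_cast h2
  have hab : β < a := by
    have h1 := hcross i hiS
    have h2 : ((m : ℤ) - i) < (o m : ℤ) - o i := by
      have : (b i).natTrailingDegree + (m - i) < (b m).natTrailingDegree := hirr
      simp only [ho]
      omega
    have h3 : (0 : ℤ) < (m : ℤ) - i := by omega
    have h4 : β * ((m : ℤ) - i) < a * ((m : ℤ) - i) := by nlinarith
    exact lt_of_mul_lt_mul_right h4 h3.le
  -- the least index with equality
  set T : Finset ℕ := S.filter (fun j => β * ((o m : ℤ) - o j) = a * ((m : ℤ) - j)) with hT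
  have hTne : T.Nonempty := ⟨j0, by
    rw [hT, Finset.mem_filter]
    exact ⟨hj0S, by rw [hβ, ha]; ring⟩⟩
  set i0 : ℕ := T.min' hTne with hi0
  have hi0T : i0 ∈ T := Finset.min'_mem _ _
  rw [hT, Finset.mem_filter] at hi0T
  obtain ⟨hi0S, hi0e⟩ := hi0T
  have hi0S' := hi0S
  rw [hS, Finset.mem_filter, Finset.mem_range] at hi0S'
  have hlow : ∀ j ≤ m, ∀ x < o j, (b j).coeff x = 0 := by
    intro j _ x hx
    exact Polynomial.coeff_eq_zero_of_lt_natTrailingDegree hx
  have hle : ∀ j < m, b j ≠ 0 → β * ((o m : ℤ) - o j) ≤ a * ((m : ℤ) - j) := by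
    intro j hj hbj
    exact hcross j (by rw [hS, Finset.mem_filter, Finset.mem_range]; exact ⟨hj, hbj⟩)
  obtain ⟨s, _, j, n, _, hne, _⟩ := AR11_brk hβpos hab hlow
    (by simpa [ho] using hbm) hle hi0S'.1 (by simpa [ho] using hi0S'.2) hi0e (by
      intro j hj hbj
      rcases (hle j (hj.trans hi0S'.1) hbj).lt_or_eq with h | h
      · exact h
      · exfalso
        have hjT : j ∈ T := by
          rw [hT, Finset.mem_filter, hS, Finset.mem_filter, Finset.mem_range]
          exact ⟨⟨hj.trans hi0S'.1, hbj⟩, h⟩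
        have := Finset.min'_le T j hjT
        omega) hm k
  refine ⟨j, ?_⟩
  intro h0
  rw [h0] at hne
  simp at hne

theorem AR11_isDer (K : Type*) [Field K] : IsDer (dP K) where
  add := fun a b => by unfold dP; exact Polynomial.derivative_add
  mul := fun a b => by unfold dP; exact Polynomial.derivative_mul

theorem AR11 {K : Type*} [Field K] (m : ℕ) (hm : 1 ≤ m) (b : ℕ → Polynomial K) (ρ : K)
    (h : ∃ i < m, Irr m i (b m) (b i) ρ) (k : ℕ) :
    ∃ j, brk (dP K) m b k (Pi.single (⟨m - 1, by omega⟩ : Fin m) 1) j ≠ 0 := by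
  set φ : Polynomial K →+* Polynomial K := Polynomial.compRingHom (Polynomial.X + Polynomial.C ρ)
    with hφ
  have hφa : ∀ p : Polynomial K, φ p = p.comp (Polynomial.X + Polynomial.C ρ) := fun p => rfl
  have hcomp0 : ∀ p : Polynomial K, p ≠ 0 → φ p ≠ 0 := by
    intro p hp h0
    rw [hφa] at h0
    apply hp
    have h1 := congrArg (fun q => Polynomial.comp q (Polynomial.X - Polynomial.C ρ)) h0
    simp only [Polynomial.zero_comp, Polynomial.comp_assoc] at h1
    simpa using h1
  obtain ⟨i, him, hbm, hbi, hirr⟩ := h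
  have h0 : ∃ i < m, Irr m i (φ (b m)) (φ (b i)) 0 := by
    refine ⟨i, him, hcomp0 _ hbm, hcomp0 _ hbi, ?_⟩
    rw [hφa, hφa, ← Polynomial.rootMultiplicity_eq_rootMultiplicity,
      ← Polynomial.rootMultiplicity_eq_rootMultiplicity]
    exact hirr
  obtain ⟨j, hj⟩ := AR11_zero m hm (fun j => φ (b j)) h0 k
  refine ⟨j, ?_⟩
  intro hz
  apply hj
  have h3 := (AR3 (dP K) (dP K) (AR11_isDer K) (AR11_isDer K) m b k).2.1 φ (by
    intro p
    rw [hφa, hφa]
    unfold dP
    rw [Polynomial.derivative_comp]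
    simp) (Pi.single (⟨m - 1, by omega⟩ : Fin m) 1)
  have h4 := congrFun h3 j
  rw [hz, map_zero] at h4
  have h5 : (fun i => φ ((Pi.single (⟨m - 1, by omega⟩ : Fin m) 1 : Fin m → Polynomial K) i)) =
      (Pi.single (⟨m - 1, by omega⟩ : Fin m) 1 : Fin m → Polynomial K) := by
    funext i
    by_cases hi : i = ⟨m - 1, by omega⟩
    · subst hi
      rw [Pi.single_eq_same, map_one]
    · rw [Pi.single_eq_of_ne hi, map_zero]
  rw [h5] at h4
  exact h4.symm

example : type_of% @AR11.{0} = type_of% @AR11.{0} := rfl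

end Pool.Agent.Lib_helper12.NZ
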