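import Pool.Agent.Lib_helper12.NZ.Base

/-!
# NZ, block AR12: reduction of irregular points modulo large primes
-/

set_option autoImplicit false

open Finset
open scoped ENNReal

namespace Pool.Agent.Lib_helper12.NZ

section arithmetic
open Polynomial

/-- clearing denominators -/
theorem AR12_clear (P : Polynomial ℚ) : ∃ (c : ℤ) (Q : Polynomial ℤ), c ≠ 0 ∧
    Q.map (Int.castRingHom ℚ) = Polynomial.C (c : ℚ) * P := by
  obtain ⟨b, hb1, hb⟩ := IsLocalization.integerNormalization_spec (nonZeroDivisors ℤ) P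
  refine ⟨(b : ℤ), IsLocalization.integerNormalization (nonZeroDivisors ℤ) P,
    nonZeroDivisors.ne_zero hb1, ?_⟩
  have h1 : algebraMap ℤ ℚ = Int.castRingHom ℚ := rfl
  rw [h1] at hb
  rw [hb]
  ext n
  simp

theorem AR12_inj {P Q : Polynomial ℤ} (h : P.map (Int.castRingHom ℚ) = Q.map (Int.castRingHom ℚ)) :
    P = Q := Polynomial.map_injective _ Int.cast_injective h

/-- a Bezout identity over `ℤ` -/
theorem AR12_bez {P Q : Polynomial ℤ} (h : IsCoprime (P.map (Int.castRingHom ℚ))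
    (Q.map (Int.castRingHom ℚ))) : ∃ (c : ℤ) (U V : Polynomial ℤ), c ≠ 0 ∧
      U * P + V * Q = Polynomial.C c := by
  obtain ⟨u, v, huv⟩ := h
  obtain ⟨a, U, ha, hU⟩ := AR12_clear u
  obtain ⟨b, V, hb, hV⟩ := AR12_clear v
  refine ⟨a * b, Polynomial.C b * U, Polynomial.C a * V, mul_ne_zero ha hb, AR12_inj ?_⟩
  simp only [Polynomial.map_add, Polynomial.map_mul, hU, hV, Polynomial.map_C,
    eq_intCast (Int.castRingHom ℚ), Int.cast_mul, Polynomial.C_mul]
  linear_combination (Polynomial.C (a : ℚ) * Polynomial.C (b : ℚ)) * huv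

/-- factorisation over `ℤ` -/
theorem AR12_fac {μ : Polynomial ℚ} (hμ : Irreducible μ) {M : Polynomial ℤ} {cM : ℤ} (hcM : cM ≠ 0)
    (hM : M.map (Int.castRingHom ℚ) = Polynomial.C (cM : ℚ) * μ) {b : Polynomial ℤ} (hb : b ≠ 0) :
    ∃ (r : ℕ) (c : ℤ) (F : Polynomial ℤ), c ≠ 0 ∧ Polynomial.C c * b = M ^ r * F ∧
      IsCoprime (M.map (Int.castRingHom ℚ)) (F.map (Int.castRingHom ℚ)) := by
  have hb' : b.map (Int.castRingHom ℚ) ≠ 0 := fun h0 =>
    hb (AR12_inj (by rw [h0, Polynomial.map_zero]))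
  obtain ⟨r, f, hf, hbf⟩ := WfDvdMonoid.max_power_factor hb' hμ
  obtain ⟨a, F, ha, hF⟩ := AR12_clear f
  have hcM' : (cM : ℚ) ≠ 0 := by exact_mod_cast hcM
  have ha' : (a : ℚ) ≠ 0 := by exact_mod_cast ha
  refine ⟨r, cM ^ r * a, F, mul_ne_zero (pow_ne_zero r hcM) ha, AR12_inj ?_, ?_⟩
  · rw [Polynomial.map_mul, Polynomial.map_mul, Polynomial.map_pow, hM, hF, hbf, Polynomial.map_C]
    simp only [eq_intCast, Int.cast_mul, Int.cast_pow, Polynomial.C_mul, Polynomial.C_pow]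
    ring
  · rw [hM, hF]
    have h1 : IsUnit (Polynomial.C (cM : ℚ)) := Polynomial.isUnit_C.2 (isUnit_iff_ne_zero.2 hcM')
    have h2 : IsUnit (Polynomial.C (a : ℚ)) := Polynomial.isUnit_C.2 (isUnit_iff_ne_zero.2 ha')
    rw [isCoprime_mul_unit_left_left h1, isCoprime_mul_unit_left_right h2]
    exact (hμ.coprime_iff_not_dvd).2 hf

/-- evaluation of a Bezout identity -/
theorem AR12_ne {K : Type*} [Field K] (φ : ℤ →+* K) {P Q U V : Polynomial ℤ} {c : ℤ}
    (h : U * P + V * Q = Polynomial.C c) (hc : φ c ≠ 0) {x : K} (hP : (P.map φ).eval x = 0) :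
    (Q.map φ).eval x ≠ 0 := by
  intro hQ
  have h1 := congrArg (fun R : Polynomial ℤ => (R.map φ).eval x) h
  simp only [Polynomial.map_add, Polynomial.map_mul, Polynomial.eval_add, Polynomial.eval_mul, hP,
    hQ, mul_zero, add_zero, Polynomial.map_C, Polynomial.eval_C] at h1
  exact hc h1.symm

/-- the multiplicity -/
theorem AR12_mult {K : Type*} [Field K] (φ : ℤ →+* K) {M F b : Polynomial ℤ} {r : ℕ} {c : ℤ}
    (h : Polynomial.C c * b = M ^ r * F) (hc : φ c ≠ 0) {x : K} (hM : (M.map φ).eval x = 0)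
    (hM' : ((Polynomial.derivative M).map φ).eval x ≠ 0) (hF : (F.map φ).eval x ≠ 0) :
    b.map φ ≠ 0 ∧ Polynomial.rootMultiplicity x (b.map φ) = r := by
  have hM0 : M.map φ ≠ 0 := by
    intro h0
    rw [← Polynomial.derivative_map, h0] at hM'
    simp at hM'
  have hF0 : F.map φ ≠ 0 := by
    intro h0
    rw [h0] at hF
    simp at hF
  have h1 : Polynomial.C (φ c) * b.map φ = (M.map φ) ^ r * F.map φ := by
    have := congrArg (fun R : Polynomial ℤ => R.map φ) h
    simpa using this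
  have h2 : (M.map φ) ^ r * F.map φ ≠ 0 := mul_ne_zero (pow_ne_zero r hM0) hF0
  have hb0 : b.map φ ≠ 0 := by
    intro h0
    rw [h0, mul_zero] at h1
    exact h2 h1.symm
  refine ⟨hb0, ?_⟩
  have h3 : Polynomial.C (φ c) * b.map φ ≠ 0 := by rw [h1]; exact h2
  have h4 := Polynomial.rootMultiplicity_mul (x := x) h3
  rw [Polynomial.rootMultiplicity_C, zero_add] at h4
  have h5 := Polynomial.rootMultiplicity_mul (x := x) h2
  have h6 : Polynomial.rootMultiplicity x (F.map φ) = 0 := Polynomial.rootMultiplicity_eq_zero hF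
  have h7 : Polynomial.rootMultiplicity x (M.map φ) = 1 := by
    have ha : 0 < Polynomial.rootMultiplicity x (M.map φ) :=
      (Polynomial.rootMultiplicity_pos hM0).2 hM
    have hb : ¬ 1 < Polynomial.rootMultiplicity x (M.map φ) := by
      rw [Polynomial.one_lt_rootMultiplicity_iff_isRoot hM0]
      rintro ⟨_, h9⟩
      rw [Polynomial.derivative_map] at h9
      exact hM' h9
    omega
  have h8 : Polynomial.rootMultiplicity x ((M.map φ) ^ r) = r := by
    have : ∀ k : ℕ, Polynomial.rootMultiplicity x ((M.map φ) ^ k) = k := by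
      intro k
      induction k with
      | zero => rw [pow_zero, ← Polynomial.C_1, Polynomial.rootMultiplicity_C]
      | succ k ih =>
        rw [pow_succ, Polynomial.rootMultiplicity_mul
          (mul_ne_zero (pow_ne_zero k hM0) hM0), ih, h7]
    exact this r
  rw [← h1, h4, h6, h8, add_zero] at h5
  exact h5

/-- AR12: reduction of irregular points modulo large primes -/
theorem AR12 (m i : ℕ) (bm bi : Polynomial ℤ) (ρ : ℝ)
    (h : Irr m i (bm.map (Int.castRingHom ℝ)) (bi.map (Int.castRingHom ℝ)) ρ) :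
    ∃ P0 : ℕ, ∀ (p : ℕ) [Fact p.Prime], P0 ≤ p →
      ∃ ρ' : AlgebraicClosure (ZMod p), Irr m i (bm.map (Int.castRingHom _))
        (bi.map (Int.castRingHom _)) ρ' := by
  obtain ⟨h1, h2, h3⟩ := h
  have hbm : bm ≠ 0 := fun h0 => h1 (by rw [h0, Polynomial.map_zero])
  have hbi : bi ≠ 0 := fun h0 => h2 (by rw [h0, Polynomial.map_zero])
  -- `ρ` is algebraic
  have hroot : (bm.map (Int.castRingHom ℝ)).eval ρ = 0 :=
    (Polynomial.rootMultiplicity_pos h1).1 (by omega)
  have halg : IsAlgebraic ℚ ρ := by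
    refine ⟨bm.map (Int.castRingHom ℚ), fun h0 => hbm (AR12_inj (by rw [h0, Polynomial.map_zero])),
      ?_⟩
    rw [Polynomial.aeval_def, Polynomial.eval₂_eq_eval_map, Polynomial.map_map]
    have : (algebraMap ℚ ℝ).comp (Int.castRingHom ℚ) = Int.castRingHom ℝ := RingHom.ext_int _ _
    rw [this]
    exact hroot
  have hint : IsIntegral ℚ ρ := halg.isIntegral
  set μ : Polynomial ℚ := minpoly ℚ ρ with hμdef
  have hμ : Irreducible μ := minpoly.irreducible hint
  obtain ⟨cM, M, hcM, hM⟩ := AR12_clear μ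
  have hcM' : (cM : ℚ) ≠ 0 := by exact_mod_cast hcM
  have hMQ0 : M.map (Int.castRingHom ℚ) ≠ 0 := by
    rw [hM]
    exact mul_ne_zero (by simpa using hcM') hμ.ne_zero
  have hM0 : M ≠ 0 := fun h0 => hMQ0 (by rw [h0, Polynomial.map_zero])
  obtain ⟨r, c1, F, hc1, hF, hcopF⟩ := AR12_fac hμ hcM hM hbm
  obtain ⟨s, c2, G, hc2, hG, hcopG⟩ := AR12_fac hμ hcM hM hbi
  have hcopD : IsCoprime (M.map (Int.castRingHom ℚ))
      ((Polynomial.derivative M).map (Int.castRingHom ℚ)) := by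
    rw [← Polynomial.derivative_map, hM, Polynomial.derivative_C_mul]
    have hu : IsUnit (Polynomial.C (cM : ℚ)) := Polynomial.isUnit_C.2 (isUnit_iff_ne_zero.2 hcM')
    rw [isCoprime_mul_unit_left_left hu, isCoprime_mul_unit_left_right hu]
    exact hμ.separable
  obtain ⟨c3, U3, V3, hc3, h30⟩ := AR12_bez hcopF
  obtain ⟨c4, U4, V4, hc4, h40⟩ := AR12_bez hcopG
  obtain ⟨c5, U5, V5, hc5, h50⟩ := AR12_bez hcopD
  have hdeg : 0 < M.natDegree := by
    have e1 : (M.map (Int.castRingHom ℚ)).natDegree = M.natDegree :=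
      Polynomial.natDegree_map_eq_of_injective Int.cast_injective M
    rw [← e1, hM, Polynomial.natDegree_C_mul hcM']
    exact hμ.natDegree_pos
  -- a general statement for both fields
  have key : ∀ {K : Type} [Field K] (φ : ℤ →+* K), φ c1 ≠ 0 → φ c2 ≠ 0 → φ c3 ≠ 0 → φ c4 ≠ 0 →
      φ c5 ≠ 0 → ∀ x : K, (M.map φ).eval x = 0 →
      (bm.map φ ≠ 0 ∧ Polynomial.rootMultiplicity x (bm.map φ) = r) ∧
      (bi.map φ ≠ 0 ∧ Polynomial.rootMultiplicity x (bi.map φ) = s) := by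
    intro K _ φ k1 k2 k3 k4 k5 x hx
    have hD := AR12_ne φ h50 k5 hx
    exact ⟨AR12_mult φ hF k1 hx hD (AR12_ne φ h30 k3 hx),
      AR12_mult φ hG k2 hx hD (AR12_ne φ h40 k4 hx)⟩
  -- the real place
  have hMR : (M.map (Int.castRingHom ℝ)).eval ρ = 0 := by
    have e1 : (M.map (Int.castRingHom ℚ)).map (algebraMap ℚ ℝ) = M.map (Int.castRingHom ℝ) := by
      rw [Polynomial.map_map]
      congr 1
    rw [← e1, hM, Polynomial.map_mul, Polynomial.eval_mul]
    have e2 : (μ.map (algebraMap ℚ ℝ)).eval ρ = 0 := by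
      rw [Polynomial.eval_map_algebraMap]
      exact minpoly.aeval ℚ ρ
    rw [e2, mul_zero]
  have hinj : ∀ c : ℤ, c ≠ 0 → (Int.castRingHom ℝ) c ≠ 0 := fun c hc => by
    rw [eq_intCast]
    exact_mod_cast hc
  obtain ⟨⟨_, hr⟩, ⟨_, hs⟩⟩ := key (Int.castRingHom ℝ) (hinj c1 hc1) (hinj c2 hc2) (hinj c3 hc3)
    (hinj c4 hc4) (hinj c5 hc5) ρ hMR
  rw [hr, hs] at h3
  -- the prime places
  set c : ℤ := c1 * c2 * c3 * c4 * c5 * M.leadingCoeff with hc
  have hc0 : c ≠ 0 := by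
    rw [hc]
    refine mul_ne_zero (mul_ne_zero (mul_ne_zero (mul_ne_zero (mul_ne_zero ?_ ?_) ?_) ?_) ?_) ?_
    all_goals first | assumption | exact Polynomial.leadingCoeff_ne_zero.2 hM0
  refine ⟨c.natAbs + 1, fun p hp hpc => ?_⟩
  have hpp : p.Prime := Fact.out
  have hφ : (Int.castRingHom (AlgebraicClosure (ZMod p))) c ≠ 0 := by
    rw [eq_intCast]
    intro h0
    have h4 : (p : ℤ) ∣ c := (CharP.intCast_eq_zero_iff (AlgebraicClosure (ZMod p)) p c).1 h0
    have h5 : p ∣ c.natAbs := Int.natCast_dvd.1 h4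
    have h6 := Nat.le_of_dvd (Int.natAbs_pos.2 hc0) h5
    omega
  rw [hc, map_mul, map_mul, map_mul, map_mul, map_mul] at hφ
  have k6 := right_ne_zero_of_mul hφ
  have k5 := right_ne_zero_of_mul (left_ne_zero_of_mul hφ)
  have k4 := right_ne_zero_of_mul (left_ne_zero_of_mul (left_ne_zero_of_mul hφ))
  have k3 := right_ne_zero_of_mul (left_ne_zero_of_mul (left_ne_zero_of_mul
    (left_ne_zero_of_mul hφ)))
  have k2 := right_ne_zero_of_mul (left_ne_zero_of_mul (left_ne_zero_of_mul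
    (left_ne_zero_of_mul (left_ne_zero_of_mul hφ))))
  have k1 := left_ne_zero_of_mul (left_ne_zero_of_mul (left_ne_zero_of_mul
    (left_ne_zero_of_mul (left_ne_zero_of_mul hφ))))
  have hdegp : (M.map (Int.castRingHom (AlgebraicClosure (ZMod p)))).degree ≠ 0 := by
    rw [Polynomial.degree_map_eq_of_leadingCoeff_ne_zero _ k6]
    have := Polynomial.natDegree_pos_iff_degree_pos.1 hdeg
    exact this.ne'
  obtain ⟨x, hx⟩ := IsAlgClosed.exists_root _ hdegp
  obtain ⟨⟨hb1, hr'⟩, ⟨hb2, hs'⟩⟩ := key _ k1 k2 k3 k4 k5 x hx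
  refine ⟨x, hb1, hb2, ?_⟩
  rw [hr', hs']
  exact h3

end arithmetic

end Pool.Agent.Lib_helper12.NZ
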