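import Pool.Agent.Lib_helper12.NZ.Base
import Pool.Agent.Lib_helper12.NZ.Fin.U_NZ_AR11_helper30
import Pool.Agent.Lib_helper12.NZ.Fin.U_NZ_AR12_helper96
import Pool.Agent.Lib_helper12.NZ.Fin.U_NZ_AR3_helper4

set_option autoImplicit false

open Finset
open scoped ENNReal

namespace Pool.Agent.Lib_helper12.NZ

theorem AR13_isDer (R : Type*) [CommRing R] : IsDer (dP R) where
  add := fun a b => by unfold dP; exact Polynomial.derivative_add
  mul := fun a b => by unfold dP; exact Polynomial.derivative_mul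

theorem AR13 (m : ℕ) (hm : 1 ≤ m) (b : ℕ → Polynomial ℤ) (ρ : ℝ)
    (h : ∃ i < m, Irr m i ((b m).map (Int.castRingHom ℝ)) ((b i).map (Int.castRingHom ℝ)) ρ) :
    ∃ (P0 : ℕ) (v : Fin m → Polynomial ℤ), ∀ p : ℕ, p.Prime → P0 ≤ p → ∀ k, ∃ i,
      ¬ ((p : ℤ) : Polynomial ℤ) ∣ brk (dP ℤ) m b k v i := by
  obtain ⟨i, him, hirr⟩ := h
  obtain ⟨P0, hP0⟩ := AR12 m i (b m) (b i) ρ hirr
  refine ⟨P0, Pi.single (⟨m - 1, by omega⟩ : Fin m) 1, ?_⟩
  intro p hp hpP k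
  have hfact : Fact p.Prime := ⟨hp⟩
  obtain ⟨ρ', hρ'⟩ := hP0 p hpP
  set φ : Polynomial ℤ →+* Polynomial (AlgebraicClosure (ZMod p)) :=
    Polynomial.mapRingHom (Int.castRingHom (AlgebraicClosure (ZMod p))) with hφ
  obtain ⟨j, hj⟩ := AR11 m hm (fun j => φ (b j)) ρ' ⟨i, him, hρ'⟩ k
  refine ⟨j, ?_⟩
  intro hdvd
  apply hj
  have h3 := (AR3 (dP ℤ) (dP (AlgebraicClosure (ZMod p))) (AR13_isDer ℤ) (AR13_isDer _) m b k).2.1
    φ (by
      intro q
      unfold dP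
      rw [hφ, Polynomial.coe_mapRingHom, Polynomial.derivative_map])
    (Pi.single (⟨m - 1, by omega⟩ : Fin m) 1)
  have h4 := congrFun h3 j
  obtain ⟨c, hc⟩ := hdvd
  have hp0 : φ ((p : ℤ) : Polynomial ℤ) = 0 := by
    rw [map_intCast]
    have : ((p : ℕ) : AlgebraicClosure (ZMod p)) = 0 := CharP.cast_eq_zero _ p
    rw [Int.cast_natCast, ← Polynomial.C_eq_natCast, this, Polynomial.C_0]
  rw [hc, map_mul, hp0, zero_mul] at h4
  have h5 : (fun i => φ ((Pi.single (⟨m - 1, by omega⟩ : Fin m) 1 : Fin m → Polynomial ℤ) i)) =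
      (Pi.single (⟨m - 1, by omega⟩ : Fin m) 1 : Fin m → Polynomial (AlgebraicClosure (ZMod p))) := by
    funext i
    by_cases hi : i = ⟨m - 1, by omega⟩
    · subst hi
      rw [Pi.single_eq_same, Pi.single_eq_same, map_one]
    · rw [Pi.single_eq_of_ne hi, Pi.single_eq_of_ne hi, map_zero]
  rw [h5] at h4
  exact h4.symm

example : type_of% @AR13 = type_of% @AR13 := rfl

end Pool.Agent.Lib_helper12.NZ
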