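import Pool.Agent.Lib_helper12.NZ.Base

set_option autoImplicit false

open Finset

namespace Pool.Agent.Lib_helper12.NZ

/-- bounded degree and height -/
def AR5_P (p : Polynomial ℤ) (D : ℕ) (B : ℝ) : Prop :=
  p.natDegree ≤ D ∧ ∀ l, |(p.coeff l : ℝ)| ≤ B

theorem AR5_P.mono {p : Polynomial ℤ} {D D' : ℕ} {B B' : ℝ} (h : AR5_P p D B) (hD : D ≤ D')
    (hB : B ≤ B') : AR5_P p D' B' := ⟨h.1.trans hD, fun l => (h.2 l).trans hB⟩

theorem AR5_P.neg {p : Polynomial ℤ} {D : ℕ} {B : ℝ} (h : AR5_P p D B) : AR5_P (-p) D B := by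
  refine ⟨by rw [Polynomial.natDegree_neg]; exact h.1, fun l => ?_⟩
  rw [Polynomial.coeff_neg, Int.cast_neg, abs_neg]
  exact h.2 l

theorem AR5_P.sub {p q : Polynomial ℤ} {D : ℕ} {B B' : ℝ} (h : AR5_P p D B) (h' : AR5_P q D B') :
    AR5_P (p - q) D (B + B') := by
  refine ⟨(Polynomial.natDegree_sub_le _ _).trans (max_le h.1 h'.1), fun l => ?_⟩
  rw [Polynomial.coeff_sub, Int.cast_sub]
  exact (abs_sub _ _).trans (add_le_add (h.2 l) (h'.2 l))

theorem AR5_P.sum {m : ℕ} (p : Fin m → Polynomial ℤ) {D : ℕ} {B : ℝ} (h : ∀ i, AR5_P (p i) D B) :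
    AR5_P (∑ i, p i) D (m * B) := by
  refine ⟨Polynomial.natDegree_sum_le_of_forall_le _ _ fun i _ => (h i).1, fun l => ?_⟩
  rw [Polynomial.finsetSum_coeff, Int.cast_sum]
  refine (abs_sum_le_sum_abs _ _).trans ?_
  calc ∑ i, |((p i).coeff l : ℝ)| ≤ ∑ _i : Fin m, B := sum_le_sum fun i _ => (h i).2 l
    _ = m * B := by simp

theorem AR5_P.deriv {p : Polynomial ℤ} {D : ℕ} {B : ℝ} (h : AR5_P p D B) (hB : 0 ≤ B) :
    AR5_P (Polynomial.derivative p) D (D * B) := by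
  refine ⟨(Polynomial.natDegree_derivative_le p).trans ((Nat.sub_le _ _).trans h.1), fun l => ?_⟩
  rw [Polynomial.coeff_derivative]
  by_cases hl : l + 1 ≤ D
  · push_cast
    rw [abs_mul]
    have h1 := h.2 (l + 1)
    have h2 : |(l : ℝ) + 1| ≤ D := by
      rw [abs_of_nonneg (by positivity)]
      exact_mod_cast hl
    calc |(p.coeff (l + 1) : ℝ)| * |(l : ℝ) + 1| ≤ B * D := by gcongr
      _ = D * B := by ring
  · have h0 : p.coeff (l + 1) = 0 := Polynomial.coeff_eq_zero_of_natDegree_lt (by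
      have := h.1
      omega)
    rw [h0]
    simp only [zero_mul, Int.cast_zero, abs_zero]
    positivity

theorem AR5_P.mul {p q : Polynomial ℤ} {a D : ℕ} {h B : ℝ} (hp : AR5_P p a h) (hq : AR5_P q D B)
    (hh : 0 ≤ h) (hB : 0 ≤ B) : AR5_P (p * q) (a + D) ((a + 1) * h * B) := by
  refine ⟨Polynomial.natDegree_mul_le.trans (add_le_add hp.1 hq.1), fun l => ?_⟩
  rw [Polynomial.coeff_mul, Int.cast_sum]
  refine (abs_sum_le_sum_abs _ _).trans ?_
  rw [Finset.Nat.sum_antidiagonal_eq_sum_range_succ_mk]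
  calc ∑ k ∈ range l.succ, |((p.coeff k * q.coeff (l - k) : ℤ) : ℝ)|
      ≤ ∑ k ∈ range l.succ, if k ≤ a then h * B else 0 := by
        refine sum_le_sum fun k _ => ?_
        split_ifs with hk
        · rw [Int.cast_mul, abs_mul]
          have h1 := hp.2 k
          have h2 := hq.2 (l - k)
          gcongr
        · have h0 : p.coeff k = 0 := Polynomial.coeff_eq_zero_of_natDegree_lt (by
            have := hp.1
            omega)
          rw [h0]
          simp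
    _ = ∑ k ∈ (range l.succ).filter (· ≤ a), h * B := by rw [sum_filter]
    _ ≤ ∑ k ∈ range (a + 1), h * B := by
        refine sum_le_sum_of_subset_of_nonneg ?_ fun _ _ _ => mul_nonneg hh hB
        intro k hk
        rw [mem_filter] at hk
        rw [mem_range]
        omega
    _ = (a + 1) * h * B := by
        rw [sum_const, card_range, nsmul_eq_mul]
        push_cast
        ring

theorem AR5_nat (k : ℕ) : AR5_P (k : Polynomial ℤ) 0 k := by
  refine ⟨by rw [Polynomial.natDegree_natCast], fun l => ?_⟩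
  rw [← Polynomial.C_eq_natCast, Polynomial.coeff_C]
  split_ifs
  · simp
  · simp

/-- one step -/
theorem AR5_step (m : ℕ) (b : ℕ → Polynomial ℤ) {τ : ℕ} {h0 : ℝ} (hh : 0 ≤ h0)
    (hb : ∀ j ≤ m, AR5_P (b j) τ h0) (k D : ℕ) {B : ℝ} (hB : 0 ≤ B) (v : Fin m → Polynomial ℤ)
    (hv : ∀ i, AR5_P (v i) D B) (i : Fin m) :
    AR5_P (opE (dP ℤ) m b k v i) (τ + D) ((τ + 1) * h0 * B * (D + m + k * τ)) := by
  have hm : 1 ≤ m := by
    have := i.2
    omega
  have hm' : (1 : ℝ) ≤ m := by exact_mod_cast hm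
  have hτ : (0 : ℝ) ≤ τ := Nat.cast_nonneg τ
  have hD : (0 : ℝ) ≤ D := Nat.cast_nonneg D
  have hk : (0 : ℝ) ≤ k := Nat.cast_nonneg k
  have h1 : AR5_P (b m * (dP ℤ) (v i)) (τ + D) ((τ + 1) * h0 * (D * B)) :=
    (hb m le_rfl).mul ((hv i).deriv hB) hh (by positivity)
  have h2 : AR5_P (opA m b v i) (τ + D) (m * ((τ + 1) * h0 * B)) := by
    unfold opA
    have h3 : ∀ j ≤ m, ∀ i', AR5_P (b j * v i') (τ + D) ((τ + 1) * h0 * B) :=
      fun j hj i' => (hb j hj).mul (hv i') hh hB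
    split_ifs with hi
    · refine (h3 m le_rfl _).mono le_rfl ?_
      exact le_mul_of_one_le_left (by positivity) hm'
    · exact (AR5_P.sum _ fun j => h3 j.1 j.2.le j).neg
  have h3 : AR5_P ((k : Polynomial ℤ) * (dP ℤ) (b m) * v i) (τ + D)
      ((τ + 1) * (k * (τ * h0)) * B) := by
    have h4 : AR5_P ((k : Polynomial ℤ) * (dP ℤ) (b m)) τ (k * (τ * h0)) := by
      have h5 := (AR5_nat k).mul ((hb m le_rfl).deriv hh) hk (by positivity)
      refine h5.mono (by omega) (le_of_eq ?_)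
      push_cast
      ring
    exact h4.mul (hv i) (by positivity) hB
  unfold opE
  refine ((h1.sub h2).sub h3).mono le_rfl (le_of_eq ?_)
  ring

/-- AR5: degrees and heights of brackets -/
theorem AR5 (m : ℕ) (b : ℕ → Polynomial ℤ) : ∃ (τ : ℕ) (C : ℝ), 1 ≤ C ∧
    ∀ (Δ : ℕ) (Bd : ℝ) (v : Fin m → Polynomial ℤ), (∀ i, (v i).natDegree ≤ Δ) →
      (∀ i l, |((v i).coeff l : ℝ)| ≤ Bd) → ∀ k,
        (∀ i, (brk (dP ℤ) m b k v i).natDegree ≤ Δ + k * τ) ∧
        (∀ i l, |((brk (dP ℤ) m b k v i).coeff l : ℝ)| ≤ Bd * (C * (Δ + k + 1)) ^ k) := by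
  classical
  set τ : ℕ := (range (m + 1)).sup fun j => (b j).natDegree with hτ
  set h0 : ℝ := ∑ j ∈ range (m + 1), ∑ l ∈ range (τ + 1), |((b j).coeff l : ℝ)| with hh0
  have hh : 0 ≤ h0 := sum_nonneg fun j _ => sum_nonneg fun l _ => abs_nonneg _
  have hb : ∀ j ≤ m, AR5_P (b j) τ h0 := by
    intro j hj
    have hj' : j ∈ range (m + 1) := mem_range.2 (by omega)
    have hd : (b j).natDegree ≤ τ := le_sup (f := fun j => (b j).natDegree) hj'
    refine ⟨hd, fun l => ?_⟩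
    by_cases hl : l ≤ τ
    · calc |((b j).coeff l : ℝ)| ≤ ∑ l ∈ range (τ + 1), |((b j).coeff l : ℝ)| :=
            single_le_sum (f := fun l => |((b j).coeff l : ℝ)|) (fun _ _ => abs_nonneg _)
              (mem_range.2 (by omega))
        _ ≤ h0 := single_le_sum (f := fun j => ∑ l ∈ range (τ + 1), |((b j).coeff l : ℝ)|)
              (fun _ _ => sum_nonneg fun l _ => abs_nonneg _) hj'
    · have : (b j).coeff l = 0 := Polynomial.coeff_eq_zero_of_natDegree_lt (by omega)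
      rw [this]
      simpa using hh
  set C : ℝ := 1 + (τ + 1) * h0 * (m + 2 * τ + 1) with hC
  have hτ' : (0 : ℝ) ≤ τ := Nat.cast_nonneg τ
  have hm' : (0 : ℝ) ≤ m := Nat.cast_nonneg m
  have hC0 : 0 ≤ (τ + 1) * h0 * (m + 2 * τ + 1) := by positivity
  refine ⟨τ, C, by linarith, ?_⟩
  intro Δ Bd v hv1 hv2 k
  have hΔ : (0 : ℝ) ≤ Δ := Nat.cast_nonneg Δ
  have key : ∀ i, AR5_P (brk (dP ℤ) m b k v i) (Δ + k * τ) (Bd * (C * (Δ + k + 1)) ^ k) := by
    induction k with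
    | zero =>
      intro i
      refine ⟨by simpa [brk] using hv1 i, fun l => by simpa [brk] using hv2 i l⟩
    | succ k ih =>
      intro i
      have hBd : 0 ≤ Bd := (abs_nonneg _).trans (hv2 i 0)
      have hk : (0 : ℝ) ≤ k := Nat.cast_nonneg k
      have h1 := AR5_step m b hh hb k (Δ + k * τ) (B := Bd * (C * (Δ + k + 1)) ^ k)
        (by positivity) _ ih i
      refine h1.mono (le_of_eq (by ring)) ?_
      push_cast
      have h2 : ((Δ : ℝ) + k * τ + m + k * τ) ≤ (m + 2 * τ + 1) * (Δ + k + 1) := by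
        nlinarith [mul_nonneg hm' hΔ, mul_nonneg hm' hk, mul_nonneg hτ' hΔ, mul_nonneg hτ' hk]
      have h3 : (τ + 1) * h0 * (m + 2 * τ + 1) ≤ C := by linarith
      calc ((τ : ℝ) + 1) * h0 * (Bd * (C * (Δ + k + 1)) ^ k) * (Δ + k * τ + m + k * τ)
          ≤ ((τ : ℝ) + 1) * h0 * (Bd * (C * (Δ + k + 1)) ^ k) *
            ((m + 2 * τ + 1) * (Δ + k + 1)) := by gcongr
        _ = Bd * (C * (Δ + k + 1)) ^ k * (((τ + 1) * h0 * (m + 2 * τ + 1)) * (Δ + k + 1)) := by
            ring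
        _ ≤ Bd * (C * (Δ + k + 1)) ^ k * (C * (Δ + k + 1)) := by gcongr
        _ = Bd * (C * (Δ + k + 1)) ^ (k + 1) := by ring
        _ ≤ Bd * (C * (Δ + (k + 1) + 1)) ^ (k + 1) := by
            gcongr
            linarith
  exact ⟨fun i => (key i).1, fun i => (key i).2⟩

end Pool.Agent.Lib_helper12.NZ
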