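import Pool.Agent.Lib_helper12.NZ.Base

/-!
# NZ, block AR6: Siegel's lemma
-/

set_option autoImplicit false

open Finset
open scoped ENNReal

namespace Pool.Agent.Lib_helper12.NZ

section arithmetic
open PowerSeries

attribute [local instance] Matrix.seminormedAddCommGroup

theorem AR6_coeff (n : ℕ) (t : Fin (n + 1) → ℤ) (Y : PowerSeries ℤ) (l : ℕ) (hl : n < l) :
    coeff l (((Polynomial.ofFn (n + 1) t : Polynomial ℤ) : PowerSeries ℤ) * Y) =
      ∑ j : Fin (n + 1), coeff (l - j) Y * t j := by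
  rw [PowerSeries.coeff_mul, Finset.Nat.sum_antidiagonal_eq_sum_range_succ_mk]
  have h1 : ∑ k ∈ range (n + 1), coeff (l - k) Y * (Polynomial.ofFn (n + 1) t).coeff k =
      ∑ j : Fin (n + 1), coeff (l - j) Y * t j := by
    rw [← Fin.sum_univ_eq_sum_range (fun k => coeff (l - k) Y * (Polynomial.ofFn (n + 1) t).coeff k)]
    refine Finset.sum_congr rfl fun j _ => ?_
    rw [Polynomial.ofFn_coeff_eq_val_of_lt t j.2]
  rw [← h1]
  symm
  refine (Finset.sum_subset (s₁ := range (n + 1)) (s₂ := range l.succ) ?_ ?_).trans ?_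
  · intro k hk
    rw [Finset.mem_range] at hk ⊢
    omega
  · intro k _ hk
    rw [Finset.mem_range, not_lt] at hk
    rw [Polynomial.ofFn_coeff_eq_zero_of_ge t hk, mul_zero]
  · refine Finset.sum_congr rfl fun k _ => ?_
    rw [Polynomial.coeff_coe, mul_comm]

/-- AR6: Siegel's lemma, construction of the approximants -/
theorem AR6 (m : ℕ) (hm : 1 ≤ m) (Y : Fin m → PowerSeries ℤ) (C0 : ℝ)
    (hY : ∀ i l, |((coeff l (Y i) : ℤ) : ℝ)| ≤ C0 ^ (l + 1)) :
    ∃ C1 : ℝ, 1 ≤ C1 ∧ ∀ M : ℕ, 1 ≤ M → ∃ q : Polynomial ℤ, q ≠ 0 ∧ q.natDegree ≤ 2 * m * M ∧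
      (∀ l, |(q.coeff l : ℝ)| ≤ C1 ^ M) ∧
      ∀ i l, 2 * m * M < l → l < 2 * m * M + M → coeff l ((q : PowerSeries ℤ) * Y i) = 0 := by
  set D : ℝ := max 1 |C0| with hD
  have hD1 : 1 ≤ D := le_max_left _ _
  have hYD : ∀ i l, |((coeff l (Y i) : ℤ) : ℝ)| ≤ D ^ (l + 1) := fun i l => by
    refine (hY i l).trans ((le_abs_self _).trans ?_)
    rw [abs_pow]
    exact pow_le_pow_left₀ (abs_nonneg _) (le_max_right _ _) _
  set C1 : ℝ := (1 + 2 * m) * D ^ (4 * m) with hC1
  have hm0 : (0 : ℝ) ≤ m := Nat.cast_nonneg m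
  have hC11 : 1 ≤ C1 := by
    have h1 : 1 ≤ D ^ (4 * m) := one_le_pow₀ hD1
    have h2 : (1 : ℝ) ≤ 1 + 2 * m := by linarith
    nlinarith
  refine ⟨C1, hC11, fun M hM => ?_⟩
  rcases Nat.lt_or_ge M 2 with hM2 | hM2
  · have hM1 : M = 1 := by omega
    subst hM1
    refine ⟨1, one_ne_zero, by simp, fun l => ?_, fun i l h1 h2 => by omega⟩
    rw [pow_one, Polynomial.coeff_one]
    split_ifs
    · simpa using hC11
    · simpa using zero_le_one.trans hC11
  · set n : ℕ := 2 * m * M with hn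
    let A : Matrix (Fin m × Fin (M - 1)) (Fin (n + 1)) ℤ := fun p j =>
      coeff (n + 1 + p.2 - j) (Y p.1)
    have hcα : Fintype.card (Fin m × Fin (M - 1)) = m * (M - 1) := by simp
    have hcβ : Fintype.card (Fin (n + 1)) = n + 1 := by simp
    have hlt : m * (M - 1) < n + 1 := by
      have : m * (M - 1) ≤ m * M := Nat.mul_le_mul_left _ (Nat.sub_le _ _)
      have h2 : n = m * M + m * M := by rw [hn]; ring
      omega
    have hpos : 0 < m * (M - 1) := Nat.mul_pos hm (by omega)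
    obtain ⟨t, ht0, htA, htn⟩ := Int.Matrix.exists_ne_zero_int_vec_norm_le A
      (by rw [hcα, hcβ]; exact hlt) (by rw [hcα]; exact hpos)
    rw [hcα, hcβ] at htn
    refine ⟨Polynomial.ofFn (n + 1) t, ?_, ?_, ?_, ?_⟩
    · intro h0
      exact ht0 (Polynomial.injective_ofFn (n + 1) (by rw [h0, map_zero]))
    · have := Polynomial.ofFn_natDegree_lt (n := n + 1) (by omega) t
      omega
    · -- the bound
      have hA : ‖A‖ ≤ D ^ (4 * m * M) := by
        rw [Matrix.norm_le_iff (by positivity)]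
        intro p j
        have h1 : ‖A p j‖ = |((coeff (n + 1 + p.2 - j) (Y p.1) : ℤ) : ℝ)| := by
          rw [Int.norm_eq_abs]
        rw [h1]
        refine (hYD _ _).trans (pow_le_pow_right₀ hD1 ?_)
        have hp2 := p.2.2
        have h3 : m * M + m * M = n := by rw [hn]; ring
        have h4 : M ≤ m * M := Nat.le_mul_of_pos_left _ hm
        have h5 : 4 * m * M = 2 * (m * M) + 2 * (m * M) := by ring
        omega
      have hA1 : max 1 ‖A‖ ≤ D ^ (4 * m * M) := max_le (one_le_pow₀ hD1) hA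
      have hbase : ((n + 1 : ℕ) : ℝ) * max 1 ‖A‖ ≤ C1 ^ M := by
        have h1 : ((n + 1 : ℕ) : ℝ) ≤ (1 + 2 * m) ^ M := by
          have h2 := one_add_mul_le_pow (a := (2 * m : ℝ)) (by linarith) M
          calc ((n + 1 : ℕ) : ℝ) = 1 + M * (2 * m) := by
                rw [hn]
                push_cast
                ring
            _ ≤ _ := h2
        calc ((n + 1 : ℕ) : ℝ) * max 1 ‖A‖ ≤ (1 + 2 * m) ^ M * D ^ (4 * m * M) := by
              gcongr
          _ = C1 ^ M := by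
              rw [hC1, mul_pow, ← pow_mul]
      have hone : (1 : ℝ) ≤ ((n + 1 : ℕ) : ℝ) * max 1 ‖A‖ := by
        have h1 : (1 : ℝ) ≤ ((n + 1 : ℕ) : ℝ) := by
          push_cast
          have : (0 : ℝ) ≤ n := Nat.cast_nonneg n
          linarith
        have h2 : (1 : ℝ) ≤ max 1 ‖A‖ := le_max_left _ _
        nlinarith
      have hexp : ((m * (M - 1) : ℕ) : ℝ) / (((n + 1 : ℕ) : ℝ) - ((m * (M - 1) : ℕ) : ℝ)) ≤ 1 := by
        have h1 : ((m * (M - 1) : ℕ) : ℝ) * 2 ≤ ((n + 1 : ℕ) : ℝ) := by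
          have h2 : m * (M - 1) * 2 ≤ n + 1 := by
            have : m * (M - 1) ≤ m * M := Nat.mul_le_mul_left _ (Nat.sub_le _ _)
            have h2 : n = m * M + m * M := by rw [hn]; ring
            omega
          exact_mod_cast h2
        have h3 : (0 : ℝ) < ((m * (M - 1) : ℕ) : ℝ) := by exact_mod_cast hpos
        rw [div_le_one (by linarith)]
        linarith
      have htn2 : ‖t‖ ≤ C1 ^ M := by
        refine htn.trans (le_trans ?_ hbase)
        calc _ ≤ (((n + 1 : ℕ) : ℝ) * max 1 ‖A‖) ^ (1 : ℝ) :=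
              Real.rpow_le_rpow_of_exponent_le hone hexp
          _ = _ := Real.rpow_one _
      intro l
      rcases Nat.lt_or_ge l (n + 1) with hl | hl
      · rw [Polynomial.ofFn_coeff_eq_val_of_lt t hl]
        have h1 := norm_le_pi_norm t ⟨l, hl⟩
        rw [Int.norm_eq_abs] at h1
        exact h1.trans htn2
      · rw [Polynomial.ofFn_coeff_eq_zero_of_ge t hl, Int.cast_zero, abs_zero]
        positivity
    · intro i l h1 h2
      rw [AR6_coeff n t (Y i) l h1]
      have h3 := congrFun htA (i, ⟨l - (n + 1), by omega⟩)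
      rw [Matrix.mulVec, dotProduct, Pi.zero_apply] at h3
      rw [← h3]
      refine Finset.sum_congr rfl fun j _ => ?_
      have h4 : n + 1 + (l - (n + 1)) - (j : ℕ) = l - j := by omega
      change _ = coeff (n + 1 + (l - (n + 1)) - (j : ℕ)) (Y i) * t j
      rw [h4]

end arithmetic

end Pool.Agent.Lib_helper12.NZ
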