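import Pool.Agent.Lib_helper12.NZ.Base

/-! # Block AR4 -/

set_option autoImplicit false

open Finset PowerSeries

namespace Pool.Agent.Lib_helper12.NZ

theorem AR4 (f : PowerSeries ℤ) (m : ℕ) (b : ℕ → Polynomial ℤ) (h : Rel f m b) :
    IsDer (dS ℤ) ∧ IsDer (dP ℤ) ∧ (∀ p : Polynomial ℤ, ((dP ℤ p : Polynomial ℤ) : PowerSeries ℤ) =
      dS ℤ (p : PowerSeries ℤ)) ∧
    ∀ i : Fin m, ((b m : Polynomial ℤ) : PowerSeries ℤ) * dS ℤ (Yv f m i) =
      opA m (fun j => ((b j : Polynomial ℤ) : PowerSeries ℤ)) (Yv f m) i := by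
  refine ⟨⟨fun a b => ?_, fun a b => ?_⟩, ⟨fun a b => ?_, fun a b => ?_⟩, fun p => ?_, fun i => ?_⟩
  · unfold dS
    rw [map_add]
  · unfold dS
    rw [Derivation.leibniz]
    simp only [smul_eq_mul]
    ring
  · unfold dP
    rw [map_add]
  · unfold dP
    rw [Polynomial.derivative_mul]
  · unfold dS dP
    rw [PowerSeries.derivative_coe]
  · unfold opA Yv
    split_ifs with hi
    · rw [← Function.iterate_succ_apply' (dS ℤ)]
    · have hi' : i.1 + 1 = m := by
        have := i.2
        omega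
      have h1 := h.rel
      rw [Finset.sum_range_succ] at h1
      rw [← Function.iterate_succ_apply' (dS ℤ), Nat.succ_eq_add_one, hi',
        Fin.sum_univ_eq_sum_range (fun j => ((b j : Polynomial ℤ) : PowerSeries ℤ) *
          (dS ℤ)^[j] f) m]
      linear_combination h1

end Pool.Agent.Lib_helper12.NZ
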