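import Pool.Agent.Lib_helper12.NZ.Base
import Pool.Agent.Lib_helper12.NZ.Fin.U_NZ_AR3_helper4
import Pool.Agent.Lib_helper12.NZ.Fin.U_NZ_AR4_helper89

/-!
# NZ, block AR7: brackets of good approximants are divisible by factorials
-/

set_option autoImplicit false

open Finset
open scoped ENNReal

namespace Pool.Agent.Lib_helper12.NZ

section arithmetic
open PowerSeries

/-- vanishing of all coefficients below `n` -/
def AR7_V {m : ℕ} (n : ℕ) (v : Fin m → PowerSeries ℤ) : Prop :=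
  ∀ i l, l < n → coeff l (v i) = 0

theorem AR7_mul (n : ℕ) (g w : PowerSeries ℤ) (h : ∀ l, l < n → coeff l w = 0) :
    ∀ l, l < n → coeff l (g * w) = 0 := by
  intro l hl
  rw [coeff_mul]
  apply Finset.sum_eq_zero
  intro p hp
  have hp' : p.1 + p.2 = l := by simpa using hp
  rw [h p.2 (by omega), mul_zero]

theorem AR7_D (n : ℕ) (w : PowerSeries ℤ) (h : ∀ l, l < n → coeff l w = 0) :
    ∀ l, l < n - 1 → coeff l (dS ℤ w) = 0 := by
  intro l hl
  rw [dS, PowerSeries.coeff_derivative, h (l + 1) (by omega), zero_mul]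

theorem AR7_opE {m : ℕ} (B : ℕ → PowerSeries ℤ) (n k : ℕ) (v : Fin m → PowerSeries ℤ)
    (h : AR7_V n v) : AR7_V (n - 1) (opE (dS ℤ) m B k v) := by
  intro i l hl
  unfold opE
  rw [map_sub, map_sub]
  have h1 : coeff l (B m * dS ℤ (v i)) = 0 :=
    AR7_mul (n - 1) _ _ (AR7_D n _ (h i)) l hl
  have h3 : coeff l (((k : PowerSeries ℤ)) * dS ℤ (B m) * v i) = 0 :=
    AR7_mul n _ _ (h i) l (by omega)
  have h2 : coeff l (opA m B v i) = 0 := by
    unfold opA
    split_ifs with hi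
    · exact AR7_mul n _ _ (h _) l (by omega)
    · rw [map_neg, map_sum, neg_eq_zero]
      apply Finset.sum_eq_zero
      intro j _
      exact AR7_mul n _ _ (h j) l (by omega)
  rw [h1, h2, h3]
  simp

theorem AR7_brk {m : ℕ} (B : ℕ → PowerSeries ℤ) (n k : ℕ) (v : Fin m → PowerSeries ℤ)
    (h : AR7_V n v) : AR7_V (n - k) (brk (dS ℤ) m B k v) := by
  induction k with
  | zero => simpa [brk] using h
  | succ k ih =>
    have h1 := AR7_opE B (n - k) k _ ih
    have e : n - (k + 1) = n - k - 1 := by omega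
    rw [e]
    exact h1

theorem AR7_dvd (k : ℕ) (g w : PowerSeries ℤ) (l : ℕ) :
    (k.factorial : ℤ) ∣ coeff l (g * (dS ℤ)^[k] w) := by
  rw [coeff_mul]
  apply Finset.dvd_sum
  intro p _
  apply Dvd.dvd.mul_left
  rw [dS, PowerSeries.coeff_iterate_derivative]
  have h1 : (k.factorial : ℤ) ∣ (((p.2 + 1).ascFactorial k : ℕ) : ℤ) := by
    exact_mod_cast Nat.factorial_dvd_ascFactorial _ _
  exact Dvd.dvd.mul_right h1 _

/-- AR7: brackets of good approximants are divisible by factorials -/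
theorem AR7 (f : PowerSeries ℤ) (m : ℕ) (b : ℕ → Polynomial ℤ) (h : Rel f m b) (τ : ℕ)
    (hτ : ∀ (Δ : ℕ) (v : Fin m → Polynomial ℤ), (∀ i, (v i).natDegree ≤ Δ) →
      ∀ k i, (brk (dP ℤ) m b k v i).natDegree ≤ Δ + k * τ)
    (P : Fin m → Polynomial ℤ) (q : Polynomial ℤ) (N M : ℕ) (hP : ∀ i, (P i).natDegree ≤ N)
    (hR : ∀ i l, l < N + M → coeff l ((q : PowerSeries ℤ) * Yv f m i - (P i : PowerSeries ℤ)) = 0)
    (j k : ℕ) (hjk : (j + k) * (τ + 1) < M) (i : Fin m) :
    ((k.factorial : ℤ) : Polynomial ℤ) ∣ brk (dP ℤ) m b k (brk (dP ℤ) m b j P) i := by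
  obtain ⟨hdS, hdP, hcomp, hY⟩ := AR4 f m b h
  have hdeg : (brk (dP ℤ) m b k (brk (dP ℤ) m b j P) i).natDegree ≤ N + j * τ + k * τ :=
    hτ (N + j * τ) _ (fun i => hτ N P hP j i) k i
  have hC : ((k.factorial : ℤ) : Polynomial ℤ) = Polynomial.C (k.factorial : ℤ) := by
    simp
  rw [hC, Polynomial.C_dvd_iff_dvd_coeff]
  intro l
  by_cases hl : N + M - j - k ≤ l
  · have h1 : (brk (dP ℤ) m b k (brk (dP ℤ) m b j P) i).coeff l = 0 := by
      apply Polynomial.coeff_eq_zero_of_natDegree_lt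
      have e : (j + k) * (τ + 1) = j * τ + k * τ + j + k := by ring
      omega
    rw [h1]
    exact dvd_zero _
  · push Not at hl
    set φ : Polynomial ℤ →+* PowerSeries ℤ := Polynomial.coeToPowerSeries.ringHom with hφ
    have hφa : ∀ p : Polynomial ℤ, φ p = (p : PowerSeries ℤ) := fun p => rfl
    have hφc : ∀ a : Polynomial ℤ, φ (dP ℤ a) = dS ℤ (φ a) := fun a => hcomp a
    set B : ℕ → PowerSeries ℤ := fun j => ((b j : Polynomial ℤ) : PowerSeries ℤ) with hB
    -- base change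
    have hbc : ∀ (k : ℕ) (v : Fin m → Polynomial ℤ), (fun i => φ (brk (dP ℤ) m b k v i)) =
        brk (dS ℤ) m B k (fun i => φ (v i)) := fun k v =>
      (AR3 (dP ℤ) (dS ℤ) hdP hdS m b k).2.1 φ hφc v
    have hadd : ∀ (k : ℕ) (v w : Fin m → PowerSeries ℤ), brk (dS ℤ) m B k (v + w) =
        brk (dS ℤ) m B k v + brk (dS ℤ) m B k w := fun k v w =>
      (AR3 (dS ℤ) (dS ℤ) hdS hdS m B k).1 v w
    have hsol : ∀ (k : ℕ) (g : PowerSeries ℤ), brk (dS ℤ) m B k (fun i => g * Yv f m i) =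
        fun i => (B m) ^ k * (dS ℤ)^[k] g * Yv f m i := fun k g =>
      (AR3 (dS ℤ) (dS ℤ) hdS hdS m B k).2.2 (Yv f m) hY g
    set R : Fin m → PowerSeries ℤ := fun i => (P i : PowerSeries ℤ) -
      (q : PowerSeries ℤ) * Yv f m i with hRdef
    have hRV : AR7_V (N + M) R := by
      intro i l hl
      have h1 := hR i l hl
      have e : R i = -((q : PowerSeries ℤ) * Yv f m i - (P i : PowerSeries ℤ)) := by
        simp only [hRdef]; ring
      rw [e, map_neg, h1, neg_zero]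
    have hPs : (fun i => φ (P i)) = (fun i => (q : PowerSeries ℤ) * Yv f m i) + R := by
      funext i
      simp only [hRdef, Pi.add_apply, hφa]
      ring
    have hj : (fun i => φ (brk (dP ℤ) m b j P i)) =
        (fun i => ((B m) ^ j * (dS ℤ)^[j] (q : PowerSeries ℤ)) * Yv f m i) +
          brk (dS ℤ) m B j R := by
      rw [hbc, hPs, hadd, hsol]
    have hk : (fun i => φ (brk (dP ℤ) m b k (brk (dP ℤ) m b j P) i)) =
        (fun i => (B m) ^ k * (dS ℤ)^[k] ((B m) ^ j * (dS ℤ)^[j] (q : PowerSeries ℤ)) *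
          Yv f m i) + brk (dS ℤ) m B k (brk (dS ℤ) m B j R) := by
      rw [hbc, hj, hadd, hsol]
    have hV : AR7_V (N + M - j - k) (brk (dS ℤ) m B k (brk (dS ℤ) m B j R)) :=
      AR7_brk B _ k _ (AR7_brk B _ j _ hRV)
    have hi := congrFun hk i
    have hci := congrArg (coeff l) hi
    simp only [Pi.add_apply, map_add, hφa, Polynomial.coeff_coe] at hci
    rw [hci, hV i l hl, add_zero]
    have e2 : (B m) ^ k * (dS ℤ)^[k] ((B m) ^ j * (dS ℤ)^[j] (q : PowerSeries ℤ)) * Yv f m i =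
        ((B m) ^ k * Yv f m i) * (dS ℤ)^[k] ((B m) ^ j * (dS ℤ)^[j] (q : PowerSeries ℤ)) := by
      ring
    rw [e2]
    exact AR7_dvd k _ _ l

end arithmetic

end Pool.Agent.Lib_helper12.NZ
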