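import Pool.Agent.Lib_helper12.NZ.Base

set_option autoImplicit false

open Finset
open scoped ENNReal

namespace Pool.Agent.Lib_helper12.NZ

section
variable {A : Type*} [CommRing A] {δ : A → A}

theorem AR2_zero (hδ : IsDer δ) : δ 0 = 0 := by
  have h := hδ.add 0 0
  rw [add_zero] at h
  exact left_eq_add.1 h

theorem AR2_one (hδ : IsDer δ) : δ 1 = 0 := by
  have h := hδ.mul 1 1
  rw [mul_one, mul_one, one_mul] at h
  exact left_eq_add.1 h

theorem AR2_nat (hδ : IsDer δ) (n : ℕ) : δ (n : A) = 0 := by
  induction n with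
  | zero => simpa using AR2_zero hδ
  | succ n ih => rw [Nat.cast_succ, hδ.add, ih, AR2_one hδ, add_zero]

theorem AR2_pow (hδ : IsDer δ) (T : A) (l : ℕ) : T * δ (T ^ l) = (l : A) * T ^ l * δ T := by
  induction l with
  | zero => simp [AR2_one hδ]
  | succ l ih =>
      rw [pow_succ, hδ.mul]
      have : T * (δ (T ^ l) * T + T ^ l * δ T) = (T * δ (T ^ l)) * T + T * T ^ l * δ T := by ring
      rw [this, ih]
      push_cast
      ring

theorem AR2_opA_smul (m : ℕ) (b : ℕ → A) (a : A) (w : Fin m → A) (i : Fin m) :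
    opA m b (fun i => a * w i) i = a * opA m b w i := by
  unfold opA
  by_cases h : i.1 + 1 < m
  · simp only [dif_pos h]; ring
  · simp only [dif_neg h]
    rw [mul_neg, Finset.mul_sum]
    congr 1
    exact Finset.sum_congr rfl fun j _ => by ring

theorem AR2_opA_add (m : ℕ) (b : ℕ → A) (v w : Fin m → A) (i : Fin m) :
    opA m b (fun i => v i + w i) i = opA m b v i + opA m b w i := by
  unfold opA
  by_cases h : i.1 + 1 < m
  · simp only [dif_pos h]; ring
  · simp only [dif_neg h]
    rw [← neg_add, ← Finset.sum_add_distrib]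
    congr 1
    exact Finset.sum_congr rfl fun j _ => by ring

theorem AR2_opE_add (hδ : IsDer δ) (m : ℕ) (b : ℕ → A) (k : ℕ) (v w : Fin m → A) :
    opE δ m b k (fun i => v i + w i) = fun i => opE δ m b k v i + opE δ m b k w i := by
  funext i
  simp only [opE]
  rw [AR2_opA_add, hδ.add]
  ring

theorem AR2_opE_zero (hδ : IsDer δ) (m : ℕ) (b : ℕ → A) (k : ℕ) :
    opE δ m b k (fun _ => 0) = fun _ => 0 := by
  funext i
  have h := AR2_opA_smul m b 0 (fun _ => 0) i
  simp only [zero_mul] at h
  simp only [opE]
  rw [h, AR2_zero hδ]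
  ring

theorem AR2_opE_sum (hδ : IsDer δ) (m : ℕ) (b : ℕ → A) (k : ℕ) {ι : Type*} (s : Finset ι)
    (f : ι → Fin m → A) :
    opE δ m b k (fun i => ∑ l ∈ s, f l i) = fun i => ∑ l ∈ s, opE δ m b k (f l) i := by
  classical
  induction s using Finset.induction_on with
  | empty => simpa using AR2_opE_zero hδ m b k
  | insert a s ha ih =>
      simp only [Finset.sum_insert ha]
      rw [AR2_opE_add hδ m b k (f a) (fun i => ∑ l ∈ s, f l i), ih]

theorem AR2_opE_smul (hδ : IsDer δ) (m : ℕ) (b : ℕ → A) (k : ℕ) (a : A) (w : Fin m → A)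
    (i : Fin m) :
    opE δ m b k (fun i => a * w i) i = b m * δ a * w i + a * opE δ m b k w i := by
  simp only [opE]
  rw [AR2_opA_smul, hδ.mul]
  ring

end

theorem AR2 {A : Type*} [CommRing A] (δ : A → A) (hδ : IsDer δ) (m : ℕ) (b : ℕ → A) (k : ℕ)
    (x : A) (v : Fin m → A) :
    brk δ m b k (fun i => x * v i) = fun i => ∑ l ∈ range (k + 1),
      (k.choose l : A) * ((b m) ^ l * δ^[l] x) * brk δ m b (k - l) v i := by
  induction k with
  | zero => funext i; simp [brk]
  | succ k ih =>
      have h1 : brk δ m b (k + 1) (fun i => x * v i) =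
          opE δ m b k (brk δ m b k (fun i => x * v i)) := rfl
      rw [h1, ih, AR2_opE_sum hδ m b k (range (k + 1))
        (fun l i => (k.choose l : A) * ((b m) ^ l * δ^[l] x) * brk δ m b (k - l) v i)]
      funext i
      have h2 : ∀ l ∈ range (k + 1),
          opE δ m b k (fun i => (k.choose l : A) * ((b m) ^ l * δ^[l] x) *
            brk δ m b (k - l) v i) i =
          (k.choose l : A) * ((b m) ^ (l + 1) * δ^[l + 1] x) * brk δ m b (k + 1 - (l + 1)) v i +
          (k.choose l : A) * ((b m) ^ l * δ^[l] x) * brk δ m b (k + 1 - l) v i := by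
        intro l hl
        have hlk : l ≤ k := Nat.lt_succ_iff.1 (Finset.mem_range.1 hl)
        rw [AR2_opE_smul hδ]
        have h3 : b m * δ ((k.choose l : A) * ((b m) ^ l * δ^[l] x)) =
            (k.choose l : A) * ((l : A) * (b m) ^ l * δ (b m) * δ^[l] x +
              (b m) ^ (l + 1) * δ^[l + 1] x) := by
          rw [hδ.mul, AR2_nat hδ, zero_mul, zero_add, hδ.mul, Function.iterate_succ_apply']
          have h4 := AR2_pow hδ (b m) l
          calc b m * ((k.choose l : A) * (δ (b m ^ l) * δ^[l] x + b m ^ l * δ (δ^[l] x)))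
              = (k.choose l : A) * ((b m * δ (b m ^ l)) * δ^[l] x +
                b m ^ (l + 1) * δ (δ^[l] x)) := by ring
            _ = _ := by rw [h4]
        rw [h3]
        have h5 : k + 1 - l = (k - l) + 1 := by omega
        have h6 : k + 1 - (l + 1) = k - l := by omega
        have h7 : brk δ m b (k + 1 - l) v = opE δ m b (k - l) (brk δ m b (k - l) v) := by
          rw [h5]; rfl
        have h8 : opE δ m b k (brk δ m b (k - l) v) i =
            opE δ m b (k - l) (brk δ m b (k - l) v) i -
              (l : A) * δ (b m) * brk δ m b (k - l) v i := by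
          simp only [opE]
          have h9 : (k : A) = ((k - l : ℕ) : A) + (l : A) := by
            rw [← Nat.cast_add]; congr 1; omega
          rw [h9]
          ring
        rw [h6, h7, h8]
        ring
      rw [Finset.sum_congr rfl h2, Finset.sum_add_distrib]
      -- Pascal
      rw [Finset.sum_range_succ' (fun l => ((k + 1).choose l : A) * ((b m) ^ l * δ^[l] x) *
        brk δ m b (k + 1 - l) v i) (k + 1)]
      have h10 : ∀ l ∈ range (k + 1), ((k + 1).choose (l + 1) : A) *
          ((b m) ^ (l + 1) * δ^[l + 1] x) * brk δ m b (k + 1 - (l + 1)) v i =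
          (k.choose l : A) * ((b m) ^ (l + 1) * δ^[l + 1] x) * brk δ m b (k + 1 - (l + 1)) v i +
          (k.choose (l + 1) : A) * ((b m) ^ (l + 1) * δ^[l + 1] x) *
            brk δ m b (k + 1 - (l + 1)) v i := by
        intro l _
        rw [Nat.choose_succ_succ]
        push_cast
        ring
      rw [Finset.sum_congr rfl h10, Finset.sum_add_distrib, add_assoc]
      congr 1
      rw [Finset.sum_range_succ' (fun l => (k.choose l : A) * ((b m) ^ l * δ^[l] x) *
        brk δ m b (k + 1 - l) v i) k, Finset.sum_range_succ _ k]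
      simp

end Pool.Agent.Lib_helper12.NZ
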