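import Pool.Agent.Lib_helper12.NZ.Base
import Pool.Agent.Lib_helper12.NZ.Fin.U_NZ_AR2_helper4
import Pool.Agent.Lib_helper12.NZ.Fin.U_NZ_AR3_helper4

/-! NZ, block AR8: the Gauss lemma argument. -/

set_option autoImplicit false

open Finset
open scoped ENNReal

namespace Pool.Agent.Lib_helper12.NZ

section arithmetic
open PowerSeries

theorem AR8_isDer : IsDer (dP ℤ) := by
  constructor
  · intro a b
    simp [dP]
  · intro a b
    simp [dP, Polynomial.derivative_mul]

theorem AR8_zero (m : ℕ) (b : ℕ → Polynomial ℤ) (k : ℕ) : brk (dP ℤ) m b k 0 = 0 := by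
  have h := (AR3 (dP ℤ) (dP ℤ) AR8_isDer AR8_isDer m b k).1 0 0
  rw [add_zero] at h
  exact (left_eq_add.mp h)

theorem AR8_sum (m : ℕ) (b : ℕ → Polynomial ℤ) (k : ℕ) {ι : Type*} (s : Finset ι)
    (w : ι → Fin m → Polynomial ℤ) :
    brk (dP ℤ) m b k (∑ j ∈ s, w j) = ∑ j ∈ s, brk (dP ℤ) m b k (w j) := by
  classical
  induction s using Finset.induction_on with
  | empty => simp [AR8_zero]
  | insert a s ha ih =>
    rw [Finset.sum_insert ha, Finset.sum_insert ha,
      (AR3 (dP ℤ) (dP ℤ) AR8_isDer AR8_isDer m b k).1, ih]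

theorem AR8_fac (l : ℕ) (c : Polynomial ℤ) : ∃ h : Polynomial ℤ, (dP ℤ)^[l] c = (l.factorial : ℤ) • h := by
  refine ⟨Polynomial.hasseDeriv l c, ?_⟩
  have := congrArg (fun f => f c) (Polynomial.factorial_smul_hasseDeriv (R := ℤ) (k := l))
  simp only [LinearMap.smul_apply] at this
  unfold dP
  rw [← this]
  simp

theorem AR8_iter (e : ℕ) (p : ℤ) (l : ℕ) (c : Polynomial ℤ) :
    (dP ℤ)^[l] ((p : Polynomial ℤ) ^ e * c) = (p : Polynomial ℤ) ^ e * (dP ℤ)^[l] c := by
  induction l generalizing c with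
  | zero => rfl
  | succ l ih =>
    rw [Function.iterate_succ_apply, Function.iterate_succ_apply, ← ih]
    congr 1
    unfold dP
    rw [Polynomial.derivative_mul, ← Int.cast_pow, Polynomial.derivative_intCast]
    simp

/-- step one: Cramer -/
theorem AR8_cramer (m : ℕ) (b : ℕ → Polynomial ℤ) (P : Fin m → Polynomial ℤ) (K : ℕ)
    (hdiv : ∀ j : Fin m, ∀ k ≤ K, ∀ i,
      ((k.factorial : ℤ) : Polynomial ℤ) ∣ brk (dP ℤ) m b k (brk (dP ℤ) m b j.1 P) i)
    (k : ℕ) (hk : k ≤ K) (v : Fin m → Polynomial ℤ) (i : Fin m) :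
    ((k.factorial : ℤ) : Polynomial ℤ) ∣
      brk (dP ℤ) m b k (fun i => (Smat m b P).det * v i) i := by
  set c : Fin m → Polynomial ℤ := ((Smat m b P).adjugate).mulVec v with hc
  have h1 : (fun i => (Smat m b P).det * v i) =
      ∑ j, (fun i => c j * brk (dP ℤ) m b j.1 P i) := by
    have h2 : (Smat m b P).mulVec c = (Smat m b P).det • v := by
      rw [hc, Matrix.mulVec_mulVec, Matrix.mul_adjugate, Matrix.smul_mulVec, Matrix.one_mulVec]
    ext1 i
    have h3 := congrFun h2 i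
    rw [Pi.smul_apply, smul_eq_mul] at h3
    rw [← h3, Finset.sum_apply]
    unfold Matrix.mulVec dotProduct Smat
    apply Finset.sum_congr rfl
    intro j _
    simp [mul_comm]
  rw [h1, AR8_sum, Finset.sum_apply]
  apply Finset.dvd_sum
  intro j _
  rw [AR2 (dP ℤ) AR8_isDer m b k (c j) (brk (dP ℤ) m b j.1 P)]
  apply Finset.dvd_sum
  intro l hl
  have hlk : l ≤ k := Nat.lt_succ_iff.1 (Finset.mem_range.1 hl)
  obtain ⟨h, hh⟩ := AR8_fac l (c j)
  obtain ⟨g, hg⟩ := hdiv j (k - l) ((Nat.sub_le _ _).trans hk) i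
  rw [hh, hg]
  have hf : ((k.factorial : ℤ) : Polynomial ℤ) =
      ((k.choose l : ℕ) : Polynomial ℤ) * ((l.factorial : ℕ) : Polynomial ℤ) *
        (((k - l).factorial : ℕ) : Polynomial ℤ) := by
    rw [← Nat.choose_mul_factorial_mul_factorial hlk]
    push_cast
    ring
  refine ⟨(b m) ^ l * h * g, ?_⟩
  rw [hf]
  simp only [zsmul_eq_mul]
  push_cast
  ring

theorem AR8 (m : ℕ) (b : ℕ → Polynomial ℤ) (P : Fin m → Polynomial ℤ) (K : ℕ)
    (hdiv : ∀ j : Fin m, ∀ k ≤ K, ∀ i,
      ((k.factorial : ℤ) : Polynomial ℤ) ∣ brk (dP ℤ) m b k (brk (dP ℤ) m b j.1 P) i)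
    (p : ℕ) (hp : p.Prime) (e : ℕ) (δ' : Polynomial ℤ)
    (hδ : (Smat m b P).det = ((p : ℤ) : Polynomial ℤ) ^ e * δ')
    (hδ' : ¬ ((p : ℤ) : Polynomial ℤ) ∣ δ') (k : ℕ) (hk : k ≤ K) (v : Fin m → Polynomial ℤ)
    (i : Fin m) :
    ((p : ℤ) : Polynomial ℤ) ^ (k.factorial.factorization p) ∣
      ((p : ℤ) : Polynomial ℤ) ^ e * brk (dP ℤ) m b k v i := by
  have hprime : Prime (((p : ℤ) : Polynomial ℤ)) := by
    have h := Polynomial.prime_C_iff.2 (Nat.prime_iff_prime_int.1 hp)
    simpa using h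
  have hfac : ∀ n : ℕ, n ≠ 0 → ((p : ℤ) : Polynomial ℤ) ^ (n.factorization p) ∣
      ((n : ℕ) : Polynomial ℤ) := by
    intro n _
    obtain ⟨c, hc⟩ := Nat.ordProj_dvd n p
    refine ⟨((c : ℕ) : Polynomial ℤ), ?_⟩
    conv_lhs => rw [hc]
    push_cast
    ring
  induction k using Nat.strong_induction_on generalizing v i with
  | _ k ih =>
    have h1 := AR8_cramer m b P K hdiv k hk v i
    rw [hδ, AR2 (dP ℤ) AR8_isDer m b k] at h1
    have h2 : ((p : ℤ) : Polynomial ℤ) ^ (k.factorial.factorization p) ∣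
        ∑ l ∈ range (k + 1), (k.choose l : Polynomial ℤ) *
          ((b m) ^ l * (dP ℤ)^[l] (((p : ℤ) : Polynomial ℤ) ^ e * δ')) *
            brk (dP ℤ) m b (k - l) v i := by
      refine dvd_trans ?_ h1
      have := hfac k.factorial (Nat.factorial_ne_zero k)
      simpa using this
    rw [Finset.sum_range_succ'] at h2
    have h3 : ((p : ℤ) : Polynomial ℤ) ^ (k.factorial.factorization p) ∣
        ∑ l ∈ range k, (k.choose (l + 1) : Polynomial ℤ) *
          ((b m) ^ (l + 1) * (dP ℤ)^[l + 1] (((p : ℤ) : Polynomial ℤ) ^ e * δ')) *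
            brk (dP ℤ) m b (k - (l + 1)) v i := by
      apply Finset.dvd_sum
      intro l hl
      have hl' : l < k := Finset.mem_range.1 hl
      have hlk : l + 1 ≤ k := hl'
      obtain ⟨h, hh⟩ := AR8_fac (l + 1) δ'
      obtain ⟨g, hg⟩ := ih (k - (l + 1)) (by omega) (by omega) v i
      obtain ⟨w, hw⟩ := hfac (k.choose (l + 1) * (l + 1).factorial)
        (Nat.mul_ne_zero (Nat.choose_pos hlk).ne' (Nat.factorial_ne_zero _))
      rw [AR8_iter, hh]
      have hv : k.factorial.factorization p =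
          (k.choose (l + 1) * (l + 1).factorial).factorization p +
            (k - (l + 1)).factorial.factorization p := by
        rw [← Nat.choose_mul_factorial_mul_factorial hlk,
          Nat.factorization_mul (Nat.mul_ne_zero (Nat.choose_pos hlk).ne' (Nat.factorial_ne_zero _))
            (Nat.factorial_ne_zero _)]
        rfl
      rw [hv, pow_add]
      refine ⟨w * (b m) ^ (l + 1) * h * g, ?_⟩
      have e1 : (k.choose (l + 1) : Polynomial ℤ) *
          ((b m) ^ (l + 1) * (((p : ℤ) : Polynomial ℤ) ^ e * (((l + 1).factorial : ℤ) • h))) *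
            brk (dP ℤ) m b (k - (l + 1)) v i =
          (((k.choose (l + 1) * (l + 1).factorial : ℕ) : Polynomial ℤ)) * (b m) ^ (l + 1) * h *
            (((p : ℤ) : Polynomial ℤ) ^ e * brk (dP ℤ) m b (k - (l + 1)) v i) := by
        simp only [zsmul_eq_mul]
        push_cast
        ring
      rw [e1, hg, hw]
      ring
    have h4 := (dvd_add_right h3).1 h2
    have h5 : ((p : ℤ) : Polynomial ℤ) ^ (k.factorial.factorization p) ∣
        δ' * (((p : ℤ) : Polynomial ℤ) ^ e * brk (dP ℤ) m b k v i) := by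
      refine dvd_trans h4 (dvd_of_eq ?_)
      rw [Nat.choose_zero_right, Nat.cast_one, pow_zero, Nat.sub_zero, Function.iterate_zero, id]
      ring
    exact hprime.pow_dvd_of_dvd_mul_left _ hδ' h5

end arithmetic

end Pool.Agent.Lib_helper12.NZ
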