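import Pool.Agent.Lib_helper12.NZ.Base
import Pool.Agent.Lib_helper12.NZ.Fin.U_NZ_AR8_helper58

set_option autoImplicit false

open Finset
open scoped ENNReal

namespace Pool.Agent.Lib_helper12.NZ

theorem AR9_fac {p k : ℕ} (hp : p.Prime) : k.factorial.factorization p ≤ k := by
  have hfact : Fact p.Prime := ⟨hp⟩
  have h1 := @sub_one_mul_padicValNat_factorial p hfact k
  rw [Nat.factorization_def _ hp]
  have h2 : padicValNat p k.factorial ≤ (p - 1) * padicValNat p k.factorial :=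
    Nat.le_mul_of_pos_left _ (by have := hp.two_le; omega)
  omega

theorem AR9_prime {p : ℕ} (hp : p.Prime) : Prime (((p : ℤ) : Polynomial ℤ)) := by
  have h1 : (((p : ℤ) : Polynomial ℤ)) = Polynomial.C (p : ℤ) := by
    simp
  rw [h1, Polynomial.prime_C_iff]
  exact Nat.prime_iff_prime_int.mp hp

theorem AR9 (m : ℕ) (b : ℕ → Polynomial ℤ) (P : Fin m → Polynomial ℤ) (K : ℕ)
    (hdiv : ∀ j : Fin m, ∀ k ≤ K, ∀ i,
      ((k.factorial : ℤ) : Polynomial ℤ) ∣ brk (dP ℤ) m b k (brk (dP ℤ) m b j.1 P) i)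
    (hdet : (Smat m b P).det ≠ 0) (P0 : ℕ) (v : Fin m → Polynomial ℤ)
    (hP0 : ∀ p : ℕ, p.Prime → P0 ≤ p → ∀ k, ∃ i, ¬ ((p : ℤ) : Polynomial ℤ) ∣ brk (dP ℤ) m b k v i)
    (k : ℕ) (hk : k ≤ K) (l : ℕ) :
    (k.factorial : ℤ) ∣ (P0.factorial : ℤ) ^ k * (Smat m b P).det.coeff l := by
  set D := (Smat m b P).det with hD
  by_cases hc : D.coeff l = 0
  · rw [hc, mul_zero]
    exact dvd_zero _
  have hne : (P0.factorial : ℤ) ^ k * D.coeff l ≠ 0 :=
    mul_ne_zero (pow_ne_zero _ (by exact_mod_cast P0.factorial_ne_zero)) hc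
  rw [← Int.natAbs_dvd_natAbs]
  rw [Int.natAbs_natCast]
  rw [← Nat.factorization_prime_le_iff_dvd k.factorial_ne_zero (Int.natAbs_ne_zero.mpr hne)]
  intro p hp
  rw [← hp.pow_dvd_iff_le_factorization (Int.natAbs_ne_zero.mpr hne)]
  rw [← Int.natCast_dvd_natCast, Int.dvd_natAbs, Nat.cast_pow]
  by_cases hpP : P0 ≤ p
  · apply dvd_mul_of_dvd_right
    have hpp := AR9_prime hp
    have hfin : FiniteMultiplicity ((p : ℤ) : Polynomial ℤ) D :=
      FiniteMultiplicity.of_not_isUnit hpp.not_unit hdet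
    obtain ⟨δ', hδ, hδ'⟩ := hfin.exists_eq_pow_mul_and_not_dvd
    set e := multiplicity ((p : ℤ) : Polynomial ℤ) D with he
    obtain ⟨i, hi⟩ := hP0 p hp hpP k
    have h8 := AR8 m b P K hdiv p hp e δ' hδ hδ' k hk v i
    have h9 : ((p : ℤ) : Polynomial ℤ) ^ (k.factorial.factorization p) ∣
        ((p : ℤ) : Polynomial ℤ) ^ e := hpp.pow_dvd_of_dvd_mul_right _ hi h8
    have h10 : ((p : ℤ) : Polynomial ℤ) ^ (k.factorial.factorization p) ∣ D := by
      rw [hδ]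
      exact dvd_mul_of_dvd_left h9 _
    have h11 : (((p : ℤ) : Polynomial ℤ)) = Polynomial.C (p : ℤ) := by simp
    rw [h11, ← Polynomial.C_pow, Polynomial.C_dvd_iff_dvd_coeff] at h10
    exact h10 l
  · push Not at hpP
    apply dvd_mul_of_dvd_left
    have h1 : (p : ℤ) ∣ (P0.factorial : ℤ) := by
      exact_mod_cast (Nat.dvd_factorial hp.pos hpP.le)
    exact (pow_dvd_pow _ (AR9_fac hp)).trans (pow_dvd_pow_of_dvd h1 k)

example : type_of% @AR9 = type_of% @AR9 := rfl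

end Pool.Agent.Lib_helper12.NZ
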