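import Pool.Agent.Lib_helper12.NZ.Base

set_option autoImplicit false

open Finset
open scoped ENNReal

namespace Pool.Agent.Lib_helper12.NZ

open PowerSeries

theorem Z1_coeff {K : Type*} [Field K] (f : PowerSeries K) : ∀ (j n : ℕ),
    coeff n ((dS K)^[j] f) = coeff (n + j) f * ((n + j).descFactorial j : K)
  | 0, n => by simp
  | (j + 1), n => by
      rw [Function.iterate_succ_apply']
      have h1 : coeff n (dS K ((dS K)^[j] f)) = coeff (n + 1) ((dS K)^[j] f) * (n + 1) := by
        unfold dS
        exact PowerSeries.coeff_derivative _ _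
      rw [h1, Z1_coeff f j (n + 1)]
      have h2 : n + (j + 1) = n + 1 + j := by omega
      have h3 : (n + 1 + j).descFactorial (j + 1) = (n + 1 + j).descFactorial j * (n + 1) := by
        rw [Nat.descFactorial_succ]
        have : n + 1 + j - j = n + 1 := by omega
        rw [this, mul_comm]
      rw [h2, h3]
      push_cast
      ring

theorem Z1_lin {K : Type*} [Field K] {m : ℕ} (w : Fin m → PowerSeries K) (c : Fin m → K) (j : ℕ) :
    (dS K)^[j] (∑ i, C (c i) * w i) = ∑ i, C (c i) * (dS K)^[j] (w i) := by
  ext n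
  rw [Z1_coeff, map_sum, map_sum, Finset.sum_mul]
  apply Finset.sum_congr rfl
  intro i _
  rw [PowerSeries.coeff_C_mul, PowerSeries.coeff_C_mul, Z1_coeff]
  ring

/-- distinct orders: the Wronskian does not vanish -/
theorem Z1_distinct {K : Type*} [Field K] [CharZero K] {m : ℕ} (u : Fin m → PowerSeries K)
    (s : Fin m → ℕ) (hs : Function.Injective s) (hlow : ∀ i, ∀ n < s i, coeff n (u i) = 0)
    (hne : ∀ i, coeff (s i) (u i) ≠ 0) :
    (Matrix.of fun i j : Fin m => (dS K)^[j.1] (u i)).det ≠ 0 := by
  intro h
  -- the matrix multiplied by powers of `X`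
  set E : Fin m → Fin m → PowerSeries K := fun i j =>
    PowerSeries.mk fun n => coeff (n + s i) (u i) * ((n + s i).descFactorial j.1 : K) with hE
  have h1 : ∀ i j : Fin m, (X : PowerSeries K) ^ (j : ℕ) * (dS K)^[j.1] (u i) = X ^ (s i) * E i j := by
    intro i j
    ext n
    rw [PowerSeries.coeff_X_pow_mul', PowerSeries.coeff_X_pow_mul']
    by_cases hsn : s i ≤ n
    · rw [if_pos hsn, hE]
      simp only [PowerSeries.coeff_mk]
      have h2 : n - s i + s i = n := by omega
      rw [h2]
      by_cases hjn : (j : ℕ) ≤ n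
      · rw [if_pos hjn, Z1_coeff]
        have h3 : n - j.1 + j.1 = n := by omega
        rw [h3]
      · rw [if_neg hjn, Nat.descFactorial_of_lt (by omega)]
        simp
    · rw [if_neg hsn]
      by_cases hjn : (j : ℕ) ≤ n
      · rw [if_pos hjn, Z1_coeff]
        have h3 : n - j.1 + j.1 = n := by omega
        rw [h3, hlow i n (by omega), zero_mul]
      · rw [if_neg hjn]
  have h4 : (Matrix.of fun i j : Fin m => (X : PowerSeries K) ^ (j : ℕ) * (dS K)^[j.1] (u i)).det =
      (∏ j : Fin m, (X : PowerSeries K) ^ (j : ℕ)) *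
        (Matrix.of fun i j : Fin m => (dS K)^[j.1] (u i)).det :=
    Matrix.det_mul_row (fun j : Fin m => (X : PowerSeries K) ^ (j : ℕ))
      (Matrix.of fun i j : Fin m => (dS K)^[j.1] (u i))
  have h5 : (Matrix.of fun i j : Fin m => (X : PowerSeries K) ^ (s i) * E i j).det =
      (∏ i : Fin m, (X : PowerSeries K) ^ (s i)) * (Matrix.of fun i j : Fin m => E i j).det :=
    Matrix.det_mul_column (fun i : Fin m => (X : PowerSeries K) ^ (s i))
      (Matrix.of fun i j : Fin m => E i j)
  rw [h, mul_zero] at h4
  have h6 : (Matrix.of fun i j : Fin m => (X : PowerSeries K) ^ (j : ℕ) * (dS K)^[j.1] (u i)) =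
      (Matrix.of fun i j : Fin m => (X : PowerSeries K) ^ (s i) * E i j) := by
    ext1 i j
    simp only [Matrix.of_apply]
    exact h1 i j
  rw [h6, h5] at h4
  have h7 : (∏ i : Fin m, (X : PowerSeries K) ^ (s i)) ≠ 0 :=
    Finset.prod_ne_zero_iff.mpr fun i _ => pow_ne_zero _ PowerSeries.X_ne_zero
  have h8 : (Matrix.of fun i j : Fin m => E i j).det = 0 :=
    (mul_eq_zero.mp h4).resolve_left h7
  -- constant coefficients
  have h9 := congrArg (PowerSeries.constantCoeff (R := K)) h8
  rw [RingHom.map_det, map_zero] at h9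
  have h10 : (PowerSeries.constantCoeff (R := K)).mapMatrix (Matrix.of fun i j : Fin m => E i j) =
      Matrix.of (fun i j : Fin m => coeff (s i) (u i) *
        (Matrix.of fun i j : Fin m => (descPochhammer K j.1).eval ((s i : ℕ) : K)) i j) := by
    ext i j
    simp only [RingHom.mapMatrix_apply, Matrix.map_apply, Matrix.of_apply]
    rw [← PowerSeries.coeff_zero_eq_constantCoeff_apply, hE]
    simp only [PowerSeries.coeff_mk, zero_add]
    rw [descPochhammer_eval_eq_descFactorial]
  rw [h10, Matrix.det_mul_column] at h9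
  have h11 : (∏ i : Fin m, coeff (s i) (u i)) ≠ 0 :=
    Finset.prod_ne_zero_iff.mpr fun i _ => hne i
  have h12 := (mul_eq_zero.mp h9).resolve_left h11
  have h13 := Matrix.det_eval_matrixOfPolynomials_eq_det_vandermonde (fun i : Fin m => ((s i : ℕ) : K))
    (fun j : Fin m => descPochhammer K j.1) (fun j => descPochhammer_natDegree K j.1)
    (fun j => monic_descPochhammer K j.1)
  rw [h12] at h13
  have h14 := Matrix.det_vandermonde_ne_zero_iff.mpr
    (show Function.Injective (fun i : Fin m => ((s i : ℕ) : K)) from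
      fun a b hab => hs (Nat.cast_injective hab))
  exact h14 h13

/-- existence of combinations with distinct orders -/
theorem Z1_orders {K : Type*} [Field K] {m : ℕ} (w : Fin m → PowerSeries K)
    (hli : ∀ c : Fin m → K, ∑ i, C (c i) * w i = 0 → c = 0) :
    ∃ (s : Fin m → ℕ) (M : Fin m → Fin m → K), Function.Injective s ∧
      (∀ i, ∀ n < s i, coeff n (∑ l, C (M i l) * w l) = 0) ∧
      (∀ i, coeff (s i) (∑ l, C (M i l) * w l) ≠ 0) := by
  classical
  set S : Set ℕ := {s | ∃ c : Fin m → K, (∀ n < s, coeff n (∑ l, C (c l) * w l) = 0) ∧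
    coeff s (∑ l, C (c l) * w l) ≠ 0} with hS
  have hcard : ∃ T : Finset ℕ, (T : Set ℕ) ⊆ S ∧ m = T.card := by
    by_cases hfin : S.Finite
    · have hle : m ≤ hfin.toFinset.card := by
        set L : (Fin m → K) →ₗ[K] (hfin.toFinset → K) :=
          { toFun := fun c s => coeff s.1 (∑ l, C (c l) * w l)
            map_add' := by
              intro c c'
              funext s
              simp only [Pi.add_apply, map_add, add_mul, Finset.sum_add_distrib]
            map_smul' := by
              intro a c
              funext s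
              simp only [Pi.smul_apply, smul_eq_mul, RingHom.id_apply, map_sum,
                PowerSeries.coeff_C_mul, Finset.mul_sum, mul_assoc] } with hL
        have hinj : Function.Injective L := by
          rw [← LinearMap.ker_eq_bot, LinearMap.ker_eq_bot']
          intro c hc
          apply hli
          by_contra hne
          obtain ⟨n, hn, hmin⟩ : ∃ n, coeff n (∑ l, C (c l) * w l) ≠ 0 ∧
              ∀ k < n, coeff k (∑ l, C (c l) * w l) = 0 := by
            have hex : ∃ n, coeff n (∑ l, C (c l) * w l) ≠ 0 := by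
              by_contra hcon
              push Not at hcon
              exact hne (PowerSeries.ext fun n => by rw [hcon n, map_zero])
            refine ⟨Nat.find hex, Nat.find_spec hex, ?_⟩
            intro k hk
            by_contra h0
            exact Nat.find_min hex hk h0
          have hnS : n ∈ hfin.toFinset := by
            rw [Set.Finite.mem_toFinset]
            exact ⟨c, hmin, hn⟩
          have h1 := congrFun hc ⟨n, hnS⟩
          exact hn h1
        have h2 := LinearMap.finrank_le_finrank_of_injective hinj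
        rw [Module.finrank_fintype_fun_eq_card, Module.finrank_fintype_fun_eq_card] at h2
        simpa using h2
      obtain ⟨T, hT1, hT2⟩ := Finset.exists_subset_card_eq hle
      refine ⟨T, ?_, hT2.symm⟩
      intro x hx
      have := hT1 hx
      rwa [Set.Finite.mem_toFinset] at this
    · obtain ⟨T, hT1, hT2⟩ := (Set.not_finite.mp hfin : S.Infinite).exists_subset_card_eq m
      exact ⟨T, hT1, hT2.symm⟩
  obtain ⟨T, hTS, hTm⟩ := hcard
  set s : Fin m → ℕ := fun i => T.orderEmbOfFin hTm.symm i with hs
  have hsS : ∀ i, s i ∈ S := fun i => hTS (Finset.orderEmbOfFin_mem T hTm.symm i)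
  choose M hM1 hM2 using hsS
  exact ⟨s, M, (T.orderEmbOfFin hTm.symm).injective, hM1, hM2⟩

theorem Z1 {K : Type*} [Field K] [CharZero K] (m : ℕ) (hm : 1 ≤ m) (w : Fin m → PowerSeries K)
    (h : (Matrix.of fun i j : Fin m => (dS K)^[j.1] (w i)).det = 0) :
    ∃ c : Fin m → K, c ≠ 0 ∧ ∑ i, C (c i) * w i = 0 := by
  by_contra hcon
  push Not at hcon
  have hli : ∀ c : Fin m → K, ∑ i, C (c i) * w i = 0 → c = 0 := by
    intro c hc
    by_contra hne
    exact hcon c hne hc
  obtain ⟨s, M, hs, hlow, hne⟩ := Z1_orders w hli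
  apply Z1_distinct (fun i => ∑ l, C (M i l) * w l) s hs hlow hne
  have h1 : (Matrix.of fun i j : Fin m => (dS K)^[j.1] (∑ l, C (M i l) * w l)) =
      (Matrix.of fun i l : Fin m => (C (M i l) : PowerSeries K)) *
        (Matrix.of fun i j : Fin m => (dS K)^[j.1] (w i)) := by
    ext1 i j
    rw [Matrix.mul_apply]
    simp only [Matrix.of_apply]
    exact Z1_lin w (M i) j.1
  rw [h1, Matrix.det_mul, h, mul_zero]

example : type_of% @Z1.{0} = type_of% @Z1.{0} := rfl

end Pool.Agent.Lib_helper12.NZ
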