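import Pool.Agent.Lib_helper12.NZ.Base

/-! NZ block Z2: fundamental matrices of power series. -/

set_option autoImplicit false

open Finset
open scoped ENNReal

namespace Pool.Agent.Lib_helper12.NZ

open PowerSeries

/-- the coefficients of the fundamental matrix -/
noncomputable def Z2_c {K : Type*} [Field K] {m : ℕ} (A : ℕ → Matrix (Fin m) (Fin m) K) :
    ℕ → Matrix (Fin m) (Fin m) K
  | 0 => 1
  | n + 1 => -(((n : K) + 1)⁻¹ • ∑ i : Fin (n + 1), Z2_c A i.1 * A (n - i.1))
termination_by n => n
decreasing_by exact i.2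

/-- Z2: fundamental matrices of power series -/
theorem Z2 {K : Type*} [Field K] [CharZero K] (m : ℕ) (A : Matrix (Fin m) (Fin m) (PowerSeries K)) :
    ∃ Z : Matrix (Fin m) (Fin m) (PowerSeries K), Z.map (dS K) = - (Z * A) ∧
      Z.map (fun f => constantCoeff f) = 1 := by
  set Ac : ℕ → Matrix (Fin m) (Fin m) K := fun n => A.map (fun f => coeff n f) with hAc
  refine ⟨Matrix.of fun i j => PowerSeries.mk fun n => Z2_c Ac n i j, ?_, ?_⟩
  · ext i j n
    rw [Matrix.map_apply, Matrix.of_apply, dS, PowerSeries.coeff_derivative, PowerSeries.coeff_mk,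
      Z2_c, Matrix.neg_apply, Matrix.neg_apply, Matrix.smul_apply, Matrix.sum_apply,
      Matrix.mul_apply, map_neg, map_sum, smul_eq_mul]
    have h1 : ((n : K) + 1) ≠ 0 := by exact_mod_cast Nat.succ_ne_zero n
    have h2 : ∀ S : K, -(((n : K) + 1)⁻¹ * S) * (((n : ℕ) : K) + 1) = -S := by
      intro S; field_simp
    rw [h2, neg_inj]
    have h3 : ∀ k : Fin m, coeff n ((Matrix.of fun i j => PowerSeries.mk fun n => Z2_c Ac n i j :
        Matrix (Fin m) (Fin m) (PowerSeries K)) i k * A k j) =
        ∑ a : Fin (n + 1), Z2_c Ac a.1 i k * Ac (n - a.1) k j := by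
      intro k
      rw [PowerSeries.coeff_mul, Finset.Nat.sum_antidiagonal_eq_sum_range_succ_mk,
        Finset.sum_range]
      apply Finset.sum_congr rfl
      intro a _
      rw [Matrix.of_apply, PowerSeries.coeff_mk, hAc]
      rfl
    rw [Finset.sum_congr rfl (fun k _ => h3 k), Finset.sum_comm]
    apply Finset.sum_congr rfl
    intro a _
    rw [Matrix.mul_apply]
  · ext i j
    rw [Matrix.map_apply, Matrix.of_apply, ← PowerSeries.coeff_zero_eq_constantCoeff_apply,
      PowerSeries.coeff_mk, Z2_c]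

end Pool.Agent.Lib_helper12.NZ
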