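import Pool.Agent.Lib_helper12.NZ.Base

/-! NZ block Z3: rows of bounded degree. -/

set_option autoImplicit false

open Finset
open scoped ENNReal

namespace Pool.Agent.Lib_helper12.NZ

open PowerSeries

/-- core version: a homomorphism of domains, integer coefficients -/
theorem Z3_core {R S : Type} [CommRing R] [IsDomain R] [CommRing S] [IsDomain S] (m : ℕ)
    (τ : R →+* S) (hτ : Function.Injective τ) (Z : Matrix (Fin m) (Fin m) S) :
    ∃ (t : ℕ) (N : Fin m → Fin m → Fin t → R), ∀ (k : Fin m → R) (P : Fin m → R),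
      (∃ j, ∑ i, τ (k i) * Z i j ≠ 0) → (∑ j, (∑ i, τ (k i) * Z i j) * τ (P j) = 0) →
      ∃ r : Fin t, (∃ j, ∑ i, k i * N i j r ≠ 0) ∧ ∑ j, (∑ i, k i * N i j r) * P j = 0 := by
  classical
  let F := FractionRing R
  let L := FractionRing S
  let φ : F →+* L := IsFractionRing.map hτ
  letI : Algebra F L := φ.toAlgebra
  have hφ : ∀ a : R, φ (algebraMap R F a) = algebraMap S L (τ a) := fun a =>
    IsLocalization.map_eq _ a
  have hsmul : ∀ (a : R) (x : L), (algebraMap R F a) • x = algebraMap S L (τ a) * x := by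
    intro a x
    rw [Algebra.smul_def]
    change φ (algebraMap R F a) * x = _
    rw [hφ]
  let V : Submodule F L := Submodule.span F (Set.range fun p : Fin m × Fin m =>
    algebraMap S L (Z p.1 p.2))
  haveI : Module.Finite F V := Module.Finite.span_of_finite F (Set.finite_range _)
  let z : Fin m → Fin m → V := fun i j => ⟨algebraMap S L (Z i j),
    Submodule.subset_span ⟨(i, j), rfl⟩⟩
  let b := Module.finBasis F V
  obtain ⟨g, hg⟩ := IsLocalization.exist_integer_multiples_of_finite (nonZeroDivisors R)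
    (fun x : Fin m × Fin m × Fin (Module.finrank F V) => b.repr (z x.1 x.2.1) x.2.2)
  choose N hN using fun i => fun j => fun r => hg (i, j, r)
  have hg0 : algebraMap R F (g : R) ≠ 0 := by
    intro h
    exact nonZeroDivisors.ne_zero g.2 ((IsFractionRing.injective R F) (by rw [h, map_zero]))
  have hN' : ∀ i j r, algebraMap R F (N i j r) = algebraMap R F (g : R) * b.repr (z i j) r := by
    intro i j r
    have h := hN i j r
    rw [h, Algebra.smul_def]
  have hval : ∀ (w : Fin m → Fin m → R), (((∑ j, ∑ i, (algebraMap R F (w i j)) • z i j : V) : L)) =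
      algebraMap S L (∑ j, ∑ i, τ (w i j) * Z i j) := by
    intro w
    simp only [Submodule.coe_sum, Submodule.coe_smul, map_sum, map_mul]
    apply Finset.sum_congr rfl
    intro j _
    apply Finset.sum_congr rfl
    intro i _
    exact hsmul _ _
  refine ⟨Module.finrank F V, N, fun k P h1 h2 => ?_⟩
  obtain ⟨j0, hj0⟩ := h1
  -- the vector at the column j0
  have h3 : (∑ i, (algebraMap R F (k i)) • z i j0 : V) ≠ 0 := by
    intro h0
    apply hj0
    have h4 : algebraMap S L (∑ i, τ (k i) * Z i j0) = 0 := by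
      have h5 := congrArg (fun v : V => (v : L)) h0
      simp only [Submodule.coe_sum, Submodule.coe_smul, Submodule.coe_zero] at h5
      rw [← h5, map_sum]
      apply Finset.sum_congr rfl
      intro i _
      rw [map_mul]
      exact (hsmul _ _).symm
    exact (IsFractionRing.injective S L) (by rw [h4, map_zero])
  obtain ⟨r, hr⟩ : ∃ r, b.repr (∑ i, (algebraMap R F (k i)) • z i j0 : V) r ≠ 0 := by
    by_contra hcon
    push Not at hcon
    apply h3
    have : b.repr (∑ i, (algebraMap R F (k i)) • z i j0 : V) = 0 := Finsupp.ext hcon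
    exact (LinearEquiv.map_eq_zero_iff _).mp this
  refine ⟨r, ⟨j0, ?_⟩, ?_⟩
  · intro h0
    apply hr
    have h4 : algebraMap R F (∑ i, k i * N i j0 r) =
        algebraMap R F (g : R) * b.repr (∑ i, (algebraMap R F (k i)) • z i j0 : V) r := by
      rw [map_sum, map_sum, Finsupp.finsetSum_apply, Finset.mul_sum]
      apply Finset.sum_congr rfl
      intro i _
      rw [map_mul, hN', map_smul, Finsupp.smul_apply, smul_eq_mul]
      ring
    rw [h0, map_zero] at h4
    exact (mul_eq_zero.mp h4.symm).resolve_left hg0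
  · apply IsFractionRing.injective R F
    rw [map_zero]
    have h5 : (∑ j, ∑ i, (algebraMap R F (k i * P j)) • z i j : V) = 0 := by
      apply Subtype.ext
      rw [hval (fun i j => k i * P j)]
      have h6 : ∑ j, ∑ i, τ (k i * P j) * Z i j = ∑ j, (∑ i, τ (k i) * Z i j) * τ (P j) := by
        apply Finset.sum_congr rfl
        intro j _
        rw [Finset.sum_mul]
        apply Finset.sum_congr rfl
        intro i _
        rw [map_mul]; ring
      rw [h6, h2, map_zero]
      rfl
    have h7 : algebraMap R F (∑ j, (∑ i, k i * N i j r) * P j) =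
        algebraMap R F (g : R) * b.repr (∑ j, ∑ i, (algebraMap R F (k i * P j)) • z i j : V) r := by
      rw [map_sum, map_sum, Finsupp.finsetSum_apply, Finset.mul_sum]
      apply Finset.sum_congr rfl
      intro j _
      rw [map_mul, map_sum, map_sum, Finsupp.finsetSum_apply, Finset.mul_sum, Finset.sum_mul]
      apply Finset.sum_congr rfl
      intro i _
      rw [map_mul, hN', map_smul, Finsupp.smul_apply, smul_eq_mul, map_mul]
      ring
    rw [h7, h5, map_zero, Finsupp.zero_apply, mul_zero]

/-- Z3: rows of bounded degree -/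
theorem Z3 (m : ℕ) (τ : Polynomial ℤ →+* PowerSeries ℚ) (hτ : Function.Injective τ)
    (Z : Matrix (Fin m) (Fin m) (PowerSeries ℚ)) :
    ∃ d : ℕ, ∀ (c : Fin m → ℚ) (P : Fin m → Polynomial ℤ),
      (∃ j, ∑ i, C (c i) * Z i j ≠ 0) → (∑ j, (∑ i, C (c i) * Z i j) * τ (P j) = 0) →
      ∃ ℓ : Fin m → Polynomial ℤ, ℓ ≠ 0 ∧ (∀ j, (ℓ j).natDegree ≤ d) ∧ ∑ j, ℓ j * P j = 0 := by
  classical
  obtain ⟨t, N, hN⟩ := Z3_core m τ hτ Z
  refine ⟨Finset.univ.sup fun x : Fin m × Fin m × Fin t => (N x.1 x.2.1 x.2.2).natDegree, ?_⟩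
  intro c P h1 h2
  obtain ⟨D, hD⟩ := IsLocalization.exist_integer_multiples_of_finite (nonZeroDivisors ℤ) c
  choose k hk using hD
  have hD0 : ((D : ℤ) : ℚ) ≠ 0 := by exact_mod_cast nonZeroDivisors.ne_zero D.2
  have hk' : ∀ i, (k i : ℚ) = ((D : ℤ) : ℚ) * c i := by
    intro i
    have := hk i
    simpa [zsmul_eq_mul] using this
  -- `τ` on integer constants
  have hτC : ∀ a : ℤ, τ (Polynomial.C a) = (C ((a : ℤ) : ℚ) : PowerSeries ℚ) := by
    intro a
    rw [show (Polynomial.C a : Polynomial ℤ) = ((a : ℤ) : Polynomial ℤ) from by simp, map_intCast,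
      map_intCast]
  have hrow : ∀ j, ∑ i, τ (Polynomial.C (k i)) * Z i j = C ((D : ℤ) : ℚ) * ∑ i, C (c i) * Z i j := by
    intro j
    rw [Finset.mul_sum]
    apply Finset.sum_congr rfl
    intro i _
    rw [hτC, hk', map_mul]
    ring
  have hCD : (C ((D : ℤ) : ℚ) : PowerSeries ℚ) ≠ 0 := by
    intro h
    apply hD0
    have := congrArg (constantCoeff) h
    simpa using this
  obtain ⟨r, ⟨j0, hj0⟩, hr⟩ := hN (fun i => Polynomial.C (k i)) P (by
      obtain ⟨j, hj⟩ := h1
      refine ⟨j, ?_⟩
      rw [hrow]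
      exact mul_ne_zero hCD hj) (by
      have : ∑ j, (∑ i, τ (Polynomial.C (k i)) * Z i j) * τ (P j) =
          C ((D : ℤ) : ℚ) * ∑ j, (∑ i, C (c i) * Z i j) * τ (P j) := by
        rw [Finset.mul_sum]
        apply Finset.sum_congr rfl
        intro j _
        rw [hrow]; ring
      rw [this, h2, mul_zero])
  refine ⟨fun j => ∑ i, Polynomial.C (k i) * N i j r, ?_, ?_, hr⟩
  · intro h
    exact hj0 (congrFun h j0)
  · intro j
    apply Polynomial.natDegree_sum_le_of_forall_le
    intro i _
    refine (Polynomial.natDegree_C_mul_le _ _).trans ?_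
    exact Finset.le_sup (f := fun x : Fin m × Fin m × Fin t => (N x.1 x.2.1 x.2.2).natDegree)
      (Finset.mem_univ (i, j, r))

end Pool.Agent.Lib_helper12.NZ
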