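import Pool.Agent.Lib_helper12.NZ.Base

/-! NZ block Z4: orders of bounded combinations. -/

set_option autoImplicit false

open Finset
open scoped ENNReal

namespace Pool.Agent.Lib_helper12.NZ

open PowerSeries

/-- the polynomials with given coefficients -/
noncomputable def Z4_pol {d : ℕ} (u : Fin (d + 1) → ℤ) : Polynomial ℤ :=
  ∑ a : Fin (d + 1), Polynomial.monomial a.1 (u a)

theorem Z4_pol_coeff {d : ℕ} (u : Fin (d + 1) → ℤ) (n : ℕ) :
    (Z4_pol u).coeff n = if h : n < d + 1 then u ⟨n, h⟩ else 0 := by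
  unfold Z4_pol
  rw [Polynomial.finset_sum_coeff]
  simp only [Polynomial.coeff_monomial]
  split_ifs with h
  · rw [Finset.sum_eq_single (⟨n, h⟩ : Fin (d + 1))]
    · simp
    · intro b _ hb
      rw [if_neg]
      intro hc
      exact hb (Fin.ext hc)
    · intro hc; exact absurd (Finset.mem_univ _) hc
  · apply Finset.sum_eq_zero
    intro b _
    rw [if_neg]
    intro hc
    exact h (hc ▸ b.2)

/-- the coefficients of a combination -/
theorem Z4_coeff (m d : ℕ) (Y : Fin m → PowerSeries ℤ) (ℓ : Fin m → Polynomial ℤ)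
    (hℓ : ∀ j, (ℓ j).natDegree ≤ d) (l : ℕ) :
    coeff l (∑ i, (ℓ i : PowerSeries ℤ) * Y i) =
      ∑ i, ∑ a : Fin (d + 1), (ℓ i).coeff a.1 * (if a.1 ≤ l then coeff (l - a.1) (Y i) else 0) := by
  rw [map_sum]
  apply Finset.sum_congr rfl
  intro i _
  rw [PowerSeries.coeff_mul, Finset.Nat.sum_antidiagonal_eq_sum_range_succ_mk]
  have h1 : ∀ a : ℕ, coeff a (ℓ i : PowerSeries ℤ) = (ℓ i).coeff a := fun a =>
    Polynomial.coeff_coe _ _
  simp only [h1]
  have h2 : ∑ a : Fin (d + 1), (ℓ i).coeff a.1 * (if a.1 ≤ l then coeff (l - a.1) (Y i) else 0) =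
      ∑ a ∈ Finset.range (d + 1), (ℓ i).coeff a * (if a ≤ l then coeff (l - a) (Y i) else 0) :=
    (Finset.sum_range (fun a => (ℓ i).coeff a * (if a ≤ l then coeff (l - a) (Y i) else 0))).symm
  rw [h2]
  -- compare both with the sum over range (d + l + 2)
  have h3 : ∑ a ∈ Finset.range l.succ, (ℓ i).coeff a * coeff (l - a) (Y i) =
      ∑ a ∈ Finset.range (d + l + 2), (ℓ i).coeff a * (if a ≤ l then coeff (l - a) (Y i) else 0) := by
    rw [← Finset.sum_subset (Finset.range_subset_range.mpr (show l.succ ≤ d + l + 2 by omega))]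
    · apply Finset.sum_congr rfl
      intro a ha
      rw [Finset.mem_range] at ha
      rw [if_pos (by omega)]
    · intro a _ ha
      rw [Finset.mem_range] at ha
      rw [if_neg (by omega), mul_zero]
  have h4 : ∑ a ∈ Finset.range (d + 1), (ℓ i).coeff a * (if a ≤ l then coeff (l - a) (Y i) else 0) =
      ∑ a ∈ Finset.range (d + l + 2), (ℓ i).coeff a * (if a ≤ l then coeff (l - a) (Y i) else 0) := by
    apply Finset.sum_subset (Finset.range_subset_range.mpr (by omega))
    intro a _ ha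
    rw [Finset.mem_range] at ha
    rw [Polynomial.coeff_eq_zero_of_natDegree_lt (by have := hℓ i; omega), zero_mul]
  rw [h3, h4]

/-- the functional on rational vectors -/
noncomputable def Z4_c (m d : ℕ) (Y : Fin m → PowerSeries ℤ) (l : ℕ) :
    (Fin m → Fin (d + 1) → ℚ) →ₗ[ℚ] ℚ where
  toFun v := ∑ i, ∑ a : Fin (d + 1),
    v i a * ((if a.1 ≤ l then coeff (l - a.1) (Y i) else 0 : ℤ) : ℚ)
  map_add' v w := by
    simp only [Pi.add_apply, add_mul, Finset.sum_add_distrib]
  map_smul' c v := by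
    simp only [Pi.smul_apply, smul_eq_mul, RingHom.id_apply, Finset.mul_sum, mul_assoc]

/-- the decreasing chain -/
noncomputable def Z4_W (m d : ℕ) (Y : Fin m → PowerSeries ℤ) (k : ℕ) :
    Submodule ℚ (Fin m → Fin (d + 1) → ℚ) :=
  ⨅ l : Fin k, LinearMap.ker (Z4_c m d Y l.1)

theorem Z4_mem (m d : ℕ) (Y : Fin m → PowerSeries ℤ) (k : ℕ) (v : Fin m → Fin (d + 1) → ℚ) :
    v ∈ Z4_W m d Y k ↔ ∀ l < k, Z4_c m d Y l v = 0 := by
  unfold Z4_W
  rw [Submodule.mem_iInf]
  simp only [LinearMap.mem_ker]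
  constructor
  · intro h l hl; exact h ⟨l, hl⟩
  · intro h l; exact h l.1 l.2

/-- Z4: orders of bounded combinations -/
theorem Z4 (m : ℕ) (Y : Fin m → PowerSeries ℤ)
    (hY : ∀ c : Fin m → Polynomial ℤ, ∑ i, (c i : PowerSeries ℤ) * Y i = 0 → c = 0) (d : ℕ) :
    ∃ n1 : ℕ, ∀ ℓ : Fin m → Polynomial ℤ, ℓ ≠ 0 → (∀ j, (ℓ j).natDegree ≤ d) →
      ∃ l ≤ n1, coeff l (∑ i, (ℓ i : PowerSeries ℤ) * Y i) ≠ 0 := by
  have hmono : Antitone (Z4_W m d Y) := by
    intro a b hab v hv
    rw [Z4_mem] at hv ⊢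
    exact fun l hl => hv l (by omega)
  obtain ⟨n, hn⟩ := IsArtinian.monotone_stabilizes
    (⟨fun k => OrderDual.toDual (Z4_W m d Y k), fun a b hab => hmono hab⟩ :
      ℕ →o (Submodule ℚ (Fin m → Fin (d + 1) → ℚ))ᵒᵈ)
  have hn' : ∀ k, n ≤ k → Z4_W m d Y n = Z4_W m d Y k := fun k hk => hn k hk
  have hall : ∀ v ∈ Z4_W m d Y n, ∀ l, Z4_c m d Y l v = 0 := by
    intro v hv l
    have h1 : v ∈ Z4_W m d Y (max n (l + 1)) := by
      rw [← hn' _ (le_max_left _ _)]; exact hv
    rw [Z4_mem] at h1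
    exact h1 l (by omega)
  -- integral vectors
  have hint : ∀ u : Fin m → Fin (d + 1) → ℤ, (∀ l, Z4_c m d Y l (fun i a => (u i a : ℚ)) = 0) →
      u = 0 := by
    intro u hu
    have hdeg : ∀ j, (Z4_pol (u j)).natDegree ≤ d := by
      intro j
      rw [Polynomial.natDegree_le_iff_coeff_eq_zero]
      intro N hN
      rw [Z4_pol_coeff, dif_neg (by omega)]
    have h1 : ∑ i, ((Z4_pol (u i) : Polynomial ℤ) : PowerSeries ℤ) * Y i = 0 := by
      ext l
      rw [Z4_coeff m d Y _ hdeg l, map_zero]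
      have h2 := hu l
      have h3 : ((∑ i, ∑ a : Fin (d + 1), (Z4_pol (u i)).coeff a.1 *
          (if a.1 ≤ l then coeff (l - a.1) (Y i) else 0) : ℤ) : ℚ) = 0 := by
        rw [← h2]
        simp only [Z4_c, LinearMap.coe_mk, AddHom.coe_mk]
        rw [Int.cast_sum]
        apply Finset.sum_congr rfl
        intro i _
        rw [Int.cast_sum]
        apply Finset.sum_congr rfl
        intro a _
        rw [Z4_pol_coeff, dif_pos a.2, Int.cast_mul]
      exact_mod_cast h3
    have h2 := hY _ h1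
    funext i a
    have h3 := congrArg (fun p => Polynomial.coeff p a.1) (congrFun h2 i)
    simp only [Z4_pol_coeff, dif_pos a.2, Pi.zero_apply, Polynomial.coeff_zero] at h3
    exact h3
  have hzero : ∀ v ∈ Z4_W m d Y n, v = 0 := by
    intro v hv
    obtain ⟨b, hb⟩ := IsLocalization.exist_integer_multiples_of_finite (nonZeroDivisors ℤ)
      (fun x : Fin m × Fin (d + 1) => v x.1 x.2)
    choose u hu using fun i => fun a => hb (i, a)
    have hbq : ((b : ℤ) : ℚ) ≠ 0 := by exact_mod_cast nonZeroDivisors.ne_zero b.2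
    have h1 : (fun i a => (u i a : ℚ)) = ((b : ℤ) : ℚ) • v := by
      funext i a
      have := hu i a
      simp only [eq_intCast, Submonoid.smul_def, zsmul_eq_mul] at this
      rw [this]
      simp [smul_eq_mul]
    have h2 := hint (fun i a => u i a) (by
      intro l
      rw [h1, map_smul, hall v hv l, smul_zero])
    have h3 : ((b : ℤ) : ℚ) • v = 0 := by
      rw [← h1]
      funext i a
      have h4 : u i a = 0 := congrFun (congrFun h2 i) a
      simp [h4]
    exact (smul_eq_zero.mp h3).resolve_left hbq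
  refine ⟨n, fun ℓ hℓ hdeg => ?_⟩
  by_contra hcon
  push Not at hcon
  apply hℓ
  have h1 : (fun (i : Fin m) (a : Fin (d + 1)) => (((ℓ i).coeff a.1 : ℤ) : ℚ)) ∈ Z4_W m d Y n := by
    rw [Z4_mem]
    intro l hl
    have h2 := hcon l hl.le
    rw [Z4_coeff m d Y ℓ hdeg l] at h2
    have h3 : ((∑ i, ∑ a : Fin (d + 1), (ℓ i).coeff a.1 *
        (if a.1 ≤ l then coeff (l - a.1) (Y i) else 0) : ℤ) : ℚ) = 0 := by rw [h2]; simp
    rw [← h3]
    simp only [Z4_c, LinearMap.coe_mk, AddHom.coe_mk]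
    rw [Int.cast_sum]
    apply Finset.sum_congr rfl
    intro i _
    rw [Int.cast_sum]
    apply Finset.sum_congr rfl
    intro a _
    rw [Int.cast_mul]
  have h2 := hzero _ h1
  funext i
  ext a
  by_cases ha : a < d + 1
  · have h3 := congrFun (congrFun h2 i) ⟨a, ha⟩
    simp only [Pi.zero_apply, Int.cast_eq_zero] at h3
    rw [h3, Pi.zero_apply, Polynomial.coeff_zero]
  · rw [Polynomial.coeff_eq_zero_of_natDegree_lt (by have := hdeg i; omega), Pi.zero_apply,
      Polynomial.coeff_zero]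

end Pool.Agent.Lib_helper12.NZ
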