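import Pool.Agent.Lib_helper12.NZ.Base

/-! NZ block Z5: the bracket seen through the fundamental matrix. -/

set_option autoImplicit false

open Finset
open scoped ENNReal

namespace Pool.Agent.Lib_helper12.NZ

open PowerSeries

theorem Z5_dS_mul (a b : PowerSeries ℚ) : dS ℚ (a * b) = dS ℚ a * b + a * dS ℚ b := by
  unfold dS
  rw [Derivation.leibniz, smul_eq_mul, smul_eq_mul]
  ring

theorem Z5_dS_sum {ι : Type*} (s : Finset ι) (f : ι → PowerSeries ℚ) :
    dS ℚ (∑ i ∈ s, f i) = ∑ i ∈ s, dS ℚ (f i) := by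
  unfold dS
  rw [map_sum]

theorem Z5_dS_pow (a : PowerSeries ℚ) (k : ℕ) :
    a * dS ℚ (a ^ k) = (k : PowerSeries ℚ) * dS ℚ a * a ^ k := by
  induction k with
  | zero => simp [dS]
  | succ k ih =>
    rw [pow_succ, Z5_dS_mul, mul_add, ← mul_assoc, ih]
    push_cast
    ring

theorem Z5_mv {m : ℕ} (Z : Matrix (Fin m) (Fin m) (PowerSeries ℚ)) (w : Fin m → PowerSeries ℚ)
    (i : Fin m) : Z.mulVec w i = ∑ j, Z i j * w j := rfl

/-- Z5: the bracket seen through the fundamental matrix -/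
theorem Z5 (m : ℕ) (b : ℕ → Polynomial ℤ) (τ : Polynomial ℤ →+* PowerSeries ℚ)
    (hd : ∀ p, τ (dP ℤ p) = dS ℚ (τ p)) (U : PowerSeries ℚ) (hU : U * τ (b m) = 1)
    (A Z : Matrix (Fin m) (Fin m) (PowerSeries ℚ))
    (hA : ∀ v : Fin m → Polynomial ℤ, ∀ i,
      (A.mulVec fun j => τ (v j)) i = U * τ (opA m b v i))
    (hZ : Z.map (dS ℚ) = - (Z * A)) (P : Fin m → Polynomial ℤ) (k : ℕ) (i : Fin m) :
    τ (b m) ^ k * (dS ℚ)^[k] (Z.mulVec (fun j => τ (P j)) i) =
      Z.mulVec (fun j => τ (brk (dP ℤ) m b k P j)) i := by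
  -- derivative of `Z v`
  have h1 : ∀ v : Fin m → Polynomial ℤ, τ (b m) * dS ℚ (Z.mulVec (fun j => τ (v j)) i) =
      Z.mulVec (fun j => τ (b m * dP ℤ (v j) - opA m b v j)) i := by
    intro v
    have e1 : dS ℚ (Z.mulVec (fun j => τ (v j)) i) =
        (Z.map (dS ℚ)).mulVec (fun j => τ (v j)) i + Z.mulVec (fun j => τ (dP ℤ (v j))) i := by
      simp only [Z5_mv]
      rw [Z5_dS_sum, ← Finset.sum_add_distrib]
      apply Finset.sum_congr rfl
      intro j _
      rw [Z5_dS_mul, Matrix.map_apply, hd]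
    have e2 : (Z.map (dS ℚ)).mulVec (fun j => τ (v j)) i =
        - Z.mulVec (fun j => U * τ (opA m b v j)) i := by
      rw [hZ, Matrix.neg_mulVec, Pi.neg_apply, ← Matrix.mulVec_mulVec]
      congr 2
      ext1 j
      exact hA v j
    rw [e1, e2]
    simp only [Z5_mv]
    rw [mul_add, mul_neg, Finset.mul_sum, Finset.mul_sum, neg_add_eq_sub, ← Finset.sum_sub_distrib]
    apply Finset.sum_congr rfl
    intro j _
    rw [map_sub, map_mul]
    linear_combination (-(Z i j * τ (opA m b v j))) * hU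
  induction k with
  | zero => simp [brk]
  | succ k ih =>
    rw [Function.iterate_succ_apply', pow_succ]
    have h2 := Z5_dS_mul (τ (b m) ^ k) ((dS ℚ)^[k] (Z.mulVec (fun j => τ (P j)) i))
    rw [ih] at h2
    have h3 := Z5_dS_pow (τ (b m)) k
    have h4 := h1 (brk (dP ℤ) m b k P)
    have h5 : Z.mulVec (fun j => τ (brk (dP ℤ) m b (k + 1) P j)) i =
        Z.mulVec (fun j => τ (b m * dP ℤ (brk (dP ℤ) m b k P j) - opA m b (brk (dP ℤ) m b k P) j)) i -
          (k : PowerSeries ℚ) * dS ℚ (τ (b m)) * Z.mulVec (fun j => τ (brk (dP ℤ) m b k P j)) i := by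
      simp only [Z5_mv]
      rw [Finset.mul_sum, ← Finset.sum_sub_distrib]
      apply Finset.sum_congr rfl
      intro j _
      have h6 : brk (dP ℤ) m b (k + 1) P j = (b m * dP ℤ (brk (dP ℤ) m b k P j) -
        opA m b (brk (dP ℤ) m b k P) j) - (k : Polynomial ℤ) * dP ℤ (b m) * brk (dP ℤ) m b k P j := rfl
      rw [h6, map_sub, map_mul τ (_ * _) _, map_mul τ (k : Polynomial ℤ), map_natCast, hd]
      ring
    rw [h5, ← h4, h2, ← ih]
    linear_combination ((dS ℚ)^[k] (Z.mulVec (fun j => τ (P j)) i)) * (-1) * h3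

end Pool.Agent.Lib_helper12.NZ
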