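import Pool.Agent.Lib_helper12.NZ.Base
import Pool.Agent.Lib_helper12.NZ.Fin.U_NZ_Z1_helper30
import Pool.Agent.Lib_helper12.NZ.Fin.U_NZ_Z2_helper18
import Pool.Agent.Lib_helper12.NZ.Fin.U_NZ_Z3_helper18
import Pool.Agent.Lib_helper12.NZ.Fin.U_NZ_Z4_helper18
import Pool.Agent.Lib_helper12.NZ.Fin.U_NZ_Z5_helper18

/-!
# NZ, block Z6: the zero estimate; cites Z1, Z2, Z3, Z4, Z5
-/

set_option autoImplicit false

open Finset
open scoped ENNReal

namespace Pool.Agent.Lib_helper12.NZ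

section arithmetic
open PowerSeries

/-- Taylor expansion at the integer `z` -/
noncomputable def Z6_tau (z : ℤ) : Polynomial ℤ →+* PowerSeries ℚ :=
  (Polynomial.coeToPowerSeries.ringHom).comp
    ((Polynomial.mapRingHom (Int.castRingHom ℚ)).comp
      (Polynomial.compRingHom (Polynomial.X + Polynomial.C z)))

theorem Z6_tau_apply (z : ℤ) (p : Polynomial ℤ) : Z6_tau z p =
    (((p.comp (Polynomial.X + Polynomial.C z)).map (Int.castRingHom ℚ) : Polynomial ℚ) :
      PowerSeries ℚ) := rfl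

theorem Z6_tau_inj (z : ℤ) : Function.Injective (Z6_tau z) := by
  rw [injective_iff_map_eq_zero]
  intro p hp
  rw [Z6_tau_apply, Polynomial.coe_eq_zero_iff] at hp
  have h1 : p.comp (Polynomial.X + Polynomial.C z) = 0 :=
    Polynomial.map_injective (Int.castRingHom ℚ) Int.cast_injective
      (by rw [hp, Polynomial.map_zero])
  have h2 := congrArg (fun q : Polynomial ℤ => q.comp (Polynomial.X - Polynomial.C z)) h1
  simpa [Polynomial.comp_assoc] using h2

theorem Z6_tau_der (z : ℤ) (p : Polynomial ℤ) : Z6_tau z (dP ℤ p) = dS ℚ (Z6_tau z p) := by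
  rw [Z6_tau_apply, Z6_tau_apply, dP, dS, PowerSeries.derivative_coe, Polynomial.derivative_map,
    Polynomial.derivative_comp]
  simp

theorem Z6_tau_const (z : ℤ) (p : Polynomial ℤ) :
    constantCoeff (Z6_tau z p) = ((p.eval z : ℤ) : ℚ) := by
  rw [Z6_tau_apply, ← PowerSeries.coeff_zero_eq_constantCoeff_apply, Polynomial.coeff_coe,
    Polynomial.coeff_map, Polynomial.coeff_zero_eq_eval_zero, Polynomial.eval_comp]
  simp

theorem Z6_exists_ne {T : Polynomial ℤ} (hT : T ≠ 0) : ∃ z : ℤ, T.eval z ≠ 0 := by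
  by_contra hcon
  push Not at hcon
  exact hT (Polynomial.funext fun z => by rw [hcon z, Polynomial.eval_zero])

/-- the companion matrix -/
noncomputable def Z6_A (m : ℕ) (b : ℕ → Polynomial ℤ) (z : ℤ) (U : PowerSeries ℚ) :
    Matrix (Fin m) (Fin m) (PowerSeries ℚ) :=
  fun i j => if i.1 + 1 < m then (if j.1 = i.1 + 1 then 1 else 0) else -(U * Z6_tau z (b j))

theorem Z6_A_mul (m : ℕ) (b : ℕ → Polynomial ℤ) (z : ℤ) (U : PowerSeries ℚ)
    (hU : U * Z6_tau z (b m) = 1) (v : Fin m → Polynomial ℤ) (i : Fin m) :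
    ((Z6_A m b z U).mulVec fun j => Z6_tau z (v j)) i = U * Z6_tau z (opA m b v i) := by
  unfold Matrix.mulVec dotProduct opA Z6_A
  by_cases h : i.1 + 1 < m
  · simp only [h, if_true, dif_pos]
    rw [Finset.sum_eq_single (⟨i.1 + 1, h⟩ : Fin m)]
    · rw [if_pos rfl, one_mul, map_mul, ← mul_assoc, hU, one_mul]
    · intro j _ hj
      rw [if_neg, zero_mul]
      intro h0
      exact hj (Fin.ext h0)
    · intro h0
      exact absurd (Finset.mem_univ _) h0
  · simp only [h, if_false, dif_neg, not_false_eq_true]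
    rw [map_neg, map_sum, mul_neg, Finset.mul_sum, ← Finset.sum_neg_distrib]
    refine Finset.sum_congr rfl fun j _ => ?_
    rw [map_mul]
    ring

/-- Z6: the zero estimate -/
theorem Z6 (f : PowerSeries ℤ) (m : ℕ) (b : ℕ → Polynomial ℤ) (h : Rel f m b) :
    ∃ M0 : ℕ, ∀ (N M : ℕ) (q : Polynomial ℤ) (P : Fin m → Polynomial ℤ), M0 ≤ M → q ≠ 0 →
      q.natDegree ≤ N → (∀ i l, l < N + M →
        coeff l ((q : PowerSeries ℤ) * Yv f m i - (P i : PowerSeries ℤ)) = 0) →
      (Smat m b P).det ≠ 0 := by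
  obtain ⟨z, hz⟩ := Z6_exists_ne h.lead
  set τ : Polynomial ℤ →+* PowerSeries ℚ := Z6_tau z with hτ
  have hTc : constantCoeff (τ (b m)) ≠ 0 := by
    rw [hτ, Z6_tau_const]
    exact_mod_cast hz
  have hT0 : τ (b m) ≠ 0 := fun h0 => hTc (by rw [h0, map_zero])
  set U : PowerSeries ℚ := (τ (b m))⁻¹ with hUdef
  have hU : U * τ (b m) = 1 := PowerSeries.inv_mul_cancel _ hTc
  obtain ⟨Z, hZ1, hZ2⟩ := Z2 (K := ℚ) m (Z6_A m b z U)
  obtain ⟨d, hd⟩ := Z3 m τ (Z6_tau_inj z) Z
  obtain ⟨n1, hn1⟩ := Z4 m (Yv f m) (fun c hc => by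
    have h1 := h.min (fun i => if hi : i < m then c ⟨i, hi⟩ else 0) (by
      rw [← hc, ← Fin.sum_univ_eq_sum_range (fun i =>
        (((if hi : i < m then c ⟨i, hi⟩ else 0) : Polynomial ℤ) : PowerSeries ℤ) * (dS ℤ)^[i] f)]
      refine Finset.sum_congr rfl fun i _ => ?_
      rw [dif_pos i.2]
      rfl)
    funext i
    have h2 := h1 i.1 i.2
    rw [dif_pos i.2] at h2
    exact h2) d
  refine ⟨n1 + 1, fun N M q P hM hq hqN hR hdet => ?_⟩
  -- the Wronskian vanishes
  set w : Fin m → PowerSeries ℚ := Z.mulVec (fun j => τ (P j)) with hw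
  have hS : (Z * (Smat m b P).map τ).det = 0 := by
    rw [Matrix.det_mul]
    have h1 : ((Smat m b P).map τ).det = τ (Smat m b P).det := by
      rw [RingHom.map_det]
      rfl
    rw [h1, hdet, map_zero, mul_zero]
  have hS2 : Z * (Smat m b P).map τ =
      Matrix.of fun i j : Fin m => τ (b m) ^ j.1 * (dS ℚ)^[j.1] (w i) := by
    ext1 i j
    have h1 := Z5 m b τ (Z6_tau_der z) U hU (Z6_A m b z U) Z
      (fun v i => Z6_A_mul m b z U hU v i) hZ1 P j.1 i
    rw [Matrix.of_apply]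
    exact h1.symm
  have hW : (Matrix.of fun i j : Fin m => (dS ℚ)^[j.1] (w i)).det = 0 := by
    rw [hS2] at hS
    have h1 := Matrix.det_mul_row (fun j : Fin m => τ (b m) ^ j.1)
      (Matrix.of fun i j : Fin m => (dS ℚ)^[j.1] (w i))
    have h2 : (Matrix.of fun i j : Fin m => τ (b m) ^ j.1 *
        (Matrix.of fun i j : Fin m => (dS ℚ)^[j.1] (w i)) i j).det = 0 := hS
    rw [h1] at h2
    refine (mul_eq_zero.1 h2).resolve_left ?_
    exact Finset.prod_ne_zero_iff.2 fun j _ => pow_ne_zero _ hT0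
  obtain ⟨c, hc0, hc⟩ := Z1 m h.pos w hW
  -- the relation of bounded degree
  obtain ⟨ℓ, hℓ0, hℓd, hℓP⟩ := hd c P (by
    obtain ⟨j, hj⟩ := Function.ne_iff.1 hc0
    refine ⟨j, fun h0 => hj ?_⟩
    have h1 := congrArg (fun g : PowerSeries ℚ => constantCoeff g) h0
    simp only [map_sum, map_mul, PowerSeries.constantCoeff_C, map_zero] at h1
    have h2 : ∀ i, constantCoeff (Z i j) = if i = j then 1 else 0 := fun i => by
      have := congrFun (congrFun hZ2 i) j
      rw [Matrix.map_apply, Matrix.one_apply] at this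
      exact this
    simp only [h2, mul_ite, mul_one, mul_zero, Finset.sum_ite_eq', Finset.mem_univ, if_true] at h1
    exact h1) (by
    rw [← hc]
    simp only [hw, Matrix.mulVec, dotProduct, Finset.sum_mul, Finset.mul_sum]
    rw [Finset.sum_comm]
    refine Finset.sum_congr rfl fun i _ => Finset.sum_congr rfl fun j _ => ?_
    ring)
  obtain ⟨l, hl, hl0⟩ := hn1 ℓ hℓ0 hℓd
  set L : PowerSeries ℤ := ∑ i, (ℓ i : PowerSeries ℤ) * Yv f m i with hL
  have hqL : (q : PowerSeries ℤ) * L = ∑ i, (ℓ i : PowerSeries ℤ) *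
      ((q : PowerSeries ℤ) * Yv f m i - (P i : PowerSeries ℤ)) := by
    have h1 : ∑ i, (ℓ i : PowerSeries ℤ) * (P i : PowerSeries ℤ) = 0 := by
      have h2 := congrArg (fun g : Polynomial ℤ => (g : PowerSeries ℤ)) hℓP
      rw [Polynomial.coe_zero] at h2
      rw [← h2, ← Polynomial.coeToPowerSeries.ringHom_apply, map_sum]
      refine Finset.sum_congr rfl fun i _ => ?_
      rw [map_mul]
      rfl
    simp only [mul_sub, Finset.sum_sub_distrib]
    rw [h1, sub_zero, hL, Finset.mul_sum]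
    refine Finset.sum_congr rfl fun i _ => ?_
    ring
  have hord1 : ((N + M : ℕ) : ℕ∞) ≤ ((q : PowerSeries ℤ) * L).order := by
    refine PowerSeries.nat_le_order _ _ fun k hk => ?_
    rw [hqL, map_sum]
    refine Finset.sum_eq_zero fun i _ => ?_
    rw [PowerSeries.coeff_mul]
    refine Finset.sum_eq_zero fun p hp => ?_
    have h3 : p.1 + p.2 = k := Finset.HasAntidiagonal.mem_antidiagonal.1 hp
    rw [hR i p.2 (by omega), mul_zero]
  have hordq : ((q : PowerSeries ℤ)).order ≤ (N : ℕ∞) := by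
    have h4 : PowerSeries.coeff q.natDegree (q : PowerSeries ℤ) ≠ 0 := by
      rw [Polynomial.coeff_coe, Polynomial.coeff_natDegree]
      exact Polynomial.leadingCoeff_ne_zero.2 hq
    exact (PowerSeries.order_le _ h4).trans (by exact_mod_cast hqN)
  have hordL : L.order ≤ (n1 : ℕ∞) :=
    (PowerSeries.order_le _ hl0).trans (by exact_mod_cast hl)
  rw [PowerSeries.order_mul] at hord1
  have h5 : ((N + M : ℕ) : ℕ∞) ≤ ((N + n1 : ℕ) : ℕ∞) := by
    refine hord1.trans ?_
    push_cast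
    exact add_le_add hordq hordL
  have h6 : N + M ≤ N + n1 := by exact_mod_cast h5
  omega

end arithmetic

end Pool.Agent.Lib_helper12.NZ
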