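import Pool.Agent.Lib_helper12.NZ.Base
import Pool.Agent.Lib_helper12.NZ.Fin.U_NZ_AR10_helper41
import Pool.Agent.Lib_helper12.NZ.Fin.U_NZ_AR13_helper30
import Pool.Agent.Lib_helper12.NZ.Fin.U_NZ_AR5_helper50
import Pool.Agent.Lib_helper12.NZ.Fin.U_NZ_AR6_helper96
import Pool.Agent.Lib_helper12.NZ.Fin.U_NZ_AR7_helper87
import Pool.Agent.Lib_helper12.NZ.Fin.U_NZ_AR9_helper30
import Pool.Agent.Lib_helper12.NZ.Fin.U_NZ_Z6_helper96

/-! NZ, block AR14: minimal equations of integer series of exponential growth are regular. -/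

set_option autoImplicit false

open Finset
open scoped ENNReal

namespace Pool.Agent.Lib_helper12.NZ

section arithmetic
open PowerSeries

/-- at most geometric growth -/
def AR14_G (f : ℕ → ℝ) : Prop := ∃ B : ℝ, 1 ≤ B ∧ ∀ K, |f K| ≤ B ^ (K + 1)

theorem AR14_G_mul {f g : ℕ → ℝ} (hf : AR14_G f) (hg : AR14_G g) : AR14_G (fun K => f K * g K) := by
  obtain ⟨B, hB, h1⟩ := hf
  obtain ⟨B', hB', h2⟩ := hg
  refine ⟨B * B', one_le_mul_of_one_le_of_one_le hB hB', fun K => ?_⟩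
  rw [abs_mul, mul_pow]
  exact mul_le_mul (h1 K) (h2 K) (abs_nonneg _) (by positivity)

theorem AR14_G_pow {f : ℕ → ℝ} (hf : AR14_G f) (n : ℕ) : AR14_G (fun K => f K ^ n) := by
  induction n with
  | zero => exact ⟨1, le_rfl, fun K => by simp⟩
  | succ n ih =>
    simp only [pow_succ]
    exact AR14_G_mul ih hf

theorem AR14_G_const (c : ℝ) : AR14_G (fun _ => c) := by
  refine ⟨|c| + 1, by linarith [abs_nonneg c], fun K => ?_⟩
  have h1 : (1 : ℝ) ≤ |c| + 1 := by linarith [abs_nonneg c]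
  calc |c| ≤ |c| + 1 := by linarith
    _ = (|c| + 1) ^ 1 := (pow_one _).symm
    _ ≤ (|c| + 1) ^ (K + 1) := pow_le_pow_right₀ h1 (by omega)

theorem AR14_G_exp (c : ℝ) (α β : ℕ) : AR14_G (fun K => c ^ (α * K + β)) := by
  have h1 : (1 : ℝ) ≤ |c| + 1 := by linarith [abs_nonneg c]
  refine ⟨(|c| + 1) ^ (α + β), one_le_pow₀ h1, fun K => ?_⟩
  rw [abs_pow, ← pow_mul]
  calc |c| ^ (α * K + β) ≤ (|c| + 1) ^ (α * K + β) :=
        pow_le_pow_left₀ (abs_nonneg _) (by linarith) _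
    _ ≤ (|c| + 1) ^ ((α + β) * (K + 1)) := pow_le_pow_right₀ h1 (by nlinarith)

theorem AR14_G_lin (α β : ℕ) : AR14_G (fun K => ((α * K + β : ℕ) : ℝ)) := by
  obtain ⟨B, hB, h⟩ := AR14_G_exp 2 α β
  refine ⟨B, hB, fun K => ?_⟩
  refine le_trans ?_ (h K)
  rw [abs_of_nonneg (Nat.cast_nonneg _), abs_of_nonneg (by positivity)]
  have h3 := (Nat.lt_two_pow_self (n := α * K + β)).le
  have h4 : ((α * K + β : ℕ) : ℝ) ≤ ((2 ^ (α * K + β) : ℕ) : ℝ) := by exact_mod_cast h3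
  rw [Nat.cast_pow, Nat.cast_ofNat] at h4
  exact h4

theorem AR14_fac : ¬ AR14_G (fun K => (K.factorial : ℝ)) := by
  rintro ⟨B, hB, h⟩
  have h1 := FloorSemiring.tendsto_pow_div_factorial_atTop B
  have hB0 : 0 < B := by linarith
  have h2 : ∀ᶠ n : ℕ in Filter.atTop, B ^ n / (n.factorial : ℝ) < 1 / B :=
    h1.eventually (gt_mem_nhds (by positivity))
  obtain ⟨n, hn⟩ := h2.exists
  have h3 := h n
  have hf : (0 : ℝ) < n.factorial := by exact_mod_cast n.factorial_pos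
  rw [abs_of_pos hf] at h3
  rw [div_lt_div_iff₀ hf hB0, ← pow_succ] at hn
  linarith

theorem AR14_Y (a : ℕ → ℤ) (C0 : ℝ) (ha : ∀ n, |(a n : ℝ)| ≤ C0 ^ (n + 1)) (m : ℕ) :
    ∃ C : ℝ, 1 ≤ C ∧ ∀ i ≤ m, ∀ l,
      |((coeff l ((dS ℤ)^[i] (PowerSeries.mk a)) : ℤ) : ℝ)| ≤ C ^ (l + 1) := by
  induction m with
  | zero =>
    have hC0 : 0 ≤ C0 := by
      have := ha 0
      rw [zero_add, pow_one] at this
      exact (abs_nonneg _).trans this
    refine ⟨C0 + 1, by linarith, fun i hi l => ?_⟩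
    obtain rfl : i = 0 := by omega
    rw [Function.iterate_zero, id, PowerSeries.coeff_mk]
    exact (ha l).trans (pow_le_pow_left₀ hC0 (by linarith) _)
  | succ m ih =>
    obtain ⟨C, hC, h⟩ := ih
    refine ⟨2 * C ^ 2, by nlinarith, fun i hi l => ?_⟩
    have hle : C ≤ 2 * C ^ 2 := by nlinarith
    by_cases hi' : i ≤ m
    · exact (h i hi' l).trans (pow_le_pow_left₀ (by linarith) hle _)
    · obtain rfl : i = m + 1 := by omega
      rw [Function.iterate_succ_apply']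
      have e1 : coeff l (dS ℤ ((dS ℤ)^[m] (PowerSeries.mk a))) =
          coeff (l + 1) ((dS ℤ)^[m] (PowerSeries.mk a)) * ((l : ℤ) + 1) := by
        unfold dS
        rw [PowerSeries.coeff_derivative]
      rw [e1]
      push_cast
      rw [abs_mul]
      have h1 := h m le_rfl (l + 1)
      have h2 : |(l : ℝ) + 1| ≤ 2 ^ (l + 1) := by
        rw [abs_of_nonneg (by positivity)]
        have := (Nat.lt_two_pow_self (n := l + 1)).le
        exact_mod_cast this
      calc |((coeff (l + 1) ((dS ℤ)^[m] (PowerSeries.mk a)) : ℤ) : ℝ)| * |(l : ℝ) + 1|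
          ≤ C ^ (l + 1 + 1) * 2 ^ (l + 1) := mul_le_mul h1 h2 (abs_nonneg _) (by positivity)
        _ ≤ C ^ (2 * (l + 1)) * 2 ^ (l + 1) := by
          gcongr
          omega
        _ = (2 * C ^ 2) ^ (l + 1) := by
          rw [mul_pow, ← pow_mul]
          ring

/-- the truncation -/
noncomputable def AR14_P {m : ℕ} (f : PowerSeries ℤ) (q : Polynomial ℤ) (N : ℕ) :
    Fin m → Polynomial ℤ := fun i => PowerSeries.trunc (N + 1) ((q : PowerSeries ℤ) * Yv f m i)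

theorem AR14_P_coeff {m : ℕ} (f : PowerSeries ℤ) (q : Polynomial ℤ) (N : ℕ) (i : Fin m) (l : ℕ) :
    (AR14_P f q N i).coeff l = if l < N + 1 then coeff l ((q : PowerSeries ℤ) * Yv f m i) else 0 :=
  PowerSeries.coeff_trunc _ _ _

theorem AR14_P_deg {m : ℕ} (f : PowerSeries ℤ) (q : Polynomial ℤ) (N : ℕ) (i : Fin m) :
    (AR14_P f q N i).natDegree ≤ N := by
  rw [Polynomial.natDegree_le_iff_coeff_eq_zero]
  intro l hl
  rw [AR14_P_coeff, if_neg (by omega)]

theorem AR14_P_height {m : ℕ} (f : PowerSeries ℤ) (q : Polynomial ℤ) (N : ℕ) (i : Fin m)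
    {C Bq : ℝ} (hC : 1 ≤ C) (hBq : 0 ≤ Bq) (hq : ∀ l, |(q.coeff l : ℝ)| ≤ Bq)
    (hY : ∀ l, |((coeff l (Yv f m i) : ℤ) : ℝ)| ≤ C ^ (l + 1)) (l : ℕ) :
    |((AR14_P f q N i).coeff l : ℝ)| ≤ (N + 1 : ℕ) * (Bq * C ^ (N + 1)) := by
  rw [AR14_P_coeff]
  split_ifs with hl
  · rw [PowerSeries.coeff_mul]
    simp only [Int.cast_sum, Int.cast_mul, Polynomial.coeff_coe]
    refine (Finset.abs_sum_le_sum_abs _ _).trans ?_
    have h1 : ∀ x ∈ Finset.HasAntidiagonal.antidiagonal l, |((q.coeff x.1 : ℤ) : ℝ) *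
        ((coeff x.2 (Yv f m i) : ℤ) : ℝ)| ≤ Bq * C ^ (N + 1) := by
      intro x hx
      have hx' : x.1 + x.2 = l := Finset.HasAntidiagonal.mem_antidiagonal.1 hx
      rw [abs_mul]
      refine mul_le_mul (hq _) ((hY _).trans (pow_le_pow_right₀ hC (by omega))) (abs_nonneg _) hBq
    refine (Finset.sum_le_card_nsmul _ _ _ h1).trans ?_
    rw [Finset.Nat.card_antidiagonal, nsmul_eq_mul]
    have h2 : 0 ≤ Bq * C ^ (N + 1) := by positivity
    refine mul_le_mul_of_nonneg_right ?_ h2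
    exact_mod_cast (by omega : l + 1 ≤ N + 1)
  · simp only [Int.cast_zero, abs_zero]
    positivity

theorem AR14 (a : ℕ → ℤ) (C0 : ℝ) (ha : ∀ n, |(a n : ℝ)| ≤ C0 ^ (n + 1)) (m : ℕ)
    (b : ℕ → Polynomial ℤ) (h : Rel (PowerSeries.mk a) m b) (ρ : ℝ) (i : ℕ) (hi : i < m) :
    ¬ Irr m i ((b m).map (Int.castRingHom ℝ)) ((b i).map (Int.castRingHom ℝ)) ρ := by
  intro hirr
  have hm : 1 ≤ m := h.pos
  obtain ⟨P0, v, hv⟩ := AR13 m hm b ρ ⟨i, hi, hirr⟩
  obtain ⟨τ, C, hC, h5⟩ := AR5 m b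
  obtain ⟨CY, hCY, hY'⟩ := AR14_Y a C0 ha m
  have hY : ∀ (i : Fin m) l, |((coeff l (Yv (PowerSeries.mk a) m i) : ℤ) : ℝ)| ≤ CY ^ (l + 1) :=
    fun i l => hY' i.1 i.2.le l
  obtain ⟨C1, hC1, h6⟩ := AR6 m hm (Yv (PowerSeries.mk a) m) CY hY
  obtain ⟨M0, hM0⟩ := Z6 (PowerSeries.mk a) m b h
  -- parameters
  set α : ℕ := τ + 1 with hα
  set β : ℕ := m * (τ + 1) + M0 + 1 with hβ
  -- M = α K + β, N = 2 m M
  have key : ∀ K : ℕ, (K.factorial : ℝ) ≤ (P0.factorial : ℝ) ^ (1 * K + 0) *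
      ((m.factorial : ℝ) * (((2 * m * α * K + (2 * m * β + m * τ + 1) : ℕ) : ℝ) *
        ((((2 * m * α * K + (2 * m * β + 1) : ℕ) : ℝ) * (C1 ^ (α * K + β) *
          CY ^ (2 * m * α * K + (2 * m * β + 1)))) *
            (C * ((2 * m * α * K + (2 * m * β + m + 1) : ℕ) : ℝ)) ^ m)) ^ m) := by
    intro K
    set M : ℕ := α * K + β with hM
    have hM1 : 1 ≤ M := by omega
    have hMM : M0 ≤ M := by omega
    obtain ⟨q, hq0, hqd, hqc, hqv⟩ := h6 M hM1
    set N : ℕ := 2 * m * M with hN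
    set P : Fin m → Polynomial ℤ := AR14_P (PowerSeries.mk a) q N with hP
    have hPd : ∀ i, (P i).natDegree ≤ N := fun i => AR14_P_deg _ _ _ _
    have hR : ∀ i l, l < N + M → coeff l ((q : PowerSeries ℤ) * Yv (PowerSeries.mk a) m i -
        (P i : PowerSeries ℤ)) = 0 := by
      intro i l hl
      rw [map_sub, Polynomial.coeff_coe, hP, AR14_P_coeff]
      split_ifs with hl'
      · rw [sub_self]
      · rw [sub_zero]
        exact hqv i l (by omega) hl
    have hdet := hM0 N M q P hMM hq0 hqd hR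
    have hτ : ∀ (Δ : ℕ) (v : Fin m → Polynomial ℤ), (∀ i, (v i).natDegree ≤ Δ) →
        ∀ k i, (brk (dP ℤ) m b k v i).natDegree ≤ Δ + k * τ := by
      intro Δ v hv k i
      -- a bound for the coefficients of `v`
      obtain ⟨Bd, hBd⟩ : ∃ Bd : ℝ, ∀ i l, |((v i).coeff l : ℝ)| ≤ Bd := by
        refine ⟨∑ i, ∑ l ∈ range (Δ + 1), |((v i).coeff l : ℝ)|, fun i l => ?_⟩
        by_cases hl : l < Δ + 1
        · calc |((v i).coeff l : ℝ)| ≤ ∑ l ∈ range (Δ + 1), |((v i).coeff l : ℝ)| :=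
                Finset.single_le_sum (f := fun l => |((v i).coeff l : ℝ)|)
                  (fun _ _ => abs_nonneg _) (Finset.mem_range.2 hl)
            _ ≤ _ := Finset.single_le_sum
                (f := fun i => ∑ l ∈ range (Δ + 1), |((v i).coeff l : ℝ)|)
                (fun _ _ => Finset.sum_nonneg fun _ _ => abs_nonneg _) (Finset.mem_univ i)
        · rw [Polynomial.coeff_eq_zero_of_natDegree_lt (by have := hv i; omega)]
          simp only [Int.cast_zero, abs_zero]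
          exact Finset.sum_nonneg fun _ _ => Finset.sum_nonneg fun _ _ => abs_nonneg _
      exact (h5 Δ Bd v hv hBd k).1 i
    have hdiv : ∀ j : Fin m, ∀ k ≤ K, ∀ i,
        ((k.factorial : ℤ) : Polynomial ℤ) ∣ brk (dP ℤ) m b k (brk (dP ℤ) m b j.1 P) i := by
      intro j k hk i
      refine AR7 (PowerSeries.mk a) m b h τ hτ P q N M hPd hR j.1 k ?_ i
      have hj := j.2
      calc (j.1 + k) * (τ + 1) ≤ (m + K) * (τ + 1) := Nat.mul_le_mul_right _ (by omega)
        _ < M := by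
          rw [hM, hα, hβ]
          ring_nf
          omega
    have h9 := AR9 m b P K hdiv hdet P0 v hv K le_rfl
    -- a nonzero coefficient
    obtain ⟨l, hl⟩ : ∃ l, (Smat m b P).det.coeff l ≠ 0 := by
      by_contra hcon
      push Not at hcon
      exact hdet (Polynomial.ext (by simpa using hcon))
    have h9l := h9 l
    have hne : (P0.factorial : ℤ) ^ K * (Smat m b P).det.coeff l ≠ 0 :=
      mul_ne_zero (pow_ne_zero _ (by exact_mod_cast P0.factorial_ne_zero)) hl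
    have h10 : (K.factorial : ℤ) ≤ |(P0.factorial : ℤ) ^ K * (Smat m b P).det.coeff l| :=
      Int.le_of_dvd (abs_pos.2 hne) ((dvd_abs _ _).2 h9l)
    have h10' : (K.factorial : ℝ) ≤ (P0.factorial : ℝ) ^ K * |((Smat m b P).det.coeff l : ℝ)| := by
      have : ((K.factorial : ℤ) : ℝ) ≤
          ((|(P0.factorial : ℤ) ^ K * (Smat m b P).det.coeff l| : ℤ) : ℝ) := by exact_mod_cast h10
      rw [Int.cast_abs, Int.cast_mul, abs_mul] at this
      push_cast at this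
      rw [abs_of_nonneg (by positivity : (0 : ℝ) ≤ (P0.factorial : ℝ) ^ K)] at this
      exact this
    -- heights
    set Bq : ℝ := C1 ^ M with hBq
    have hBq1 : 1 ≤ Bq := one_le_pow₀ hC1
    set BP : ℝ := ((N + 1 : ℕ) : ℝ) * (Bq * CY ^ (N + 1)) with hBP
    have hPh : ∀ i l, |((P i).coeff l : ℝ)| ≤ BP := fun i l =>
      AR14_P_height _ _ _ _ hCY (by linarith) hqc (hY i) l
    have hBP1 : 1 ≤ BP := by
      have e1 : (1 : ℝ) ≤ ((N + 1 : ℕ) : ℝ) := by exact_mod_cast (by omega : 1 ≤ N + 1)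
      have e2 : (1 : ℝ) ≤ CY ^ (N + 1) := one_le_pow₀ hCY
      exact one_le_mul_of_one_le_of_one_le e1 (one_le_mul_of_one_le_of_one_le hBq1 e2)
    have h5P := h5 N BP P hPd hPh
    set BS : ℝ := BP * (C * ((N + m + 1 : ℕ) : ℝ)) ^ m with hBS
    have hbase : 1 ≤ C * ((N + m + 1 : ℕ) : ℝ) :=
      one_le_mul_of_one_le_of_one_le hC (by exact_mod_cast (by omega : 1 ≤ N + m + 1))
    have hS1 : ∀ i j, (Smat m b P i j).natDegree ≤ N + m * τ := by
      intro i j
      refine ((h5P j.1).1 i).trans ?_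
      have := j.2.le
      gcongr
    have hS2 : ∀ i j l, |((Smat m b P i j).coeff l : ℝ)| ≤ BS := by
      intro i j l
      refine ((h5P j.1).2 i l).trans ?_
      have hj := j.2.le
      rw [hBS]
      have e0 : (0 : ℝ) ≤ C := by linarith
      have e3 : C * ((N : ℝ) + (j.1 : ℝ) + 1) ≤ C * ((N + m + 1 : ℕ) : ℝ) := by
        push_cast
        have : (j.1 : ℝ) ≤ m := by exact_mod_cast hj
        gcongr
      have e4 : (0 : ℝ) ≤ C * ((N : ℝ) + (j.1 : ℝ) + 1) := by positivity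
      have e5 : (C * ((N : ℝ) + (j.1 : ℝ) + 1)) ^ j.1 ≤ (C * ((N + m + 1 : ℕ) : ℝ)) ^ m :=
        (pow_le_pow_left₀ e4 e3 _).trans (pow_le_pow_right₀ hbase hj)
      exact mul_le_mul_of_nonneg_left e5 (by linarith)
    have hBS1 : 1 ≤ BS := one_le_mul_of_one_le_of_one_le hBP1 (one_le_pow₀ hbase)
    have h11 := AR10 m (N + m * τ) BS hBS1 (Smat m b P) hS1 hS2 l
    have h12 : (K.factorial : ℝ) ≤ (P0.factorial : ℝ) ^ K *
        (m.factorial * (((N + m * τ : ℕ) + 1) * BS) ^ m) :=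
      h10'.trans (mul_le_mul_of_nonneg_left h11 (by positivity))
    refine h12.trans (le_of_eq ?_)
    have g1 : 2 * m * α * K + (2 * m * β + m * τ + 1) = N + m * τ + 1 := by
      rw [hN, hM]
      ring
    have g2 : 2 * m * α * K + (2 * m * β + 1) = N + 1 := by
      rw [hN, hM]
      ring
    have g3 : 2 * m * α * K + (2 * m * β + m + 1) = N + m + 1 := by
      rw [hN, hM]
      ring
    rw [g1, g2, g3, hBS, hBP, hBq, hM]
    push_cast
    ring
  -- geometric growth of the right-hand side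
  have hG : AR14_G (fun K : ℕ => (P0.factorial : ℝ) ^ (1 * K + 0) *
      ((m.factorial : ℝ) * (((2 * m * α * K + (2 * m * β + m * τ + 1) : ℕ) : ℝ) *
        ((((2 * m * α * K + (2 * m * β + 1) : ℕ) : ℝ) * (C1 ^ (α * K + β) *
          CY ^ (2 * m * α * K + (2 * m * β + 1)))) *
            (C * ((2 * m * α * K + (2 * m * β + m + 1) : ℕ) : ℝ)) ^ m)) ^ m)) :=
    AR14_G_mul (AR14_G_exp _ _ _) (AR14_G_mul (AR14_G_const _) (AR14_G_pow (AR14_G_mul
      (AR14_G_lin _ _) (AR14_G_mul (AR14_G_mul (AR14_G_lin _ _) (AR14_G_mul (AR14_G_exp _ _ _)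
        (AR14_G_exp _ _ _))) (AR14_G_pow (AR14_G_mul (AR14_G_const _) (AR14_G_lin _ _)) _))) _))
  obtain ⟨B, hB, hBK⟩ := hG
  apply AR14_fac
  refine ⟨B, hB, fun K => ?_⟩
  rw [abs_of_nonneg (by positivity)]
  exact ((key K).trans (le_abs_self _)).trans (hBK K)

end arithmetic

end Pool.Agent.Lib_helper12.NZ
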