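import Pool.Agent.Lib_helper12.NZ.Base

/-!
# NZ, block AR15: Taylor transfer to the point `ρ`
-/

set_option autoImplicit false

open Finset
open scoped ENNReal

namespace Pool.Agent.Lib_helper12.NZ

section arithmetic
open PowerSeries

/-- rapidly decreasing at radius `ρ` -/
def AR15_RD (ρ : ℝ) (G : PowerSeries ℝ) : Prop :=
  ∀ K : ℕ, ∃ C : ℝ, ∀ n : ℕ, |coeff n G| * ρ ^ n * ((n : ℝ) + 1) ^ K ≤ C

/-- the Taylor transfer -/
noncomputable def AR15_T (ρ : ℝ) (G : PowerSeries ℝ) : PowerSeries ℝ :=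
  PowerSeries.mk fun k => ∑' n, coeff (n + k) G * ((n + k).choose k : ℝ) * ρ ^ n

theorem AR15_summable (ρ : ℝ) (hρ : 0 < ρ) (G : PowerSeries ℝ) (h : AR15_RD ρ G) (k : ℕ) :
    Summable (fun n => coeff (n + k) G * ((n + k).choose k : ℝ) * ρ ^ n) := by
  obtain ⟨C, hC⟩ := h (k + 2)
  have h1 : Summable (fun n : ℕ => C * (ρ ^ k)⁻¹ * (1 / ((n : ℝ) + 1) ^ 2)) := by
    apply Summable.mul_left
    have h2 : Summable (fun n : ℕ => 1 / (n : ℝ) ^ 2) := by
      exact Real.summable_one_div_nat_pow.mpr (by norm_num)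
    have h3 := (summable_nat_add_iff 1).mpr h2
    simpa using h3
  refine Summable.of_norm_bounded h1 ?_
  intro n
  have h4 := hC (n + k)
  have h5 : ((n + k).choose k : ℝ) ≤ ((n : ℝ) + k + 1) ^ k := by
    have h6 : (n + k).choose k ≤ (n + k) ^ k := Nat.choose_le_pow _ _
    have h7 : ((n + k).choose k : ℝ) ≤ ((n + k : ℕ) : ℝ) ^ k := by exact_mod_cast h6
    refine h7.trans ?_
    push_cast
    exact pow_le_pow_left₀ (by positivity) (by linarith) _
  have hpos : (0 : ℝ) < (n : ℝ) + k + 1 := by positivity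
  have h8 : |coeff (n + k) G| * ρ ^ (n + k) * ((n : ℝ) + k + 1) ^ k ≤ C / ((n : ℝ) + k + 1) ^ 2 := by
    rw [le_div_iff₀ (by positivity)]
    calc |coeff (n + k) G| * ρ ^ (n + k) * ((n : ℝ) + k + 1) ^ k * ((n : ℝ) + k + 1) ^ 2
        = |coeff (n + k) G| * ρ ^ (n + k) * (((n + k : ℕ) : ℝ) + 1) ^ (k + 2) := by
          push_cast; ring
      _ ≤ C := h4
  have hC0 : 0 ≤ C := le_trans (by positivity) (hC 0)
  calc ‖coeff (n + k) G * ((n + k).choose k : ℝ) * ρ ^ n‖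
      = |coeff (n + k) G| * ((n + k).choose k : ℝ) * ρ ^ n := by
        rw [Real.norm_eq_abs, abs_mul, abs_mul, abs_of_nonneg (pow_nonneg hρ.le n),
          Nat.abs_cast]
    _ ≤ |coeff (n + k) G| * ((n : ℝ) + k + 1) ^ k * ρ ^ n := by gcongr
    _ = (|coeff (n + k) G| * ρ ^ (n + k) * ((n : ℝ) + k + 1) ^ k) * (ρ ^ k)⁻¹ := by
        rw [pow_add]; field_simp
    _ ≤ (C / ((n : ℝ) + k + 1) ^ 2) * (ρ ^ k)⁻¹ := by gcongr
    _ ≤ (C / ((n : ℝ) + 1) ^ 2) * (ρ ^ k)⁻¹ := by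
        gcongr
        linarith [(Nat.cast_nonneg k : (0 : ℝ) ≤ k)]
    _ = C * (ρ ^ k)⁻¹ * (1 / ((n : ℝ) + 1) ^ 2) := by ring

theorem AR15_add (ρ : ℝ) (hρ : 0 < ρ) (G H : PowerSeries ℝ) (h1 : AR15_RD ρ G)
    (h2 : AR15_RD ρ H) :
    AR15_RD ρ (G + H) ∧ AR15_T ρ (G + H) = AR15_T ρ G + AR15_T ρ H := by
  constructor
  · intro K
    obtain ⟨C1, hC1⟩ := h1 K
    obtain ⟨C2, hC2⟩ := h2 K
    refine ⟨C1 + C2, fun n => ?_⟩
    calc |coeff n (G + H)| * ρ ^ n * ((n : ℝ) + 1) ^ K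
        ≤ (|coeff n G| + |coeff n H|) * ρ ^ n * ((n : ℝ) + 1) ^ K := by
          rw [map_add]
          gcongr
          exact abs_add_le _ _
      _ = |coeff n G| * ρ ^ n * ((n : ℝ) + 1) ^ K + |coeff n H| * ρ ^ n * ((n : ℝ) + 1) ^ K := by
          ring
      _ ≤ C1 + C2 := add_le_add (hC1 n) (hC2 n)
  · ext k
    rw [map_add]
    simp only [AR15_T, coeff_mk]
    rw [← (AR15_summable ρ hρ G h1 k).tsum_add (AR15_summable ρ hρ H h2 k)]
    congr 1
    ext n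
    rw [map_add]
    ring

theorem AR15_C (ρ : ℝ) (G : PowerSeries ℝ) (h1 : AR15_RD ρ G) (a : ℝ) :
    AR15_RD ρ (C a * G) ∧ AR15_T ρ (C a * G) = C a * AR15_T ρ G := by
  constructor
  · intro K
    obtain ⟨C1, hC1⟩ := h1 K
    refine ⟨|a| * C1, fun n => ?_⟩
    rw [coeff_C_mul, abs_mul]
    calc |a| * |coeff n G| * ρ ^ n * ((n : ℝ) + 1) ^ K
        = |a| * (|coeff n G| * ρ ^ n * ((n : ℝ) + 1) ^ K) := by ring
      _ ≤ |a| * C1 := mul_le_mul_of_nonneg_left (hC1 n) (abs_nonneg a)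
  · ext k
    rw [coeff_C_mul]
    simp only [AR15_T, coeff_mk]
    rw [← tsum_mul_left]
    congr 1
    ext n
    rw [coeff_C_mul]
    ring

theorem AR15_X (ρ : ℝ) (hρ : 0 < ρ) (G : PowerSeries ℝ) (h1 : AR15_RD ρ G) :
    AR15_RD ρ (X * G) ∧ AR15_T ρ (X * G) = (X + C ρ) * AR15_T ρ G := by
  have hRD : AR15_RD ρ (X * G) := by
    intro K
    obtain ⟨C1, hC1⟩ := h1 K
    have hC0 : 0 ≤ C1 := le_trans (by positivity) (hC1 0)
    refine ⟨ρ * 2 ^ K * C1, fun n => ?_⟩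
    cases n with
    | zero =>
      rw [PowerSeries.coeff_zero_X_mul]
      simp
      positivity
    | succ n =>
      rw [PowerSeries.coeff_succ_X_mul]
      calc |coeff n G| * ρ ^ (n + 1) * (((n + 1 : ℕ) : ℝ) + 1) ^ K
          ≤ |coeff n G| * ρ ^ (n + 1) * (2 * ((n : ℝ) + 1)) ^ K := by
            gcongr
            push_cast
            linarith [(Nat.cast_nonneg n : (0 : ℝ) ≤ n)]
        _ = ρ * 2 ^ K * (|coeff n G| * ρ ^ n * ((n : ℝ) + 1) ^ K) := by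
            rw [mul_pow]; ring
        _ ≤ ρ * 2 ^ K * C1 := by gcongr; exact hC1 n
  refine ⟨hRD, ?_⟩
  ext k
  rw [add_mul, map_add, coeff_C_mul]
  have hs := AR15_summable ρ hρ (X * G) hRD
  have hg := AR15_summable ρ hρ G h1
  cases k with
  | zero =>
    rw [PowerSeries.coeff_zero_X_mul]
    simp only [AR15_T, coeff_mk]
    rw [(hs 0).tsum_eq_zero_add, ← tsum_mul_left]
    simp only [add_zero, Nat.choose_zero_right, Nat.cast_one, mul_one,
      PowerSeries.coeff_zero_X_mul, PowerSeries.coeff_succ_X_mul, zero_mul, zero_add]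
    congr 1
    ext n
    ring
  | succ k =>
    rw [PowerSeries.coeff_succ_X_mul]
    simp only [AR15_T, coeff_mk]
    have e1 : ∀ n : ℕ, coeff (n + (k + 1)) (X * G) * ((n + (k + 1)).choose (k + 1) : ℝ) * ρ ^ n =
        coeff (n + k) G * ((n + k).choose k : ℝ) * ρ ^ n +
          coeff (n + k) G * ((n + k).choose (k + 1) : ℝ) * ρ ^ n := by
      intro n
      rw [← add_assoc, PowerSeries.coeff_succ_X_mul, Nat.choose_succ_succ]
      push_cast
      ring
    have hs2 : Summable (fun n => coeff (n + k) G * ((n + k).choose (k + 1) : ℝ) * ρ ^ n) := by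
      have := (hs (k + 1)).sub (hg k)
      refine this.congr ?_
      intro n
      rw [e1 n]
      ring
    rw [tsum_congr e1, (hg k).tsum_add hs2, hs2.tsum_eq_zero_add, ← tsum_mul_left]
    congr 1
    rw [show (0 + k).choose (k + 1) = 0 from Nat.choose_eq_zero_of_lt (by omega)]
    simp only [Nat.cast_zero, mul_zero, zero_mul, zero_add]
    congr 1
    ext n
    rw [show n + 1 + k = n + (k + 1) by ring]
    ring

theorem AR15_D (ρ : ℝ) (hρ : 0 < ρ) (G : PowerSeries ℝ) (h1 : AR15_RD ρ G) :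
    AR15_RD ρ (dS ℝ G) ∧ AR15_T ρ (dS ℝ G) = dS ℝ (AR15_T ρ G) := by
  constructor
  · intro K
    obtain ⟨C1, hC1⟩ := h1 (K + 1)
    have hC0 : 0 ≤ C1 := le_trans (by positivity) (hC1 0)
    refine ⟨ρ⁻¹ * C1, fun n => ?_⟩
    rw [dS, PowerSeries.coeff_derivative, abs_mul, abs_of_nonneg (by positivity : (0 : ℝ) ≤ (n : ℝ) + 1)]
    have h2 := hC1 (n + 1)
    push_cast at h2
    calc |coeff (n + 1) G| * ((n : ℝ) + 1) * ρ ^ n * ((n : ℝ) + 1) ^ K
        = ρ⁻¹ * (|coeff (n + 1) G| * ρ ^ (n + 1) * ((n : ℝ) + 1) ^ (K + 1)) := by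
          field_simp
          ring
      _ ≤ ρ⁻¹ * (|coeff (n + 1) G| * ρ ^ (n + 1) * ((n : ℝ) + 1 + 1) ^ (K + 1)) := by
          gcongr
          linarith
      _ ≤ ρ⁻¹ * C1 := by gcongr
  · ext k
    rw [dS, PowerSeries.coeff_derivative]
    simp only [AR15_T, coeff_mk]
    rw [← tsum_mul_right]
    congr 1
    ext n
    rw [PowerSeries.coeff_derivative]
    have h3 : (n + k + 1) * (n + k).choose k = (n + k + 1).choose (k + 1) * (k + 1) :=
      Nat.add_one_mul_choose_eq (n + k) k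
    have h4 : ((n : ℝ) + k + 1) * ((n + k).choose k : ℝ) =
        ((n + k + 1).choose (k + 1) : ℝ) * ((k : ℝ) + 1) := by exact_mod_cast h3
    rw [show n + (k + 1) = n + k + 1 by ring]
    push_cast
    linear_combination (coeff (n + k + 1) G * ρ ^ n) * h4

theorem AR15_Dit (ρ : ℝ) (hρ : 0 < ρ) (G : PowerSeries ℝ) (h1 : AR15_RD ρ G) (i : ℕ) :
    AR15_RD ρ ((dS ℝ)^[i] G) ∧ AR15_T ρ ((dS ℝ)^[i] G) = (dS ℝ)^[i] (AR15_T ρ G) := by
  induction i with
  | zero => exact ⟨h1, rfl⟩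
  | succ i ih =>
    rw [Function.iterate_succ_apply', Function.iterate_succ_apply']
    obtain ⟨h2, h3⟩ := AR15_D ρ hρ _ ih.1
    exact ⟨h2, by rw [h3, ih.2]⟩

theorem AR15_poly (ρ : ℝ) (hρ : 0 < ρ) (p : Polynomial ℝ) :
    ∀ G : PowerSeries ℝ, AR15_RD ρ G → AR15_RD ρ ((p : PowerSeries ℝ) * G) ∧
      AR15_T ρ ((p : PowerSeries ℝ) * G) =
        ((p.comp (Polynomial.X + Polynomial.C ρ) : Polynomial ℝ) : PowerSeries ℝ) * AR15_T ρ G := by
  induction p using Polynomial.induction_on' with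
  | add p q hp hq =>
    intro G hG
    obtain ⟨h1, h2⟩ := hp G hG
    obtain ⟨h3, h4⟩ := hq G hG
    obtain ⟨h5, h6⟩ := AR15_add ρ hρ _ _ h1 h3
    rw [Polynomial.coe_add, add_mul]
    refine ⟨h5, ?_⟩
    rw [h6, h2, h4, Polynomial.add_comp, Polynomial.coe_add, add_mul]
  | monomial n a =>
    induction n with
    | zero =>
      intro G hG
      obtain ⟨h1, h2⟩ := AR15_C ρ G hG a
      have e : ((Polynomial.monomial 0 a : Polynomial ℝ) : PowerSeries ℝ) = C a := by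
        rw [Polynomial.monomial_zero_left, Polynomial.coe_C]
      have e2 : (((Polynomial.monomial 0 a).comp (Polynomial.X + Polynomial.C ρ) :
          Polynomial ℝ) : PowerSeries ℝ) = C a := by
        rw [Polynomial.monomial_zero_left, Polynomial.C_comp, Polynomial.coe_C]
      rw [e, e2]
      exact ⟨h1, h2⟩
    | succ n ih =>
      intro G hG
      obtain ⟨h1, h2⟩ := ih G hG
      obtain ⟨h3, h4⟩ := AR15_X ρ hρ _ h1
      have e0 : (Polynomial.monomial (n + 1) a : Polynomial ℝ) =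
          Polynomial.X * Polynomial.monomial n a := by
        rw [Polynomial.X_mul_monomial]
      have e : ((Polynomial.monomial (n + 1) a : Polynomial ℝ) : PowerSeries ℝ) * G =
          X * (((Polynomial.monomial n a : Polynomial ℝ) : PowerSeries ℝ) * G) := by
        rw [e0, Polynomial.coe_mul, Polynomial.coe_X, mul_assoc]
      rw [e]
      refine ⟨h3, ?_⟩
      rw [h4, h2, e0, Polynomial.mul_comp, Polynomial.X_comp, Polynomial.coe_mul,
        Polynomial.coe_add, Polynomial.coe_X, Polynomial.coe_C, mul_assoc]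

theorem AR15_sum (ρ : ℝ) (hρ : 0 < ρ) (s : Finset ℕ) (F : ℕ → PowerSeries ℝ)
    (h : ∀ i ∈ s, AR15_RD ρ (F i)) :
    AR15_RD ρ (∑ i ∈ s, F i) ∧ AR15_T ρ (∑ i ∈ s, F i) = ∑ i ∈ s, AR15_T ρ (F i) := by
  classical
  induction s using Finset.induction_on with
  | empty =>
    refine ⟨fun K => ⟨0, fun n => by simp⟩, ?_⟩
    ext k
    simp [AR15_T]
  | insert a s ha ih =>
    obtain ⟨h1, h2⟩ := ih (fun i hi => h i (Finset.mem_insert_of_mem hi))
    obtain ⟨h3, h4⟩ := AR15_add ρ hρ _ _ (h a (Finset.mem_insert_self a s)) h1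
    rw [Finset.sum_insert ha, Finset.sum_insert ha]
    exact ⟨h3, by rw [h4, h2]⟩

/-- AR15: Taylor transfer to the point `ρ` -/
theorem AR15 (a : ℕ → ℝ) (ρ : ℝ) (hρ : 0 < ρ) (ha0 : ∀ n, 0 ≤ a n)
    (ha : ∀ K : ℕ, ∃ C : ℝ, ∀ n : ℕ, a n * ρ ^ n * (n : ℝ) ^ K ≤ C) (m : ℕ)
    (b : ℕ → Polynomial ℝ)
    (h : ∑ i ∈ range (m + 1), (b i : PowerSeries ℝ) * (dS ℝ)^[i] (PowerSeries.mk a) = 0) :
    ∃ φ : ℕ → ℝ, (∀ k, HasSum (fun n => a (n + k) * ((n + k).choose k : ℝ) * ρ ^ n) (φ k)) ∧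
      ∑ i ∈ range (m + 1), (((b i).comp (Polynomial.X + Polynomial.C ρ) : Polynomial ℝ) :
        PowerSeries ℝ) * (dS ℝ)^[i] (PowerSeries.mk φ) = 0 := by
  have hRD : AR15_RD ρ (PowerSeries.mk a) := by
    intro K
    obtain ⟨C1, hC1⟩ := ha K
    obtain ⟨C2, hC2⟩ := ha 0
    have hC0 : 0 ≤ C1 := le_trans (by
      have := ha0 0
      positivity) (hC1 0)
    have hC02 : 0 ≤ C2 := le_trans (by
      have := ha0 0
      positivity) (hC2 0)
    refine ⟨2 ^ K * (C1 + C2), fun n => ?_⟩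
    rw [coeff_mk, abs_of_nonneg (ha0 n)]
    have h1 : ((n : ℝ) + 1) ^ K ≤ 2 ^ K * ((n : ℝ) ^ K + 1) := by
      rcases Nat.eq_zero_or_pos n with hn | hn
      · subst hn
        have h0 : (1 : ℝ) ≤ 2 ^ K := one_le_pow₀ (by norm_num)
        have h00 : (0 : ℝ) ≤ ((0 : ℕ) : ℝ) ^ K := by positivity
        have : ((0 : ℕ) : ℝ) + 1 = 1 := by simp
        rw [this, one_pow]
        nlinarith
      · have hn1 : (1 : ℝ) ≤ n := by exact_mod_cast hn
        calc ((n : ℝ) + 1) ^ K ≤ (2 * n) ^ K := by gcongr; linarith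
          _ = 2 ^ K * (n : ℝ) ^ K := by rw [mul_pow]
          _ ≤ 2 ^ K * ((n : ℝ) ^ K + 1) := by gcongr; linarith
    have han := ha0 n
    calc a n * ρ ^ n * ((n : ℝ) + 1) ^ K ≤ a n * ρ ^ n * (2 ^ K * ((n : ℝ) ^ K + 1)) := by
          gcongr
      _ = 2 ^ K * (a n * ρ ^ n * (n : ℝ) ^ K + a n * ρ ^ n * (n : ℝ) ^ 0) := by ring
      _ ≤ 2 ^ K * (C1 + C2) := by
          gcongr
          · exact hC1 n
          · exact hC2 n
  refine ⟨fun k => coeff k (AR15_T ρ (PowerSeries.mk a)), ?_, ?_⟩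
  · intro k
    have h1 := (AR15_summable ρ hρ _ hRD k).hasSum
    simp only [coeff_mk] at h1
    simp only [AR15_T, coeff_mk]
    exact h1
  · have e : PowerSeries.mk (fun k => coeff k (AR15_T ρ (PowerSeries.mk a))) =
        AR15_T ρ (PowerSeries.mk a) := by
      ext k
      rw [coeff_mk]
    rw [e]
    have h1 := AR15_sum ρ hρ (range (m + 1))
      (fun i => (b i : PowerSeries ℝ) * (dS ℝ)^[i] (PowerSeries.mk a))
      (fun i _ => (AR15_poly ρ hρ (b i) _ (AR15_Dit ρ hρ _ hRD i).1).1)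
    have h2 := h1.2
    rw [h] at h2
    have h3 : AR15_T ρ (0 : PowerSeries ℝ) = 0 := by
      ext k
      simp [AR15_T]
    rw [h3] at h2
    rw [h2]
    apply Finset.sum_congr rfl
    intro i _
    rw [(AR15_poly ρ hρ (b i) _ (AR15_Dit ρ hρ _ hRD i).1).2, (AR15_Dit ρ hρ _ hRD i).2]

end arithmetic

end Pool.Agent.Lib_helper12.NZ
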