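import Pool.Agent.Lib_helper12.NZ.Base

/-!
# NZ: block AR16
-/

set_option autoImplicit false

open Finset
open scoped ENNReal

namespace Pool.Agent.Lib_helper12.NZ

open PowerSeries

theorem AR16_coeff (f : PowerSeries ℝ) (i b : ℕ) :
    coeff b ((dS ℝ)^[i] f) = ((b + i).descFactorial i : ℝ) * coeff (b + i) f := by
  induction i generalizing b with
  | zero => simp
  | succ i ih =>
    rw [Function.iterate_succ_apply']
    have h1 : coeff b (dS ℝ ((dS ℝ)^[i] f)) = coeff (b + 1) ((dS ℝ)^[i] f) * (b + 1) := by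
      unfold dS
      exact PowerSeries.coeff_derivative _ _
    rw [h1, ih]
    have h2 : b + 1 + i = b + (i + 1) := by ring
    have h3 : ((b + (i + 1)).descFactorial (i + 1) : ℝ) =
        ((b + 1 : ℕ) : ℝ) * ((b + (i + 1)).descFactorial i : ℝ) := by
      rw [Nat.descFactorial_succ]
      have h4 : b + (i + 1) - i = b + 1 := by omega
      rw [h4]
      push_cast
      ring
    rw [h2, h3]
    push_cast
    ring

/-- the coefficient identity -/
theorem AR16_rel (φ : ℕ → ℝ) (m : ℕ) (β : ℕ → Polynomial ℝ)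
    (h : ∑ i ∈ range (m + 1), (β i : PowerSeries ℝ) * (dS ℝ)^[i] (PowerSeries.mk φ) = 0) (n : ℕ) :
    ∑ i ∈ range (m + 1), ∑ p ∈ antidiagonal n,
      (β i).coeff p.1 * (((p.2 + i).descFactorial i : ℝ) * φ (p.2 + i)) = 0 := by
  have h1 := congrArg (coeff n) h
  rw [map_sum, map_zero] at h1
  rw [← h1]
  refine sum_congr rfl fun i _ => ?_
  rw [PowerSeries.coeff_mul]
  refine sum_congr rfl fun p _ => ?_
  rw [AR16_coeff, Polynomial.coeff_coe, PowerSeries.coeff_mk]

theorem AR16_sum_le (q : Polynomial ℝ) (n : ℕ) :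
    ∑ p ∈ antidiagonal n, |q.coeff p.1| ≤ ∑ a ∈ q.support, |q.coeff a| := by
  rw [Finset.Nat.sum_antidiagonal_eq_sum_range_succ_mk]
  have h1 : ∑ k ∈ range n.succ, |q.coeff (k, n - k).1| =
      ∑ k ∈ (range n.succ).filter (fun k => k ∈ q.support), |q.coeff k| := by
    rw [sum_filter]
    refine sum_congr rfl fun k _ => ?_
    by_cases hk : k ∈ q.support
    · rw [if_pos hk]
    · rw [if_neg hk]
      rw [Polynomial.notMem_support_iff] at hk
      simp [hk]
  rw [h1]
  refine sum_le_sum_of_subset_of_nonneg ?_ fun _ _ _ => abs_nonneg _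
  intro k hk
  exact (mem_filter.1 hk).2

theorem AR16_ord {q : Polynomial ℝ} {a : ℕ} (ha : q.coeff a ≠ 0) :
    Polynomial.rootMultiplicity 0 q ≤ a := by
  rw [Polynomial.rootMultiplicity_eq_natTrailingDegree']
  exact Polynomial.natTrailingDegree_le_of_ne_zero ha

theorem AR16_lead {q : Polynomial ℝ} (hq : q ≠ 0) :
    q.coeff (Polynomial.rootMultiplicity 0 q) ≠ 0 := by
  rw [Polynomial.rootMultiplicity_eq_natTrailingDegree']
  exact Polynomial.trailingCoeff_nonzero_iff_nonzero.2 hq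

/-- every term but the main one is small -/
theorem AR16_step (φ : ℕ → ℝ) (m : ℕ) (β : ℕ → Polynomial ℝ) (hm : β m ≠ 0)
    (hreg : ∀ i < m, ¬ Irr m i (β m) (β i) 0)
    (h : ∑ i ∈ range (m + 1), (β i : PowerSeries ℝ) * (dS ℝ)^[i] (PowerSeries.mk φ) = 0)
    (B : ℝ) (hB : B = ∑ i ∈ range (m + 1), ∑ a ∈ (β i).support, |(β i).coeff a|)
    (k : ℕ) (hk : m ≤ k) (hk0 : 0 < k) (M : ℝ) (hM : ∀ j < k, |φ j| ≤ M) :
    |(β m).coeff (Polynomial.rootMultiplicity 0 (β m))| * ((k.descFactorial m : ℝ) * |φ k|) ≤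
      B * ((k : ℝ) ^ m / k * |φ k| + (k : ℝ) ^ m * M) := by
  classical
  obtain ⟨o, ho⟩ : ∃ o : ℕ, o = Polynomial.rootMultiplicity 0 (β m) := ⟨_, rfl⟩
  rw [← ho]
  have hkR : (1 : ℝ) ≤ k := by exact_mod_cast hk0
  have hM0 : 0 ≤ M := (abs_nonneg _).trans (hM 0 hk0)
  have hrel := AR16_rel φ m β h (k + o - m)
  rw [sum_range_succ] at hrel
  have hmem : (o, k - m) ∈ antidiagonal (k + o - m) := by
    rw [HasAntidiagonal.mem_antidiagonal]; simp only; omega
  rw [← add_sum_erase _ _ hmem] at hrel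
  simp only at hrel
  rw [Nat.sub_add_cancel hk] at hrel
  obtain ⟨D, hD⟩ : ∃ D : ℝ, D = (k : ℝ) ^ m / k * |φ k| + (k : ℝ) ^ m * M := ⟨_, rfl⟩
  have hD0 : 0 ≤ D := by rw [hD]; positivity
  rw [← hD]
  -- bound of a term
  have hterm : ∀ i ≤ m, ∀ p ∈ antidiagonal (k + o - m), (i = m → p ≠ (o, k - m)) →
      |(β i).coeff p.1 * (((p.2 + i).descFactorial i : ℝ) * φ (p.2 + i))| ≤
        |(β i).coeff p.1| * D := by
    intro i him p hp hne
    rw [abs_mul]
    by_cases h0 : (β i).coeff p.1 = 0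
    · rw [h0]; simp
    refine mul_le_mul_of_nonneg_left ?_ (abs_nonneg _)
    rw [HasAntidiagonal.mem_antidiagonal] at hp
    have hbi : β i ≠ 0 := by
      intro hz
      rw [hz] at h0
      simp at h0
    have h1 : Polynomial.rootMultiplicity 0 (β i) ≤ p.1 := AR16_ord h0
    have h2 : o ≤ Polynomial.rootMultiplicity 0 (β i) + (m - i) := by
      rcases Nat.lt_or_ge i m with h3 | h3
      · have h4 := hreg i h3
        unfold Irr at h4
        push Not at h4
        have h5 := h4 hm hbi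
        rw [← ho] at h5
        exact h5
      · have h4 : i = m := le_antisymm him h3
        rw [h4, ← ho]
        omega
    have hidx : p.2 + i ≤ k := by omega
    rw [abs_mul, abs_of_nonneg (by positivity : (0 : ℝ) ≤ ((p.2 + i).descFactorial i : ℝ))]
    have hdf : ((p.2 + i).descFactorial i : ℝ) ≤ (k : ℝ) ^ i := by
      have h3 : (p.2 + i).descFactorial i ≤ k ^ i :=
        (Nat.descFactorial_le_pow _ _).trans (Nat.pow_le_pow_left hidx i)
      exact_mod_cast h3
    rcases Nat.lt_or_ge (p.2 + i) k with h3 | h3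
    · have h4 := hM _ h3
      have h5 : (k : ℝ) ^ i ≤ (k : ℝ) ^ m := pow_le_pow_right₀ hkR him
      calc ((p.2 + i).descFactorial i : ℝ) * |φ (p.2 + i)| ≤ (k : ℝ) ^ m * M :=
            mul_le_mul (hdf.trans h5) h4 (abs_nonneg _) (by positivity)
        _ ≤ D := by
          rw [hD]
          have : 0 ≤ (k : ℝ) ^ m / k * |φ k| := by positivity
          linarith
    · have h4 : p.2 + i = k := le_antisymm hidx h3
      have him' : i < m := by
        rcases Nat.lt_or_ge i m with h5 | h5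
        · exact h5
        · exfalso
          have h6 : i = m := le_antisymm him h5
          apply hne h6
          subst h6
          ext
          · simp only; omega
          · simp only; omega
      have h5 : (k : ℝ) ^ i ≤ (k : ℝ) ^ m / k := by
        rw [le_div_iff₀ (by positivity), ← pow_succ]
        exact pow_le_pow_right₀ hkR him'
      rw [h4] at hdf ⊢
      calc (k.descFactorial i : ℝ) * |φ k| ≤ (k : ℝ) ^ m / k * |φ k| :=
            mul_le_mul_of_nonneg_right (hdf.trans h5) (abs_nonneg _)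
        _ ≤ D := by
          rw [hD]
          have : 0 ≤ (k : ℝ) ^ m * M := by positivity
          linarith
  have hmain : (β m).coeff o * ((k.descFactorial m : ℝ) * φ k) =
      -((∑ i ∈ range m, ∑ p ∈ antidiagonal (k + o - m),
        (β i).coeff p.1 * (((p.2 + i).descFactorial i : ℝ) * φ (p.2 + i))) +
        ∑ p ∈ (antidiagonal (k + o - m)).erase (o, k - m),
        (β m).coeff p.1 * (((p.2 + m).descFactorial m : ℝ) * φ (p.2 + m))) := by
    linarith
  have habs : |(β m).coeff o| * ((k.descFactorial m : ℝ) * |φ k|) =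
      |(β m).coeff o * ((k.descFactorial m : ℝ) * φ k)| := by
    rw [abs_mul, abs_mul, abs_of_nonneg (by positivity : (0 : ℝ) ≤ (k.descFactorial m : ℝ))]
  rw [habs, hmain, abs_neg]
  refine (abs_add_le _ _).trans ?_
  have hs1 : |∑ i ∈ range m, ∑ p ∈ antidiagonal (k + o - m),
        (β i).coeff p.1 * (((p.2 + i).descFactorial i : ℝ) * φ (p.2 + i))| ≤
      ∑ i ∈ range m, (∑ a ∈ (β i).support, |(β i).coeff a|) * D := by
    refine (abs_sum_le_sum_abs _ _).trans (sum_le_sum fun i hi => ?_)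
    rw [mem_range] at hi
    refine (abs_sum_le_sum_abs _ _).trans ?_
    refine (sum_le_sum fun p hp => hterm i hi.le p hp (fun h6 => absurd h6 hi.ne)).trans ?_
    rw [← sum_mul]
    exact mul_le_mul_of_nonneg_right (AR16_sum_le _ _) hD0
  have hs2 : |∑ p ∈ (antidiagonal (k + o - m)).erase (o, k - m),
        (β m).coeff p.1 * (((p.2 + m).descFactorial m : ℝ) * φ (p.2 + m))| ≤
      (∑ a ∈ (β m).support, |(β m).coeff a|) * D := by
    refine (abs_sum_le_sum_abs _ _).trans ?_
    refine (sum_le_sum fun p hp => hterm m le_rfl p (mem_of_mem_erase hp)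
      (fun _ => ne_of_mem_erase hp)).trans ?_
    rw [← sum_mul]
    refine mul_le_mul_of_nonneg_right ?_ hD0
    refine le_trans ?_ (AR16_sum_le (β m) (k + o - m))
    exact sum_le_sum_of_subset_of_nonneg (erase_subset _ _) fun _ _ _ => abs_nonneg _
  refine (add_le_add hs1 hs2).trans (le_of_eq ?_)
  rw [hB, sum_range_succ, add_mul, sum_mul (range m)]

theorem AR16_desc (m k : ℕ) (hk : 2 * m ≤ k) : (k : ℝ) ^ m / 2 ^ m ≤ (k.descFactorial m : ℝ) := by
  have h1 : (k + 1 - m) ^ m ≤ k.descFactorial m := Nat.pow_sub_le_descFactorial k m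
  have h2 : (k : ℝ) / 2 ≤ ((k + 1 - m : ℕ) : ℝ) := by
    rw [div_le_iff₀ (by norm_num)]
    have : k ≤ (k + 1 - m) * 2 := by omega
    exact_mod_cast this
  rw [← div_pow]
  calc ((k : ℝ) / 2) ^ m ≤ ((k + 1 - m : ℕ) : ℝ) ^ m := pow_le_pow_left₀ (by positivity) h2 m
    _ ≤ (k.descFactorial m : ℝ) := by exact_mod_cast h1

/-- AR16: formal solutions at regular points have geometric growth -/
theorem AR16 (φ : ℕ → ℝ) (m : ℕ) (β : ℕ → Polynomial ℝ) (hm : β m ≠ 0)
    (hreg : ∀ i < m, ¬ Irr m i (β m) (β i) 0)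
    (h : ∑ i ∈ range (m + 1), (β i : PowerSeries ℝ) * (dS ℝ)^[i] (PowerSeries.mk φ) = 0) :
    ∃ R : ℝ, 1 ≤ R ∧ ∀ k, |φ k| ≤ R ^ (k + 1) := by
  obtain ⟨B, hB⟩ : ∃ B : ℝ, B = ∑ i ∈ range (m + 1), ∑ a ∈ (β i).support, |(β i).coeff a| :=
    ⟨_, rfl⟩
  have hB0 : 0 ≤ B := by rw [hB]; positivity
  obtain ⟨c, hc⟩ : ∃ c : ℝ, c = |(β m).coeff (Polynomial.rootMultiplicity 0 (β m))| / 2 ^ m :=
    ⟨_, rfl⟩
  have hc0 : 0 < c := by
    rw [hc]
    have := abs_pos.2 (AR16_lead hm)
    positivity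
  obtain ⟨k0, hk0⟩ := exists_nat_ge (2 * B / c)
  obtain ⟨k1, hk1⟩ : ∃ k1 : ℕ, k1 = k0 + 2 * m + 1 := ⟨_, rfl⟩
  obtain ⟨R, hR⟩ : ∃ R : ℝ, R = 1 + 2 * B / c + ∑ j ∈ range k1, |φ j| := ⟨_, rfl⟩
  have hBc : 0 ≤ 2 * B / c := by positivity
  have hS : 0 ≤ ∑ j ∈ range k1, |φ j| := by positivity
  have hR1 : 1 ≤ R := by rw [hR]; linarith
  refine ⟨R, hR1, fun k => ?_⟩
  induction k using Nat.strong_induction_on with
  | _ k ih =>
    rcases Nat.lt_or_ge k k1 with h1 | h1
    · have h2 : |φ k| ≤ ∑ j ∈ range k1, |φ j| :=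
        single_le_sum (f := fun j => |φ j|) (fun _ _ => abs_nonneg _) (mem_range.2 h1)
      have h3 : |φ k| ≤ R := by rw [hR]; linarith
      refine h3.trans ?_
      calc R = R ^ 1 := (pow_one R).symm
        _ ≤ R ^ (k + 1) := pow_le_pow_right₀ hR1 (by omega)
    · have hkpos : 0 < k := by omega
      have hkR : (0 : ℝ) < k := by exact_mod_cast hkpos
      have hM : ∀ j < k, |φ j| ≤ R ^ k := fun j hj =>
        (ih j hj).trans (pow_le_pow_right₀ hR1 (by omega))
      have h2 := AR16_step φ m β hm hreg h B hB k (by omega) hkpos (R ^ k) hM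
      have h3 := AR16_desc m k (by omega)
      have hkm : 0 < (k : ℝ) ^ m := by positivity
      have h4 : c * ((k : ℝ) ^ m * |φ k|) ≤
          |(β m).coeff (Polynomial.rootMultiplicity 0 (β m))| *
            ((k.descFactorial m : ℝ) * |φ k|) := by
        have h5 : c * ((k : ℝ) ^ m * |φ k|) =
            |(β m).coeff (Polynomial.rootMultiplicity 0 (β m))| *
              ((k : ℝ) ^ m / 2 ^ m * |φ k|) := by
          rw [hc]; ring
        rw [h5]
        exact mul_le_mul_of_nonneg_left (mul_le_mul_of_nonneg_right h3 (abs_nonneg _))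
          (abs_nonneg _)
      have h5 : (k : ℝ) ^ m * (c * |φ k|) ≤ (k : ℝ) ^ m * (B / k * |φ k| + B * R ^ k) := by
        refine le_trans (le_of_eq (by ring)) ((h4.trans h2).trans (le_of_eq ?_))
        ring
      have h6 : c * |φ k| ≤ B / k * |φ k| + B * R ^ k := le_of_mul_le_mul_left h5 hkm
      have h7 : B / k ≤ c / 2 := by
        rw [div_le_iff₀ hkR]
        have h8 : 2 * B / c ≤ k := by
          refine hk0.trans ?_
          exact_mod_cast (by omega : k0 ≤ k)
        rw [div_le_iff₀ hc0] at h8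
        linarith
      have h8 : B / k * |φ k| ≤ c / 2 * |φ k| := mul_le_mul_of_nonneg_right h7 (abs_nonneg _)
      have h9 : |φ k| ≤ 2 * B / c * R ^ k := by
        rw [div_mul_eq_mul_div, le_div_iff₀ hc0]
        linarith
      refine h9.trans ?_
      rw [pow_succ, mul_comm (R ^ k)]
      exact mul_le_mul_of_nonneg_right (by rw [hR]; linarith) (by positivity)

end Pool.Agent.Lib_helper12.NZ
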