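import Pool.Agent.Lib_helper12.NZ.Base

/-!
# NZ: block AR17
-/

set_option autoImplicit false

open Finset
open scoped ENNReal

namespace Pool.Agent.Lib_helper12.NZ

/-- AR17: analytic continuation beyond `ρ` for nonnegative coefficients -/
theorem AR17 (a φ : ℕ → ℝ) (ρ R : ℝ) (hρ : 0 < ρ) (ha : ∀ n, 0 ≤ a n) (hR : 1 ≤ R)
    (hφ : ∀ k, HasSum (fun n => a (n + k) * ((n + k).choose k : ℝ) * ρ ^ n) (φ k))
    (hφR : ∀ k, |φ k| ≤ R ^ (k + 1)) : ∃ C : ℝ, ∀ n, a n ≤ C * (1 / (ρ + 1 / (2 * R))) ^ n := by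
  have hR0 : 0 < R := by linarith
  obtain ⟨t, ht⟩ : ∃ t : ℝ, t = 1 / (2 * R) := ⟨_, rfl⟩
  have ht0 : 0 < t := by rw [ht]; positivity
  refine ⟨2 * R, fun N => ?_⟩
  rw [← ht]
  have hterm : ∀ k ∈ range (N + 1), a N * (ρ ^ (N - k) * (N.choose k : ℝ)) ≤ R ^ (k + 1) := by
    intro k hk
    have hkN : k ≤ N := by rw [mem_range] at hk; omega
    have h1 : a (N - k + k) * ((N - k + k).choose k : ℝ) * ρ ^ (N - k) ≤ φ k := by
      refine le_hasSum (hφ k) (N - k) fun n _ => ?_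
      have := ha (n + k)
      positivity
    rw [Nat.sub_add_cancel hkN] at h1
    calc a N * (ρ ^ (N - k) * (N.choose k : ℝ)) = a N * (N.choose k : ℝ) * ρ ^ (N - k) := by ring
      _ ≤ φ k := h1
      _ ≤ |φ k| := le_abs_self _
      _ ≤ R ^ (k + 1) := hφR k
  have hsum : a N * (ρ + t) ^ N ≤ 2 * R := by
    rw [add_comm ρ t, add_pow, mul_sum]
    have h2 : ∀ k ∈ range (N + 1), a N * (t ^ k * ρ ^ (N - k) * (N.choose k : ℝ)) ≤
        R * (1 / 2) ^ k := by
      intro k hk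
      have h3 := mul_le_mul_of_nonneg_left (hterm k hk) (by positivity : 0 ≤ t ^ k)
      calc a N * (t ^ k * ρ ^ (N - k) * (N.choose k : ℝ)) =
          t ^ k * (a N * (ρ ^ (N - k) * (N.choose k : ℝ))) := by ring
        _ ≤ t ^ k * R ^ (k + 1) := h3
        _ = R * (t * R) ^ k := by ring
        _ = R * (1 / 2) ^ k := by
          congr 2
          rw [ht]
          field_simp
    refine (sum_le_sum h2).trans ?_
    rw [← mul_sum]
    have h4 : ∑ k ∈ range (N + 1), ((1 : ℝ) / 2) ^ k ≤ 2 := sum_geometric_two_le (N + 1)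
    calc R * ∑ k ∈ range (N + 1), ((1 : ℝ) / 2) ^ k ≤ R * 2 := mul_le_mul_of_nonneg_left h4 hR0.le
      _ = 2 * R := mul_comm _ _
  have hp : 0 < (ρ + t) ^ N := by positivity
  rw [div_pow, one_pow, mul_one_div, le_div_iff₀ hp]
  exact hsum

end Pool.Agent.Lib_helper12.NZ
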