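import Pool.Agent.Lib_helper12.NZ.Base

set_option autoImplicit false

open Finset
open scoped ENNReal

namespace Pool.Agent.Lib_helper12.NZ

open PowerSeries

/-- clearing the denominators of a family of polynomials -/
theorem AR1_clear (p : ℕ → Polynomial ℚ) (s : Finset ℕ) : ∃ (N : ℤ) (q : ℕ → Polynomial ℤ), N ≠ 0 ∧
    ∀ i ∈ s, (q i).map (Int.castRingHom ℚ) = Polynomial.C (N : ℚ) * p i := by
  classical
  induction s using Finset.induction_on with
  | empty => exact ⟨1, fun _ => 0, one_ne_zero, by simp⟩
  | insert a s ha ih =>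
      obtain ⟨N, q, hN, hq⟩ := ih
      obtain ⟨c, hc⟩ := IsLocalization.integerNormalization_map_to_map (nonZeroDivisors ℤ) (p a)
      have hc0 : (c : ℤ) ≠ 0 := nonZeroDivisors.coe_ne_zero c
      refine ⟨N * c, fun i => if i = a then Polynomial.C N *
        IsLocalization.integerNormalization (nonZeroDivisors ℤ) (p a)
        else Polynomial.C (c : ℤ) * q i, mul_ne_zero hN hc0, ?_⟩
      intro i hi
      by_cases hia : i = a
      · subst hia
        beta_reduce
        rw [if_pos rfl, Polynomial.map_mul, Polynomial.map_C]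
        have h1 : (IsLocalization.integerNormalization (nonZeroDivisors ℤ) (p i)).map
            (Int.castRingHom ℚ) = (c : ℤ) • p i := by
          rw [← hc]
          rfl
        rw [h1]
        ext n
        rw [Polynomial.coeff_C_mul, Polynomial.coeff_smul, Polynomial.coeff_C_mul, zsmul_eq_mul]
        push_cast
        simp
        ring
      · beta_reduce
        rw [if_neg hia, Polynomial.map_mul, Polynomial.map_C,
          hq i ((Finset.mem_insert.mp hi).resolve_left hia)]
        ext n
        rw [Polynomial.coeff_C_mul, Polynomial.coeff_C_mul, Polynomial.coeff_C_mul]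
        push_cast
        simp
        ring

theorem AR1_map (f : PowerSeries ℤ) (j : ℕ) :
    PowerSeries.map (Int.castRingHom ℚ) ((dS ℤ)^[j] f) =
      (⇑(PowerSeries.derivative ℚ))^[j] (PowerSeries.map (Int.castRingHom ℚ) f) := by
  induction j with
  | zero => rfl
  | succ j ih =>
      rw [Function.iterate_succ_apply', Function.iterate_succ_apply', ← ih]
      ext n
      unfold dS
      rw [PowerSeries.coeff_map, PowerSeries.coeff_derivative, PowerSeries.coeff_derivative,
        PowerSeries.coeff_map]
      push_cast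
      simp

theorem AR1 (a : ℕ → ℤ) (ha : ∃ n, a n ≠ 0) (d : ℕ) (p : ℕ → Polynomial ℚ) (hp : p d ≠ 0)
    (h : ∑ i ∈ range (d + 1), (p i : PowerSeries ℚ) *
      (⇑(PowerSeries.derivative ℚ))^[i] (PowerSeries.mk fun n => (a n : ℚ)) = 0) :
    ∃ (m : ℕ) (b : ℕ → Polynomial ℤ), Rel (PowerSeries.mk a) m b := by
  classical
  set f : PowerSeries ℤ := PowerSeries.mk a with hf
  have hf0 : f ≠ 0 := by
    obtain ⟨n, hn⟩ := ha
    intro h0
    apply hn
    have := congrArg (coeff n) h0
    rw [hf, PowerSeries.coeff_mk, map_zero] at this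
    exact this
  have hfm : PowerSeries.map (Int.castRingHom ℚ) f = PowerSeries.mk fun n => (a n : ℚ) := by
    ext n
    simp [hf]
  have hinj : Function.Injective (PowerSeries.map (Int.castRingHom ℚ)) := by
    intro x y hxy
    ext n
    have := congrArg (coeff n) hxy
    rw [PowerSeries.coeff_map, PowerSeries.coeff_map] at this
    exact Int.cast_injective this
  -- relations of order exactly `m`
  have hex : ∃ m : ℕ, ∃ b : ℕ → Polynomial ℤ, b m ≠ 0 ∧
      ∑ i ∈ range (m + 1), (b i : PowerSeries ℤ) * (dS ℤ)^[i] f = 0 := by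
    obtain ⟨N, q, hN, hq⟩ := AR1_clear p (range (d + 1))
    refine ⟨d, q, ?_, ?_⟩
    · intro h0
      have h1 := hq d (Finset.mem_range.mpr (Nat.lt_succ_self d))
      rw [h0, Polynomial.map_zero] at h1
      have h2 : (Polynomial.C (N : ℚ)) ≠ 0 := by
        rw [Ne, Polynomial.C_eq_zero]
        exact_mod_cast hN
      exact (mul_ne_zero h2 hp) h1.symm
    · apply hinj
      rw [map_zero, map_sum]
      have h1 : ∀ i ∈ range (d + 1), PowerSeries.map (Int.castRingHom ℚ)
          ((q i : PowerSeries ℤ) * (dS ℤ)^[i] f) = PowerSeries.C (N : ℚ) * ((p i : PowerSeries ℚ) *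
            (⇑(PowerSeries.derivative ℚ))^[i] (PowerSeries.mk fun n => (a n : ℚ))) := by
        intro i hi
        rw [map_mul, AR1_map, hfm, ← mul_assoc]
        congr 1
        rw [← Polynomial.polynomial_map_coe, hq i hi, Polynomial.coe_mul, Polynomial.coe_C]
      rw [Finset.sum_congr rfl h1, ← Finset.mul_sum, h, mul_zero]
  obtain ⟨hspec, hmin⟩ : (∃ b : ℕ → Polynomial ℤ, b (Nat.find hex) ≠ 0 ∧
      ∑ i ∈ range (Nat.find hex + 1), (b i : PowerSeries ℤ) * (dS ℤ)^[i] f = 0) ∧
      ∀ m < Nat.find hex, ¬ ∃ b : ℕ → Polynomial ℤ, b m ≠ 0 ∧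
      ∑ i ∈ range (m + 1), (b i : PowerSeries ℤ) * (dS ℤ)^[i] f = 0 :=
    ⟨Nat.find_spec hex, fun m hm => Nat.find_min hex hm⟩
  obtain ⟨b, hb, hrel⟩ := hspec
  refine ⟨Nat.find hex, b, ?_, hb, hrel, ?_⟩
  · by_contra h0
    have h1 : Nat.find hex = 0 := by omega
    rw [h1] at hb hrel
    rw [zero_add, Finset.sum_range_one, Function.iterate_zero, id_eq] at hrel
    rcases mul_eq_zero.mp hrel with h2 | h2
    · apply hb
      rwa [Polynomial.coe_eq_zero_iff] at h2
    · exact hf0 h2
  · intro c hc i hi
    by_contra hci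
    set T : Finset ℕ := (range (Nat.find hex)).filter (fun j => c j ≠ 0) with hT
    have hTne : T.Nonempty := ⟨i, by
      rw [hT, Finset.mem_filter, Finset.mem_range]
      exact ⟨hi, hci⟩⟩
    set j := T.max' hTne with hj
    have hjT : j ∈ T := Finset.max'_mem _ _
    have hjT' := hjT
    rw [hT, Finset.mem_filter, Finset.mem_range] at hjT'
    apply hmin j hjT'.1
    refine ⟨c, hjT'.2, ?_⟩
    rw [← hc]
    apply Finset.sum_subset
    · intro x hx
      rw [Finset.mem_range] at hx ⊢
      omega
    · intro x hx hx'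
      rw [Finset.mem_range] at hx hx'
      have hcx : c x = 0 := by
        by_contra hcx
        have hxT : x ∈ T := by
          rw [hT, Finset.mem_filter, Finset.mem_range]
          exact ⟨hx, hcx⟩
        have := Finset.le_max' T x hxT
        omega
      rw [hcx, Polynomial.coe_zero, zero_mul]

example : type_of% @AR1 = type_of% @AR1 := rfl

end Pool.Agent.Lib_helper12.NZ
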