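import Pool.Agent.Lib_helper12.NZ.Base
import Pool.Agent.Lib_helper12.NZ.Fin.U_NZ_AR1_helper30
import Pool.Agent.Lib_helper12.NZ.Fin.U_NZ_AR14_helper58
import Pool.Agent.Lib_helper12.NZ.Fin.U_NZ_AR15_helper87
import Pool.Agent.Lib_helper12.NZ.Fin.U_NZ_AR16_helper22
import Pool.Agent.Lib_helper12.NZ.Fin.U_NZ_AR17_helper22

set_option autoImplicit false
open Finset PowerSeries

namespace Pool.Agent.Lib_helper12.NZ

theorem AR18_map_dS {R S : Type*} [CommSemiring R] [CommSemiring S] (φ : R →+* S) (i : ℕ)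
    (f : PowerSeries R) :
    PowerSeries.map φ ((dS R)^[i] f) = (dS S)^[i] (PowerSeries.map φ f) := by
  ext n
  simp only [dS, PowerSeries.coeff_map, PowerSeries.coeff_iterate_derivative, map_mul]
  simp

theorem AR18_comp_ne {p : Polynomial ℝ} (ρ : ℝ) :
    p.comp (Polynomial.X + Polynomial.C ρ) ≠ 0 ↔ p ≠ 0 := by
  rw [ne_eq, ne_eq, not_iff_not]
  exact Polynomial.comp_X_add_C_eq_zero_iff

/-- AR18 -/
theorem AR18 (a : ℕ → ℕ) (mu : ℝ) (hmu : 0 < mu)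
    (h1 : ∀ K : ℕ, ∃ C : ℝ, ∀ n : ℕ, (a n : ℝ) * (n : ℝ) ^ K ≤ C * mu ^ n)
    (h2 : ∀ ρ : ℝ, 0 < ρ → ρ < mu → ¬ ∃ C : ℝ, ∀ n : ℕ, (a n : ℝ) ≤ C * ρ ^ n)
    (d : ℕ) (p : ℕ → Polynomial ℚ) (hp : p d ≠ 0)
    (h : ∑ i ∈ range (d + 1), (p i : PowerSeries ℚ) *
      (⇑(PowerSeries.derivative ℚ))^[i] (PowerSeries.mk fun n => (a n : ℚ)) = 0) : False := by
  have ha : ∃ n, (fun n => (a n : ℤ)) n ≠ 0 := by
    by_contra hc
    push Not at hc
    apply h2 (mu / 2) (by positivity) (by linarith)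
    refine ⟨0, fun n => ?_⟩
    have := hc n
    simp only [Nat.cast_eq_zero] at this
    simp [this]
  obtain ⟨m, b, hRel⟩ := AR1 (fun n => (a n : ℤ)) ha d p hp (by simpa using h)
  -- exponential growth
  obtain ⟨C, hC⟩ := h1 0
  set C0 : ℝ := max 1 (max |C| mu) with hC0
  have hC01 : 1 ≤ C0 := le_max_left _ _
  have hC02 : |C| ≤ C0 := (le_max_left _ _).trans (le_max_right _ _)
  have hC03 : mu ≤ C0 := (le_max_right _ _).trans (le_max_right _ _)
  have hgr : ∀ n, |((fun n => (a n : ℤ)) n : ℝ)| ≤ C0 ^ (n + 1) := by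
    intro n
    have h3 := hC n
    simp only [pow_zero, mul_one] at h3
    simp only [Int.cast_natCast, Nat.abs_cast]
    calc (a n : ℝ) ≤ C * mu ^ n := h3
      _ ≤ |C| * mu ^ n := by gcongr; exact le_abs_self C
      _ ≤ C0 * C0 ^ n := by gcongr
      _ = C0 ^ (n + 1) := by ring
  set ρ : ℝ := 1 / mu with hρ
  have hρ0 : 0 < ρ := by positivity
  have hreg : ∀ i < m, ¬ Irr m i ((b m).map (Int.castRingHom ℝ)) ((b i).map (Int.castRingHom ℝ)) ρ :=
    fun i hi => AR14 _ C0 hgr m b hRel ρ i hi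
  -- relation over the reals
  have hrelR : ∑ i ∈ range (m + 1), (((b i).map (Int.castRingHom ℝ) : Polynomial ℝ) : PowerSeries ℝ) *
      (dS ℝ)^[i] (PowerSeries.mk fun n => (a n : ℝ)) = 0 := by
    have h3 := congrArg (PowerSeries.map (Int.castRingHom ℝ)) hRel.rel
    rw [map_sum, map_zero] at h3
    rw [← h3]
    apply Finset.sum_congr rfl
    intro i _
    rw [map_mul, AR18_map_dS]
    congr 1
    ext n
    simp
  have hdec : ∀ K : ℕ, ∃ C : ℝ, ∀ n : ℕ, (a n : ℝ) * ρ ^ n * (n : ℝ) ^ K ≤ C := by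
    intro K
    obtain ⟨C, hC⟩ := h1 K
    refine ⟨C, fun n => ?_⟩
    have h3 := mul_le_mul_of_nonneg_right (hC n) (show 0 ≤ ρ ^ n by positivity)
    have h4 : C * mu ^ n * ρ ^ n = C := by
      rw [mul_assoc, ← mul_pow, hρ, mul_one_div_cancel hmu.ne']; simp
    rw [h4] at h3
    calc (a n : ℝ) * ρ ^ n * (n : ℝ) ^ K = (a n : ℝ) * (n : ℝ) ^ K * ρ ^ n := by ring
      _ ≤ C := h3
  obtain ⟨φ, hφ, hφrel⟩ := AR15 (fun n => (a n : ℝ)) ρ hρ0 (fun n => by positivity) hdec m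
    (fun i => (b i).map (Int.castRingHom ℝ)) hrelR
  have hbm : (b m).map (Int.castRingHom ℝ) ≠ 0 := by
    rw [Polynomial.map_ne_zero_iff (RingHom.injective_int _)]
    exact hRel.lead
  obtain ⟨R, hR1, hR⟩ := AR16 φ m
    (fun i => ((b i).map (Int.castRingHom ℝ)).comp (Polynomial.X + Polynomial.C ρ))
    ((AR18_comp_ne ρ).2 hbm) (by
      intro i hi hirr
      apply hreg i hi
      obtain ⟨_, h4, h5⟩ := hirr
      refine ⟨hbm, (AR18_comp_ne ρ).1 h4, ?_⟩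
      rw [Polynomial.rootMultiplicity_eq_rootMultiplicity (t := ρ),
        Polynomial.rootMultiplicity_eq_rootMultiplicity (p := (b m).map (Int.castRingHom ℝ)) (t := ρ)]
      exact h5) hφrel
  obtain ⟨C', hC'⟩ := AR17 (fun n => (a n : ℝ)) φ ρ R hρ0 (fun n => by positivity) hR1 hφ hR
  apply h2 (1 / (ρ + 1 / (2 * R))) (by positivity) ?_ ⟨C', hC'⟩
  have h6 : 0 < 1 / (2 * R) := by positivity
  calc 1 / (ρ + 1 / (2 * R)) < 1 / ρ := one_div_lt_one_div_of_lt hρ0 (by linarith)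
    _ = mu := by rw [hρ, one_div_one_div]

end Pool.Agent.Lib_helper12.NZ
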