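import Pool.Agent.Lib_helper12.NZ.Base

set_option autoImplicit false

open Finset

namespace Pool.Agent.Lib_helper12.NZ

theorem CA1_pat (s : Fin 5 → ℕ) :
    (∀ i j : Fin 5, pat i < pat j ↔ s i < s j) ↔ (s 0 < s 1 ∧ s 1 < s 3 ∧ s 3 < s 4 ∧ s 4 < s 2) := by
  constructor
  · intro h
    refine ⟨(h 0 1).1 (by decide), (h 1 3).1 (by decide), (h 3 4).1 (by decide),
      (h 4 2).1 (by decide)⟩
  · rintro ⟨h1, h2, h3, h4⟩
    have hp : ∀ i j : Fin 5, pat i < pat j → s i < s j := by
      intro i j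
      fin_cases i <;> fin_cases j <;>
        simp only [Fin.zero_eta, Fin.mk_one, Fin.reduceFinMk] <;> intro h <;>
        first
        | omega
        | (exfalso; revert h; decide)
    intro i j
    refine ⟨hp i j, fun h => ?_⟩
    by_contra hcon
    rcases lt_or_eq_of_le (not_lt.1 hcon) with h5 | h5
    · exact absurd (hp j i h5) (by omega)
    · have h6 := pat.injective h5
      subst h6
      exact lt_irrefl _ h

theorem CA1_sub (n : ℕ) (g : Fin n → ℕ) (P : ℕ → ℕ → ℕ → ℕ → ℕ → Prop) :
    (∃ x1 x2 b a c, [x1, x2, b, a, c].Sublist (List.ofFn g) ∧ P x1 x2 b a c) ↔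
      ∃ f : Fin 5 ↪o Fin n, P (g (f 0)) (g (f 1)) (g (f 2)) (g (f 3)) (g (f 4)) := by
  constructor
  · rintro ⟨x1, x2, b, a, c, hs, hP⟩
    rw [List.sublist_iff_exists_fin_orderEmbedding_get_eq] at hs
    obtain ⟨f, hf⟩ := hs
    let f' : Fin 5 ↪o Fin n := f.trans (Fin.castOrderIso (List.length_ofFn (f := g))).toOrderEmbedding
    have h : ∀ i : Fin 5, [x1, x2, b, a, c].get i = g (f' i) := by
      intro i
      rw [hf i, List.get_ofFn]
      rfl
    refine ⟨f', ?_⟩
    rw [← h 0, ← h 1, ← h 2, ← h 3, ← h 4]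
    exact hP
  · rintro ⟨f, hP⟩
    refine ⟨g (f 0), g (f 1), g (f 2), g (f 3), g (f 4), ?_, hP⟩
    rw [List.sublist_iff_exists_fin_orderEmbedding_get_eq]
    let f' : Fin 5 ↪o Fin (List.ofFn g).length :=
      f.trans (Fin.castOrderIso (List.length_ofFn (f := g)).symm).toOrderEmbedding
    refine ⟨f', ?_⟩
    have h : ∀ i : Fin 5, (List.ofFn g).get (f' i) = g (f i) := by
      intro i
      rw [List.get_ofFn]
      rfl
    intro i
    rw [h]
    have h5 : ∀ i : Fin 5, [g (f 0), g (f 1), g (f 2), g (f 3), g (f 4)].get i = g (f i) := by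
      intro i
      fin_cases i <;> rfl
    exact h5 i

/-- CA1 -/
theorem CA1 (n : ℕ) : av n = cpl n [] := by
  have hunr : unr n [] = range n := by
    unfold unr
    rw [Finset.filter_true_of_mem]
    intro x _
    exact List.not_mem_nil
  have hav : ∀ σ : Equiv.Perm (Fin n),
      (¬ ∃ f : Fin 5 ↪o Fin n, ∀ i j : Fin 5, pat i < pat j ↔ σ (f i) < σ (f j)) ↔
        Avd ([] ++ List.ofFn fun i => (σ i : ℕ)) := by
    intro σ
    rw [List.nil_append]
    unfold Avd
    have h1 := CA1_sub n (fun i => (σ i : ℕ))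
      (fun x1 x2 b a c => x1 < x2 ∧ x2 < a ∧ a < c ∧ c < b)
    constructor
    · rintro h x1 x2 b a c hs hP
      apply h
      obtain ⟨f, hf⟩ := h1.1 ⟨x1, x2, b, a, c, hs, hP⟩
      exact ⟨f, (CA1_pat fun i => (σ (f i) : ℕ)).2 hf⟩
    · rintro h ⟨f, hf⟩
      obtain ⟨x1, x2, b, a, c, hs, hP⟩ := h1.2 ⟨f, (CA1_pat fun i => (σ (f i) : ℕ)).1 hf⟩
      exact h x1 x2 b a c hs hP
  unfold av cpl
  let Φ : {σ : Equiv.Perm (Fin n) //
      ¬ ∃ f : Fin 5 ↪o Fin n, ∀ i j : Fin 5, pat i < pat j ↔ σ (f i) < σ (f j)} →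
      {w : List ℕ // w.Nodup ∧ w.toFinset = unr n [] ∧ Avd ([] ++ w)} := fun σ =>
    ⟨List.ofFn fun i => (σ.1 i : ℕ), by
      refine ⟨?_, ?_, (hav σ.1).1 σ.2⟩
      · rw [List.nodup_ofFn]
        intro i j hij
        exact σ.1.injective (Fin.ext hij)
      · rw [hunr]
        ext x
        rw [List.mem_toFinset, List.mem_ofFn, Finset.mem_range]
        constructor
        · rintro ⟨i, rfl⟩
          exact (σ.1 i).2
        · intro hx
          refine ⟨σ.1.symm ⟨x, hx⟩, ?_⟩
          simp⟩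
  have hΦ : Function.Bijective Φ := by
    constructor
    · rintro ⟨σ, h1⟩ ⟨σ', h2⟩ heq
      have h3 : (List.ofFn fun i => (σ i : ℕ)) = List.ofFn fun i => (σ' i : ℕ) :=
        congrArg Subtype.val heq
      have h4 := List.ofFn_injective h3
      apply Subtype.ext
      apply Equiv.ext
      intro i
      exact Fin.ext (congrFun h4 i)
    · rintro ⟨w, h1, h2, h3⟩
      rw [hunr] at h2
      have hlen : w.length = n := by
        rw [← List.toFinset_card_of_nodup h1, h2, Finset.card_range]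
      have hlt : ∀ i : Fin n, w.get (i.cast hlen.symm) < n := by
        intro i
        rw [← Finset.mem_range, ← h2, List.mem_toFinset]
        exact List.get_mem _ _
      let g : Fin n → Fin n := fun i => ⟨w.get (i.cast hlen.symm), hlt i⟩
      have hg : Function.Injective g := by
        intro i j hij
        have h4 : w.get (i.cast hlen.symm) = w.get (j.cast hlen.symm) := congrArg Fin.val hij
        have h5 := (List.nodup_iff_injective_get.1 h1) h4
        have h6 : ((i.cast hlen.symm : Fin w.length) : ℕ) = (j.cast hlen.symm : Fin w.length) :=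
          congrArg Fin.val h5
        exact Fin.ext h6
      let σ : Equiv.Perm (Fin n) := Equiv.ofBijective g (Finite.injective_iff_bijective.1 hg)
      have hw : (List.ofFn fun i => (σ i : ℕ)) = w := by
        apply List.ext_get
        · rw [List.length_ofFn, hlen]
        · intro m h4 h5
          rw [List.get_ofFn]
          rfl
      refine ⟨⟨σ, (hav σ).2 ?_⟩, ?_⟩
      · rw [hw]
        exact h3
      · exact Subtype.ext hw
  exact Nat.card_congr (Equiv.ofBijective Φ hΦ)

end Pool.Agent.Lib_helper12.NZ
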