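import Pool.Agent.Lib_helper12.NZ.Base

set_option autoImplicit false

open Finset

namespace Pool.Agent.Lib_helper12.NZ

theorem CB_mem_unr {n : ℕ} {L : List ℕ} {c : ℕ} : c ∈ unr n L ↔ c < n ∧ c ∉ L := by
  unfold unr
  rw [Finset.mem_filter, Finset.mem_range]

theorem CB_mem_unr_snoc {n : ℕ} {L : List ℕ} {c v : ℕ} :
    c ∈ unr n (L ++ [v]) ↔ c ∈ unr n L ∧ c ≠ v := by
  rw [CB_mem_unr, CB_mem_unr, List.mem_append, List.mem_singleton]
  tauto

theorem CB_finite (S : Finset ℕ) (P : List ℕ → Prop) :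
    Finite {w : List ℕ // w.Nodup ∧ w.toFinset = S ∧ P w} := by
  have h1 : {w : List ℕ | w.Nodup ∧ w.toFinset = S ∧ P w} ⊆ {w | w ∈ S.toList.permutations} := by
    rintro w ⟨h1, h2, _⟩
    rw [Set.mem_setOf_eq, List.mem_permutations]
    apply List.perm_of_nodup_nodup_toFinset_eq h1 S.nodup_toList
    rw [h2, Finset.toList_toFinset]
  exact (Set.Finite.subset (List.finite_toSet _) h1).to_subtype

/-- CB1 -/
theorem CB1 (n : ℕ) (L : List ℕ) (h : (unr n L).Nonempty) :
    cpl n L = ∑ v ∈ unr n L, cpl n (L ++ [v]) := by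
  have hfin : ∀ v : {x // x ∈ unr n L}, Finite {w : List ℕ // w.Nodup ∧
      w.toFinset = unr n (L ++ [v.1]) ∧ Avd (L ++ [v.1] ++ w)} := fun v => CB_finite _ _
  have hunr : ∀ v ∈ unr n L, insert v (unr n (L ++ [v])) = unr n L := by
    intro v hv
    ext c
    rw [Finset.mem_insert, CB_mem_unr_snoc]
    constructor
    · rintro (rfl | h1)
      · exact hv
      · exact h1.1
    · intro h1
      by_cases h2 : c = v
      · exact Or.inl h2
      · exact Or.inr ⟨h1, h2⟩
  have hnot : ∀ v, v ∉ unr n (L ++ [v]) := by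
    intro v hv
    exact (CB_mem_unr_snoc.1 hv).2 rfl
  let Φ : (Σ v : {x // x ∈ unr n L}, {w : List ℕ // w.Nodup ∧
      w.toFinset = unr n (L ++ [v.1]) ∧ Avd (L ++ [v.1] ++ w)}) →
      {w : List ℕ // w.Nodup ∧ w.toFinset = unr n L ∧ Avd (L ++ w)} := fun p =>
    ⟨p.1.1 :: p.2.1, by
      obtain ⟨⟨v, hv⟩, ⟨w, h1, h2, h3⟩⟩ := p
      refine ⟨?_, ?_, ?_⟩
      · rw [List.nodup_cons]
        refine ⟨?_, h1⟩
        intro h4
        apply hnot v
        rw [← h2, List.mem_toFinset]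
        exact h4
      · have h2' : w.toFinset = unr n (L ++ [v]) := h2
        rw [List.toFinset_cons]
        show insert v w.toFinset = unr n L
        rw [h2']
        exact hunr v hv
      · have : L ++ [v] ++ w = L ++ v :: w := by simp
        rw [← this]
        exact h3⟩
  have hΦ : Function.Bijective Φ := by
    constructor
    · rintro ⟨⟨v, hv⟩, ⟨w, h1, h2, h3⟩⟩ ⟨⟨v', hv'⟩, ⟨w', h1', h2', h3'⟩⟩ heq
      have h4 : v :: w = v' :: w' := congrArg Subtype.val heq
      obtain ⟨rfl, rfl⟩ := List.cons_eq_cons.1 h4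
      rfl
    · rintro ⟨w, h1, h2, h3⟩
      rcases w with _ | ⟨v, w⟩
      · exfalso
        rw [List.toFinset_nil] at h2
        rw [← h2] at h
        exact Finset.not_nonempty_empty h
      · rw [List.nodup_cons] at h1
        have hv : v ∈ unr n L := by
          rw [← h2, List.mem_toFinset]
          simp
        refine ⟨⟨⟨v, hv⟩, ⟨w, h1.2, ?_, ?_⟩⟩, rfl⟩
        · ext c
          show c ∈ w.toFinset ↔ c ∈ unr n (L ++ [v])
          rw [CB_mem_unr_snoc, ← h2, List.mem_toFinset, List.mem_toFinset, List.mem_cons]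
          constructor
          · intro h4
            refine ⟨Or.inr h4, ?_⟩
            rintro rfl
            exact h1.1 h4
          · rintro ⟨h4 | h4, h5⟩
            · exact absurd h4 h5
            · exact h4
        · have : L ++ [v] ++ w = L ++ v :: w := by simp
          rw [this]
          exact h3
  unfold cpl
  rw [← Nat.card_congr (Equiv.ofBijective Φ hΦ), Nat.card_sigma,
    ← Finset.sum_coe_sort (unr n L) (fun v => Nat.card {w : List ℕ // w.Nodup ∧
      w.toFinset = unr n (L ++ [v]) ∧ Avd (L ++ [v] ++ w)})]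

theorem CB2 (n : ℕ) (L : List ℕ) (h : Bad n L) : cpl n L = 0 := by
  obtain ⟨x1, x2, b, a, c, hs, h12, h2a, hac, hcb, hc⟩ := h
  unfold cpl
  have : IsEmpty {w : List ℕ // w.Nodup ∧ w.toFinset = unr n L ∧ Avd (L ++ w)} := by
    constructor
    rintro ⟨w, h1, h2, h3⟩
    rw [← h2, List.mem_toFinset] at hc
    refine h3 x1 x2 b a c ?_ ⟨h12, h2a, hac, hcb⟩
    exact List.Sublist.append (l₁ := [x1, x2, b, a]) (r₁ := [c]) hs
      (List.singleton_sublist.2 hc)
  exact Nat.card_of_isEmpty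

/-- CA2 -/
theorem CA2 (n : ℕ) (L : List ℕ) (hL : L.Nodup) (hr : L.toFinset = Finset.range n) :
    Avd L ↔ HG n L := by
  have hmem : ∀ c, c ∈ L ↔ c < n := by
    intro c
    rw [← List.mem_toFinset, hr, Finset.mem_range]
  constructor
  · rintro hA L' ⟨L'', rfl⟩ ⟨x1, x2, b, a, c, hs, h12, h2a, hac, hcb, hc⟩
    rw [CB_mem_unr] at hc
    have h1 := (hmem c).2 hc.1
    rw [List.mem_append] at h1
    have h2 : c ∈ L'' := h1.resolve_left hc.2
    refine hA x1 x2 b a c ?_ ⟨h12, h2a, hac, hcb⟩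
    exact List.Sublist.append (l₁ := [x1, x2, b, a]) (r₁ := [c]) hs
      (List.singleton_sublist.2 h2)
  · rintro hG x1 x2 b a c hs ⟨h12, h2a, hac, hcb⟩
    have hs' : ([x1, x2, b, a] ++ [c]).Sublist L := hs
    rw [List.append_sublist_iff] at hs'
    obtain ⟨r1, r2, rfl, h1, h2⟩ := hs'
    have h3 : c ∈ r2 := List.singleton_sublist.1 h2
    refine hG r1 (List.prefix_append _ _) ⟨x1, x2, b, a, c, h1, h12, h2a, hac, hcb, ?_⟩
    rw [CB_mem_unr]
    refine ⟨(hmem c).1 (List.mem_append_right _ h3), ?_⟩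
    intro h4
    exact List.disjoint_of_nodup_append hL h4 h3

end Pool.Agent.Lib_helper12.NZ
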