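import Pool.Agent.Lib_helper12.NZ.Base

set_option autoImplicit false

open Finset

namespace Pool.Agent.Lib_helper12.NZ

theorem CC_mem_unr {n : ℕ} {L : List ℕ} {c : ℕ} : c ∈ unr n L ↔ c < n ∧ c ∉ L := by
  unfold unr
  rw [Finset.mem_filter, Finset.mem_range]

theorem CC_mem_unr_snoc {n : ℕ} {L : List ℕ} {c v : ℕ} :
    c ∈ unr n (L ++ [v]) ↔ c ∈ unr n L ∧ c ≠ v := by
  rw [CC_mem_unr, CC_mem_unr, List.mem_append, List.mem_singleton]
  tauto

theorem CC_snoc {l L : List ℕ} {v : ℕ} (h : l.Sublist (L ++ [v])) :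
    l.Sublist L ∨ ∃ l', l = l' ++ [v] ∧ l'.Sublist L := by
  rw [List.sublist_append_iff] at h
  obtain ⟨l1, l2, rfl, h1, h2⟩ := h
  rcases List.sublist_singleton.1 h2 with rfl | rfl
  · left
    rw [List.append_nil]
    exact h1
  · right
    exact ⟨l1, rfl, h1⟩

/-- CC -/
theorem CC (n : ℕ) (L : List ℕ) (v : ℕ) (h : ¬ Bad n L) (hv : v ∈ unr n L) :
    ¬ Bad n (L ++ [v]) ↔ Alw n L v := by
  constructor
  · intro h1 x1 x2 b c hs h12 h2v hvc hcb hc
    apply h1
    refine ⟨x1, x2, b, v, c, ?_, h12, h2v, hvc, hcb, ?_⟩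
    · exact List.Sublist.append (l₁ := [x1, x2, b]) (r₁ := [v]) hs (List.Sublist.refl _)
    · rw [CC_mem_unr_snoc]
      exact ⟨hc, hvc.ne'⟩
  · rintro hA ⟨x1, x2, b, a, c, hs, h12, h2a, hac, hcb, hc⟩
    rw [CC_mem_unr_snoc] at hc
    rcases CC_snoc hs with h1 | ⟨l', h1, h2⟩
    · exact h ⟨x1, x2, b, a, c, h1, h12, h2a, hac, hcb, hc.1⟩
    · have h3 : [x1, x2, b] ++ [a] = l' ++ [v] := h1
      obtain ⟨h4, h5⟩ := List.append_inj' h3 rfl
      have h6 : a = v := by simpa using h5
      subst h6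
      rw [← h4] at h2
      exact hA x1 x2 b c h2 h12 h2a hac hcb hc.1

theorem CC_mn_snoc (n : ℕ) (L : List ℕ) (v : ℕ) : mn n (L ++ [v]) = min v (mn n L) := by
  unfold mn
  rw [List.foldr_append]
  induction L with
  | nil => rfl
  | cons a L ih =>
    simp only [List.foldr_cons] at ih ⊢
    rw [ih]
    exact min_left_comm _ _ _

theorem CC_mn_le {n : ℕ} {L : List ℕ} : mn n L ≤ n ∧ ∀ a ∈ L, mn n L ≤ a := by
  unfold mn
  induction L with
  | nil => simp
  | cons a L ih =>
    simp only [List.foldr_cons, List.mem_cons]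
    refine ⟨(min_le_right _ _).trans ih.1, ?_⟩
    rintro b (rfl | hb)
    · exact min_le_left _ _
    · exact (min_le_right _ _).trans (ih.2 b hb)

theorem CC_mn_le_xx (n : ℕ) (L : List ℕ) : mn n L ≤ xx n L := by
  unfold xx
  apply le_csInf
  · exact ⟨n, Or.inr rfl⟩
  · rintro x (⟨x1, _, hs⟩ | h)
    · exact CC_mn_le.2 x (hs.subset (by simp))
    · rw [Set.mem_singleton_iff.1 h]
      exact CC_mn_le.1

/-- CD: reading a new minimum -/
theorem CD (n : ℕ) (L : List ℕ) (v : ℕ) (hv : v ∈ unr n L) (h : v < mn n L) :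
    YY n (L ++ [v]) = ((unr n L).filter (v < ·)).card ∧ flg n (L ++ [v]) = flg n L := by
  constructor
  · unfold YY
    rw [CC_mn_snoc, min_eq_left h.le]
    congr 1
    ext w
    rw [Finset.mem_filter, Finset.mem_filter, CC_mem_unr_snoc]
    constructor
    · rintro ⟨⟨h1, _⟩, h3⟩
      exact ⟨h1, h3⟩
    · rintro ⟨h1, h2⟩
      exact ⟨⟨h1, h2.ne'⟩, h2⟩
  · have hxx : xx n (L ++ [v]) = xx n L := by
      unfold xx
      congr 2
      ext x
      constructor
      · rintro ⟨x1, h1, h2⟩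
        rcases CC_snoc h2 with h3 | ⟨l', h3, h4⟩
        · exact ⟨x1, h1, h3⟩
        · have h5 : [x1] ++ [x] = l' ++ [v] := h3
          obtain ⟨h6, h7⟩ := List.append_inj' h5 rfl
          have h8 : x = v := by simpa using h7
          rw [← h6] at h4
          have h9 : x1 ∈ L := h4.subset (by simp)
          have := (CC_mn_le (n := n)).2 x1 h9
          omega
      · rintro ⟨x1, h1, h2⟩
        exact ⟨x1, h1, h2.trans (List.sublist_append_left _ _)⟩
    have hvx : v < xx n L := lt_of_lt_of_le h (CC_mn_le_xx n L)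
    have hz : zon n (L ++ [v]) = zon n L := by
      unfold zon
      rw [hxx]
      congr 1
      ext w
      rw [Finset.mem_filter, Finset.mem_filter, CC_mem_unr_snoc]
      constructor
      · rintro ⟨⟨h1, _⟩, h3⟩
        exact ⟨h1, h3⟩
      · rintro ⟨h1, h2⟩
        exact ⟨⟨h1, (hvx.trans h2).ne'⟩, h2⟩
    unfold flg
    rw [hz]
    apply List.map_congr_left
    intro w hw
    have hw' : xx n L < w := by
      unfold zon at hw
      rw [Finset.mem_sort, Finset.mem_filter] at hw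
      exact hw.2
    have hvw : v < w := hvx.trans hw'
    have hiff : Alw n (L ++ [v]) w ↔ Alw n L w := by
      constructor
      · intro hA x1 x2 b c hs h12 h2w hwc hcb hc
        refine hA x1 x2 b c (hs.trans (List.sublist_append_left _ _)) h12 h2w hwc hcb ?_
        rw [CC_mem_unr_snoc]
        exact ⟨hc, (hvw.trans hwc).ne'⟩
      · intro hA x1 x2 b c hs h12 h2w hwc hcb hc
        rw [CC_mem_unr_snoc] at hc
        rcases CC_snoc hs with h1 | ⟨l', h1, h2⟩
        · exact hA x1 x2 b c h1 h12 h2w hwc hcb hc.1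
        · have h3 : [x1, x2] ++ [b] = l' ++ [v] := h1
          obtain ⟨_, h5⟩ := List.append_inj' h3 rfl
          have h6 : b = v := by simpa using h5
          omega
    exact decide_eq_decide.2 hiff

end Pool.Agent.Lib_helper12.NZ
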