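import Pool.Agent.Lib_helper12.NZ.Base

/-! NZ block CE: reading a value between the minimum and `xx`. -/

set_option autoImplicit false

open Finset
open scoped ENNReal

namespace Pool.Agent.Lib_helper12.NZ

theorem CE_sub {s L : List ℕ} {v : ℕ} :
    s.Sublist (L ++ [v]) ↔ s.Sublist L ∨ ∃ s', s = s' ++ [v] ∧ s'.Sublist L := by
  rw [List.sublist_append_iff]
  constructor
  · rintro ⟨l1, l2, rfl, h1, h2⟩
    rcases List.sublist_singleton.mp h2 with h3 | h3
    · left; rw [h3, List.append_nil]; exact h1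
    · right; exact ⟨l1, by rw [h3], h1⟩
  · rintro (h | ⟨s', rfl, h⟩)
    · exact ⟨s, [], by simp, h, List.nil_sublist _⟩
    · exact ⟨s', [v], rfl, h, List.Sublist.refl _⟩

theorem CE_sub2 {x1 x2 v : ℕ} {L : List ℕ} :
    [x1, x2].Sublist (L ++ [v]) ↔ [x1, x2].Sublist L ∨ (x2 = v ∧ x1 ∈ L) := by
  rw [CE_sub]
  apply or_congr Iff.rfl
  constructor
  · rintro ⟨s', h1, h2⟩
    have h3 : [x1] ++ [x2] = s' ++ [v] := h1
    obtain ⟨h4, h5⟩ := List.append_inj' h3 rfl
    refine ⟨by simpa using h5, ?_⟩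
    rw [← h4] at h2
    exact List.singleton_sublist.mp h2
  · rintro ⟨rfl, h⟩
    exact ⟨[x1], rfl, List.singleton_sublist.mpr h⟩

theorem CE_sub3 {x1 x2 b v : ℕ} {L : List ℕ} :
    [x1, x2, b].Sublist (L ++ [v]) ↔ [x1, x2, b].Sublist L ∨ (b = v ∧ [x1, x2].Sublist L) := by
  rw [CE_sub]
  apply or_congr Iff.rfl
  constructor
  · rintro ⟨s', h1, h2⟩
    have h3 : [x1, x2] ++ [b] = s' ++ [v] := h1
    obtain ⟨h4, h5⟩ := List.append_inj' h3 rfl
    refine ⟨by simpa using h5, ?_⟩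
    rw [← h4] at h2
    exact h2
  · rintro ⟨rfl, h⟩
    exact ⟨[x1, x2], rfl, h⟩

theorem CE_unr {n : ℕ} {L : List ℕ} {v : ℕ} : unr n (L ++ [v]) = (unr n L).erase v := by
  ext w
  unfold unr
  simp only [Finset.mem_filter, Finset.mem_range, Finset.mem_erase, List.mem_append,
    List.mem_singleton]
  tauto

theorem CE_mem_unr {n : ℕ} {L : List ℕ} {v : ℕ} : v ∈ unr n L ↔ v < n ∧ v ∉ L := by
  unfold unr
  simp only [Finset.mem_filter, Finset.mem_range]

theorem CE_foldr (L : List ℕ) (n v : ℕ) : L.foldr min (min v n) = min v (L.foldr min n) := by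
  induction L with
  | nil => rfl
  | cons a L ih => rw [List.foldr_cons, List.foldr_cons, ih, min_left_comm]

theorem CE_mn (n : ℕ) (L : List ℕ) (v : ℕ) : mn n (L ++ [v]) = min v (mn n L) := by
  unfold mn
  rw [List.foldr_append]
  exact CE_foldr L n v

theorem CE_mn_le (n : ℕ) (L : List ℕ) : mn n L ≤ n := by
  unfold mn
  induction L with
  | nil => exact le_rfl
  | cons a L ih => exact (min_le_right _ _).trans ih

theorem CE_mn_le_mem {n : ℕ} {L : List ℕ} {x : ℕ} (hx : x ∈ L) : mn n L ≤ x := by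
  unfold mn
  induction L with
  | nil => simp at hx
  | cons a L ih =>
    rw [List.foldr_cons]
    rcases List.mem_cons.mp hx with h | h
    · rw [h]; exact min_le_left _ _
    · exact (min_le_right _ _).trans (ih h)

theorem CE_mn_mem {n : ℕ} {L : List ℕ} (h : mn n L < n) : mn n L ∈ L := by
  unfold mn at h ⊢
  induction L with
  | nil => simp at h
  | cons a L ih =>
    rw [List.foldr_cons] at h ⊢
    rcases le_total a (L.foldr min n) with h1 | h1
    · rw [min_eq_left h1]; exact List.mem_cons_self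
    · rw [min_eq_right h1] at h ⊢
      exact List.mem_cons_of_mem _ (ih h)

theorem CE_xx_le (n : ℕ) (L : List ℕ) : xx n L ≤ n := by
  unfold xx
  exact Nat.sInf_le (Or.inr rfl)

theorem CE_xx_le_pair {n : ℕ} {L : List ℕ} {x1 x2 : ℕ} (h : [x1, x2].Sublist L) (h12 : x1 < x2) :
    xx n L ≤ x2 := by
  unfold xx
  exact Nat.sInf_le (Or.inl ⟨x1, h12, h⟩)

theorem CE_xx_pair {n : ℕ} {L : List ℕ} (h : xx n L < n) :
    ∃ x1, x1 < xx n L ∧ [x1, xx n L].Sublist L := by
  have h1 : xx n L ∈ ({x2 | ∃ x1, x1 < x2 ∧ [x1, x2].Sublist L} ∪ {n} : Set ℕ) :=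
    Nat.sInf_mem ⟨n, Or.inr rfl⟩
  rcases h1 with h1 | h1
  · exact h1
  · rw [Set.mem_singleton_iff] at h1
    omega

theorem CE_xx_notin {n : ℕ} {L : List ℕ} : xx n L ∉ unr n L := by
  rw [CE_mem_unr]
  rintro ⟨h1, h2⟩
  obtain ⟨x1, _, h3⟩ := CE_xx_pair h1
  exact h2 (h3.subset (by simp))

theorem CE_mn_le_xx {n : ℕ} {L : List ℕ} : mn n L ≤ xx n L := by
  rcases Nat.lt_or_ge (xx n L) n with h | h
  · obtain ⟨x1, h1, h3⟩ := CE_xx_pair h
    exact (CE_mn_le_mem (h3.subset (by simp))).trans h1.le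
  · exact (CE_mn_le n L).trans h

/-- reading a value above the minimum -/
theorem CE_xx_append {n : ℕ} {L : List ℕ} {v : ℕ} (hv : v ∈ unr n L) (h1 : mn n L < v) :
    xx n (L ++ [v]) = min v (xx n L) := by
  have hvn := (CE_mem_unr.mp hv).1
  have hmem := CE_mn_mem (h1.trans hvn)
  have hset : ({x2 | ∃ x1, x1 < x2 ∧ [x1, x2].Sublist (L ++ [v])} ∪ {n} : Set ℕ) =
      insert v ({x2 | ∃ x1, x1 < x2 ∧ [x1, x2].Sublist L} ∪ {n}) := by
    ext x2
    simp only [Set.mem_union, Set.mem_ofPred_eq, Set.mem_singleton_iff, Set.mem_insert_iff,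
      CE_sub2]
    constructor
    · rintro (⟨x1, h2, h3 | ⟨h3, _⟩⟩ | h2)
      · exact Or.inr (Or.inl ⟨x1, h2, h3⟩)
      · exact Or.inl h3
      · exact Or.inr (Or.inr h2)
    · rintro (h2 | ⟨x1, h2, h3⟩ | h2)
      · exact Or.inl ⟨mn n L, by omega, Or.inr ⟨h2, hmem⟩⟩
      · exact Or.inl ⟨x1, h2, Or.inl h3⟩
      · exact Or.inr h2
  unfold xx
  rw [hset]
  exact csInf_insert (OrderBot.bddBelow _) ⟨n, Or.inr rfl⟩

theorem CE_YY {n : ℕ} {L : List ℕ} {v : ℕ} (hv : v ∈ unr n L) (h1 : mn n L < v) :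
    YY n (L ++ [v]) = YY n L - 1 := by
  unfold YY
  rw [CE_mn, min_eq_right h1.le, CE_unr, Finset.filter_erase, Finset.card_erase_of_mem]
  rw [Finset.mem_filter]
  exact ⟨hv, h1⟩

/-- above the value just read nothing changes -/
theorem CE_alw {n : ℕ} {L : List ℕ} {v w : ℕ} (h : v < w) :
    Alw n (L ++ [v]) w ↔ Alw n L w := by
  constructor
  · intro h1 x1 x2 b c h2 h3 h4 h5 h6 h7
    apply h1 x1 x2 b c (CE_sub3.mpr (Or.inl h2)) h3 h4 h5 h6
    rw [CE_unr, Finset.mem_erase]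
    exact ⟨by omega, h7⟩
  · intro h1 x1 x2 b c h2 h3 h4 h5 h6 h7
    rw [CE_unr, Finset.mem_erase] at h7
    rcases CE_sub3.mp h2 with h8 | ⟨h8, _⟩
    · exact h1 x1 x2 b c h8 h3 h4 h5 h6 h7.2
    · omega

/-- sorting a union of two blocks -/
theorem CE_sort_union {A B : Finset ℕ} (h : ∀ a ∈ A, ∀ b ∈ B, a < b) :
    (A ∪ B).sort (· ≤ ·) = A.sort (· ≤ ·) ++ B.sort (· ≤ ·) := by
  have hd : Disjoint A B := by
    rw [Finset.disjoint_left]
    intro a ha hb
    exact lt_irrefl _ (h a ha a hb)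
  apply List.Perm.eq_of_pairwise' (r := (· ≤ ·))
  · exact Finset.pairwise_sort _ _
  · rw [List.pairwise_append]
    refine ⟨Finset.pairwise_sort _ _, Finset.pairwise_sort _ _, ?_⟩
    intro a ha b hb
    rw [Finset.mem_sort] at ha hb
    exact (h a ha b hb).le
  · rw [← Multiset.coe_eq_coe, ← Multiset.coe_add, Finset.sort_eq, Finset.sort_eq, Finset.sort_eq,
      ← Finset.disjUnion_eq_union _ _ hd]
    rfl

/-- CE: reading a value between the minimum and `xx` -/
theorem CE (n : ℕ) (L : List ℕ) (v : ℕ) (hv : v ∈ unr n L) (h1 : mn n L < v) (h2 : v < xx n L) :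
    YY n (L ++ [v]) = YY n L - 1 ∧
    flg n (L ++ [v]) =
      push ((unr n L).filter (fun w => v < w ∧ w < xx n L)).card (flg n L) := by
  classical
  refine ⟨CE_YY hv h1, ?_⟩
  have hxx : xx n (L ++ [v]) = v := by rw [CE_xx_append hv h1, min_eq_left h2.le]
  set A := (unr n L).filter (fun w => v < w ∧ w < xx n L) with hA
  set B := (unr n L).filter (xx n L < ·) with hB
  have hset : (unr n (L ++ [v])).filter (xx n (L ++ [v]) < ·) = A ∪ B := by
    ext w
    rw [hxx, CE_unr, hA, hB, ← Finset.filter_or]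
    simp only [Finset.mem_filter, Finset.mem_erase]
    constructor
    · rintro ⟨⟨_, h3⟩, h4⟩
      have h5 : w ≠ xx n L := by
        rintro rfl
        exact CE_xx_notin h3
      exact ⟨h3, by omega⟩
    · rintro ⟨h3, h4⟩
      exact ⟨⟨by omega, h3⟩, by omega⟩
  have hzon : zon n (L ++ [v]) = A.sort (· ≤ ·) ++ zon n L := by
    unfold zon
    rw [hset]
    apply CE_sort_union
    intro a ha b hb
    rw [hA, Finset.mem_filter] at ha
    rw [hB, Finset.mem_filter] at hb
    exact ha.2.2.trans hb.2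
  unfold flg push
  rw [hzon, List.map_append]
  congr 1
  · rw [List.eq_replicate_iff]
    constructor
    · rw [List.length_map, Finset.length_sort]
    · intro b hb
      rw [List.mem_map] at hb
      obtain ⟨w, hw, rfl⟩ := hb
      rw [Finset.mem_sort, hA, Finset.mem_filter] at hw
      rw [decide_eq_true_eq, CE_alw hw.2.1]
      intro x1 x2 b c h3 h4 h5 h6 h7 _
      have h8 : xx n L ≤ x2 := CE_xx_le_pair ((List.sublist_append_left [x1, x2] [b]).trans h3) h4
      omega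
  · apply List.map_congr_left
    intro w hw
    unfold zon at hw
    rw [Finset.mem_sort, Finset.mem_filter] at hw
    have : v < w := h2.trans hw.2
    simp only [CE_alw this]

end Pool.Agent.Lib_helper12.NZ
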