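import Pool.Agent.Lib_helper12.NZ.Base
import Pool.Agent.Lib_helper12.NZ.Fin.U_NZ_CE_helper18


/-! NZ block CF: reading an allowed value above `xx`. -/

set_option autoImplicit false

open Finset
open scoped ENNReal

namespace Pool.Agent.Lib_helper12.NZ

theorem CF_kill (l₁ l₂ : List Bool) :
    kill^[nt l₁] (l₁ ++ true :: l₂) = List.replicate l₁.length false ++ true :: l₂ := by
  have hf : ∀ (j : ℕ) (l : List Bool), kill^[j] (false :: l) = false :: kill^[j] l := by
    intro j
    induction j with
    | zero => intro l; rfl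
    | succ j ih =>
      intro l
      rw [Function.iterate_succ_apply, Function.iterate_succ_apply, kill, ih]
  induction l₁ with
  | nil => rfl
  | cons a l ih =>
    cases a with
    | false =>
      have h1 : nt (false :: l) = nt l := by simp [nt]
      rw [h1, List.cons_append, hf, ih, List.length_cons, List.replicate_succ, List.cons_append]
    | true =>
      have h1 : nt (true :: l) = nt l + 1 := by simp [nt]
      rw [h1, List.cons_append, Function.iterate_succ_apply, kill, hf, ih, List.length_cons,
        List.replicate_succ, List.cons_append]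

theorem CF_sort_singleton_union {v : ℕ} {A B : Finset ℕ} (hA : ∀ a ∈ A, a < v) (hB : ∀ b ∈ B, v < b) :
    (A ∪ ({v} ∪ B)).sort (· ≤ ·) = A.sort (· ≤ ·) ++ v :: B.sort (· ≤ ·) := by
  rw [CE_sort_union, CE_sort_union, Finset.sort_singleton]
  · rfl
  · intro a ha b hb
    rw [Finset.mem_singleton] at ha
    rw [ha]; exact hB b hb
  · intro a ha b hb
    rcases Finset.mem_union.mp hb with h | h
    · rw [Finset.mem_singleton] at h; rw [h]; exact hA a ha
    · exact (hA a ha).trans (hB b h)

open Classical in
/-- CF: reading an allowed value above `xx` -/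
theorem CF (n : ℕ) (L : List ℕ) (v : ℕ) (hv : v ∈ unr n L) (h1 : xx n L < v) (h2 : Alw n L v) :
    YY n (L ++ [v]) = YY n L - 1 ∧
    flg n (L ++ [v]) =
      pop ((unr n L).filter (fun w => xx n L < w ∧ w < v ∧ Alw n L w)).card (flg n L) := by
  have hmn : mn n L < v := CE_mn_le_xx.trans_lt h1
  refine ⟨CE_YY hv hmn, ?_⟩
  have hvn := (CE_mem_unr.mp hv).1
  have hxx : xx n (L ++ [v]) = xx n L := by rw [CE_xx_append hv hmn, min_eq_right h1.le]
  set A := (unr n L).filter (fun w => xx n L < w ∧ w < v) with hA
  set B := (unr n L).filter (fun w => v < w) with hB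
  have hAlt : ∀ a ∈ A, a < v := by
    intro a ha
    rw [hA, Finset.mem_filter] at ha
    exact ha.2.2
  have hBgt : ∀ b ∈ B, v < b := by
    intro b hb
    rw [hB, Finset.mem_filter] at hb
    exact hb.2
  have hset1 : (unr n L).filter (xx n L < ·) = A ∪ ({v} ∪ B) := by
    ext w
    simp only [hA, hB, Finset.mem_union, Finset.mem_filter, Finset.mem_singleton]
    constructor
    · rintro ⟨h3, h4⟩
      rcases lt_trichotomy w v with h5 | h5 | h5
      · exact Or.inl ⟨h3, h4, h5⟩
      · exact Or.inr (Or.inl h5)
      · exact Or.inr (Or.inr ⟨h3, h5⟩)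
    · rintro (⟨h3, h4, _⟩ | h3 | ⟨h3, h4⟩)
      · exact ⟨h3, h4⟩
      · rw [h3]; exact ⟨hv, h1⟩
      · exact ⟨h3, h1.trans h4⟩
  have hset2 : (unr n (L ++ [v])).filter (xx n (L ++ [v]) < ·) = A ∪ B := by
    ext w
    rw [hxx, CE_unr]
    simp only [hA, hB, Finset.mem_union, Finset.mem_filter, Finset.mem_erase]
    constructor
    · rintro ⟨⟨h3, h4⟩, h5⟩
      rcases lt_or_gt_of_ne h3 with h6 | h6
      · exact Or.inl ⟨h4, h5, h6⟩
      · exact Or.inr ⟨h4, h6⟩
    · rintro (⟨h3, h4, h5⟩ | ⟨h3, h4⟩)
      · exact ⟨⟨h5.ne, h3⟩, h4⟩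
      · exact ⟨⟨h4.ne', h3⟩, h1.trans h4⟩
  have hzon1 : zon n L = A.sort (· ≤ ·) ++ v :: B.sort (· ≤ ·) := by
    unfold zon
    rw [hset1, CF_sort_singleton_union hAlt hBgt]
  have hzon2 : zon n (L ++ [v]) = A.sort (· ≤ ·) ++ B.sort (· ≤ ·) := by
    unfold zon
    rw [hset2]
    exact CE_sort_union fun a ha b hb => (hAlt a ha).trans (hBgt b hb)
  -- the flags
  set f1 : List Bool := (A.sort (· ≤ ·)).map (fun w => decide (Alw n L w)) with hf1
  set f2 : List Bool := (B.sort (· ≤ ·)).map (fun w => decide (Alw n L w)) with hf2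
  have hflg1 : flg n L = f1 ++ true :: f2 := by
    unfold flg
    rw [hzon1, List.map_append, List.map_cons, decide_eq_true h2]
  have hflgB : (B.sort (· ≤ ·)).map (fun w => decide (Alw n (L ++ [v]) w)) = f2 := by
    apply List.map_congr_left
    intro w hw
    rw [Finset.mem_sort] at hw
    simp only [CE_alw (hBgt w hw)]
  have hcount : ((unr n L).filter (fun w => xx n L < w ∧ w < v ∧ Alw n L w)).card = nt f1 := by
    unfold nt
    rw [hf1, List.count, List.countP_map]
    have e1 : (unr n L).filter (fun w => xx n L < w ∧ w < v ∧ Alw n L w) =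
        A.filter (fun w => Alw n L w) := by
      rw [hA, Finset.filter_filter]
      apply Finset.filter_congr
      intro w _
      tauto
    have e2 : (A.filter (fun w => Alw n L w)).card = Multiset.countP (fun w => Alw n L w) A.val := by
      rw [Multiset.countP_eq_card_filter]; rfl
    rw [e1, e2]
    conv_lhs => rw [← Finset.sort_eq A (· ≤ ·)]
    rw [Multiset.coe_countP]
    apply List.countP_congr
    intro w _
    simp
  unfold pop
  rw [hcount, hflg1, CF_kill]
  unfold flg
  rw [hzon2, List.map_append, hflgB]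
  have hlen : f1.length = (A.sort (· ≤ ·)).length := by rw [hf1, List.length_map]
  rw [hlen]
  have hmemA : ∀ w, w ∈ A.sort (· ≤ ·) → w ∈ A := fun w hw => (Finset.mem_sort _).mp hw
  have hmemA' : ∀ w, w ∈ A → w ∈ A.sort (· ≤ ·) := fun w hw => (Finset.mem_sort _).mpr hw
  have hpw := Finset.pairwise_sort A (· ≤ ·)
  have hnd := Finset.sort_nodup A (· ≤ ·)
  generalize A.sort (· ≤ ·) = l at hmemA hmemA' hpw hnd
  rcases List.eq_nil_or_concat l with h | ⟨init, w, h⟩
  · subst h
    simp
  · rw [List.concat_eq_append] at h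
    subst h
    rw [List.pairwise_append] at hpw
    rw [List.nodup_append] at hnd
    have hlt : ∀ a ∈ init, a < w := by
      intro a ha
      have h3 := hpw.2.2 a ha w (by simp)
      have h4 : a ≠ w := by
        intro h5
        exact hnd.2.2 a ha w (by simp) h5
      omega
    have hwA := hmemA w (by simp)
    have hw' := hwA
    rw [hA, Finset.mem_filter] at hw'
    rw [List.length_append, List.length_singleton, List.replicate_succ, List.cons_append,
      List.tail_cons, List.map_append, List.append_assoc]
    congr 1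
    · rw [List.eq_replicate_iff]
      refine ⟨by rw [List.length_map], ?_⟩
      intro b hb
      rw [List.mem_map] at hb
      obtain ⟨a, ha, rfl⟩ := hb
      rw [decide_eq_false_iff_not]
      intro h3
      have haA := hmemA a (by simp [ha])
      rw [hA, Finset.mem_filter] at haA
      obtain ⟨x1, h4, h5⟩ := CE_xx_pair (show xx n L < n by omega)
      apply h3 x1 (xx n L) v w (CE_sub3.mpr (Or.inr ⟨rfl, h5⟩)) h4 haA.2.1 (hlt a ha) hw'.2.2
      rw [CE_unr, Finset.mem_erase]
      exact ⟨hw'.2.2.ne, hw'.1⟩
    · rw [List.map_singleton, List.singleton_append]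
      congr 1
      rw [decide_eq_true_eq]
      -- no unread value between `w` and `v`
      have hmax : ∀ c ∈ unr n L, w < c → c < v → False := by
        intro c hc h3 h4
        have hcA : c ∈ A := by
          rw [hA, Finset.mem_filter]
          exact ⟨hc, hw'.2.1.trans h3, h4⟩
        have h5 := hmemA' c hcA
        rw [List.mem_append, List.mem_singleton] at h5
        rcases h5 with h5 | h5
        · have := hlt c h5; omega
        · omega
      intro x1 x2 b c h3 h4 h5 h6 h7 h8
      rw [CE_unr, Finset.mem_erase] at h8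
      rcases CE_sub3.mp h3 with h9 | ⟨h9, _⟩
      · rcases lt_or_gt_of_ne h8.1 with h10 | h10
        · exact hmax c h8.2 h6 h10
        · exact h2 x1 x2 b c h9 h4 (h5.trans hw'.2.2) h10 h7 h8.2
      · exact hmax c h8.2 h6 (by omega)

end Pool.Agent.Lib_helper12.NZ
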