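import Pool.Agent.Lib_helper12.NZ.Base

/-! Block CR: ranks inside a finite set. -/

set_option autoImplicit false

open Finset

namespace Pool.Agent.Lib_helper12.NZ

theorem CR (S : Finset ℕ) (f : ℕ → ℕ) :
    ∑ v ∈ S, f (S.filter (v < ·)).card = ∑ i ∈ range S.card, f i ∧
    ∑ v ∈ S, f (S.filter (· < v)).card = ∑ i ∈ range S.card, f i := by
  constructor
  · induction S using Finset.induction_on_min with
    | empty => simp
    | insert a s ha ih =>
      have hn : a ∉ s := fun h => lt_irrefl _ (ha a h)
      rw [sum_insert hn, card_insert_of_notMem hn, sum_range_succ, ← ih, add_comm]
      congr 1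
      · refine sum_congr rfl fun v hv => ?_
        congr 2
        ext w
        simp only [mem_filter, mem_insert]
        constructor
        · rintro ⟨rfl | h, h2⟩
          · exact absurd (ha v hv) (by omega)
          · exact ⟨h, h2⟩
        · rintro ⟨h, h2⟩
          exact ⟨Or.inr h, h2⟩
      · congr 2
        ext w
        simp only [mem_filter, mem_insert]
        constructor
        · rintro ⟨rfl | h, h2⟩
          · omega
          · exact h
        · intro h
          exact ⟨Or.inr h, ha w h⟩
  · induction S using Finset.induction_on_max with
    | empty => simp
    | insert a s ha ih =>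
      have hn : a ∉ s := fun h => lt_irrefl _ (ha a h)
      rw [sum_insert hn, card_insert_of_notMem hn, sum_range_succ, ← ih, add_comm]
      congr 1
      · refine sum_congr rfl fun v hv => ?_
        congr 2
        ext w
        simp only [mem_filter, mem_insert]
        constructor
        · rintro ⟨rfl | h, h2⟩
          · exact absurd (ha v hv) (by omega)
          · exact ⟨h, h2⟩
        · rintro ⟨h, h2⟩
          exact ⟨Or.inr h, h2⟩
      · congr 2
        ext w
        simp only [mem_filter, mem_insert]
        constructor
        · rintro ⟨rfl | h, h2⟩
          · omega
          · exact h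
        · intro h
          exact ⟨Or.inr h, ha w h⟩

end Pool.Agent.Lib_helper12.NZ
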