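import Pool.Agent.Lib_helper12.NZ.Base
import Pool.Agent.Lib_helper12.NZ.Fin.U_NZ_CA1_helper28
import Pool.Agent.Lib_helper12.NZ.Fin.U_NZ_CB_helper28
import Pool.Agent.Lib_helper12.NZ.Fin.U_NZ_CC_helper28
import Pool.Agent.Lib_helper12.NZ.Fin.U_NZ_CE_helper18
import Pool.Agent.Lib_helper12.NZ.Fin.U_NZ_CF_helper18
import Pool.Agent.Lib_helper12.NZ.Fin.U_NZ_CR_helper66

set_option autoImplicit false
open Finset

namespace Pool.Agent.Lib_helper12.NZ

theorem CG_mn_le_n (n : ℕ) (L : List ℕ) : mn n L ≤ n := by
  unfold mn
  induction L with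
  | nil => simp
  | cons a L ih => simp only [List.foldr_cons]; exact (min_le_right _ _).trans ih

theorem CG_mn_le (n : ℕ) (L : List ℕ) (v : ℕ) (hv : v ∈ L) : mn n L ≤ v := by
  unfold mn
  induction L with
  | nil => simp at hv
  | cons a L ih =>
    simp only [List.foldr_cons]
    rcases List.mem_cons.1 hv with rfl | h
    · exact min_le_left _ _
    · exact (min_le_right _ _).trans (ih h)

theorem CG_mn_mem (n : ℕ) (L : List ℕ) (h : mn n L < n) : mn n L ∈ L := by
  unfold mn at *
  induction L with
  | nil => simp at h
  | cons a L ih =>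
    simp only [List.foldr_cons] at *
    rcases le_total a (L.foldr min n) with h1 | h1
    · rw [min_eq_left h1]; exact List.mem_cons_self
    · rw [min_eq_right h1] at *
      exact List.mem_cons_of_mem _ (ih h)

theorem CG_mn_not (n : ℕ) (L : List ℕ) : mn n L ∉ unr n L := by
  intro h
  simp only [unr, mem_filter, mem_range] at h
  exact h.2 (CG_mn_mem n L h.1)

theorem CG_xx_mem (n : ℕ) (L : List ℕ) :
    xx n L ∈ ({x2 | ∃ x1, x1 < x2 ∧ [x1, x2].Sublist L} ∪ {n} : Set ℕ) := by
  unfold xx
  exact Nat.sInf_mem ⟨n, by simp⟩

theorem CG_xx_le_n (n : ℕ) (L : List ℕ) : xx n L ≤ n := Nat.sInf_le (by simp)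

theorem CG_xx_le (n : ℕ) (L : List ℕ) (x1 x2 : ℕ) (h : [x1, x2].Sublist L) (h1 : x1 < x2) :
    xx n L ≤ x2 := Nat.sInf_le (Or.inl ⟨x1, h1, h⟩)

theorem CG_xx_not (n : ℕ) (L : List ℕ) : xx n L ∉ unr n L := by
  intro h
  simp only [unr, mem_filter, mem_range] at h
  rcases CG_xx_mem n L with h1 | h1
  · obtain ⟨x1, _, h3⟩ := h1
    exact h.2 (h3.subset (by simp))
  · simp only [Set.mem_singleton_iff] at h1
    omega

theorem CG_mn_le_xx (n : ℕ) (L : List ℕ) : mn n L ≤ xx n L := by
  rcases CG_xx_mem n L with h1 | h1
  · obtain ⟨x1, _, h3⟩ := h1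
    exact CG_mn_le n L _ (h3.subset (by simp))
  · simp only [Set.mem_singleton_iff] at h1
    rw [h1]; exact CG_mn_le_n n L

theorem CG_flg_length (n : ℕ) (L : List ℕ) :
    (flg n L).length = ((unr n L).filter (xx n L < ·)).card := by
  unfold flg zon
  simp

open Classical in
theorem CG_flg_nt (n : ℕ) (L : List ℕ) :
    nt (flg n L) = ((unr n L).filter (fun v => xx n L < v ∧ Alw n L v)).card := by
  unfold flg nt zon
  rw [List.count_eq_countP, List.countP_map]
  have h1 : ((unr n L).filter (fun v => xx n L < v ∧ Alw n L v)) =
      (((unr n L).filter (xx n L < ·)).filter (fun v => Alw n L v)) := by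
    rw [Finset.filter_filter]
  rw [h1]
  set S := (unr n L).filter (xx n L < ·)
  have h2 : (S.filter (fun v => Alw n L v)) =
      ((S.sort (· ≤ ·)).filter (fun v => decide (Alw n L v))).toFinset := by
    ext v; simp
  rw [h2, List.toFinset_card_of_nodup ((Finset.sort_nodup _ _).filter _), List.countP_eq_length_filter]
  congr 1
  apply List.filter_congr
  intro v _
  simp

theorem CG_alw_lt (n : ℕ) (L : List ℕ) (v : ℕ) (h : v < xx n L) : Alw n L v := by
  intro x1 x2 b c hs h12 h2v hvc hcb
  exfalso
  have : [x1, x2].Sublist L := by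
    refine List.Sublist.trans ?_ hs
    exact (List.Sublist.refl [x1, x2]).append (List.nil_sublist [b])
  have := CG_xx_le n L x1 x2 this h12
  omega

theorem CG_unr_append (n : ℕ) (L : List ℕ) (v : ℕ) :
    unr n (L ++ [v]) = (unr n L).erase v := by
  ext w
  simp only [unr, mem_filter, mem_range, List.mem_append, List.mem_singleton, mem_erase]
  tauto

theorem CG_main (n : ℕ) : ∀ (r : ℕ) (L : List ℕ), (unr n L).card = r → HG n L → L.Nodup →
    (∀ v ∈ L, v < n) → cpl n L = cmp r (YY n L) (flg n L) := by
  intro r
  induction r with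
  | zero =>
    intro L hr hg hnd hlt
    have hU : unr n L = ∅ := Finset.card_eq_zero.1 hr
    have hY : YY n L = 0 := by unfold YY; rw [hU]; simp
    have hf : flg n L = [] := by
      rw [← List.length_eq_zero_iff, CG_flg_length, hU]; simp
    have hL : L.toFinset = Finset.range n := by
      ext v
      simp only [List.mem_toFinset, mem_range]
      refine ⟨hlt v, fun hv => ?_⟩
      by_contra hc
      have : v ∈ unr n L := by simp [unr, hv, hc]
      rw [hU] at this; simp at this
    have hA : Avd L := (CA2 n L hnd hL).2 hg
    rw [hY, hf]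
    unfold cpl cmp
    rw [if_pos ⟨rfl, rfl⟩, Nat.card_eq_one_iff_unique]
    refine ⟨⟨?_⟩, ⟨⟨[], by simp [hU, hA]⟩⟩⟩
    rintro ⟨a, ha⟩ ⟨b, hb⟩
    rw [hU] at ha hb
    have h1 : a = [] := by simpa using ha.2.1
    have h2 : b = [] := by simpa using hb.2.1
    subst h1; subst h2; rfl
  | succ r ih =>
    intro L hr hg hnd hlt
    classical
    have hne : (unr n L).Nonempty := by
      rw [← Finset.card_pos]; omega
    rw [CB1 n L hne]
    have hbad : ¬ Bad n L := hg L (List.prefix_refl L)
    -- value of every term
    have hterm : ∀ v ∈ unr n L, cpl n (L ++ [v]) =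
        if Alw n L v then cmp r (YY n (L ++ [v])) (flg n (L ++ [v])) else 0 := by
      intro v hv
      by_cases hA : Alw n L v
      · rw [if_pos hA]
        have hnb := (CC n L v hbad hv).2 hA
        have hvL : v ∉ L ∧ v < n := by
          simp only [unr, mem_filter, mem_range] at hv
          exact ⟨hv.2, hv.1⟩
        apply ih
        · rw [CG_unr_append, Finset.card_erase_of_mem hv, hr]; rfl
        · intro L' hL'
          rcases List.prefix_concat_iff.1 hL' with h1 | h1
          · rw [h1]; exact hnb
          · exact hg L' h1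
        · rw [List.nodup_append]
          refine ⟨hnd, by simp, ?_⟩
          intro a ha b hb
          simp only [List.mem_singleton] at hb
          subst hb
          rintro rfl
          exact hvL.1 ha
        · intro w hw
          rcases List.mem_append.1 hw with h | h
          · exact hlt w h
          · simp only [List.mem_singleton] at h
            rw [h]; exact hvL.2
      · rw [if_neg hA]
        have : Bad n (L ++ [v]) := by
          by_contra hc
          exact hA ((CC n L v hbad hv).1 hc)
        exact CB2 n _ this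
    rw [Finset.sum_congr rfl hterm]
    -- split
    set m := mn n L with hm
    set x := xx n L with hx
    have hmx : m ≤ x := CG_mn_le_xx n L
    have hmU : m ∉ unr n L := CG_mn_not n L
    have hxU : x ∉ unr n L := CG_xx_not n L
    set S1 := (unr n L).filter (· < m) with hS1
    set S2 := (unr n L).filter (fun v => m < v ∧ v < x) with hS2
    set S3 := (unr n L).filter (fun v => x < v ∧ Alw n L v) with hS3
    have hsplit : ∑ v ∈ unr n L, (if Alw n L v then cmp r (YY n (L ++ [v])) (flg n (L ++ [v])) else 0)
        = ∑ v ∈ S1, cmp r (YY n (L ++ [v])) (flg n (L ++ [v])) +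
          (∑ v ∈ S2, cmp r (YY n (L ++ [v])) (flg n (L ++ [v])) +
          ∑ v ∈ S3, cmp r (YY n (L ++ [v])) (flg n (L ++ [v]))) := by
      rw [hS1, hS2, hS3, Finset.sum_filter, Finset.sum_filter, Finset.sum_filter,
        ← Finset.sum_add_distrib, ← Finset.sum_add_distrib]
      apply Finset.sum_congr rfl
      intro v hv
      have hvm : v ≠ m := fun h => hmU (h ▸ hv)
      have hvx : v ≠ x := fun h => hxU (h ▸ hv)
      rcases lt_trichotomy v m with h1 | h1 | h1
      · have hA : Alw n L v := CG_alw_lt n L v (by omega)
        simp [hA, h1, show ¬ m < v by omega, show ¬ x < v by omega]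
      · exact absurd h1 hvm
      · rcases lt_trichotomy v x with h2 | h2 | h2
        · have hA : Alw n L v := CG_alw_lt n L v h2
          simp [hA, h1, h2, show ¬ v < m by omega, show ¬ x < v by omega]
        · exact absurd h2 hvx
        · simp [h1, h2, show ¬ v < m by omega, show ¬ v < x by omega]
    rw [hsplit]
    -- cardinalities
    have hYc : YY n L = ((unr n L).filter (m < ·)).card := rfl
    have hc1 : S1.card + YY n L = r + 1 := by
      rw [hYc, ← hr, hS1, ← Finset.card_union_of_disjoint]
      · congr 1
        ext v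
        simp only [mem_union, mem_filter]
        constructor
        · rintro (h | h) <;> exact h.1
        · intro hv
          have hvm : v ≠ m := fun h => hmU (h ▸ hv)
          rcases lt_or_gt_of_ne hvm with h | h
          · exact Or.inl ⟨hv, h⟩
          · exact Or.inr ⟨hv, h⟩
      · rw [Finset.disjoint_left]
        intro v h1 h2
        simp only [mem_filter] at h1 h2
        omega
    have hc2 : S2.card + (flg n L).length = YY n L := by
      rw [hYc, CG_flg_length, hS2, ← Finset.card_union_of_disjoint]
      · congr 1
        ext v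
        simp only [mem_union, mem_filter]
        constructor
        · rintro (h | h)
          · exact ⟨h.1, h.2.1⟩
          · exact ⟨h.1, lt_of_le_of_lt hmx h.2⟩
        · rintro ⟨hv, h⟩
          have hvx : v ≠ x := fun h => hxU (h ▸ hv)
          rcases lt_or_gt_of_ne hvx with h' | h'
          · exact Or.inl ⟨hv, h, h'⟩
          · exact Or.inr ⟨hv, h'⟩
      · rw [Finset.disjoint_left]
        intro v h1 h2
        simp only [mem_filter] at h1 h2
        omega
    have hc3 : S3.card = nt (flg n L) := by rw [CG_flg_nt]
    -- first sum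
    have hs1 : ∑ v ∈ S1, cmp r (YY n (L ++ [v])) (flg n (L ++ [v])) =
        ∑ Y' ∈ Icc (YY n L) r, cmp r Y' (flg n L) := by
      have h1 : ∀ v ∈ S1, cmp r (YY n (L ++ [v])) (flg n (L ++ [v])) =
          (fun i => cmp r (YY n L + i) (flg n L)) (S1.filter (v < ·)).card := by
        intro v hv
        have hv' := hv
        rw [hS1, mem_filter] at hv'
        obtain ⟨h2, h3⟩ := CD n L v hv'.1 hv'.2
        simp only
        rw [h2, h3]
        congr 1
        rw [hYc, hS1, Finset.filter_filter, ← Finset.card_union_of_disjoint]
        · congr 1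
          ext w
          simp only [mem_union, mem_filter]
          constructor
          · rintro ⟨hw, h⟩
            have hwm : w ≠ m := fun h => hmU (h ▸ hw)
            rcases lt_or_gt_of_ne hwm with h' | h'
            · exact Or.inr ⟨hw, h', h⟩
            · exact Or.inl ⟨hw, h'⟩
          · rintro (h | h)
            · exact ⟨h.1, by omega⟩
            · exact ⟨h.1, h.2.2⟩
        · rw [Finset.disjoint_left]
          intro w h1 h2
          simp only [mem_filter] at h1 h2
          omega
      refine (Finset.sum_congr rfl h1).trans ?_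
      refine ((CR S1 (fun i => cmp r (YY n L + i) (flg n L))).1).trans ?_
      have h4 : Icc (YY n L) r = Ico (YY n L) (r + 1) := by ext; simp
      rw [h4, Finset.sum_Ico_eq_sum_range]
      congr 2
      omega
    have hs2 : YY n L ≠ 0 → ∑ v ∈ S2, cmp r (YY n (L ++ [v])) (flg n (L ++ [v])) =
        ∑ g ∈ range (YY n L - (flg n L).length), cmp r (YY n L - 1) (push g (flg n L)) := by
      intro _
      have h1 : ∀ v ∈ S2, cmp r (YY n (L ++ [v])) (flg n (L ++ [v])) =
          (fun i => cmp r (YY n L - 1) (push i (flg n L))) (S2.filter (v < ·)).card := by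
        intro v hv
        have hv' := hv
        rw [hS2, mem_filter] at hv'
        obtain ⟨h2, h3⟩ := CE n L v hv'.1 hv'.2.1 hv'.2.2
        simp only
        rw [h2, h3]
        congr 3
        rw [hS2, Finset.filter_filter]
        ext w
        simp only [mem_filter]
        constructor
        · rintro ⟨hw, h, h'⟩; exact ⟨hw, ⟨by omega, h'⟩, h⟩
        · rintro ⟨hw, ⟨_, h'⟩, h⟩; exact ⟨hw, h, h'⟩
      refine (Finset.sum_congr rfl h1).trans ?_
      refine ((CR S2 (fun i => cmp r (YY n L - 1) (push i (flg n L)))).1).trans ?_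
      congr 2
      omega
    have hs3 : ∑ v ∈ S3, cmp r (YY n (L ++ [v])) (flg n (L ++ [v])) =
        ∑ j ∈ range (nt (flg n L)), cmp r (YY n L - 1) (pop j (flg n L)) := by
      have h1 : ∀ v ∈ S3, cmp r (YY n (L ++ [v])) (flg n (L ++ [v])) =
          (fun i => cmp r (YY n L - 1) (pop i (flg n L))) (S3.filter (· < v)).card := by
        intro v hv
        have hv' := hv
        rw [hS3, mem_filter] at hv'
        obtain ⟨h2, h3⟩ := CF n L v hv'.1 hv'.2.1 hv'.2.2
        simp only
        rw [h2, h3]
        congr 3
        rw [hS3, Finset.filter_filter]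
        ext w
        simp only [mem_filter]
        tauto
      refine (Finset.sum_congr rfl h1).trans ?_
      refine ((CR S3 (fun i => cmp r (YY n L - 1) (pop i (flg n L)))).2).trans ?_
      rw [hc3]
    rw [hs1, hs3]
    conv_rhs => unfold cmp
    by_cases hY : YY n L = 0
    · rw [if_pos hY]
      have e2 : S2 = ∅ := by rw [← Finset.card_eq_zero]; omega
      have e3 : nt (flg n L) = 0 := by
        have : (flg n L).length = 0 := by omega
        rw [List.length_eq_zero_iff] at this
        rw [this]; rfl
      rw [e2, e3]; simp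
    · rw [if_neg hY, hs2 hY]

/-- CG -/
theorem CG (n : ℕ) : av n = cmp n 0 [] := by
  rw [CA1]
  have hU : unr n [] = Finset.range n := by simp [unr]
  have hx : xx n [] = n := by
    rcases CG_xx_mem n [] with h1 | h1
    · obtain ⟨x1, _, h3⟩ := h1
      simp at h3
    · simpa using h1
  have h := CG_main n n [] (by rw [hU]; simp) ?_ List.nodup_nil (by simp)
  · rw [h]
    have hY : YY n [] = 0 := by
      unfold YY
      rw [Finset.card_eq_zero, Finset.filter_eq_empty_iff]
      intro v hv
      rw [hU, mem_range] at hv
      simp only [mn, List.foldr_nil]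
      omega
    have hf : flg n [] = [] := by
      rw [← List.length_eq_zero_iff, CG_flg_length, Finset.card_eq_zero,
        Finset.filter_eq_empty_iff]
      intro v hv
      rw [hU, mem_range] at hv
      omega
    rw [hY, hf]
  · intro L' hL'
    have : L' = [] := by simpa using hL'
    subst this
    rintro ⟨x1, x2, b, a, c, h, _⟩
    simp at h

end Pool.Agent.Lib_helper12.NZ
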