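import Pool.Agent.Lib_helper12.NZ.Base

set_option autoImplicit false

open Finset
open scoped ENNReal

namespace Pool.Agent.Lib_helper12.NZ

/-- the recursion `φ(n+2) = p φ(n+1) - q φ(n)` -/
noncomputable def L1phi (p q : ℝ) : ℕ → ℝ
  | 0 => 0
  | 1 => 1
  | n + 2 => p * L1phi p q (n + 1) - q * L1phi p q n

theorem L1_neg (p q : ℝ) (hp : 0 < p) (hpq : p ^ 2 < 4 * q) :
    ∃ n, 1 ≤ n ∧ L1phi p q n ≤ 0 := by
  by_contra hcon
  push Not at hcon
  obtain ⟨δ, hδ⟩ : ∃ δ : ℝ, δ = (q - p ^ 2 / 4) / p := ⟨_, rfl⟩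
  have hδ0 : 0 < δ := by
    rw [hδ]
    apply div_pos _ hp
    linarith
  have h5 : δ * p = q - p ^ 2 / 4 := by
    rw [hδ]
    field_simp
  have key : ∀ n : ℕ, L1phi p q (n + 2) ≤ (p - n * δ) * L1phi p q (n + 1) := by
    intro n
    induction n with
    | zero => simp [L1phi]
    | succ n ih =>
      have e1 := hcon (n + 1) (by omega)
      have e2 := hcon (n + 2) (by omega)
      have e3 : L1phi p q (n + 3) = p * L1phi p q (n + 2) - q * L1phi p q (n + 1) := rfl
      show L1phi p q (n + 3) ≤ (p - ((n + 1 : ℕ) : ℝ) * δ) * L1phi p q (n + 2)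
      obtain ⟨c, hc⟩ : ∃ c : ℝ, c = p - n * δ := ⟨_, rfl⟩
      rw [← hc] at ih
      have hc0 : 0 < c := by
        by_contra h
        push Not at h
        nlinarith
      have hn0 : 0 ≤ (n : ℝ) * δ := by positivity
      have hcp : c ≤ p := by linarith
      have h4 : δ * c ≤ c ^ 2 - p * c + q := by
        have : δ * c ≤ δ * p := mul_le_mul_of_nonneg_left hcp hδ0.le
        nlinarith [sq_nonneg (c - p / 2)]
      rw [e3]
      push_cast
      have h6 : (p - c + δ) * c ≤ q := by nlinarith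
      have h7 : 0 ≤ p - c + δ := by linarith
      have h9 : (p - c + δ) * L1phi p q (n + 2) ≤ q * L1phi p q (n + 1) := by
        calc (p - c + δ) * L1phi p q (n + 2) ≤ (p - c + δ) * (c * L1phi p q (n + 1)) :=
              mul_le_mul_of_nonneg_left ih h7
          _ = ((p - c + δ) * c) * L1phi p q (n + 1) := by ring
          _ ≤ q * L1phi p q (n + 1) := mul_le_mul_of_nonneg_right h6 e1.le
      have h8 : p - ((n : ℝ) + 1) * δ = c - δ := by rw [hc]; ring
      rw [h8]
      linarith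
  obtain ⟨n, hn⟩ := exists_nat_gt (p / δ)
  have h9 : p < n * δ := by
    rwa [div_lt_iff₀ hδ0] at hn
  have h10 := key n
  have e1 := hcon (n + 1) (by omega)
  have e2 := hcon (n + 2) (by omega)
  nlinarith

/-- L1: compactly supported subsolution -/
theorem L1 (lam ρ : ℝ) (h1 : 1 ≤ lam) (h2 : lam + 1 < ρ) (h3 : ρ < (1 + √lam) ^ 2) :
    ∃ (φ : ℕ → ℝ) (L : ℕ), (∀ Y, 0 ≤ φ Y) ∧ φ 0 = 0 ∧ 0 < φ 1 ∧ (∀ Y, L ≤ Y → φ Y = 0) ∧
      ∀ Y, 1 ≤ Y → ρ * φ Y ≤ (∑ Y' ∈ Ico Y L, φ Y') + lam * φ (Y - 1) := by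
  classical
  have hρ : 0 < ρ := by linarith
  obtain ⟨p, hp⟩ : ∃ p : ℝ, p = (ρ + lam - 1) / ρ := ⟨_, rfl⟩
  obtain ⟨q, hq⟩ : ∃ q : ℝ, q = lam / ρ := ⟨_, rfl⟩
  have hp0 : 0 < p := by
    rw [hp]
    exact div_pos (by linarith) hρ
  have hpq : p ^ 2 < 4 * q := by
    rw [hp, hq, div_pow, mul_div_assoc', div_lt_div_iff₀ (by positivity) hρ]
    have hs : √lam ^ 2 = lam := Real.sq_sqrt (by linarith)
    have hs0 : 0 ≤ √lam := Real.sqrt_nonneg _
    have h5 : (ρ - (lam + 1)) ^ 2 < 4 * lam := by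
      have h5a : ρ - (lam + 1) < 2 * √lam := by nlinarith
      have h6 : 0 < ρ - (lam + 1) := by linarith
      nlinarith
    have h7 : (ρ + lam - 1) ^ 2 < 4 * lam * ρ := by nlinarith
    calc (ρ + lam - 1) ^ 2 * ρ < (4 * lam * ρ) * ρ := mul_lt_mul_of_pos_right h7 hρ
      _ = 4 * lam * ρ ^ 2 := by ring
  have hpρ : ρ * p = ρ + lam - 1 := by
    rw [hp]
    field_simp
  have hqρ : ρ * q = lam := by
    rw [hq]
    field_simp
  have hex := L1_neg p q hp0 hpq
  obtain ⟨L, hL1, hL2, hmin⟩ : ∃ L, 1 ≤ L ∧ L1phi p q L ≤ 0 ∧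
      ∀ n, 1 ≤ n → n < L → 0 < L1phi p q n := by
    refine ⟨Nat.find hex, (Nat.find_spec hex).1, (Nat.find_spec hex).2, ?_⟩
    intro n hn hnL
    have := Nat.find_min hex hnL
    push Not at this
    exact this hn
  have hone : L1phi p q 1 = 1 := rfl
  have hzero : L1phi p q 0 = 0 := rfl
  have hL3 : 2 ≤ L := by
    by_contra h
    have hL4 : L = 1 := by omega
    rw [hL4, hone] at hL2
    linarith
  have hnn : ∀ n, n < L → 0 ≤ L1phi p q n := by
    intro n hn
    rcases Nat.eq_zero_or_pos n with h | h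
    · rw [h, hzero]
    · exact (hmin n h hn).le
  -- telescoping
  have htel : ∀ k : ℕ, ∀ Y : ℕ, 1 ≤ Y →
      ∑ Y' ∈ Ico Y (Y + k), L1phi p q Y' = (ρ * L1phi p q Y - lam * L1phi p q (Y - 1)) -
        (ρ * L1phi p q (Y + k) - lam * L1phi p q (Y + k - 1)) := by
    intro k
    induction k with
    | zero =>
      intro Y hY
      simp
    | succ k ih =>
      intro Y hY
      rw [← add_assoc, Finset.sum_Ico_succ_top (by omega), ih Y hY]
      obtain ⟨Z, hZ⟩ : ∃ Z, Y + k = Z + 1 := ⟨Y + k - 1, by omega⟩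
      rw [hZ]
      have e1 : Z + 1 - 1 = Z := by omega
      have e2 : Z + 1 + 1 - 1 = Z + 1 := by omega
      rw [e1, e2]
      have e3 : L1phi p q (Z + 1 + 1) = p * L1phi p q (Z + 1) - q * L1phi p q Z := rfl
      rw [e3]
      have e4 : ρ * (p * L1phi p q (Z + 1) - q * L1phi p q Z) =
          (ρ * p) * L1phi p q (Z + 1) - (ρ * q) * L1phi p q Z := by ring
      rw [e4, hpρ, hqρ]
      ring
  refine ⟨fun n => if n < L then L1phi p q n else 0, L, ?_, ?_, ?_, ?_, ?_⟩
  · intro Y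
    dsimp only
    split_ifs with h
    · exact hnn Y h
    · exact le_rfl
  · dsimp only
    rw [hzero]
    simp
  · dsimp only
    rw [if_pos (by omega), hone]
    norm_num
  · intro Y hY
    dsimp only
    rw [if_neg (by omega)]
  · intro Y hY
    dsimp only
    by_cases hYL : Y < L
    · have e1 : ∑ Y' ∈ Ico Y L, (if Y' < L then L1phi p q Y' else 0) =
          ∑ Y' ∈ Ico Y L, L1phi p q Y' := by
        apply Finset.sum_congr rfl
        intro Y' hY'
        rw [Finset.mem_Ico] at hY'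
        rw [if_pos hY'.2]
      rw [e1, if_pos hYL, if_pos (by omega)]
      have e2 := htel (L - Y) Y hY
      have e3 : Y + (L - Y) = L := by omega
      rw [e3] at e2
      rw [e2]
      have e4 := hnn (L - 1) (by omega)
      have e5 : ρ * L1phi p q L ≤ 0 := mul_nonpos_of_nonneg_of_nonpos hρ.le hL2
      have e6 : 0 ≤ lam * L1phi p q (L - 1) := mul_nonneg (by linarith) e4
      linarith
    · rw [if_neg hYL, mul_zero]
      apply add_nonneg
      · apply Finset.sum_nonneg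
        intro Y' hY'
        split_ifs with h
        · exact hnn Y' h
        · exact le_rfl
      · apply mul_nonneg (by linarith)
        split_ifs with h
        · exact hnn _ h
        · exact le_rfl

end Pool.Agent.Lib_helper12.NZ
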