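import Pool.Agent.Lib_helper12.NZ.Base

set_option autoImplicit false

open Finset
open scoped ENNReal

namespace Pool.Agent.Lib_helper12.NZ

theorem L2 (K m : ℕ) (lam : ℝ) (hm : 1 ≤ m) (hlam : 1 ≤ lam) (h : lam ^ m ≤ (wk K m [] : ℝ)) :
    1 ≤ ∑ i ∈ range m, (wk K i [] : ℝ) / lam ^ i ∧
    ∀ l : List Bool, lam * (∑ i ∈ range m, (wk K i l : ℝ) / lam ^ i) ≤
      (∑ g ∈ range (K - l.length), ∑ i ∈ range m, (wk K i (push g l) : ℝ) / lam ^ i) +
        ∑ j ∈ range (nt l), ∑ i ∈ range m, (wk K i (pop j l) : ℝ) / lam ^ i := by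
  have hpos : 0 < lam := by linarith
  have hnn : ∀ (l : List Bool) (i : ℕ), 0 ≤ (wk K i l : ℝ) / lam ^ i := fun l i => by positivity
  constructor
  · have h1 : (wk K 0 [] : ℝ) / lam ^ 0 = 1 := by simp [wk]
    rw [← h1]
    exact Finset.single_le_sum (f := fun i => (wk K i [] : ℝ) / lam ^ i) (fun i _ => hnn [] i)
      (Finset.mem_range.2 (by omega))
  · intro l
    have hstep : ∀ i, (wk K (i + 1) l : ℝ) = (∑ g ∈ range (K - l.length), (wk K i (push g l) : ℝ)) +
        ∑ j ∈ range (nt l), (wk K i (pop j l) : ℝ) := by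
      intro i
      simp only [wk]
      push_cast
      rfl
    have hR : (∑ g ∈ range (K - l.length), ∑ i ∈ range m, (wk K i (push g l) : ℝ) / lam ^ i) +
        ∑ j ∈ range (nt l), ∑ i ∈ range m, (wk K i (pop j l) : ℝ) / lam ^ i =
        ∑ i ∈ range m, (wk K (i + 1) l : ℝ) / lam ^ i := by
      rw [Finset.sum_comm, Finset.sum_comm (s := range (nt l)), ← Finset.sum_add_distrib]
      apply Finset.sum_congr rfl
      intro i _
      rw [← Finset.sum_div, ← Finset.sum_div, ← add_div, hstep]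
    rw [hR]
    have hT : ∑ i ∈ range m, (wk K (i + 1) l : ℝ) / lam ^ i =
        lam * ∑ i ∈ range m, (wk K (i + 1) l : ℝ) / lam ^ (i + 1) := by
      rw [Finset.mul_sum]
      apply Finset.sum_congr rfl
      intro i _
      rw [pow_succ]
      field_simp
    rw [hT]
    apply mul_le_mul_of_nonneg_left _ hpos.le
    have h1 := Finset.sum_range_succ (fun i => (wk K i l : ℝ) / lam ^ i) m
    have h2 := Finset.sum_range_succ' (fun i => (wk K i l : ℝ) / lam ^ i) m
    have h3 : (wk K 0 l : ℝ) / lam ^ 0 ≤ (wk K m l : ℝ) / lam ^ m := by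
      by_cases hl : l = []
      · subst hl
        have h4 : (wk K 0 [] : ℝ) / lam ^ 0 = 1 := by simp [wk]
        rw [h4, le_div_iff₀ (by positivity), one_mul]
        exact h
      · have h4 : (wk K 0 l : ℝ) / lam ^ 0 = 0 := by simp [wk, hl]
        rw [h4]
        exact hnn l m
    linarith

end Pool.Agent.Lib_helper12.NZ
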