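import Pool.Agent.Lib_helper12.NZ.Base

set_option autoImplicit false
open Finset

namespace Pool.Agent.Lib_helper12.NZ

theorem L3_nil (R : ℕ) : 1 ≤ cmp R R [] := by
  induction R with
  | zero => simp [cmp]
  | succ R ih =>
    unfold cmp
    rw [if_neg (Nat.succ_ne_zero R)]
    refine le_trans ih ?_
    refine le_trans ?_ (Nat.le_add_left _ _)
    refine le_trans ?_ (Nat.le_add_right _ _)
    have h0 : (0 : ℕ) ∈ range (R + 1 - ([] : List Bool).length) := by simp
    have := Finset.single_le_sum (f := fun g => cmp R (R + 1 - 1) (push g []))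
      (fun i _ => Nat.zero_le _) h0
    simpa [push] using this

/-- L3 -/
theorem L3 (K i R : ℕ) (l : List Bool) (h : K + i ≤ R) : wk K i l ≤ cmp R R l := by
  induction i generalizing R l with
  | zero =>
    unfold wk
    by_cases hl : l = []
    · subst hl; simpa using L3_nil R
    · simp [hl]
  | succ i ih =>
    obtain ⟨R, rfl⟩ : ∃ R', R = R' + 1 := ⟨R - 1, by omega⟩
    unfold wk cmp
    rw [if_neg (Nat.succ_ne_zero R)]
    refine le_trans ?_ (Nat.le_add_left _ _)
    apply Nat.add_le_add
    · refine le_trans (Finset.sum_le_sum fun g _ => ih R (push g l) (by omega)) ?_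
      simp only [Nat.add_sub_cancel]
      apply Finset.sum_le_sum_of_subset
      intro g hg
      rw [mem_range] at *
      omega
    · simp only [Nat.add_sub_cancel]
      exact Finset.sum_le_sum fun j _ => ih R (pop j l) (by omega)

/-- UB0 -/
theorem UB0 (H r Y : ℕ) (l : List Bool) (hY : Y < H) :
    cmp r Y l = cmpA H r Y l + cmpB H r Y l := by
  induction r generalizing Y l with
  | zero => simp [cmp, cmpA, cmpB]
  | succ r ih =>
    unfold cmp cmpA cmpB
    have h1 : ∑ Y' ∈ Icc Y r, cmp r Y' l =
        (∑ Y' ∈ Icc Y r, if Y' < H then cmpA H r Y' l else cmp r Y' l) +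
          ∑ Y' ∈ (Icc Y r).filter (· < H), cmpB H r Y' l := by
      rw [Finset.sum_filter, ← Finset.sum_add_distrib]
      apply Finset.sum_congr rfl
      intro Y' _
      by_cases h : Y' < H
      · simp only [h, if_true]; exact ih Y' l h
      · simp [h]
    rw [h1]
    by_cases h0 : Y = 0
    · simp only [h0, if_true]; ring
    · simp only [h0, if_false]
      have h2 : ∀ l', cmp r (Y - 1) l' = cmpA H r (Y - 1) l' + cmpB H r (Y - 1) l' :=
        fun l' => ih (Y - 1) l' (by omega)
      simp only [h2, Finset.sum_add_distrib]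
      ring

end Pool.Agent.Lib_helper12.NZ
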