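import Pool.Agent.Lib_helper12.NZ.Base
import Pool.Agent.Lib_helper12.NZ.Fin.U_L3

set_option autoImplicit false

open Finset
open scoped ENNReal

namespace Pool.Agent.Lib_helper12.NZ

theorem L4_push_length (g : ℕ) (l : List Bool) : (push g l).length = g + l.length := by
  simp [push]

theorem L4_kill_length (l : List Bool) : (kill l).length = l.length := by
  induction l with
  | nil => rfl
  | cons a l ih =>
    cases a
    · simp [kill, ih]
    · simp [kill]

theorem L4_kill_iter_length (j : ℕ) (l : List Bool) : (kill^[j] l).length = l.length := by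
  induction j generalizing l with
  | zero => rfl
  | succ j ih =>
    rw [Function.iterate_succ_apply, ih, L4_kill_length]

theorem L4_pop_length (j : ℕ) (l : List Bool) : (pop j l).length = l.length - 1 := by
  unfold pop
  rw [List.length_tail, L4_kill_iter_length]

/-- L4 (uses L3) -/
theorem L4 (K m L : ℕ) (lam ρ : ℝ) (hm : 1 ≤ m) (hlam : 1 ≤ lam) (hρ : 0 < ρ)
    (φ : ℕ → ℝ) (hφ : ∀ Y, 0 ≤ φ Y) (hφ0 : φ 0 = 0) (hφL : ∀ Y, L ≤ Y → φ Y = 0)
    (hφs : ∀ Y, 1 ≤ Y → ρ * φ Y ≤ (∑ Y' ∈ Ico Y L, φ Y') + lam * φ (Y - 1))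
    (ψ : List Bool → ℝ) (hψ : ∀ l, ψ l = ∑ i ∈ range m, (wk K i l : ℝ) / lam ^ i)
    (hψs : ∀ l : List Bool, lam * ψ l ≤ (∑ g ∈ range (K - l.length), ψ (push g l)) +
        ∑ j ∈ range (nt l), ψ (pop j l)) :
    ∃ c : ℝ, 0 < c ∧ ∀ (j Y : ℕ) (l : List Bool), l.length < K →
      c * ρ ^ j * φ Y * ψ l ≤ (cmp (K + m + L + 1 + j) (K + m + Y) l : ℝ) := by
  have hlam0 : 0 < lam := by linarith
  have hψ0 : ∀ l, 0 ≤ ψ l := by
    intro l
    rw [hψ]
    apply Finset.sum_nonneg
    intro i _
    positivity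
  obtain ⟨M, hM⟩ : ∃ M : ℝ, M = ∑ Y ∈ range L, φ Y := ⟨_, rfl⟩
  have hM0 : 0 ≤ M := by
    rw [hM]
    exact Finset.sum_nonneg fun Y _ => hφ Y
  have hφM : ∀ Y, Y < L → φ Y ≤ M := by
    intro Y hY
    rw [hM]
    exact Finset.single_le_sum (f := φ) (fun Y _ => hφ Y) (Finset.mem_range.mpr hY)
  have hm0 : (0 : ℝ) < m := by exact_mod_cast hm
  obtain ⟨c, hc⟩ : ∃ c : ℝ, c = 1 / (m * (M + 1)) := ⟨_, rfl⟩
  have hc0 : 0 < c := by
    rw [hc]
    positivity
  refine ⟨c, hc0, ?_⟩
  intro j
  induction j with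
  | zero =>
    intro Y l hl
    by_cases hYL : Y < L
    · -- ψ l ≤ m * cmp
      have h1 : ∀ i ∈ range m, (wk K i l : ℝ) / lam ^ i ≤
          (cmp (K + m + L) (K + m + L) l : ℝ) := by
        intro i hi
        rw [Finset.mem_range] at hi
        have h2 : wk K i l ≤ cmp (K + m + L) (K + m + L) l := L3 K i (K + m + L) l (by omega)
        have h3 : (1 : ℝ) ≤ lam ^ i := one_le_pow₀ hlam
        calc (wk K i l : ℝ) / lam ^ i ≤ (wk K i l : ℝ) := div_le_self (Nat.cast_nonneg _) h3
          _ ≤ _ := by exact_mod_cast h2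
      have h2 : ψ l ≤ m * (cmp (K + m + L) (K + m + L) l : ℝ) := by
        rw [hψ]
        calc ∑ i ∈ range m, (wk K i l : ℝ) / lam ^ i ≤
            ∑ i ∈ range m, (cmp (K + m + L) (K + m + L) l : ℝ) := Finset.sum_le_sum h1
          _ = m * (cmp (K + m + L) (K + m + L) l : ℝ) := by
            rw [Finset.sum_const, Finset.card_range, nsmul_eq_mul]
      have h3 : cmp (K + m + L) (K + m + L) l ≤ cmp (K + m + L + 1) (K + m + Y) l := by
        rw [cmp]
        refine le_trans ?_ (Nat.le_add_right _ _)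
        exact Finset.single_le_sum (f := fun Y' => cmp (K + m + L) Y' l)
          (fun _ _ => Nat.zero_le _) (Finset.mem_Icc.mpr ⟨by omega, le_rfl⟩)
      have h3' : (cmp (K + m + L) (K + m + L) l : ℝ) ≤ (cmp (K + m + L + 1) (K + m + Y) l : ℝ) := by
        exact_mod_cast h3
      have h4 : c * φ Y * m ≤ 1 := by
        rw [hc]
        have h5 := hφM Y hYL
        rw [div_mul_eq_mul_div, div_mul_eq_mul_div, div_le_one (by positivity)]
        nlinarith
      have h5 : 0 ≤ c * φ Y := mul_nonneg hc0.le (hφ Y)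
      have h6 : (0 : ℝ) ≤ (cmp (K + m + L) (K + m + L) l : ℝ) := Nat.cast_nonneg _
      rw [pow_zero, mul_one, add_zero]
      calc c * φ Y * ψ l ≤ c * φ Y * (m * (cmp (K + m + L) (K + m + L) l : ℝ)) :=
            mul_le_mul_of_nonneg_left h2 h5
        _ = (c * φ Y * m) * (cmp (K + m + L) (K + m + L) l : ℝ) := by ring
        _ ≤ 1 * (cmp (K + m + L) (K + m + L) l : ℝ) := mul_le_mul_of_nonneg_right h4 h6
        _ ≤ (cmp (K + m + L + 1) (K + m + Y) l : ℝ) := by rw [one_mul]; exact h3'
    · rw [hφL Y (by omega)]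
      simp
  | succ j ih =>
    intro Y l hl
    rcases Nat.eq_zero_or_pos Y with hY0 | hY
    · rw [hY0, hφ0]
      simp
    · obtain ⟨R, hR⟩ : ∃ R, R = K + m + L + 1 + j := ⟨_, rfl⟩
      have hR' : K + m + L + 1 + (j + 1) = R + 1 := by omega
      rw [hR']
      rw [← hR] at ih
      have hρj : 0 ≤ c * ρ ^ j := mul_nonneg hc0.le (pow_nonneg hρ.le _)
      -- first sum
      have hA : ∑ Y' ∈ Ico Y L, (c * ρ ^ j * φ Y' * ψ l) ≤
          ((∑ Y' ∈ Icc (K + m + Y) R, cmp R Y' l : ℕ) : ℝ) := by
        calc ∑ Y' ∈ Ico Y L, (c * ρ ^ j * φ Y' * ψ l) ≤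
            ∑ Y' ∈ Ico Y L, (cmp R (K + m + Y') l : ℝ) :=
              Finset.sum_le_sum fun Y' _ => ih Y' l hl
          _ = ((∑ Y' ∈ Ico Y L, cmp R (K + m + Y') l : ℕ) : ℝ) := by push_cast; rfl
          _ ≤ ((∑ Y' ∈ Icc (K + m + Y) R, cmp R Y' l : ℕ) : ℝ) := by
              have h1 : ∑ Y' ∈ Ico Y L, cmp R (K + m + Y') l =
                  ∑ Y' ∈ (Ico Y L).image (fun t => K + m + t), cmp R Y' l := by
                rw [Finset.sum_image]
                intro a _ b _ hab
                simpa using hab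
              have h2 : (Ico Y L).image (fun t => K + m + t) ⊆ Icc (K + m + Y) R := by
                intro t ht
                rw [Finset.mem_image] at ht
                obtain ⟨a, ha, rfl⟩ := ht
                rw [Finset.mem_Ico] at ha
                rw [Finset.mem_Icc]
                omega
              rw [h1]
              exact_mod_cast Finset.sum_le_sum_of_subset h2
      -- second sum
      have hB : ∑ g ∈ range (K - l.length), (c * ρ ^ j * φ (Y - 1) * ψ (push g l)) ≤
          ((∑ g ∈ range (K + m + Y - l.length), cmp R (K + m + Y - 1) (push g l) : ℕ) : ℝ) := by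
        have e1 : K + m + Y - 1 = K + m + (Y - 1) := by omega
        rw [e1]
        calc ∑ g ∈ range (K - l.length), (c * ρ ^ j * φ (Y - 1) * ψ (push g l)) ≤
            ∑ g ∈ range (K - l.length), (cmp R (K + m + (Y - 1)) (push g l) : ℝ) := by
              apply Finset.sum_le_sum
              intro g hg
              rw [Finset.mem_range] at hg
              apply ih
              rw [L4_push_length]
              omega
          _ = ((∑ g ∈ range (K - l.length), cmp R (K + m + (Y - 1)) (push g l) : ℕ) : ℝ) := by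
              push_cast; rfl
          _ ≤ _ := by
              have h2 : range (K - l.length) ⊆ range (K + m + Y - l.length) := by
                intro t ht
                rw [Finset.mem_range] at ht ⊢
                omega
              exact_mod_cast Finset.sum_le_sum_of_subset h2
      have hC : ∑ i ∈ range (nt l), (c * ρ ^ j * φ (Y - 1) * ψ (pop i l)) ≤
          ((∑ i ∈ range (nt l), cmp R (K + m + Y - 1) (pop i l) : ℕ) : ℝ) := by
        have e1 : K + m + Y - 1 = K + m + (Y - 1) := by omega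
        rw [e1]
        push_cast
        apply Finset.sum_le_sum
        intro i _
        apply ih
        rw [L4_pop_length]
        omega
      have hcmp : cmp (R + 1) (K + m + Y) l = (∑ Y' ∈ Icc (K + m + Y) R, cmp R Y' l) +
          ((∑ g ∈ range (K + m + Y - l.length), cmp R (K + m + Y - 1) (push g l)) +
            ∑ i ∈ range (nt l), cmp R (K + m + Y - 1) (pop i l)) := by
        rw [cmp, if_neg (by omega)]
      rw [hcmp, Nat.cast_add, Nat.cast_add]
      have h7 : ρ * φ Y * ψ l ≤ (∑ Y' ∈ Ico Y L, φ Y' * ψ l) +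
          ((∑ g ∈ range (K - l.length), φ (Y - 1) * ψ (push g l)) +
            ∑ i ∈ range (nt l), φ (Y - 1) * ψ (pop i l)) := by
        have h8 := mul_le_mul_of_nonneg_right (hφs Y hY) (hψ0 l)
        have h9 := mul_le_mul_of_nonneg_left (hψs l) (hφ (Y - 1))
        rw [← Finset.sum_mul, ← Finset.mul_sum, ← Finset.mul_sum, ← mul_add]
        calc ρ * φ Y * ψ l ≤ ((∑ Y' ∈ Ico Y L, φ Y') + lam * φ (Y - 1)) * ψ l := h8
          _ = (∑ Y' ∈ Ico Y L, φ Y') * ψ l + φ (Y - 1) * (lam * ψ l) := by ring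
          _ ≤ _ := by linarith
      calc c * ρ ^ (j + 1) * φ Y * ψ l = (c * ρ ^ j) * (ρ * φ Y * ψ l) := by ring
        _ ≤ (c * ρ ^ j) * ((∑ Y' ∈ Ico Y L, φ Y' * ψ l) +
          ((∑ g ∈ range (K - l.length), φ (Y - 1) * ψ (push g l)) +
            ∑ i ∈ range (nt l), φ (Y - 1) * ψ (pop i l))) := mul_le_mul_of_nonneg_left h7 hρj
        _ = (∑ Y' ∈ Ico Y L, (c * ρ ^ j * φ Y' * ψ l)) +
          ((∑ g ∈ range (K - l.length), (c * ρ ^ j * φ (Y - 1) * ψ (push g l))) +
            ∑ i ∈ range (nt l), (c * ρ ^ j * φ (Y - 1) * ψ (pop i l))) := by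
            rw [mul_add, mul_add, Finset.mul_sum, Finset.mul_sum, Finset.mul_sum]
            congr 1
            · apply Finset.sum_congr rfl
              intro _ _
              ring
            · congr 1
              · apply Finset.sum_congr rfl
                intro _ _
                ring
              · apply Finset.sum_congr rfl
                intro _ _
                ring
        _ ≤ _ := add_le_add hA (add_le_add hB hC)

end Pool.Agent.Lib_helper12.NZ
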