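import Pool.Agent.Lib_helper12.NZ.Base

/-! Block EN1: fixed points of contractions for the inner variable. -/

set_option autoImplicit false

open Finset

namespace Pool.Agent.Lib_helper12.NZ

open PowerSeries

theorem EN1 (Φ : PowerSeries (PowerSeries ℚ) → PowerSeries (PowerSeries ℚ))
    (hΦ : ∀ (k : ℕ) (a b : PowerSeries (PowerSeries ℚ)),
      (∀ t, (X : PowerSeries ℚ) ^ k ∣ coeff t (a - b)) →
        ∀ t, (X : PowerSeries ℚ) ^ (k + 1) ∣ coeff t (Φ a - Φ b)) :
    ∃ z, Φ z = z := by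
  set z : ℕ → PowerSeries (PowerSeries ℚ) := fun k => Φ^[k] 0 with hz
  have hsucc : ∀ k, z (k + 1) = Φ (z k) := fun k => by
    simp only [hz, Function.iterate_succ_apply']
  have h1 : ∀ k t, (X : PowerSeries ℚ) ^ k ∣ coeff t (z (k + 1) - z k) := by
    intro k
    induction k with
    | zero => intro t; simp
    | succ k ih =>
      have h := hΦ k (z (k + 1)) (z k) ih
      rwa [← hsucc (k + 1), ← hsucc k] at h
  have h2 : ∀ k j t, (X : PowerSeries ℚ) ^ k ∣ coeff t (z (k + j) - z k) := by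
    intro k j
    induction j with
    | zero => intro t; simp
    | succ j ih =>
      intro t
      have e : z (k + (j + 1)) - z k = (z (k + j + 1) - z (k + j)) + (z (k + j) - z k) := by
        rw [← add_assoc]; ring
      rw [e, map_add]
      exact dvd_add ((pow_dvd_pow _ (Nat.le_add_right k j)).trans (h1 (k + j) t)) (ih t)
  set w : PowerSeries (PowerSeries ℚ) :=
    PowerSeries.mk fun t => PowerSeries.mk fun n => coeff n (coeff t (z (n + 1))) with hw
  have h3 : ∀ k t, (X : PowerSeries ℚ) ^ k ∣ coeff t (w - z k) := by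
    intro k t
    rw [PowerSeries.X_pow_dvd_iff]
    intro n hn
    obtain ⟨j, rfl⟩ : ∃ j, k = n + 1 + j := ⟨k - (n + 1), by omega⟩
    have h4 := (PowerSeries.X_pow_dvd_iff.mp (h2 (n + 1) j t)) n (by omega)
    rw [map_sub, map_sub, sub_eq_zero] at h4 ⊢
    rw [h4, hw, coeff_mk, coeff_mk]
  refine ⟨w, ?_⟩
  have h5 : ∀ k t, (X : PowerSeries ℚ) ^ (k + 1) ∣ coeff t (Φ w - w) := by
    intro k t
    have e : Φ w - w = (Φ w - Φ (z k)) - (w - z (k + 1)) := by rw [hsucc]; ring
    rw [e, map_sub]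
    exact dvd_sub (hΦ k _ _ (h3 k) t) (h3 (k + 1) t)
  ext t n
  have h6 := (PowerSeries.X_pow_dvd_iff.mp (h5 n t)) n (by omega)
  rwa [map_sub, map_sub, sub_eq_zero] at h6

end Pool.Agent.Lib_helper12.NZ
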