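import Pool.Agent.Lib_helper12.NZ.Base
import Pool.Agent.Lib_helper12.NZ.Fin.U_NZ_EN1_helper66

/-! Block EN2 -/

set_option autoImplicit false

open Finset
open scoped ENNReal

namespace Pool.Agent.Lib_helper12.NZ

open PowerSeries

theorem EN2_psum {R : Type*} [CommRing R] (G : PowerSeries R) :
    (1 - X) * PowerSeries.mk (fun t => ∑ s ∈ range (t + 1), coeff s G) = G := by
  ext n
  rw [sub_mul, one_mul, map_sub, coeff_mk]
  rcases n with _ | n
  · simp
  · rw [coeff_succ_X_mul, coeff_mk, Finset.sum_range_succ _ (n + 1)]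
    ring

theorem EN2_pshift {R : Type*} [CommRing R] (G : PowerSeries R) :
    PowerSeries.mk (fun t => ∑ s ∈ range (t + 1), coeff s G) =
      C (coeff 0 G) + X * PowerSeries.mk (fun t => ∑ s ∈ range (t + 2), coeff s G) := by
  ext n
  rw [map_add, coeff_mk]
  rcases n with _ | n
  · simp
  · rw [coeff_succ_X_mul, coeff_mk, coeff_C, if_neg (Nat.succ_ne_zero n), zero_add]

theorem EN2_stpeq {R : Type*} [CommRing R] (x : R) (G : PowerSeries R) :
    stp x G = C x * (C (1 + coeff 0 G) + PowerSeries.mk (fun t => ∑ s ∈ range (t + 2), coeff s G)) := by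
  ext n
  unfold stp
  rw [coeff_mk, coeff_C_mul, map_add, coeff_mk, coeff_C]

/-- the closed form of one step -/
theorem EN2_stp {R : Type*} [CommRing R] (x : R) (G : PowerSeries R) :
    X * (1 - X) * stp x G = C x * (X * (1 - X) + G - (1 - X) ^ 2 * C (coeff 0 G)) := by
  have h1 := EN2_psum G
  rw [EN2_pshift] at h1
  rw [EN2_stpeq, map_add, map_one]
  linear_combination (C x) * h1

/-- the series `c` -/
theorem EN2_c : ∃ c : PowerSeries ℚ, constantCoeff c = 0 ∧ c - 2 * c ^ 2 = X := by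
  set K : PowerSeries ℚ := PowerSeries.map (Nat.castRingHom ℚ) catalanSeries with hK
  have h1 : K ^ 2 * X + 1 = K := by
    have := congrArg (PowerSeries.map (Nat.castRingHom ℚ)) catalanSeries_sq_mul_X_add_one
    rw [map_add, map_mul, map_pow, map_one, PowerSeries.map_X] at this
    exact this
  set L : PowerSeries ℚ := rescale 2 K with hL
  have h2 : L ^ 2 * (C 2 * X) + 1 = L := by
    have := congrArg (rescale (2 : ℚ)) h1
    rw [map_add, map_mul, map_pow, map_one, rescale_X] at this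
    exact this
  refine ⟨X * L, by simp, ?_⟩
  have e : (C 2 : PowerSeries ℚ) = 2 := map_ofNat C 2
  rw [e] at h2
  linear_combination (-X) * h2

theorem EN2_dvd {R : Type*} [CommRing R] (a : R) (z : PowerSeries R) :
    (∀ t, a ∣ coeff t z) ↔ C a ∣ z := by
  constructor
  · intro h
    choose w hw using h
    refine ⟨PowerSeries.mk w, ?_⟩
    ext n
    rw [coeff_C_mul, coeff_mk]
    exact hw n
  · rintro ⟨w, rfl⟩ t
    rw [coeff_C_mul]
    exact dvd_mul_right _ _

/-- EN2: the explicit fixed point of the height recursion -/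
theorem EN2 : ∃ (c : PowerSeries ℚ) (F Γ : PowerSeries (PowerSeries ℚ)),
    constantCoeff c = 0 ∧ c - 2 * c ^ 2 = X ∧
    (∀ t, constantCoeff (coeff t F) = 0) ∧
    Γ = 1 + F * Γ ∧ F = stp X (Γ - 1) ∧
    coeff 0 Γ * (1 - 2 * c) ^ 2 = 1 - 3 * c + c ^ 2 := by
  obtain ⟨c, hc0, hcX⟩ := EN2_c
  have hXc : (X : PowerSeries ℚ) ∣ c := X_dvd_iff.2 hc0
  -- inverses
  set u : PowerSeries ℚ := (1 - c)⁻¹ with hu
  have hcu : constantCoeff (1 - c) ≠ 0 := by
    rw [map_sub, map_one, hc0]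
    norm_num
  have huc : (1 - c) * u = 1 := PowerSeries.mul_inv_cancel _ hcu
  obtain ⟨v, hv⟩ : ∃ v : PowerSeries (PowerSeries ℚ), (1 - X) * v = 1 := by
    refine ⟨PowerSeries.mk 1, ?_⟩
    rw [mul_comm]
    exact mk_one_mul_one_sub_eq_one _
  -- the fixed point
  obtain ⟨t, ht⟩ := EN1 (fun t => C (c * (1 - 2 * c)) * (1 + t) * (1 + C c * t) * C (u ^ 3) * v) (by
    intro k a b hab
    rw [EN2_dvd] at hab ⊢
    obtain ⟨w, hw⟩ := hab
    obtain ⟨e, he⟩ := hXc
    have h1 : C (c * (1 - 2 * c)) * (1 + a) * (1 + C c * a) * C (u ^ 3) * v -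
        C (c * (1 - 2 * c)) * (1 + b) * (1 + C c * b) * C (u ^ 3) * v =
        C c * (a - b) * (C (1 - 2 * c) * (1 + C c + C c * (a + b)) * C (u ^ 3) * v) := by
      rw [map_mul]
      ring
    show C (X ^ (k + 1)) ∣ C (c * (1 - 2 * c)) * (1 + a) * (1 + C c * a) * C (u ^ 3) * v -
        C (c * (1 - 2 * c)) * (1 + b) * (1 + C c * b) * C (u ^ 3) * v
    rw [h1, hw]
    refine Dvd.dvd.mul_right ?_ _
    refine ⟨C e * w, ?_⟩
    rw [pow_succ, map_mul]
    nth_rewrite 1 [he]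
    rw [map_mul]
    ring)
  have ht' : C (c * (1 - 2 * c)) * (1 + t) * (1 + C c * t) * C (u ^ 3) * v = t := ht
  set cc : PowerSeries (PowerSeries ℚ) := C c with hcc
  set U : PowerSeries (PowerSeries ℚ) := C u with hU
  have hU1 : (1 - cc) * U = 1 := by
    have := congrArg (C (R := PowerSeries ℚ)) huc
    rw [map_mul, map_sub, map_one] at this
    exact this
  have hU3 : (1 - cc) ^ 3 * U ^ 3 = 1 := by rw [← mul_pow, hU1, one_pow]
  have e2 : (C (2 : PowerSeries ℚ) : PowerSeries (PowerSeries ℚ)) = 2 := map_ofNat C 2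
  have hR : (1 - X) * (1 - cc) ^ 3 * t = cc * (1 - 2 * cc) * (1 + t) * (1 + cc * t) := by
    have h1 : cc * (1 - 2 * cc) * (1 + t) * (1 + cc * t) * U ^ 3 * v = t := by
      rw [map_mul, map_sub, map_one, map_mul, map_pow, e2] at ht'
      exact ht'
    calc (1 - X) * (1 - cc) ^ 3 * t = (1 - X) * (1 - cc) ^ 3 *
          (cc * (1 - 2 * cc) * (1 + t) * (1 + cc * t) * U ^ 3 * v) := by rw [h1]
      _ = (cc * (1 - 2 * cc) * (1 + t) * (1 + cc * t)) * ((1 - cc) ^ 3 * U ^ 3) * ((1 - X) * v) := by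
          ring
      _ = cc * (1 - 2 * cc) * (1 + t) * (1 + cc * t) := by rw [hU3, hv, mul_one, mul_one]
  -- constant term
  set t0 : PowerSeries ℚ := constantCoeff t with ht0
  have hR0 : (1 - c) ^ 3 * t0 = c * (1 - 2 * c) * (1 + t0) * (1 + c * t0) := by
    have h1 := congrArg (constantCoeff (R := PowerSeries ℚ)) hR
    simp only [map_mul, map_sub, map_one, map_pow, map_add, constantCoeff_X, hcc, constantCoeff_C,
      map_ofNat, sub_zero, one_mul] at h1
    exact h1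
  have ht0X : constantCoeff t0 = 0 := by
    have h1 := congrArg (constantCoeff (R := ℚ)) hR0
    simp only [map_mul, map_sub, map_one, map_pow, map_add, hc0, map_ofNat, sub_zero, one_mul,
      one_pow, zero_mul] at h1
    exact h1
  have h2c : constantCoeff (1 - 2 * c) ≠ 0 := by
    rw [map_sub, map_one, map_mul, hc0]
    norm_num
  set r : PowerSeries ℚ := c * (1 - 2 * c)⁻¹ with hr
  have hr1 : (1 - 2 * c) * r = c := by
    have := PowerSeries.mul_inv_cancel _ h2c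
    rw [hr]
    calc (1 - 2 * c) * (c * (1 - 2 * c)⁻¹) = c * ((1 - 2 * c) * (1 - 2 * c)⁻¹) := by ring
      _ = c := by rw [this, mul_one]
  have hr0 : constantCoeff r = 0 := by rw [hr, map_mul, hc0, zero_mul]
  have h2ne : (1 - 2 * c : PowerSeries ℚ) ≠ 0 := fun h => h2c (by rw [h, map_zero])
  have hR1 : (1 - c) ^ 3 * r = c * (1 - 2 * c) * (1 + r) * (1 + c * r) := by
    apply mul_left_cancel₀ h2ne
    have h3 : (1 - 2 * c) * (c * (1 - 2 * c) * (1 + r) * (1 + c * r)) =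
        c * ((1 - 2 * c) + (1 - 2 * c) * r) * ((1 - 2 * c) + c * ((1 - 2 * c) * r)) := by ring
    rw [h3, hr1]
    have h4 : (1 - 2 * c) * ((1 - c) ^ 3 * r) = (1 - c) ^ 3 * ((1 - 2 * c) * r) := by ring
    rw [h4, hr1]
    ring
  have htr : t0 = r := by
    have h3 : (t0 - r) * ((1 - c) ^ 3 - c * (1 - 2 * c) * (1 + c + c * (t0 + r))) = 0 := by
      linear_combination hR0 - hR1
    rcases mul_eq_zero.1 h3 with h4 | h4
    · exact sub_eq_zero.1 h4
    · exfalso
      have h5 := congrArg (constantCoeff (R := ℚ)) h4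
      simp only [map_mul, map_sub, map_one, map_pow, map_add, hc0, map_ofNat, sub_zero, 
        one_pow, zero_mul, map_zero] at h5
      norm_num at h5
  have hct0 : (1 - 2 * c) * t0 = c := by rw [htr, hr1]
  set Γ : PowerSeries (PowerSeries ℚ) := ((1 - 2 * cc) - cc ^ 2 * t) * (1 + cc * t) * U ^ 3 with hΓ
  have hA : (1 - cc) ^ 3 * Γ = ((1 - 2 * cc) - cc ^ 2 * t) * (1 + cc * t) := by
    calc (1 - cc) ^ 3 * Γ = ((1 - 2 * cc) - cc ^ 2 * t) * (1 + cc * t) *
          ((1 - cc) ^ 3 * U ^ 3) := by rw [hΓ]; ring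
      _ = _ := by rw [hU3, mul_one]
  have hG0 : coeff 0 Γ * (1 - 2 * c) ^ 2 = 1 - 3 * c + c ^ 2 := by
    have h1 : coeff 0 Γ = ((1 - 2 * c) - c ^ 2 * t0) * (1 + c * t0) * u ^ 3 := by
      rw [coeff_zero_eq_constantCoeff_apply, hΓ]
      simp only [map_mul, map_sub, map_one, map_pow, map_add, hcc, hU, constantCoeff_C,
        map_ofNat]
      rw [ht0]
    rw [h1]
    have h3 : (1 - c) ^ 3 * u ^ 3 = 1 := by rw [← mul_pow, huc, one_pow]
    calc ((1 - 2 * c) - c ^ 2 * t0) * (1 + c * t0) * u ^ 3 * (1 - 2 * c) ^ 2 =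
        ((1 - 2 * c) ^ 2 - c ^ 2 * ((1 - 2 * c) * t0)) *
          ((1 - 2 * c) + c * ((1 - 2 * c) * t0)) * u ^ 3 := by ring
      _ = (1 - 3 * c + c ^ 2) * ((1 - c) ^ 3 * u ^ 3) := by rw [hct0]; ring
      _ = _ := by rw [h3, mul_one]
  have hB : C (coeff 0 Γ) * (1 - 2 * cc) ^ 2 = 1 - 3 * cc + cc ^ 2 := by
    have h1 := congrArg (C (R := PowerSeries ℚ)) hG0
    have e3 : (C (3 : PowerSeries ℚ) : PowerSeries (PowerSeries ℚ)) = 3 := map_ofNat C 3
    simp only [map_mul, map_sub, map_one, map_pow, map_add] at h1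
    rw [e2, e3] at h1
    exact h1
  have hx : C (X : PowerSeries ℚ) = cc * (1 - 2 * cc) := by
    rw [← hcX]
    simp only [map_mul, map_sub, map_pow]
    rw [e2]
    ring
  -- the main identity
  have hE : X * (1 - X) * (1 - cc) ^ 3 * (1 - 2 * cc) * ((1 - cc) ^ 3 * Γ - (1 - cc) ^ 3) -
      cc * ((1 - cc) ^ 3 * Γ) * ((1 - 2 * cc) ^ 2 * ((1 - cc) ^ 3 * Γ) -
        (1 - X) ^ 2 * (1 - 3 * cc + cc ^ 2) * (1 - cc) ^ 3 -
          X * (1 - 2 * cc) ^ 2 * (1 - cc) ^ 3) = 0 := by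
    rw [hA]
    linear_combination (cc * X - cc ^ 2 - 6 * cc ^ 2 * X + 5 * cc ^ 3 - cc ^ 3 * t +
      12 * cc ^ 3 * X - cc ^ 3 * X * t - 6 * cc ^ 4 + 6 * cc ^ 4 * t - 10 * cc ^ 4 * X +
      3 * cc ^ 4 * X * t + cc ^ 5 - 8 * cc ^ 5 * t + cc ^ 5 * t ^ 2 + 3 * cc ^ 5 * X -
      3 * cc ^ 5 * X * t + cc ^ 6 * t - 2 * cc ^ 6 * t ^ 2 + cc ^ 6 * X * t) * hR
  have hw0 : (1 - cc) ≠ 0 := by
    intro h
    rw [h, zero_mul] at hU1
    exact zero_ne_one hU1
  have h2c0 : (1 - 2 * cc) ≠ 0 := by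
    intro h
    have h1 := congrArg (constantCoeff (R := PowerSeries ℚ)) h
    simp only [map_mul, map_sub, map_one, hcc, constantCoeff_C, map_ofNat, map_zero] at h1
    exact h2ne h1
  have hI : X * (1 - X) * (Γ - 1) =
      C (X : PowerSeries ℚ) * Γ * (Γ - (1 - X) ^ 2 * C (coeff 0 Γ) - X) := by
    have h1 : ((1 - cc) ^ 6 * (1 - 2 * cc)) * (X * (1 - X) * (Γ - 1) -
        C (X : PowerSeries ℚ) * Γ * (Γ - (1 - X) ^ 2 * C (coeff 0 Γ) - X)) = 0 := by
      rw [hx]
      rw [← hB] at hE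
      linear_combination hE
    rcases mul_eq_zero.1 h1 with h2 | h2
    · exact absurd h2 (mul_ne_zero (pow_ne_zero 6 hw0) h2c0)
    · exact sub_eq_zero.1 h2
  have hS := EN2_stp (X : PowerSeries ℚ) (Γ - 1)
  have e1 : coeff 0 (Γ - 1) = coeff 0 Γ - 1 := by
    rw [map_sub]
    simp
  rw [e1, map_sub, map_one] at hS
  have hX0 : (X : PowerSeries (PowerSeries ℚ)) ≠ 0 := X_ne_zero
  have h1X0 : (1 - X : PowerSeries (PowerSeries ℚ)) ≠ 0 := by
    intro h
    rw [h, zero_mul] at hv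
    exact zero_ne_one hv
  refine ⟨c, stp X (Γ - 1), Γ, hc0, hcX, ?_, ?_, rfl, hG0⟩
  · intro s
    unfold stp
    rw [coeff_mk, map_mul, constantCoeff_X, zero_mul]
  · apply mul_left_cancel₀ (mul_ne_zero hX0 h1X0)
    linear_combination hI - Γ * hS

end Pool.Agent.Lib_helper12.NZ
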