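import Pool.Agent.Lib_helper12.NZ.Base

set_option autoImplicit false

open Finset
open scoped ENNReal

namespace Pool.Agent.Lib_helper12.NZ

open PowerSeries in
theorem GEOH (R : Type*) [CommSemiring R] (h t : ℕ) :
    constantCoeff (coeff t (Fh R h)) = 0 := by
  cases h with
  | zero => simp [Fh]
  | succ h => simp [Fh, stp]

end Pool.Agent.Lib_helper12.NZ
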