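import Pool.Agent.Lib_helper12.NZ.Base

set_option autoImplicit false

open Finset PowerSeries

namespace Pool.Agent.Lib_helper12.NZ

theorem GEO_mul {R : Type*} [CommSemiring R] (N : ℕ) (F A B : PowerSeries (PowerSeries R))
    (h : ∀ t, ∀ n ≤ N, coeff n (coeff t A) = coeff n (coeff t B)) :
    ∀ t, ∀ n ≤ N, coeff n (coeff t (F * A)) = coeff n (coeff t (F * B)) := by
  intro t n hn
  rw [PowerSeries.coeff_mul, PowerSeries.coeff_mul, map_sum, map_sum]
  refine Finset.sum_congr rfl fun p _ => ?_
  rw [PowerSeries.coeff_mul, PowerSeries.coeff_mul]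
  refine Finset.sum_congr rfl fun r hr => ?_
  rw [h p.2 r.2 (by
    have := Finset.HasAntidiagonal.mem_antidiagonal.1 hr
    omega)]

theorem GEO_pow {R : Type*} [CommSemiring R] (F : PowerSeries (PowerSeries R))
    (hF : ∀ t, constantCoeff (coeff t F) = 0) (k : ℕ) :
    ∀ t n, n < k → coeff n (coeff t (F ^ k)) = 0 := by
  induction k with
  | zero => intro t n hn; omega
  | succ k ih =>
    intro t n hn
    rw [pow_succ', PowerSeries.coeff_mul, map_sum]
    refine Finset.sum_eq_zero fun p _ => ?_
    rw [PowerSeries.coeff_mul]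
    refine Finset.sum_eq_zero fun r hr => ?_
    have hr' := Finset.HasAntidiagonal.mem_antidiagonal.1 hr
    rcases Nat.eq_zero_or_pos r.1 with h0 | h0
    · rw [h0, PowerSeries.coeff_zero_eq_constantCoeff_apply, hF, zero_mul]
    · rw [ih p.2 r.2 (by omega), mul_zero]

theorem GEO {R : Type*} [CommSemiring R] (F : PowerSeries (PowerSeries R))
    (hF : ∀ t, constantCoeff (coeff t F) = 0) : geo F = 1 + F * geo F := by
  have hgeo : ∀ N, ∀ t, ∀ n ≤ N, coeff n (coeff t (geo F)) =
      coeff n (coeff t (∑ k ∈ range (N + 1), F ^ k)) := by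
    intro N t n hn
    unfold geo
    rw [PowerSeries.coeff_mk, PowerSeries.coeff_mk, map_sum, map_sum]
    have hsub : range (n + 1) ⊆ range (N + 1) := Finset.range_subset_range.2 (by omega)
    refine Finset.sum_subset hsub fun k _ hk => ?_
    simp only [Finset.mem_range, not_lt] at hk
    exact GEO_pow F hF k t n (by omega)
  ext t n
  have h1 := hgeo (n + 1) t n (by omega)
  have h2 := GEO_mul n F _ _ (hgeo n) t n le_rfl
  rw [h1, Finset.sum_range_succ', map_add, map_add, map_add, map_add, h2, pow_zero, add_comm]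
  congr 1
  rw [Finset.mul_sum]
  simp only [pow_succ']

end Pool.Agent.Lib_helper12.NZ
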