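import Pool.Agent.Lib_helper12.NZ.Base
import Pool.Agent.Lib_helper12.NZ.Fin.U_NZ_GEO_helper41
import Pool.Agent.Lib_helper12.NZ.Fin.U_NZ_GEOH_helper93

/-! # Block EN3 (uses GEO GEOH) -/

set_option autoImplicit false

open Finset PowerSeries

namespace Pool.Agent.Lib_helper12.NZ

theorem EN3_mul {k : ℕ} {A : PowerSeries (PowerSeries ℚ)} (B : PowerSeries (PowerSeries ℚ))
    (hA : ∀ t, (X : PowerSeries ℚ) ^ k ∣ coeff t A) (t : ℕ) :
    (X : PowerSeries ℚ) ^ k ∣ coeff t (A * B) := by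
  rw [PowerSeries.coeff_mul]
  exact Finset.dvd_sum fun p _ => (hA p.1).mul_right _

theorem EN3_stp {k : ℕ} {A B : PowerSeries (PowerSeries ℚ)}
    (h : ∀ t, (X : PowerSeries ℚ) ^ k ∣ coeff t (A - B)) (t : ℕ) :
    (X : PowerSeries ℚ) ^ (k + 1) ∣
      coeff t (stp (X : PowerSeries ℚ) A - stp (X : PowerSeries ℚ) B) := by
  rw [map_sub]
  unfold stp
  rw [PowerSeries.coeff_mk, PowerSeries.coeff_mk, ← mul_sub, pow_succ']
  refine mul_dvd_mul_left _ ?_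
  have e : ((if t = 0 then 1 + coeff 0 A else 0) + ∑ s ∈ range (t + 2), coeff s A) -
      ((if t = 0 then 1 + coeff 0 B else 0) + ∑ s ∈ range (t + 2), coeff s B) =
      (if t = 0 then coeff 0 (A - B) else 0) + ∑ s ∈ range (t + 2), coeff s (A - B) := by
    simp only [map_sub, Finset.sum_sub_distrib]
    split_ifs <;> ring
  rw [e]
  refine dvd_add ?_ (Finset.dvd_sum fun s _ => h s)
  split_ifs
  · exact h 0
  · exact dvd_zero _

theorem EN3_gam {k : ℕ} {F Γ F' Γ' : PowerSeries (PowerSeries ℚ)} (h2 : Γ = 1 + F * Γ)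
    (h2' : Γ' = 1 + F' * Γ') (h : ∀ t, (X : PowerSeries ℚ) ^ k ∣ coeff t (F' - F)) (t : ℕ) :
    (X : PowerSeries ℚ) ^ k ∣ coeff t (Γ' - Γ) := by
  have e : Γ' - Γ = (F' - F) * (Γ' * Γ) := by
    have e1 : Γ * (1 - F) = 1 := by linear_combination h2
    have e2 : Γ' * (1 - F') = 1 := by linear_combination h2'
    linear_combination (-Γ') * e1 + Γ * e2
  rw [e]
  exact EN3_mul _ h t

theorem EN3_main (F Γ : PowerSeries (PowerSeries ℚ)) (h1 : ∀ t, constantCoeff (coeff t F) = 0)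
    (h2 : Γ = 1 + F * Γ) (h3 : F = stp X (Γ - 1)) (h : ℕ) :
    ∀ t, (X : PowerSeries ℚ) ^ (h + 1) ∣ coeff t (Fh ℚ h - F) := by
  induction h with
  | zero =>
    intro t
    have : Fh ℚ 0 = 0 := rfl
    rw [this, zero_sub, map_neg, zero_add, pow_one, dvd_neg, PowerSeries.X_dvd_iff]
    exact h1 t
  | succ h ih =>
    have hG : geo (Fh ℚ h) = 1 + Fh ℚ h * geo (Fh ℚ h) := GEO _ (GEOH ℚ h)
    have e1 : Fh ℚ (h + 1) = stp X (Fh ℚ h * geo (Fh ℚ h)) := rfl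
    intro t
    rw [e1]
    conv_rhs => rw [h3]
    refine EN3_stp ?_ t
    intro s
    have e2 : Fh ℚ h * geo (Fh ℚ h) - (Γ - 1) = geo (Fh ℚ h) - Γ := by
      linear_combination -hG
    rw [e2]
    exact EN3_gam h2 hG ih s

theorem EN3 (F Γ : PowerSeries (PowerSeries ℚ)) (h1 : ∀ t, constantCoeff (coeff t F) = 0)
    (h2 : Γ = 1 + F * Γ) (h3 : F = stp X (Γ - 1)) (h n : ℕ) (hn : n ≤ h) :
    coeff n (Gam0 ℚ h) = coeff n (coeff 0 Γ) := by
  have hG : geo (Fh ℚ h) = 1 + Fh ℚ h * geo (Fh ℚ h) := GEO _ (GEOH ℚ h)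
  have h4 := EN3_gam h2 hG (EN3_main F Γ h1 h2 h3 h) 0
  rw [PowerSeries.X_pow_dvd_iff] at h4
  have h5 := h4 n (by omega)
  rw [map_sub, map_sub, sub_eq_zero] at h5
  exact h5

end Pool.Agent.Lib_helper12.NZ
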