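import Pool.Agent.Lib_helper12.NZ.Base

/-! Block EN4: the coefficients of the explicit solution. -/

set_option autoImplicit false

open Finset

namespace Pool.Agent.Lib_helper12.NZ

open PowerSeries

theorem EN4 (c g : PowerSeries ℚ) (h0 : constantCoeff c = 0) (h1 : c - 2 * c ^ 2 = X)
    (h2 : g * (1 - 2 * c) ^ 2 = 1 - 3 * c + c ^ 2) (n : ℕ) (hn : 1 ≤ n) :
    coeff n g = gT n := by
  set D : PowerSeries ℚ := 32 * X ^ 2 * g - 8 * X ^ 2 - 12 * X + 1 with hD
  have hD' : D = (1 - 4 * c) ^ 3 := by
    have h3 : (X : PowerSeries ℚ) ^ 2 * g = c ^ 2 * (1 - 3 * c + c ^ 2) := by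
      rw [← h1, ← h2]; ring
    have h4 : (X : PowerSeries ℚ) = c * (1 - 2 * c) := by rw [← h1]; ring
    calc D = 32 * (X ^ 2 * g) - 8 * X ^ 2 - 12 * X + 1 := by rw [hD]; ring
      _ = 32 * (c ^ 2 * (1 - 3 * c + c ^ 2)) - 8 * (c * (1 - 2 * c)) ^ 2
            - 12 * (c * (1 - 2 * c)) + 1 := by rw [h3, h4]
      _ = (1 - 4 * c) ^ 3 := by ring
  set δ := PowerSeries.derivative ℚ with hδ
  have hc1 : δ c * (1 - 4 * c) = 1 := by
    have h5 : δ (2 * c ^ 2) = 4 * c * δ c := by
      have : (2 * c ^ 2 : PowerSeries ℚ) = c * c + c * c := by ring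
      rw [this, map_add, Derivation.leibniz]
      simp only [smul_eq_mul]
      ring
    have h : δ c - δ (2 * c ^ 2) = 1 := by
      rw [← map_sub, h1]
      exact PowerSeries.derivative_X
    rw [h5] at h
    linear_combination h
  have h8 : (1 - 8 * X : PowerSeries ℚ) = (1 - 4 * c) ^ 2 := by rw [← h1]; ring
  have hder : (1 - 8 * X : PowerSeries ℚ) * δ D = -12 * D := by
    have hE : δ ((1 - 4 * c : PowerSeries ℚ)) = -4 * δ c := by
      have : (1 - 4 * c : PowerSeries ℚ) = 1 - (c + c + c + c) := by ring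
      rw [this, map_sub, map_add, map_add, map_add, Derivation.map_one_eq_zero]
      ring
    have h9 : δ D = 3 * (1 - 4 * c) ^ 2 * (-4 * δ c) := by
      have : ((1 - 4 * c : PowerSeries ℚ)) ^ 3 =
          (1 - 4 * c) * ((1 - 4 * c) * (1 - 4 * c)) := by ring
      rw [hD', this, Derivation.leibniz, Derivation.leibniz, hE]
      simp only [smul_eq_mul]
      ring
    rw [h8, h9, hD']
    linear_combination (-12 * (1 - 4 * c) ^ 3) * hc1
  -- the recursion for the coefficients
  have hrec : ∀ k : ℕ, ((k : ℚ) + 1) * coeff (k + 1) D = (8 * k - 12) * coeff k D := by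
    intro k
    have h := congrArg (coeff k) hder
    have e1 : coeff k ((1 - 8 * X : PowerSeries ℚ) * δ D) =
        coeff (k + 1) D * (k + 1) - 8 * (k * coeff k D) := by
      have : (1 - 8 * X : PowerSeries ℚ) * δ D = δ D - (8 : ℚ) • (X * δ D) := by
        rw [PowerSeries.smul_eq_C_mul]
        have : (PowerSeries.C (8 : ℚ) : PowerSeries ℚ) = 8 := map_ofNat PowerSeries.C 8
        rw [this]; ring
      rw [this, map_sub, hδ, PowerSeries.coeff_derivative, map_smul]
      congr 1
      cases k with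
      | zero => simp
      | succ k =>
        rw [PowerSeries.coeff_succ_X_mul, PowerSeries.coeff_derivative, smul_eq_mul]
        push_cast
        ring
    have e2 : coeff k (-12 * D) = -12 * coeff k D := by
      have : (-12 * D : PowerSeries ℚ) = (-12 : ℚ) • D := by
        rw [PowerSeries.smul_eq_C_mul]
        rw [map_neg, map_ofNat PowerSeries.C 12]
      rw [this, map_smul, smul_eq_mul]
    rw [e1, e2] at h
    linarith
  -- coefficients of D in terms of g
  have hcoef : ∀ m : ℕ, 1 ≤ m → coeff (m + 2) D = 32 * coeff m g := by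
    intro m hm
    have : D = (32 : ℚ) • (X ^ 2 * g) - (8 : ℚ) • X ^ 2 - (12 : ℚ) • X + 1 := by
      rw [hD]
      simp only [PowerSeries.smul_eq_C_mul]
      have a1 : (PowerSeries.C (32 : ℚ) : PowerSeries ℚ) = 32 := map_ofNat PowerSeries.C 32
      have a2 : (PowerSeries.C (8 : ℚ) : PowerSeries ℚ) = 8 := map_ofNat PowerSeries.C 8
      have a3 : (PowerSeries.C (12 : ℚ) : PowerSeries ℚ) = 12 := map_ofNat PowerSeries.C 12
      rw [a1, a2, a3]; ring
    rw [this, map_add, map_sub, map_sub, map_smul, map_smul, map_smul,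
      PowerSeries.coeff_X_pow_mul, PowerSeries.coeff_X_pow, PowerSeries.coeff_X,
      PowerSeries.coeff_one, if_neg (by omega), if_neg (by omega), if_neg (by omega)]
    simp
  have hD0 : coeff 0 D = 1 := by
    rw [hD', PowerSeries.coeff_zero_eq_constantCoeff, map_pow, map_sub, map_mul, h0]
    simp
  have hD1 := hrec 0
  have hD2 := hrec 1
  have hD3 := hrec 2
  have hg1 : coeff 1 g = 1 := by
    have h3 : coeff 3 D = 32 * coeff 1 g := hcoef 1 le_rfl
    rw [hD0] at hD1
    have e1 : coeff 1 D = -12 := by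
      have : ((0 : ℕ) : ℚ) = 0 := Nat.cast_zero
      rw [this] at hD1
      linarith
    have e2 : coeff 2 D = 24 := by
      have : ((1 : ℕ) : ℚ) = 1 := Nat.cast_one
      rw [this, e1] at hD2
      linarith
    have e3 : coeff 3 D = 32 := by
      have : ((2 : ℕ) : ℚ) = 2 := Nat.cast_ofNat
      rw [this, e2] at hD3
      linarith
    linarith
  induction n, hn using Nat.le_induction with
  | base =>
    rw [hg1]
    norm_num [gT]
  | succ m hm ih =>
    have h3 := hcoef m hm
    have h4 := hcoef (m + 1) (by omega)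
    have h5 := hrec (m + 2)
    rw [show m + 1 + 2 = m + 2 + 1 by omega] at h4
    rw [h4, h3, ih] at h5
    show coeff (m + 1) g = 4 * (2 * (m : ℚ) + 1) / (m + 3) * gT m
    push_cast at h5
    have h6 : ((m : ℚ) + 3) ≠ 0 := by positivity
    field_simp
    linarith

end Pool.Agent.Lib_helper12.NZ
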