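import Pool.Agent.Lib_helper12.NZ.Base

set_option autoImplicit false

open Finset
open scoped ENNReal

namespace Pool.Agent.Lib_helper12.NZ

section pot
open PowerSeries

theorem GMAP_geo {R S : Type*} [CommSemiring R] [CommSemiring S] (φ : R →+* S)
    (F : PowerSeries (PowerSeries R)) :
    PowerSeries.map (PowerSeries.map φ) (geo F) = geo (PowerSeries.map (PowerSeries.map φ) F) := by
  ext t n
  simp only [geo, PowerSeries.coeff_map, PowerSeries.coeff_mk, map_sum]
  apply Finset.sum_congr rfl
  intro k _
  rw [← map_pow, PowerSeries.coeff_map, PowerSeries.coeff_map]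

theorem GMAP_stp {R S : Type*} [CommSemiring R] [CommSemiring S] (φ : R →+* S)
    (G : PowerSeries (PowerSeries R)) :
    PowerSeries.map (PowerSeries.map φ) (stp X G) =
      stp X (PowerSeries.map (PowerSeries.map φ) G) := by
  ext1 t
  simp only [stp, PowerSeries.coeff_map, PowerSeries.coeff_mk, map_mul, map_add, map_sum,
    PowerSeries.map_X]
  congr 2
  split_ifs <;> simp

theorem GMAP {R S : Type*} [CommSemiring R] [CommSemiring S] (φ : R →+* S) (h : ℕ) :
    PowerSeries.map (PowerSeries.map φ) (Fh R h) = Fh S h ∧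
    PowerSeries.map φ (Gam0 R h) = Gam0 S h := by
  have key : PowerSeries.map (PowerSeries.map φ) (Fh R h) = Fh S h := by
    induction h with
    | zero => simp [Fh]
    | succ h ih =>
      rw [Fh, Fh, GMAP_stp, map_mul, GMAP_geo, ih]
  refine ⟨key, ?_⟩
  unfold Gam0
  rw [← PowerSeries.coeff_map, GMAP_geo, key]

end pot

end Pool.Agent.Lib_helper12.NZ
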