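import Pool.Agent.Lib_helper12.NZ.Base
import Pool.Agent.Lib_helper12.NZ.Fin.U_NZ_EN2_helper24
import Pool.Agent.Lib_helper12.NZ.Fin.U_NZ_EN3_helper89
import Pool.Agent.Lib_helper12.NZ.Fin.U_NZ_EN4_helper66
import Pool.Agent.Lib_helper12.NZ.Fin.U_NZ_GMAP_helper93

/-! # Block EN5 (uses GMAP EN2 EN3 EN4) -/

set_option autoImplicit false

open Finset PowerSeries

namespace Pool.Agent.Lib_helper12.NZ

theorem EN5 (h n : ℕ) (h1 : 1 ≤ n) (hn : n ≤ h) :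
    ((coeff n (Gam0 ℕ h) : ℕ) : ℚ) = gT n := by
  obtain ⟨c, F, Γ, hc, hcX, hF, hΓ, hst, hΓ0⟩ := EN2
  have e1 := (GMAP (Nat.castRingHom ℚ) h).2
  have e2 : ((coeff n (Gam0 ℕ h) : ℕ) : ℚ) = coeff n (Gam0 ℚ h) := by
    rw [← e1, PowerSeries.coeff_map]
    rfl
  rw [e2, EN3 F Γ hF hΓ hst h n hn]
  exact EN4 c (coeff 0 Γ) hc hcX hΓ0 n h1

end Pool.Agent.Lib_helper12.NZ
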