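import Pool.Agent.Lib_helper12.NZ.Base

/-!
# NZ: block EN7
-/

set_option autoImplicit false

open Finset
open scoped ENNReal

namespace Pool.Agent.Lib_helper12.NZ

theorem EN7_pos : ∀ n : ℕ, (0 : ℝ) < (gT n : ℝ)
  | 0 => by norm_num [gT]
  | n + 1 => by
    have := EN7_pos n
    rw [gT]
    push_cast
    positivity

theorem EN7_succ (n : ℕ) : (gT (n + 1) : ℝ) = 4 * (2 * n + 1) / (n + 3) * (gT n : ℝ) := by
  rw [gT]
  push_cast
  ring

theorem EN7_grow (mu : ℝ) (hmu0 : 0 ≤ mu) (N : ℕ) (hN : 20 ≤ (8 - mu) * N) (hmu8 : mu < 8)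
    (k : ℕ) : (gT N : ℝ) * mu ^ k ≤ (gT (N + k) : ℝ) := by
  induction k with
  | zero => simp
  | succ k ih =>
    rw [← add_assoc, EN7_succ, pow_succ, ← mul_assoc]
    have h1 : mu ≤ 4 * (2 * ((N + k : ℕ) : ℝ) + 1) / (((N + k : ℕ) : ℝ) + 3) := by
      rw [le_div_iff₀ (by positivity)]
      push_cast
      have h2 : 0 ≤ (8 - mu) * k := mul_nonneg (by linarith) (Nat.cast_nonneg k)
      nlinarith
    calc (gT N : ℝ) * mu ^ k * mu ≤ (gT (N + k) : ℝ) * mu := mul_le_mul_of_nonneg_right ih hmu0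
      _ = mu * (gT (N + k) : ℝ) := mul_comm _ _
      _ ≤ _ := mul_le_mul_of_nonneg_right h1 (EN7_pos _).le

/-- EN7: growth of Tutte numbers -/
theorem EN7 (lam : ℝ) (h : lam < 8) (h1 : 1 ≤ lam) :
    ∃ n : ℕ, 1 ≤ n ∧ lam ^ (n + 1) ≤ (gT n : ℝ) := by
  obtain ⟨mu, hmu⟩ : ∃ mu : ℝ, mu = (lam + 8) / 2 := ⟨_, rfl⟩
  have hmu8 : mu < 8 := by linarith
  have hmul : lam < mu := by linarith
  obtain ⟨N, hN⟩ := exists_nat_ge (20 / (8 - mu) + 1)
  have hN1 : (1 : ℝ) ≤ N := by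
    have : 0 ≤ 20 / (8 - mu) := by
      apply div_nonneg (by norm_num) (by linarith)
    linarith
  have hN2 : 20 ≤ (8 - mu) * N := by
    have h2 : 20 / (8 - mu) ≤ N := by linarith
    rw [div_le_iff₀ (by linarith)] at h2
    linarith
  have hr : 1 < mu / lam := by rw [lt_div_iff₀ (by linarith)]; linarith
  obtain ⟨k, hk⟩ := pow_unbounded_of_one_lt (lam ^ (N + 1) / (gT N : ℝ)) hr
  refine ⟨N + k, ?_, ?_⟩
  · have : 1 ≤ N := by exact_mod_cast hN1
    omega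
  · refine le_trans ?_ (EN7_grow mu (by linarith) N hN2 hmu8 k)
    rw [div_lt_iff₀ (EN7_pos N), div_pow] at hk
    have hl : 0 < lam ^ k := by positivity
    have h3 : lam ^ (N + 1) * lam ^ k ≤ (gT N : ℝ) * mu ^ k := by
      have h4 := mul_le_mul_of_nonneg_right hk.le hl.le
      calc lam ^ (N + 1) * lam ^ k ≤ mu ^ k / lam ^ k * (gT N : ℝ) * lam ^ k := h4
        _ = (gT N : ℝ) * mu ^ k := by field_simp
    calc lam ^ (N + k + 1) = lam ^ (N + 1) * lam ^ k := by rw [← pow_add]; congr 1; omega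
      _ ≤ _ := h3

end Pool.Agent.Lib_helper12.NZ
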