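import Pool.Agent.Lib_helper12.NZ.Base

set_option autoImplicit false

open Finset
open scoped ENNReal

namespace Pool.Agent.Lib_helper12.NZ

section pot
open PowerSeries

theorem PT1_length_kill (l : List Bool) : (kill l).length = l.length := by
  induction l with
  | nil => rfl
  | cons a l ih => cases a <;> simp [kill, ih]

theorem PT1_length_iter (s : ℕ) (l : List Bool) : (kill^[s] l).length = l.length := by
  induction s with
  | zero => rfl
  | succ s ih => rw [Function.iterate_succ_apply', PT1_length_kill, ih]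

theorem PT1_nt_kill (l : List Bool) : nt (kill l) = nt l - 1 := by
  induction l with
  | nil => rfl
  | cons a l ih =>
    cases a
    · simp only [kill]
      unfold nt at ih ⊢
      simpa using ih
    · simp only [kill]
      unfold nt
      simp

theorem PT1_nt_iter (s : ℕ) (l : List Bool) : nt (kill^[s] l) = nt l - s := by
  induction s with
  | zero => rfl
  | succ s ih => rw [Function.iterate_succ_apply', PT1_nt_kill, ih]; omega

theorem PT1_pop_iter (j s : ℕ) (l : List Bool) : pop j (kill^[s] l) = pop (j + s) l := by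
  unfold pop
  rw [Function.iterate_add_apply]

theorem PT1_length_pop (j : ℕ) (l : List Bool) : (pop j l).length = l.length - 1 := by
  unfold pop
  rw [List.length_tail, PT1_length_iter]

theorem PT1_iter_false (j : ℕ) (l : List Bool) : kill^[j] (false :: l) = false :: kill^[j] l := by
  induction j with
  | zero => rfl
  | succ j ih => rw [Function.iterate_succ_apply', Function.iterate_succ_apply', ih]; rfl

theorem PT1_pop_false (j : ℕ) (l : List Bool) : pop j (false :: l) = kill^[j] l := by
  unfold pop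
  rw [PT1_iter_false]
  rfl

theorem PT1_iter_true (j : ℕ) (l : List Bool) :
    kill^[j + 1] (true :: l) = false :: kill^[j] l := by
  rw [Function.iterate_succ_apply]
  exact PT1_iter_false j l

theorem PT1_pop_true (j : ℕ) (l : List Bool) : pop (j + 1) (true :: l) = kill^[j] l := by
  unfold pop
  rw [PT1_iter_true]
  rfl

theorem PT1_nt_false (l : List Bool) : nt (false :: l) = nt l := by
  unfold nt
  simp

theorem PT1_nt_true (l : List Bool) : nt (true :: l) = nt l + 1 := by
  unfold nt
  simp

theorem PT1_push (g : ℕ) (l : List Bool) : push (g + 1) l = push g (true :: l) := by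
  unfold push
  rw [List.replicate_succ', List.append_assoc]
  rfl

variable {R : Type*} [CommSemiring R]

/-- the potential, with the length as fuel -/
noncomputable def PT1_psi (x K : R) (Γ : ℕ → PowerSeries R) (H : ℕ) : ℕ → List Bool → R
  | 0, _ => K
  | n + 1, l => x * ∑ j ∈ range (nt l), (∑ s ∈ range (j + 1), coeff s (Γ (H - (n + 1)))) *
      PT1_psi x K Γ H n (pop j l)

/-- the potential -/
noncomputable def PT1_P (x K : R) (Γ : ℕ → PowerSeries R) (H : ℕ) (l : List Bool) : R :=
  PT1_psi x K Γ H l.length l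

/-- the closing sum -/
noncomputable def PT1_cl (x K : R) (Γ : ℕ → PowerSeries R) (H : ℕ) (l : List Bool) : R :=
  x * ∑ j ∈ range (nt l), PT1_P x K Γ H (pop j l)

theorem PT1_P_nil (x K : R) (Γ : ℕ → PowerSeries R) (H : ℕ) : PT1_P x K Γ H [] = K := rfl

theorem PT1_P_ne (x K : R) (Γ : ℕ → PowerSeries R) (H : ℕ) (l : List Bool) (hl : l ≠ []) :
    PT1_P x K Γ H l = x * ∑ j ∈ range (nt l), (∑ s ∈ range (j + 1), coeff s (Γ (H - l.length))) *
      PT1_P x K Γ H (pop j l) := by
  obtain ⟨n, hn⟩ : ∃ n, l.length = n + 1 := Nat.exists_eq_succ_of_ne_zero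
    (by simpa using hl)
  unfold PT1_P
  rw [hn, PT1_psi]
  congr 1
  apply Finset.sum_congr rfl
  intro j _
  rw [PT1_length_pop, hn, Nat.add_sub_cancel]

theorem PT1_P_zero (x K : R) (Γ : ℕ → PowerSeries R) (H : ℕ) (l : List Bool) (hl : l ≠ [])
    (h0 : nt l = 0) : PT1_P x K Γ H l = 0 := by
  rw [PT1_P_ne x K Γ H l hl, h0]
  simp

theorem PT1_cl_iter (x K : R) (Γ : ℕ → PowerSeries R) (H : ℕ) (s : ℕ) (l : List Bool) :
    PT1_cl x K Γ H (kill^[s] l) = x * ∑ j ∈ range (nt l - s), PT1_P x K Γ H (pop (j + s) l) := by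
  unfold PT1_cl
  rw [PT1_nt_iter]
  congr 1
  apply Finset.sum_congr rfl
  intro j _
  rw [PT1_pop_iter]

/-- `Ψ l` as a sum of closing sums -/
theorem PT1_P_cl (x K : R) (Γ : ℕ → PowerSeries R) (H : ℕ) (l : List Bool) (hl : l ≠ []) :
    PT1_P x K Γ H l = ∑ s ∈ range (nt l), coeff s (Γ (H - l.length)) *
      PT1_cl x K Γ H (kill^[s] l) := by
  rw [PT1_P_ne x K Γ H l hl]
  have h1 := Finset.sum_range_diag_flip (nt l) (fun s j => coeff s (Γ (H - l.length)) *
    (x * PT1_P x K Γ H (pop (j + s) l)))
  have h2 : ∑ s ∈ range (nt l), coeff s (Γ (H - l.length)) * PT1_cl x K Γ H (kill^[s] l) =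
      ∑ m ∈ range (nt l), ∑ k ∈ range (nt l - m), coeff m (Γ (H - l.length)) *
        (x * PT1_P x K Γ H (pop (k + m) l)) := by
    apply Finset.sum_congr rfl
    intro s _
    rw [PT1_cl_iter, ← Finset.mul_sum, ← Finset.mul_sum]
  rw [h2, ← h1, Finset.mul_sum]
  apply Finset.sum_congr rfl
  intro m _
  rw [Finset.sum_mul, Finset.mul_sum]
  apply Finset.sum_congr rfl
  intro k hk
  have hkm : m - k + k = m := Nat.sub_add_cancel (by rw [Finset.mem_range] at hk; omega)
  rw [hkm]
  ring

theorem PT1_ne_iter (t : ℕ) (l : List Bool) (hl : l ≠ []) : kill^[t] l ≠ [] := by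
  intro h
  apply hl
  have := PT1_length_iter t l
  rw [h] at this
  exact List.length_eq_zero_iff.1 this.symm

/-- part (a) -/
theorem PT1_a (x K : R) (Γ : ℕ → PowerSeries R) (H : ℕ) (F : PowerSeries R) (l : List Bool)
    (hl : l ≠ []) :
    ∑ t ∈ range (nt l), coeff t F * PT1_P x K Γ H (kill^[t] l) =
      ∑ r ∈ range (nt l), coeff r (F * Γ (H - l.length)) * PT1_cl x K Γ H (kill^[r] l) := by
  have h1 := Finset.sum_range_diag_flip (nt l) (fun t s => coeff t F *
    (coeff s (Γ (H - l.length)) * PT1_cl x K Γ H (kill^[s + t] l)))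
  have h2 : ∑ t ∈ range (nt l), coeff t F * PT1_P x K Γ H (kill^[t] l) =
      ∑ m ∈ range (nt l), ∑ k ∈ range (nt l - m), coeff m F *
        (coeff k (Γ (H - l.length)) * PT1_cl x K Γ H (kill^[k + m] l)) := by
    apply Finset.sum_congr rfl
    intro t _
    rw [PT1_P_cl x K Γ H _ (PT1_ne_iter t l hl), PT1_nt_iter, PT1_length_iter, Finset.mul_sum]
    apply Finset.sum_congr rfl
    intro s _
    rw [← Function.iterate_add_apply]
  rw [h2, ← h1]
  apply Finset.sum_congr rfl
  intro m _
  rw [PowerSeries.coeff_mul, Finset.Nat.sum_antidiagonal_eq_sum_range_succ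
    (fun i j => coeff i F * coeff j (Γ (H - l.length))), Finset.sum_mul]
  apply Finset.sum_congr rfl
  intro k hk
  have hkm : m - k + k = m := Nat.sub_add_cancel (by rw [Finset.mem_range] at hk; omega)
  rw [hkm]
  ring

/-- the algebraic step of part (b) -/
theorem PT1_step (x K : R) (Γ : ℕ → PowerSeries R) (H : ℕ) (G : PowerSeries R) (l : List Bool)
    (hl : l ≠ []) :
    x * PT1_P x K Γ H l +
      ∑ r ∈ range (nt (true :: l)), coeff r G * PT1_cl x K Γ H (kill^[r] (true :: l)) =
      ∑ t ∈ range (nt l), coeff t (stp x G) * PT1_P x K Γ H (kill^[t] l) := by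
  have h1 : PT1_cl x K Γ H (true :: l) = x * PT1_P x K Γ H l +
      x * ∑ j ∈ range (nt l), PT1_P x K Γ H (kill^[j] l) := by
    unfold PT1_cl
    rw [PT1_nt_true, Finset.sum_range_succ', mul_add, add_comm]
    congr 1
    congr 1
    apply Finset.sum_congr rfl
    intro j _
    rw [PT1_pop_true]
  have h2 : ∀ r, PT1_cl x K Γ H (kill^[r + 1] (true :: l)) =
      x * ∑ j ∈ range (nt l - r), PT1_P x K Γ H (kill^[j + r] l) := by
    intro r
    rw [PT1_iter_true]
    unfold PT1_cl
    rw [PT1_nt_false, PT1_nt_iter]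
    congr 1
    apply Finset.sum_congr rfl
    intro j _
    rw [PT1_pop_false, ← Function.iterate_add_apply]
  have h3 : ∑ r ∈ range (nt l), coeff (r + 1) G * PT1_cl x K Γ H (kill^[r + 1] (true :: l)) =
      ∑ t ∈ range (nt l), (∑ r ∈ range (t + 1), coeff (r + 1) G) *
        (x * PT1_P x K Γ H (kill^[t] l)) := by
    have h4 := Finset.sum_range_diag_flip (nt l) (fun r j => coeff (r + 1) G *
      (x * PT1_P x K Γ H (kill^[j + r] l)))
    have h5 : ∑ r ∈ range (nt l), coeff (r + 1) G * PT1_cl x K Γ H (kill^[r + 1] (true :: l)) =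
        ∑ m ∈ range (nt l), ∑ k ∈ range (nt l - m), coeff (m + 1) G *
          (x * PT1_P x K Γ H (kill^[k + m] l)) := by
      apply Finset.sum_congr rfl
      intro r _
      rw [h2, ← Finset.mul_sum, ← Finset.mul_sum]
    rw [h5, ← h4]
    apply Finset.sum_congr rfl
    intro m _
    rw [Finset.sum_mul]
    apply Finset.sum_congr rfl
    intro k hk
    have hkm : m - k + k = m := Nat.sub_add_cancel (by rw [Finset.mem_range] at hk; omega)
    rw [hkm]
  rw [PT1_nt_true, Finset.sum_range_succ', h3]
  simp only [Function.iterate_zero, id_eq]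
  rw [h1]
  have h6 : ∀ t, coeff t (stp x G) = x * (if t = 0 then 1 + coeff 0 G else 0) +
      x * (coeff 0 G + ∑ r ∈ range (t + 1), coeff (r + 1) G) := by
    intro t
    unfold stp
    rw [PowerSeries.coeff_mk, Finset.sum_range_succ' _ (t + 1), ← mul_add]
    congr 1
    rw [add_comm (∑ k ∈ range (t + 1), coeff (k + 1) G) (coeff 0 G)]
  have h7 : ∑ t ∈ range (nt l), coeff t (stp x G) * PT1_P x K Γ H (kill^[t] l) =
      (∑ t ∈ range (nt l), x * (if t = 0 then 1 + coeff 0 G else 0) *
        PT1_P x K Γ H (kill^[t] l)) +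
      ((∑ t ∈ range (nt l), coeff 0 G * (x * PT1_P x K Γ H (kill^[t] l))) +
      ∑ t ∈ range (nt l), (∑ r ∈ range (t + 1), coeff (r + 1) G) *
        (x * PT1_P x K Γ H (kill^[t] l))) := by
    rw [← Finset.sum_add_distrib, ← Finset.sum_add_distrib]
    apply Finset.sum_congr rfl
    intro t _
    rw [h6]
    ring
  have h8 : ∑ t ∈ range (nt l), x * (if t = 0 then 1 + coeff 0 G else 0) *
      PT1_P x K Γ H (kill^[t] l) = x * (1 + coeff 0 G) * PT1_P x K Γ H l := by
    rcases Nat.eq_zero_or_pos (nt l) with h9 | h9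
    · rw [h9, PT1_P_zero x K Γ H l hl h9]
      simp
    · rw [Finset.sum_eq_single 0]
      · simp
      · intro t _ ht
        rw [if_neg ht]
        ring
      · intro h10
        exact absurd (Finset.mem_range.2 h9) h10
  rw [h7, h8, ← Finset.mul_sum, ← Finset.mul_sum]
  ring

/-- PT1: the potential identity -/
theorem PT1 {R : Type*} [CommSemiring R] (x : R) (F G Γ : ℕ → PowerSeries R)
    (hΓ : ∀ h, Γ h = 1 + F h * Γ h) (hG : ∀ h, G h = F h * Γ h) (h0 : F 0 = 0)
    (hF : ∀ h, F (h + 1) = stp x (G h)) (H : ℕ) (hH : 1 ≤ H) (K : R)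
    (hK : K = 1 + x * coeff 0 (Γ (H - 1)) * K) :
    ∃ Ψ : List Bool → R, Ψ [] = K ∧ ∀ l : List Bool, l.length < H →
      Ψ l = (if l = [] then 1 else 0) + x * ((∑ g ∈ range (H - l.length), Ψ (push g l)) +
        ∑ j ∈ range (nt l), Ψ (pop j l)) := by
  have hb : ∀ (d : ℕ) (l : List Bool), l ≠ [] → H = l.length + d + 1 →
      x * ∑ g ∈ range (d + 1), PT1_P x K Γ H (push g l) =
        ∑ t ∈ range (nt l), coeff t (F (d + 1)) * PT1_P x K Γ H (kill^[t] l) := by
    intro d
    induction d with
    | zero =>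
      intro l hl hHl
      have hG0 : G 0 = 0 := by rw [hG, h0, zero_mul]
      have h1 : ∀ t, coeff t (F (0 + 1)) = if t = 0 then x else 0 := by
        intro t
        rw [hF, hG0]
        unfold stp
        rw [PowerSeries.coeff_mk]
        by_cases ht : t = 0
        · simp [ht]
        · simp [ht]
      rcases Nat.eq_zero_or_pos (nt l) with h9 | h9
      · rw [h9]
        simp only [zero_add, Finset.range_one, Finset.sum_singleton, Finset.range_zero,
          Finset.sum_empty]
        have : push 0 l = l := rfl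
        rw [this, PT1_P_zero x K Γ H l hl h9, mul_zero]
      · rw [Finset.sum_eq_single (s := range (nt l)) 0]
        · rw [h1, if_pos rfl]
          simp only [zero_add, Finset.range_one, Finset.sum_singleton]
          rfl
        · intro t _ ht
          rw [h1, if_neg ht, zero_mul]
        · intro h10
          exact absurd (Finset.mem_range.2 h9) h10
    | succ d ih =>
      intro l hl hHl
      have hHl' : H = (true :: l).length + d + 1 := by
        rw [List.length_cons]; omega
      have h1 := ih (true :: l) (by simp) hHl'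
      have h2 : H - (true :: l).length = d + 1 := by omega
      rw [PT1_a x K Γ H _ _ (by simp), h2, ← hG] at h1
      rw [Finset.sum_range_succ', mul_add, add_comm]
      have h3 : ∑ g ∈ range (d + 1), PT1_P x K Γ H (push (g + 1) l) =
          ∑ g ∈ range (d + 1), PT1_P x K Γ H (push g (true :: l)) := by
        apply Finset.sum_congr rfl
        intro g _
        rw [PT1_push]
      rw [h3, h1, hF (d + 1)]
      exact PT1_step x K Γ H (G (d + 1)) l hl
  refine ⟨PT1_P x K Γ H, PT1_P_nil x K Γ H, ?_⟩
  intro l hlH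
  by_cases hl : l = []
  · subst hl
    rw [if_pos rfl]
    have h1 : nt [] = 0 := rfl
    rw [h1, Finset.range_zero, Finset.sum_empty, add_zero, PT1_P_nil, List.length_nil, Nat.sub_zero]
    obtain ⟨d, rfl⟩ : ∃ d, H = d + 1 := ⟨H - 1, by omega⟩
    rw [Nat.add_sub_cancel] at hK
    rcases Nat.eq_zero_or_pos d with rfl | hd
    · have h2 : coeff 0 (Γ 0) = 1 := by
        rw [hΓ, h0, zero_mul, add_zero]
        simp
      rw [h2, mul_one] at hK
      simp only [zero_add, Finset.range_one, Finset.sum_singleton]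
      have h3 : push 0 [] = [] := rfl
      rw [h3, PT1_P_nil]
      exact hK
    · obtain ⟨e, rfl⟩ : ∃ e, d = e + 1 := ⟨d - 1, by omega⟩
      have h2 := hb e [true] (by simp) (by simp; omega)
      rw [PT1_a x K Γ _ _ _ (by simp)] at h2
      have h3 : e + 1 + 1 - [true].length = e + 1 := by simp
      rw [h3, ← hG] at h2
      have h4 : nt [true] = 1 := rfl
      rw [h4, Finset.range_one, Finset.sum_singleton] at h2
      simp only [Function.iterate_zero, id_eq] at h2
      have h5 : PT1_cl x K Γ (e + 1 + 1) [true] = x * K := by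
        unfold PT1_cl
        rw [h4, Finset.range_one, Finset.sum_singleton]
        rfl
      rw [h5] at h2
      rw [Finset.sum_range_succ']
      have h6 : ∑ g ∈ range (e + 1), PT1_P x K Γ (e + 1 + 1) (push (g + 1) []) =
          ∑ g ∈ range (e + 1), PT1_P x K Γ (e + 1 + 1) (push g [true]) := by
        apply Finset.sum_congr rfl
        intro g _
        rw [PT1_push]
      have h7 : push 0 [] = [] := rfl
      rw [h6, mul_add, h2, h7, PT1_P_nil]
      have h8 : coeff 0 (Γ (e + 1)) = 1 + coeff 0 (G (e + 1)) := by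
        rw [hG]
        conv_lhs => rw [hΓ]
        simp
      rw [h8] at hK
      have h9 : 1 + x * (1 + coeff 0 (G (e + 1))) * K =
          1 + (coeff 0 (G (e + 1)) * (x * K) + x * K) := by ring
      exact hK.trans h9
  · rw [if_neg hl, zero_add]
    obtain ⟨d, hd⟩ : ∃ d, H = l.length + d + 1 := ⟨H - l.length - 1, by omega⟩
    have h1 : H - l.length = d + 1 := by omega
    rw [h1, mul_add, hb d l hl hd]
    rw [PT1_P_cl x K Γ H l hl, h1, PT1_a x K Γ H _ _ hl, h1]
    have h2 : ∀ r, coeff r (Γ (d + 1)) = (if r = 0 then 1 else 0) +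
        coeff r (F (d + 1) * Γ (d + 1)) := by
      intro r
      conv_lhs => rw [hΓ]
      rw [map_add, PowerSeries.coeff_one]
    have h3 : ∑ s ∈ range (nt l), coeff s (Γ (d + 1)) * PT1_cl x K Γ H (kill^[s] l) =
        (∑ s ∈ range (nt l), (if s = 0 then 1 else 0) * PT1_cl x K Γ H (kill^[s] l)) +
        ∑ s ∈ range (nt l), coeff s (F (d + 1) * Γ (d + 1)) * PT1_cl x K Γ H (kill^[s] l) := by
      rw [← Finset.sum_add_distrib]
      apply Finset.sum_congr rfl
      intro s _
      rw [h2, add_mul]
    rw [h3, add_comm]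
    congr 1
    change _ = PT1_cl x K Γ H l
    rcases Nat.eq_zero_or_pos (nt l) with h9 | h9
    · unfold PT1_cl
      rw [h9]
      simp
    · rw [Finset.sum_eq_single 0]
      · simp
      · intro t _ ht
        rw [if_neg ht, zero_mul]
      · intro h10
        exact absurd (Finset.mem_range.2 h9) h10

end pot

end Pool.Agent.Lib_helper12.NZ
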