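import Pool.Agent.Lib_helper12.NZ.Base
import Pool.Agent.Lib_helper12.NZ.Fin.U_NZ_GEO_helper41
import Pool.Agent.Lib_helper12.NZ.Fin.U_NZ_GEOH_helper93
import Pool.Agent.Lib_helper12.NZ.Fin.U_NZ_PT1_helper37

/-! Block PT2: generating function of closed walks (cites GEO, GEOH, PT1). -/

set_option autoImplicit false

open Finset

namespace Pool.Agent.Lib_helper12.NZ

open PowerSeries

theorem PT2_kill_length (l : List Bool) : (kill l).length = l.length := by
  induction l with
  | nil => rfl
  | cons a l ih =>
    cases a with
    | true => rfl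
    | false => simp only [kill, List.length_cons, ih]

theorem PT2_kill_iter (j : ℕ) (l : List Bool) : (kill^[j] l).length = l.length := by
  induction j with
  | zero => rfl
  | succ j ih => rw [Function.iterate_succ_apply', PT2_kill_length, ih]

theorem PT2_pop_length (j : ℕ) (l : List Bool) : (pop j l).length = l.length - 1 := by
  unfold pop
  rw [List.length_tail, PT2_kill_iter]

theorem PT2_push_length (g : ℕ) (l : List Bool) : (push g l).length = g + l.length := by
  unfold push
  rw [List.length_append, List.length_replicate]

/-- PT2: generating function of closed walks -/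
theorem PT2 (H : ℕ) (hH : 1 ≤ H) :
    (PowerSeries.mk fun m => wk H m [] : PowerSeries ℕ) =
      1 + X * Gam0 ℕ (H - 1) * (PowerSeries.mk fun m => wk H m []) := by
  set a : PowerSeries ℕ := X * Gam0 ℕ (H - 1) with ha
  have hgeo := GEO (R := ℕ) (PowerSeries.C a) (by
    intro t
    rw [PowerSeries.coeff_C]
    split_ifs with h
    · rw [ha]; simp
    · simp)
  set K : PowerSeries ℕ := coeff 0 (geo (PowerSeries.C a)) with hK
  have hKeq : K = 1 + a * K := by
    have h := congrArg (coeff 0) hgeo
    rw [map_add, PowerSeries.coeff_C_mul, PowerSeries.coeff_one, if_pos rfl] at h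
    exact h
  obtain ⟨Ψ, h0, h1⟩ := PT1 (R := PowerSeries ℕ) X (Fh ℕ) (fun h => Fh ℕ h * geo (Fh ℕ h))
    (fun h => geo (Fh ℕ h)) (fun h => GEO (Fh ℕ h) (fun t => GEOH ℕ h t)) (fun h => rfl) rfl
    (fun h => rfl) H hH K hKeq
  have key : ∀ m : ℕ, ∀ l : List Bool, l.length < H → wk H m l = coeff m (Ψ l) := by
    intro m
    induction m with
    | zero =>
      intro l hl
      rw [h1 l hl]
      simp only [wk]
      split_ifs <;> simp
    | succ m ih =>
      intro l hl
      rw [h1 l hl, map_add, PowerSeries.coeff_succ_X_mul, map_add, map_sum, map_sum]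
      have e0 : coeff (m + 1) (if l = [] then (1 : PowerSeries ℕ) else 0) = 0 := by
        split_ifs
        · rw [PowerSeries.coeff_one, if_neg (by omega)]
        · simp
      rw [e0, zero_add]
      simp only [wk]
      congr 1
      · refine sum_congr rfl fun g hg => ih _ ?_
        rw [mem_range] at hg
        rw [PT2_push_length]
        omega
      · refine sum_congr rfl fun j _ => ih _ ?_
        rw [PT2_pop_length]
        omega
  have hW : (PowerSeries.mk fun m => wk H m [] : PowerSeries ℕ) = K := by
    ext m
    rw [coeff_mk, key m [] (by rw [List.length_nil]; omega), h0]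
  rw [hW]
  exact hKeq

end Pool.Agent.Lib_helper12.NZ
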