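import Pool.Agent.Lib_helper12.NZ.Base
import Pool.Agent.Lib_helper12.NZ.Fin.U_NZ_EN5_helper89
import Pool.Agent.Lib_helper12.NZ.Fin.U_NZ_EN7_helper22
import Pool.Agent.Lib_helper12.NZ.Fin.U_NZ_PT2_helper66

set_option autoImplicit false

open Finset
open scoped ENNReal

namespace Pool.Agent.Lib_helper12.NZ

open PowerSeries in
theorem L6 (lam : ℝ) (h : lam < 8) (h1 : 1 ≤ lam) :
    ∃ K m : ℕ, 1 ≤ K ∧ 1 ≤ m ∧ lam ^ m ≤ (wk K m [] : ℝ) := by
  obtain ⟨n, hn, hlam⟩ := EN7 lam h h1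
  refine ⟨n + 1, n + 1, by omega, by omega, ?_⟩
  have hP := PT2 (n + 1) (by omega)
  rw [Nat.add_sub_cancel] at hP
  have hc := congrArg (coeff (n + 1)) hP
  rw [coeff_mk, map_add, mul_assoc, coeff_succ_X_mul, coeff_mul] at hc
  have hle : coeff n (Gam0 ℕ n) ≤ wk (n + 1) (n + 1) [] := by
    rw [hc]
    have h0 : coeff n (Gam0 ℕ n) = coeff n (Gam0 ℕ n) *
        coeff 0 (PowerSeries.mk fun m => wk (n + 1) m [] : PowerSeries ℕ) := by
      rw [coeff_mk]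
      simp [wk]
    calc coeff n (Gam0 ℕ n) = _ := h0
      _ ≤ ∑ p ∈ antidiagonal n, coeff p.1 (Gam0 ℕ n) *
          coeff p.2 (PowerSeries.mk fun m => wk (n + 1) m [] : PowerSeries ℕ) :=
        Finset.single_le_sum (f := fun p : ℕ × ℕ => coeff p.1 (Gam0 ℕ n) *
          coeff p.2 (PowerSeries.mk fun m => wk (n + 1) m [] : PowerSeries ℕ))
          (fun _ _ => Nat.zero_le _) (a := ((n, 0) : ℕ × ℕ)) (by simp)
      _ ≤ _ := Nat.le_add_left _ _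
  have hT := EN5 n n hn le_rfl
  have hT' : ((coeff n (Gam0 ℕ n) : ℕ) : ℝ) = (gT n : ℝ) := by
    rw [← hT]; push_cast; rfl
  calc lam ^ (n + 1) ≤ (gT n : ℝ) := hlam
    _ = ((coeff n (Gam0 ℕ n) : ℕ) : ℝ) := hT'.symm
    _ ≤ _ := by exact_mod_cast hle

end Pool.Agent.Lib_helper12.NZ
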