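import Pool.Agent.Lib_helper12.NZ.Base
import Pool.Agent.Lib_helper12.NZ.Fin.U_CG
import Pool.Agent.Lib_helper12.NZ.Fin.U_NZ_L1_helper75
import Pool.Agent.Lib_helper12.NZ.Fin.U_NZ_L2_helper93
import Pool.Agent.Lib_helper12.NZ.Fin.U_NZ_L4_helper75
import Pool.Agent.Lib_helper12.NZ.Fin.U_NZ_L6_helper93

set_option autoImplicit false
open Finset

namespace Pool.Agent.Lib_helper12.NZ

/-- L5 -/
theorem L5 (K m : ℕ) (lam ρ : ℝ) (hK : 1 ≤ K) (hm : 1 ≤ m) (hlam : 1 ≤ lam)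
    (h : lam ^ m ≤ (wk K m [] : ℝ)) (h2 : lam + 1 < ρ) (h3 : ρ < (1 + √lam) ^ 2) :
    ∃ (c : ℝ) (n0 : ℕ), 0 < c ∧ ∀ n, n0 ≤ n → c * ρ ^ n ≤ (cmp n 0 [] : ℝ) := by
  obtain ⟨φ, L, hφ, hφ0, hφ1, hφL, hφs⟩ := L1 lam ρ hlam h2 h3
  obtain ⟨h4, h5⟩ := L2 K m lam hm hlam h
  have hρ : 0 < ρ := by linarith
  obtain ⟨c, hc, h6⟩ := L4 K m L lam ρ hm hlam hρ φ hφ hφ0 hφL hφs
    (fun l => ∑ i ∈ range m, (wk K i l : ℝ) / lam ^ i) (fun l => rfl) h5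
  refine ⟨c * φ 1 / ρ ^ (K + m + L + 2), K + m + L + 2, by positivity, ?_⟩
  intro n hn
  obtain ⟨j, rfl⟩ := Nat.exists_eq_add_of_le hn
  have h7 := h6 j 1 [] (by simp only [List.length_nil]; omega)
  have h8 : (cmp (K + m + L + 1 + j) (K + m + 1) [] : ℝ) ≤ (cmp (K + m + L + 2 + j) 0 [] : ℝ) := by
    have e : K + m + L + 2 + j = (K + m + L + 1 + j) + 1 := by ring
    rw [e]
    norm_cast
    conv_rhs => unfold cmp
    refine le_trans ?_ (Nat.le_add_right _ _)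
    have hL : 1 ≤ L := by
      by_contra hc'
      have := hφL 1 (by omega)
      linarith
    have h0 : (K + m + 1 : ℕ) ∈ Icc 0 (K + m + L + 1 + j) := by
      rw [mem_Icc]; omega
    exact Finset.single_le_sum (f := fun Y' => cmp (K + m + L + 1 + j) Y' [])
      (fun i _ => Nat.zero_le _) h0
  refine le_trans ?_ (le_trans h7 h8)
  have e1 : c * φ 1 / ρ ^ (K + m + L + 2) * ρ ^ (K + m + L + 2 + j) = c * ρ ^ j * φ 1 := by
    rw [pow_add ρ (K + m + L + 2) j]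
    field_simp
  rw [e1]
  have : 0 ≤ c * ρ ^ j * φ 1 := by positivity
  nlinarith

/-- L7 -/
theorem L7 (ρ : ℝ) (h0 : 0 < ρ) (h : ρ < muR) :
    ¬ ∃ C : ℝ, ∀ n : ℕ, (av n : ℝ) ≤ C * ρ ^ n := by
  rintro ⟨C, hC⟩
  -- choose lam
  have hcont : Filter.Tendsto (fun lam : ℝ => (1 + √lam) ^ 2) (nhdsWithin 8 (Set.Iio 8))
      (nhds ((1 + √8) ^ 2)) := by
    apply Filter.Tendsto.mono_left _ nhdsWithin_le_nhds
    exact Continuous.tendsto (by fun_prop) 8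
  have h8 : (9 : ℝ) < (1 + √8) ^ 2 := by
    have h1 : (0 : ℝ) < √8 := by positivity
    have h2 : √8 ^ 2 = (8 : ℝ) := Real.sq_sqrt (by norm_num)
    nlinarith
  have hev1 : ∀ᶠ lam : ℝ in nhdsWithin 8 (Set.Iio 8), max ρ 9 < (1 + √lam) ^ 2 :=
    hcont.eventually_const_lt (by
      rw [max_lt_iff]; exact ⟨by unfold muR at h; exact h, h8⟩)
  have hev2 : ∀ᶠ lam : ℝ in nhdsWithin 8 (Set.Iio 8), lam < 8 := by
    filter_upwards [self_mem_nhdsWithin] with x hx using hx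
  have hev3 : ∀ᶠ lam : ℝ in nhdsWithin 8 (Set.Iio 8), 1 ≤ lam := by
    apply nhdsWithin_le_nhds
    filter_upwards [Ioi_mem_nhds (show (1 : ℝ) < 8 by norm_num)] with x hx using le_of_lt hx
  obtain ⟨lam, hl1, hl2, hl3⟩ := (hev1.and (hev2.and hev3)).exists
  obtain ⟨ρ', hρ1, hρ2⟩ := exists_between hl1
  have hρ1' := max_lt_iff.1 hρ1
  obtain ⟨K, m, hK, hm, hwk⟩ := L6 lam hl2 hl3
  obtain ⟨c, n0, hc, hn⟩ := L5 K m lam ρ' hK hm hl3 hwk (by linarith [hρ1'.2]) hρ2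
  -- compare
  have hratio : 1 < ρ' / ρ := by rw [one_lt_div h0]; exact hρ1'.1
  have ht := tendsto_pow_atTop_atTop_of_one_lt hratio
  obtain ⟨n, hn1, hn2⟩ := ((ht.eventually_gt_atTop (C / c)).and
    (Filter.eventually_ge_atTop n0)).exists
  have h5 := hn n hn2
  rw [← CG] at h5
  have h6 := hC n
  have h7 : C < c * (ρ' / ρ) ^ n := by
    rw [div_lt_iff₀ hc] at hn1; linarith
  have h9 : C * ρ ^ n < c * ρ' ^ n := by
    have : c * ρ' ^ n = c * (ρ' / ρ) ^ n * ρ ^ n := by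
      rw [div_pow]; field_simp
    rw [this]
    exact mul_lt_mul_of_pos_right h7 (by positivity)
  linarith

end Pool.Agent.Lib_helper12.NZ
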