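import Pool.Agent.Lib_helper12.NZ.Base

set_option autoImplicit false

open Finset
open scoped ENNReal

namespace Pool.Agent.Lib_helper12.NZ

open PowerSeries

theorem EV2_van {R : Type*} [CommSemiring R] (F : PowerSeries (PowerSeries R))
    (hF : ∀ t, constantCoeff (coeff t F) = 0) (k : ℕ) :
    ∀ t n, n < k → coeff n (coeff t (F ^ k)) = 0 := by
  induction k with
  | zero => intro t n h; omega
  | succ k ih =>
    intro t n hn
    rw [pow_succ, PowerSeries.coeff_mul, map_sum]
    apply Finset.sum_eq_zero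
    rintro ⟨a, b⟩ _
    rw [PowerSeries.coeff_mul]
    apply Finset.sum_eq_zero
    rintro ⟨i, j⟩ hij
    have hij' : i + j = n := by simpa using hij
    simp only
    rcases Nat.eq_zero_or_pos j with hj | hj
    · have h2 : coeff 0 (coeff b F) = 0 := by
        have := hF b
        rwa [← PowerSeries.coeff_zero_eq_constantCoeff_apply] at this
      rw [hj, h2, mul_zero]
    · rw [ih a i (by omega), zero_mul]

/-- EV2 -/
theorem EV2 (x y : ℝ≥0∞) (F : PowerSeries (PowerSeries ℕ))
    (hF : ∀ t, constantCoeff (coeff t F) = 0) :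
    ev2 x y (geo F) = (1 - ev2 x y F)⁻¹ := by
  have hpow : ∀ k, (ev2 x y F) ^ k =
      ∑' t, (∑' n, ((coeff n (coeff t (F ^ k)) : ℕ) : ℝ≥0∞) * x ^ n) * y ^ t := by
    intro k
    rw [← map_pow]
    rfl
  rw [← ENNReal.tsum_geometric]
  simp_rw [hpow]
  rw [ENNReal.tsum_comm]
  have hBe : ev2 x y (geo F) =
      ∑' t, (∑' n, ((coeff n (coeff t (geo F)) : ℕ) : ℝ≥0∞) * x ^ n) * y ^ t := rfl
  rw [hBe]
  congr 1
  ext t
  rw [ENNReal.tsum_mul_right]
  congr 1
  rw [ENNReal.tsum_comm]
  congr 1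
  ext n
  rw [ENNReal.tsum_mul_right]
  congr 1
  rw [tsum_eq_sum (s := range (n + 1))]
  · rw [geo, PowerSeries.coeff_mk, PowerSeries.coeff_mk]
    push_cast
    rfl
  · intro k hk
    rw [EV2_van F hF k t n (by simpa using hk)]
    simp

end Pool.Agent.Lib_helper12.NZ
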