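import Pool.Agent.Lib_helper12.NZ.Base
import Pool.Agent.Lib_helper12.NZ.Fin.U_NZ_EV2_helper80
import Pool.Agent.Lib_helper12.NZ.Fin.U_NZ_GEO_helper41
import Pool.Agent.Lib_helper12.NZ.Fin.U_NZ_GEOH_helper93

set_option autoImplicit false

open Finset
open scoped ENNReal

namespace Pool.Agent.Lib_helper12.NZ

open PowerSeries

/-- `1 + G_h(x, y) = 1 / (1 - F_h(x, y))` -/
theorem EV4_G (h : ℕ) (x y : ℝ≥0∞) : 1 + ev2 x y (Gh ℕ h) = (1 - ev2 x y (Fh ℕ h))⁻¹ := by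
  have h1 : ∀ t, constantCoeff (coeff t (Fh ℕ h)) = 0 := GEOH ℕ h
  rw [← EV2 x y (Fh ℕ h) h1, GEO (Fh ℕ h) h1, map_add, map_one]
  rfl

/-- EV4 -/
theorem EV4 (h : ℕ) (x : ℝ≥0∞) : gh h x + 1 ≤ (1 - yh h x)⁻¹ := by
  rw [yh, ← EV4_G h x (1 / 3), add_comm]
  gcongr
  have h2 : ev2 x (1 / 3) (Gh ℕ h) = ∑' t, ev x (coeff t (Gh ℕ h)) * (1 / 3) ^ t := rfl
  rw [h2, gh]
  calc ev x (coeff 0 (Gh ℕ h)) = ev x (coeff 0 (Gh ℕ h)) * (1 / 3) ^ 0 := by simp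
    _ ≤ _ := ENNReal.le_tsum (f := fun t => ev x (coeff t (Gh ℕ h)) * (1 / 3) ^ t) 0

end Pool.Agent.Lib_helper12.NZ
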