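import Pool.Agent.Lib_helper12.NZ.Base

set_option autoImplicit false

open Finset
open scoped ENNReal

namespace Pool.Agent.Lib_helper12.NZ

open PowerSeries

theorem EV1_coeff (A B : PowerSeries ℕ) (hA : constantCoeff A = 0) (hB : B = 1 + A * B) (n : ℕ) :
    coeff n B = ∑ k ∈ range (n + 1), coeff n (A ^ k) := by
  have hit : ∀ m : ℕ, B = (∑ k ∈ range m, A ^ k) + A ^ m * B := by
    intro m
    induction m with
    | zero => simp
    | succ m ih =>
      rw [Finset.sum_range_succ]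
      calc B = (∑ k ∈ range m, A ^ k) + A ^ m * B := ih
        _ = (∑ k ∈ range m, A ^ k) + A ^ m * (1 + A * B) := by rw [← hB]
        _ = _ := by ring
  have hdvd : (X : PowerSeries ℕ) ^ (n + 1) ∣ A ^ (n + 1) :=
    pow_dvd_pow_of_dvd (PowerSeries.X_dvd_iff.mpr hA) _
  have hz : coeff n (A ^ (n + 1) * B) = 0 := by
    have h2 : (X : PowerSeries ℕ) ^ (n + 1) ∣ A ^ (n + 1) * B := Dvd.dvd.mul_right hdvd B
    exact (PowerSeries.X_pow_dvd_iff.mp h2) n (by omega)
  have h3 := congrArg (coeff n) (hit (n + 1))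
  rw [map_add, map_sum, hz, add_zero] at h3
  exact h3

/-- EV1 -/
theorem EV1 (x : ℝ≥0∞) (A B : PowerSeries ℕ) (hA : constantCoeff A = 0) (hB : B = 1 + A * B) :
    ev x B = (1 - ev x A)⁻¹ := by
  have hvan : ∀ n k : ℕ, n < k → coeff n (A ^ k) = 0 := by
    intro n k hnk
    have hdvd : (X : PowerSeries ℕ) ^ k ∣ A ^ k :=
      pow_dvd_pow_of_dvd (PowerSeries.X_dvd_iff.mpr hA) _
    exact (PowerSeries.X_pow_dvd_iff.mp hdvd) n hnk
  have hpow : ∀ k, (ev x A) ^ k = ∑' n, ((coeff n (A ^ k) : ℕ) : ℝ≥0∞) * x ^ n := by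
    intro k
    rw [← map_pow]
    rfl
  rw [← ENNReal.tsum_geometric]
  simp_rw [hpow]
  rw [ENNReal.tsum_comm]
  have hBe : ev x B = ∑' n, ((coeff n B : ℕ) : ℝ≥0∞) * x ^ n := rfl
  rw [hBe]
  congr 1
  ext n
  rw [ENNReal.tsum_mul_right, EV1_coeff A B hA hB n]
  congr 1
  rw [tsum_eq_sum (s := range (n + 1))]
  · push_cast
    rfl
  · intro k hk
    rw [hvan n k (by simpa using hk)]
    simp

end Pool.Agent.Lib_helper12.NZ
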