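import Pool.Agent.Lib_helper12.NZ.Base
import Pool.Agent.Lib_helper12.NZ.Fin.U_NZ_EV1_helper80
import Pool.Agent.Lib_helper12.NZ.Fin.U_NZ_GEO_helper41
import Pool.Agent.Lib_helper12.NZ.Fin.U_NZ_GEOH_helper93
import Pool.Agent.Lib_helper12.NZ.Fin.U_NZ_PT2_helper66

set_option autoImplicit false

open Finset
open scoped ENNReal

namespace Pool.Agent.Lib_helper12.NZ

open PowerSeries

/-- EV5 -/
theorem EV5 (H : ℕ) (hH : 1 ≤ H) (x : ℝ≥0∞) :
    Kw H x [] = (1 - x * (1 + gh (H - 1) x))⁻¹ := by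
  have h1 := PT2 H hH
  set W : PowerSeries ℕ := PowerSeries.mk fun m => wk H m [] with hW
  have h2 := EV1 x (X * Gam0 ℕ (H - 1)) W (by simp) h1
  have h3 : Kw H x [] = ev x W := by
    have h4 : ev x W = ∑' n, ((coeff n W : ℕ) : ℝ≥0∞) * x ^ n := rfl
    rw [h4, Kw, hW]
    congr 1
    ext n
    rw [PowerSeries.coeff_mk]
  rw [h3, h2]
  congr 2
  rw [map_mul]
  have h5 : ev x (X : PowerSeries ℕ) = x := evf_X _ _
  have h6 : Gam0 ℕ (H - 1) = 1 + coeff 0 (Gh ℕ (H - 1)) := by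
    rw [Gam0, GEO (Fh ℕ (H - 1)) (GEOH ℕ (H - 1)), map_add]
    congr 1
    simp
  rw [h5, h6, map_add, map_one]
  rfl

end Pool.Agent.Lib_helper12.NZ
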