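import Pool.Agent.Lib_helper12.NZ.Base

/-! Block F1 -/

set_option autoImplicit false

open Finset
open scoped ENNReal

namespace Pool.Agent.Lib_helper12.NZ

open PowerSeries

theorem F1_psum {R : Type*} [CommRing R] (G : PowerSeries R) :
    (1 - X) * PowerSeries.mk (fun t => ∑ s ∈ range (t + 1), coeff s G) = G := by
  ext n
  rw [sub_mul, one_mul, map_sub, coeff_mk]
  rcases n with _ | n
  · simp
  · rw [coeff_succ_X_mul, coeff_mk, Finset.sum_range_succ _ (n + 1)]
    ring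

theorem F1_pshift {R : Type*} [CommRing R] (G : PowerSeries R) :
    PowerSeries.mk (fun t => ∑ s ∈ range (t + 1), coeff s G) =
      C (coeff 0 G) + X * PowerSeries.mk (fun t => ∑ s ∈ range (t + 2), coeff s G) := by
  ext n
  rw [map_add, coeff_mk]
  rcases n with _ | n
  · simp
  · rw [coeff_succ_X_mul, coeff_mk, coeff_C, if_neg (Nat.succ_ne_zero n), zero_add]

theorem F1_stpeq {R : Type*} [CommRing R] (x : R) (G : PowerSeries R) :
    stp x G = C x * (C (1 + coeff 0 G) + PowerSeries.mk (fun t => ∑ s ∈ range (t + 2), coeff s G)) := by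
  ext n
  unfold stp
  rw [coeff_mk, coeff_C_mul, map_add, coeff_mk, coeff_C]

/-- the closed form of one step -/
theorem F1_stp {R : Type*} [CommRing R] (x : R) (G : PowerSeries R) :
    X * (1 - X) * stp x G = C x * (X * (1 - X) + G - (1 - X) ^ 2 * C (coeff 0 G)) := by
  have h1 := F1_psum G
  rw [F1_pshift] at h1
  rw [F1_stpeq, map_add, map_one]
  linear_combination (C x) * h1

/-- coefficients of the square root of `(1 - 3y)(1 - κy)`, `κ = 27/25` -/
noncomputable def F1_s : ℕ → ℝ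
  | 0 => 1
  | 1 => -(51 / 25)
  | k + 2 => (102 / 25 * (k + 1 / 2) * F1_s (k + 1) - 81 / 25 * (k - 1) * F1_s k) / (k + 2)

theorem F1_rec (k : ℕ) : ((k : ℝ) + 2) * F1_s (k + 2) =
    102 / 25 * (k + 1 / 2) * F1_s (k + 1) - 81 / 25 * (k - 1) * F1_s k := by
  have h : ((k : ℝ) + 2) ≠ 0 := by positivity
  rw [F1_s]
  field_simp

/-- `25` times the polynomial under the root -/
noncomputable def F1_q : PowerSeries ℝ := C 25 - C 102 * X + C 81 * (X * X)

theorem F1_ode : F1_q * d⁄dX ℝ (PowerSeries.mk F1_s) =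
    (C 81 * X - C 51) * PowerSeries.mk F1_s := by
  unfold F1_q
  ext n
  have e1 : (C 25 - C 102 * X + C 81 * (X * X)) * d⁄dX ℝ (PowerSeries.mk F1_s) =
      C 25 * d⁄dX ℝ (PowerSeries.mk F1_s) - C 102 * (X * d⁄dX ℝ (PowerSeries.mk F1_s)) +
        C 81 * (X * (X * d⁄dX ℝ (PowerSeries.mk F1_s))) := by ring
  have e2 : (C 81 * X - C 51) * PowerSeries.mk F1_s =
      C 81 * (X * PowerSeries.mk F1_s) - C 51 * PowerSeries.mk F1_s := by ring
  rw [e1, e2]
  rcases n with _ | _ | n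
  · simp only [map_add, map_sub, coeff_C_mul, coeff_zero_X_mul, coeff_derivative, coeff_mk]
    norm_num [F1_s]
  · simp only [map_add, map_sub, coeff_C_mul, coeff_succ_X_mul, coeff_derivative, coeff_mk,
      coeff_zero_X_mul]
    have h := F1_rec 0
    simp only [zero_add] at h ⊢
    push_cast at h ⊢
    linarith
  · simp only [map_add, map_sub, coeff_C_mul, coeff_succ_X_mul, coeff_derivative, coeff_mk]
    have h := F1_rec (n + 1)
    push_cast at h ⊢
    have e3 : n + 1 + 2 = n + 1 + 1 + 1 := rfl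
    rw [e3] at h
    linarith

theorem F1_dq : d⁄dX ℝ F1_q = 2 * (C 81 * X - C 51) := by
  unfold F1_q
  simp only [map_add, map_sub, Derivation.leibniz, derivative_C, derivative_X, smul_eq_mul,
    mul_zero, mul_one]
  simp only [map_ofNat]
  ring

theorem F1_sq : C 25 * (PowerSeries.mk F1_s) ^ 2 = F1_q := by
  set s : PowerSeries ℝ := PowerSeries.mk F1_s with hs
  have hq0 : constantCoeff F1_q = 25 := by simp [F1_q]
  have hq1 : constantCoeff F1_q ≠ 0 := by rw [hq0]; norm_num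
  have hinv : F1_q * F1_q⁻¹ = 1 := PowerSeries.mul_inv_cancel _ hq1
  have hs0 : constantCoeff s = 1 := by
    rw [hs, ← coeff_zero_eq_constantCoeff_apply, coeff_mk]
    rfl
  have h1 : F1_q * d⁄dX ℝ (C 25 * s ^ 2) = d⁄dX ℝ F1_q * (C 25 * s ^ 2) := by
    have h2 : d⁄dX ℝ (C 25 * s ^ 2) = C 25 * (2 * s * d⁄dX ℝ s) := by
      rw [Derivation.leibniz, derivative_C, pow_two, Derivation.leibniz, smul_eq_mul, smul_eq_mul,
        smul_eq_mul]
      ring
    rw [h2, F1_dq]
    have h3 := F1_ode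
    linear_combination (2 * C 25 * s) * h3
  have h2 : d⁄dX ℝ (C 25 * s ^ 2 * F1_q⁻¹) = d⁄dX ℝ (1 : PowerSeries ℝ) := by
    rw [Derivation.leibniz, smul_eq_mul, smul_eq_mul, derivative_inv', derivative_one]
    have h3 : F1_q⁻¹ = F1_q * F1_q⁻¹ ^ 2 := by
      rw [pow_two, ← mul_assoc, hinv, one_mul]
    calc C 25 * s ^ 2 * (-F1_q⁻¹ ^ 2 * d⁄dX ℝ F1_q) + F1_q⁻¹ * d⁄dX ℝ (C 25 * s ^ 2) =
        C 25 * s ^ 2 * (-F1_q⁻¹ ^ 2 * d⁄dX ℝ F1_q) +
          (F1_q * F1_q⁻¹ ^ 2) * d⁄dX ℝ (C 25 * s ^ 2) := by rw [← h3]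
      _ = F1_q⁻¹ ^ 2 * (F1_q * d⁄dX ℝ (C 25 * s ^ 2) - d⁄dX ℝ F1_q * (C 25 * s ^ 2)) := by ring
      _ = 0 := by rw [h1, sub_self, mul_zero]
  have h3 : C 25 * s ^ 2 * F1_q⁻¹ = 1 := by
    refine derivative.ext h2 ?_
    rw [map_mul, map_mul, map_pow, hs0, constantCoeff_inv, hq0, constantCoeff_C]
    norm_num
  calc C 25 * s ^ 2 = C 25 * s ^ 2 * (F1_q * F1_q⁻¹) := by rw [hinv, mul_one]
    _ = F1_q * (C 25 * s ^ 2 * F1_q⁻¹) := by ring
    _ = F1_q := by rw [h3, mul_one]

theorem F1_s2 : F1_s 2 = -(288 / 625) := by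
  have h := F1_rec 0
  have h1 : F1_s 1 = -(51 / 25) := rfl
  have h0 : F1_s 0 = 1 := rfl
  rw [zero_add, zero_add, h1, h0] at h
  norm_num at h ⊢
  linarith

theorem F1_bounds (k : ℕ) : F1_s (k + 2) < 0 ∧ F1_s (k + 3) ≤ 27 / 25 * F1_s (k + 2) ∧
    3 * F1_s (k + 2) ≤ F1_s (k + 3) := by
  induction k with
  | zero =>
    have h := F1_rec 1
    have h2 := F1_s2
    norm_num at h ⊢
    rw [h2] at h ⊢
    refine ⟨by norm_num, by linarith, by linarith⟩
  | succ k ih =>
    obtain ⟨h1, h2, h3⟩ := ih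
    have h := F1_rec (k + 2)
    push_cast at h
    have e1 : k + 2 + 2 = k + 4 := rfl
    have e2 : k + 2 + 1 = k + 3 := rfl
    rw [e1, e2] at h
    have hneg : F1_s (k + 3) < 0 := by linarith
    have e3 : k + 1 + 2 = k + 3 := by ring
    have e4 : k + 1 + 3 = k + 4 := by ring
    rw [e3, e4]
    have hk : (0 : ℝ) ≤ k := Nat.cast_nonneg k
    refine ⟨hneg, ?_, ?_⟩
    · have h4 : ((k : ℝ) + 4) * F1_s (k + 4) ≤ ((k : ℝ) + 4) * (27 / 25 * F1_s (k + 3)) := by
        have h5 : (k + 1 : ℝ) * F1_s (k + 3) ≤ (k + 1 : ℝ) * (27 / 25 * F1_s (k + 2)) :=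
          mul_le_mul_of_nonneg_left h2 (by positivity)
        nlinarith
      exact le_of_mul_le_mul_left h4 (by positivity)
    · have h4 : ((k : ℝ) + 4) * (3 * F1_s (k + 3)) ≤ ((k : ℝ) + 4) * F1_s (k + 4) := by
        have h5 : (k + 1 : ℝ) * (3 * F1_s (k + 2)) ≤ (k + 1 : ℝ) * F1_s (k + 3) :=
          mul_le_mul_of_nonneg_left h3 (by positivity)
        nlinarith
      exact le_of_mul_le_mul_left h4 (by positivity)

/-- the coefficients of `4 t` -/
noncomputable def F1_t : ℕ → ℝ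
  | 0 => 2
  | 1 => 18 / 5
  | k + 2 => -15 * F1_s (k + 2)

theorem F1_t_nonneg (k : ℕ) : 0 ≤ F1_t k := by
  rcases k with _ | _ | k
  · norm_num [F1_t]
  · norm_num [F1_t]
  · rw [F1_t]
    have := (F1_bounds k).1
    linarith

theorem F1_t_le (k : ℕ) : F1_t (k + 1) ≤ 3 * F1_t k := by
  rcases k with _ | _ | k
  · norm_num [F1_t]
  · have h : F1_t 2 = -15 * F1_s 2 := rfl
    rw [show 0 + 1 + 1 = 2 by rfl, h, F1_s2]
    norm_num [F1_t]
  · have h := (F1_bounds k).2.2
    have e1 : F1_t (k + 1 + 1 + 1) = -15 * F1_s (k + 3) := rfl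
    have e2 : F1_t (k + 1 + 1) = -15 * F1_s (k + 2) := rfl
    rw [e1, e2]
    linarith

theorem F1_teq : PowerSeries.mk F1_t = C 17 - C 27 * X - C 15 * PowerSeries.mk F1_s := by
  ext n
  rw [coeff_mk, map_sub, map_sub, coeff_C_mul, coeff_C_mul, coeff_mk, coeff_C, coeff_X]
  rcases n with _ | _ | n
  · norm_num [F1_t, F1_s]
  · norm_num [F1_t, F1_s]
  · rw [F1_t]
    simp

/-- F1: the explicit critical series -/
theorem F1 : ∃ G : PowerSeries ℝ, coeff 0 G = 1 / 4 ∧ (∀ k, 0 ≤ coeff k G) ∧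
    1 + G = 1 + stp (1 / 8) G * (1 + G) ∧
    ∀ n, ∑ k ∈ range n, coeff k G * (1 / 3) ^ k ≤ 1 / 3 := by
  set T : PowerSeries ℝ := PowerSeries.mk F1_t with hT
  set G : PowerSeries ℝ := C (1 / 24) * (C 8 - T + C 3 * (X * T)) with hG
  have hG0 : coeff 0 G = 1 / 3 - 1 / 24 * F1_t 0 := by
    rw [hG, coeff_C_mul, map_add, map_sub, coeff_C_mul, hT, coeff_mk, coeff_C, coeff_zero_X_mul,
      if_pos rfl]
    ring
  have hGk : ∀ k, coeff (k + 1) G = -(1 / 24) * F1_t (k + 1) + 1 / 8 * F1_t k := by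
    intro k
    rw [hG, coeff_C_mul, map_add, map_sub, coeff_C_mul, hT, coeff_mk, coeff_C, coeff_succ_X_mul,
      coeff_mk, if_neg (Nat.succ_ne_zero k)]
    ring
  have hG0' : coeff 0 G = 1 / 4 := by
    rw [hG0]
    norm_num [F1_t]
  refine ⟨G, hG0', ?_, ?_, ?_⟩
  · intro k
    rcases k with _ | k
    · rw [hG0']
      norm_num
    · rw [hGk]
      have := F1_t_le k
      linarith
  · -- the functional equation
    set s : PowerSeries ℝ := PowerSeries.mk F1_s with hs
    have hsq : 25 * s ^ 2 = 25 - 102 * X + 81 * (X * X) := by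
      have := F1_sq
      unfold F1_q at this
      simp only [map_ofNat] at this
      exact this
    have hTe : T = 17 - 27 * X - 15 * s := by
      have := F1_teq
      simp only [map_ofNat] at this
      exact this
    have hG24 : 24 * G = 8 - (1 - 3 * X) * (17 - 27 * X - 15 * s) := by
      have e24 : (24 : PowerSeries ℝ) * C (1 / 24) = 1 := by
        have e : (24 : PowerSeries ℝ) = C 24 := (map_ofNat C 24).symm
        rw [e, ← map_mul]
        norm_num
      rw [hG, ← mul_assoc, e24, one_mul, hTe]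
      simp only [map_ofNat]
      ring
    have hst := F1_stp (1 / 8 : ℝ) G
    rw [hG0'] at hst
    have h32 : 32 * (X * (1 - X) * stp (1 / 8) G) =
        4 * (X * (1 - X)) + 4 * G - (1 - X) ^ 2 := by
      have e8 : (8 : PowerSeries ℝ) * C (1 / 8) = 1 := by
        have e : (8 : PowerSeries ℝ) = C 8 := (map_ofNat C 8).symm
        rw [e, ← map_mul]
        norm_num
      have e4 : (4 : PowerSeries ℝ) * C (1 / 4) = 1 := by
        have e : (4 : PowerSeries ℝ) = C 4 := (map_ofNat C 4).symm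
        rw [e, ← map_mul]
        norm_num
      rw [hst]
      linear_combination (4 * (X * (1 - X) + G - (1 - X) ^ 2 * C (1 / 4))) * e8 -
        (1 - X) ^ 2 * e4
    have hQ : 768 * (X * (1 - X)) * (24 * G) -
        (96 * (X * (1 - X)) + 4 * (24 * G) - 24 * (1 - X) ^ 2) * (24 + 24 * G) = 0 := by
      rw [hG24]
      linear_combination (-36 * (1 - 3 * X) ^ 2) * hsq
    have h1X0 : (1 - X : PowerSeries ℝ) ≠ 0 := by
      intro h
      have := congrArg (constantCoeff (R := ℝ)) h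
      simp at this
    have hne : (18432 : PowerSeries ℝ) * (X * (1 - X)) ≠ 0 := by
      refine mul_ne_zero ?_ (mul_ne_zero X_ne_zero h1X0)
      intro h
      have := congrArg (constantCoeff (R := ℝ)) h
      rw [map_ofNat, map_zero] at this
      norm_num at this
    apply mul_left_cancel₀ hne
    linear_combination hQ - 576 * (1 + G) * h32
  · intro n
    have h1 : ∀ n, ∑ k ∈ range (n + 1), coeff k G * (1 / 3) ^ k =
        1 / 3 - 1 / 24 * (F1_t n * (1 / 3) ^ n) := by
      intro n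
      induction n with
      | zero =>
        rw [Finset.sum_range_one, hG0]
        ring
      | succ n ih =>
        rw [Finset.sum_range_succ, ih, hGk]
        ring
    rcases n with _ | n
    · simp
    · rw [h1]
      have : 0 ≤ F1_t n * (1 / 3 : ℝ) ^ n := mul_nonneg (F1_t_nonneg n) (by positivity)
      linarith

end Pool.Agent.Lib_helper12.NZ
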