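import Pool.Agent.Lib_helper12.NZ.Base

/-! Block F2 -/

set_option autoImplicit false

open Finset
open scoped ENNReal

namespace Pool.Agent.Lib_helper12.NZ

open PowerSeries

/-- coefficientwise domination by a real series with nonnegative coefficients -/
def F2_D (A : PowerSeries ℝ≥0∞) (a : PowerSeries ℝ) : Prop :=
  (∀ t, 0 ≤ coeff t a) ∧ ∀ t, coeff t A ≤ ENNReal.ofReal (coeff t a)

theorem F2_mul {A B : PowerSeries ℝ≥0∞} {a b : PowerSeries ℝ} (h1 : F2_D A a) (h2 : F2_D B b) :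
    F2_D (A * B) (a * b) := by
  constructor
  · intro t
    rw [coeff_mul]
    exact Finset.sum_nonneg fun p _ => mul_nonneg (h1.1 _) (h2.1 _)
  · intro t
    rw [coeff_mul, coeff_mul, ENNReal.ofReal_sum_of_nonneg fun p _ => mul_nonneg (h1.1 _) (h2.1 _)]
    refine Finset.sum_le_sum fun p _ => ?_
    rw [ENNReal.ofReal_mul (h1.1 _)]
    exact mul_le_mul' (h1.2 _) (h2.2 _)

theorem F2_add {A B : PowerSeries ℝ≥0∞} {a b : PowerSeries ℝ} (h1 : F2_D A a) (h2 : F2_D B b) :
    F2_D (A + B) (a + b) := by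
  constructor
  · intro t
    rw [map_add]
    exact add_nonneg (h1.1 _) (h2.1 _)
  · intro t
    rw [map_add, map_add, ENNReal.ofReal_add (h1.1 _) (h2.1 _)]
    exact add_le_add (h1.2 _) (h2.2 _)

theorem F2_one : F2_D 1 1 := by
  constructor
  · intro t
    rw [coeff_one]
    split_ifs <;> norm_num
  · intro t
    rw [coeff_one, coeff_one]
    split_ifs <;> simp

/-- the partial sums of the geometric series -/
theorem F2_part {A : PowerSeries ℝ≥0∞} {f g : PowerSeries ℝ} (hA : F2_D A f)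
    (hg : ∀ t, 0 ≤ coeff t g) (hfg : g = 1 + f * g) (K : ℕ) :
    F2_D (∑ k ∈ range (K + 1), A ^ k) g := by
  induction K with
  | zero =>
    rw [Finset.sum_range_one, pow_zero]
    refine ⟨hg, fun t => ?_⟩
    refine (F2_one.2 t).trans (ENNReal.ofReal_le_ofReal ?_)
    have h1 : coeff t g = coeff t 1 + coeff t (f * g) := by
      rw [← map_add]
      exact congrArg (coeff t) hfg
    have h2 : 0 ≤ coeff t (f * g) := by
      rw [coeff_mul]
      exact Finset.sum_nonneg fun p _ => mul_nonneg (hA.1 _) (hg _)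
    linarith
  | succ K ih =>
    have e : ∑ k ∈ range (K + 1 + 1), A ^ k = 1 + A * ∑ k ∈ range (K + 1), A ^ k := by
      rw [Finset.sum_range_succ', pow_zero, Finset.mul_sum, add_comm]
      congr 1
      exact Finset.sum_congr rfl fun k _ => pow_succ' A k
    rw [e, hfg]
    exact F2_add F2_one (F2_mul hA ih)

theorem F2_geo {x : ℝ≥0∞} {F : PowerSeries (PowerSeries ℕ)} {f g : PowerSeries ℝ}
    (hA : F2_D (PowerSeries.map (ev x) F) f) (hg : ∀ t, 0 ≤ coeff t g) (hfg : g = 1 + f * g) :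
    F2_D (PowerSeries.map (ev x) (geo F)) g := by
  refine ⟨hg, fun t => ?_⟩
  rw [coeff_map]
  have h1 : ev x (coeff t (geo F)) ≤ ∑' k, coeff t ((PowerSeries.map (ev x) F) ^ k) := by
    have e1 : ∀ k, coeff t ((PowerSeries.map (ev x) F) ^ k) =
        ∑' n, ((coeff n (coeff t (F ^ k)) : ℕ) : ℝ≥0∞) * x ^ n := by
      intro k
      rw [← map_pow, coeff_map]
      rfl
    simp_rw [e1]
    rw [ENNReal.tsum_comm]
    have e2 : ev x (coeff t (geo F)) =
        ∑' n, ((coeff n (coeff t (geo F)) : ℕ) : ℝ≥0∞) * x ^ n := rfl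
    rw [e2]
    refine ENNReal.tsum_le_tsum fun n => ?_
    have e3 : coeff n (coeff t (geo F)) = ∑ k ∈ range (n + 1), coeff n (coeff t (F ^ k)) := by
      unfold geo
      rw [coeff_mk, coeff_mk]
    rw [e3, Nat.cast_sum, Finset.sum_mul]
    exact ENNReal.sum_le_tsum _
  refine h1.trans (ENNReal.tsum_le_of_sum_range_le fun n => ?_)
  rcases n with _ | n
  · simp
  · have h2 := (F2_part hA hg hfg n).2 t
    rwa [map_sum] at h2

theorem F2_stp {A : PowerSeries (PowerSeries ℕ)} {G : PowerSeries ℝ}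
    (h : F2_D (PowerSeries.map (ev (1 / 8)) A) G) :
    F2_D (PowerSeries.map (ev (1 / 8)) (stp X A)) (stp (1 / 8) G) := by
  have hn : ∀ t : ℕ, 0 ≤ (if t = 0 then 1 + coeff 0 G else 0) + ∑ s ∈ range (t + 2), coeff s G := by
    intro t
    refine add_nonneg ?_ (Finset.sum_nonneg fun s _ => h.1 s)
    split_ifs
    · have := h.1 0
      linarith
    · exact le_rfl
  constructor
  · intro t
    unfold stp
    rw [coeff_mk]
    exact mul_nonneg (by norm_num) (hn t)
  · intro t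
    rw [coeff_map]
    unfold stp
    rw [coeff_mk, coeff_mk, map_mul, ENNReal.ofReal_mul (by norm_num)]
    have e1 : ev (1 / 8) (X : PowerSeries ℕ) = 1 / 8 := evf_X _ _
    have e2 : ENNReal.ofReal (1 / 8) = 1 / 8 := by
      rw [ENNReal.ofReal_div_of_pos (by norm_num)]
      simp
    rw [e1, e2]
    refine mul_le_mul' le_rfl ?_
    rw [map_add, map_sum]
    have h2 : ∀ s, ev (1 / 8) (coeff s A) ≤ ENNReal.ofReal (coeff s G) := by
      intro s
      have := h.2 s
      rwa [coeff_map] at this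
    have h3 : ∑ s ∈ range (t + 2), ev (1 / 8) (coeff s A) ≤
        ENNReal.ofReal (∑ s ∈ range (t + 2), coeff s G) := by
      rw [ENNReal.ofReal_sum_of_nonneg fun s _ => h.1 s]
      exact Finset.sum_le_sum fun s _ => h2 s
    by_cases ht : t = 0
    · rw [if_pos ht, if_pos ht, map_add, map_one,
        ENNReal.ofReal_add (by have := h.1 0; linarith) (Finset.sum_nonneg fun s _ => h.1 s),
        ENNReal.ofReal_add (by norm_num) (h.1 0), ENNReal.ofReal_one]
      exact add_le_add (add_le_add le_rfl (h2 0)) h3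
    · rw [if_neg ht, if_neg ht, map_zero, zero_add, zero_add]
      exact h3

theorem F2_main {G : PowerSeries ℝ} (h1 : ∀ k, 0 ≤ coeff k G)
    (h2 : 1 + G = 1 + stp (1 / 8) G * (1 + G)) (h : ℕ) :
    F2_D (PowerSeries.map (ev (1 / 8)) (Fh ℕ h)) (stp (1 / 8) G) ∧
      F2_D (PowerSeries.map (ev (1 / 8)) (Gh ℕ h)) G := by
  have hg : ∀ t, 0 ≤ coeff t (1 + G) := by
    intro t
    rw [map_add]
    exact add_nonneg (F2_one.1 t) (h1 t)
  have hG : G = stp (1 / 8) G * (1 + G) := add_left_cancel h2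
  have key : ∀ h, F2_D (PowerSeries.map (ev (1 / 8)) (Fh ℕ h)) (stp (1 / 8) G) →
      F2_D (PowerSeries.map (ev (1 / 8)) (Gh ℕ h)) G := by
    intro h hF
    have h3 := F2_mul hF (F2_geo hF hg h2)
    rw [← hG] at h3
    unfold Gh
    rw [map_mul]
    exact h3
  suffices hF : F2_D (PowerSeries.map (ev (1 / 8)) (Fh ℕ h)) (stp (1 / 8) G) from ⟨hF, key h hF⟩
  induction h with
  | zero =>
    refine ⟨fun t => ?_, fun t => ?_⟩
    · unfold stp
      rw [coeff_mk]
      refine mul_nonneg (by norm_num) (add_nonneg ?_ (Finset.sum_nonneg fun s _ => h1 s))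
      split_ifs
      · have := h1 0
        linarith
      · exact le_rfl
    · rw [Fh, map_zero, map_zero]
      exact zero_le
  | succ h ih =>
    rw [Fh]
    exact F2_stp (key h ih)

theorem F2_sum (G : PowerSeries ℝ) (h0 : coeff 0 G = 1 / 4) (h1 : ∀ k, 0 ≤ coeff k G)
    (h3 : ∀ n, ∑ k ∈ range n, coeff k G * (1 / 3) ^ k ≤ 1 / 3) (n : ℕ) :
    ∑ t ∈ range n, coeff t (stp (1 / 8) G) * (1 / 3) ^ t ≤ 1 / 4 := by
  have e1 : ∀ t, coeff t (stp (1 / 8) G) * (1 / 3) ^ t =
      1 / 8 * ((if t = 0 then 5 / 4 * (1 / 3 : ℝ) ^ t else 0) +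
        (∑ s ∈ range (t + 2), coeff s G) * (1 / 3) ^ t) := by
    intro t
    unfold stp
    rw [coeff_mk, h0]
    split_ifs <;> ring
  simp_rw [e1]
  rw [← Finset.mul_sum, Finset.sum_add_distrib, Finset.sum_ite_eq']
  have h4 : ∀ n, ∑ t ∈ range n, (∑ s ∈ range (t + 2), coeff s G) * (1 / 3) ^ t =
      9 / 2 * ∑ s ∈ range (n + 1), coeff s G * (1 / 3) ^ s - 3 * coeff 0 G -
        3 / 2 * (1 / 3) ^ n * ∑ s ∈ range (n + 1), coeff s G := by
    intro n
    induction n with
    | zero =>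
      simp
      ring
    | succ n ih =>
      rw [Finset.sum_range_succ, ih, Finset.sum_range_succ _ (n + 1),
        Finset.sum_range_succ _ (n + 1)]
      ring
  rw [h4, h0]
  have h5 := h3 (n + 1)
  have h6 : 0 ≤ 3 / 2 * (1 / 3 : ℝ) ^ n * ∑ s ∈ range (n + 1), coeff s G :=
    mul_nonneg (by positivity) (Finset.sum_nonneg fun s _ => h1 s)
  have h7 : (if 0 ∈ range n then 5 / 4 * (1 / 3 : ℝ) ^ 0 else 0) ≤ 5 / 4 := by
    split_ifs <;> norm_num
  linarith

/-- F2: critical bounds at `x = 1/8` -/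
theorem F2 (G : PowerSeries ℝ) (h0 : coeff 0 G = 1 / 4) (h1 : ∀ k, 0 ≤ coeff k G)
    (h2 : 1 + G = 1 + stp (1 / 8) G * (1 + G))
    (h3 : ∀ n, ∑ k ∈ range n, coeff k G * (1 / 3) ^ k ≤ 1 / 3) (h : ℕ) :
    yh h (1 / 8) ≤ 1 / 4 ∧ gh h (1 / 8) ≤ 1 / 4 := by
  obtain ⟨hF, hG⟩ := F2_main h1 h2 h
  have e4 : ENNReal.ofReal (1 / 4) = 1 / 4 := by
    rw [ENNReal.ofReal_div_of_pos (by norm_num)]
    simp
  have e3 : ENNReal.ofReal (1 / 3) = 1 / 3 := by
    rw [ENNReal.ofReal_div_of_pos (by norm_num)]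
    simp
  constructor
  · have e : yh h (1 / 8) = ∑' t, coeff t (PowerSeries.map (ev (1 / 8)) (Fh ℕ h)) * (1 / 3) ^ t := by
      unfold yh ev2
      rw [evc_apply]
      exact tsum_congr fun t => by rw [coeff_map]
    rw [e, ← e4]
    refine ENNReal.tsum_le_of_sum_range_le fun n => ?_
    calc ∑ t ∈ range n, coeff t (PowerSeries.map (ev (1 / 8)) (Fh ℕ h)) * (1 / 3) ^ t ≤
        ∑ t ∈ range n, ENNReal.ofReal (coeff t (stp (1 / 8) G)) * (1 / 3) ^ t :=
          Finset.sum_le_sum fun t _ => mul_le_mul' (hF.2 t) le_rfl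
      _ = ENNReal.ofReal (∑ t ∈ range n, coeff t (stp (1 / 8) G) * (1 / 3) ^ t) := by
          rw [ENNReal.ofReal_sum_of_nonneg fun t _ => mul_nonneg (hF.1 t) (by positivity)]
          refine Finset.sum_congr rfl fun t _ => ?_
          rw [ENNReal.ofReal_mul (hF.1 t), ENNReal.ofReal_pow (by norm_num), e3]
      _ ≤ _ := ENNReal.ofReal_le_ofReal (F2_sum G h0 h1 h3 n)
  · have h4 := hG.2 0
    rw [coeff_map, h0, e4] at h4
    exact h4

end Pool.Agent.Lib_helper12.NZ
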