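import Pool.Agent.Lib_helper12.NZ.Base

/-!
# NZ: block EN6
-/

set_option autoImplicit false

open Finset
open scoped ENNReal

namespace Pool.Agent.Lib_helper12.NZ

theorem EN6_pos : ∀ n : ℕ, (0 : ℝ) < (gT n : ℝ)
  | 0 => by norm_num [gT]
  | n + 1 => by
    have := EN6_pos n
    rw [gT]
    push_cast
    positivity

theorem EN6_succ (n : ℕ) : (gT (n + 1) : ℝ) = 4 * (2 * n + 1) / (n + 3) * (gT n : ℝ) := by
  rw [gT]
  push_cast
  ring

/-- the remainder -/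
noncomputable def EN6_R (n : ℕ) : ℝ := (n + 2) * (2 * n + 2 / 3) * ((gT n : ℝ) / 8 ^ n)

theorem EN6_R_one : EN6_R 1 = 1 := by
  unfold EN6_R
  norm_num [gT]

theorem EN6_R_pos (n : ℕ) : 0 < EN6_R n := by
  unfold EN6_R
  have := EN6_pos n
  positivity

theorem EN6_R_succ (n : ℕ) : EN6_R (n + 1) = EN6_R n - n * (gT n : ℝ) / 8 ^ n := by
  unfold EN6_R
  rw [EN6_succ]
  push_cast
  rw [pow_succ]
  have h1 : (0 : ℝ) < (n : ℝ) + 3 := by positivity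
  field_simp
  ring

theorem EN6_R_ratio (n : ℕ) : EN6_R (n + 1) * (6 * n ^ 2 + 14 * n + 4) =
    EN6_R n * (6 * n ^ 2 + 11 * n + 4) := by
  unfold EN6_R
  rw [EN6_succ]
  push_cast
  rw [pow_succ]
  have h1 : (0 : ℝ) < (n : ℝ) + 3 := by positivity
  field_simp
  ring

theorem EN6_sum (h : ℕ) : ∑ n ∈ Icc 1 h, (n : ℝ) * (gT n : ℝ) * 8 / 8 ^ n =
    8 - 8 * EN6_R (h + 1) := by
  induction h with
  | zero => simp [EN6_R_one]
  | succ h ih =>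
    rw [Finset.sum_Icc_succ_top (by omega), ih, EN6_R_succ (h + 1)]
    push_cast
    ring

theorem EN6_R_sq (n : ℕ) : EN6_R (n + 1) ^ 2 * (n + 4) ≤ 4 := by
  induction n with
  | zero => norm_num [EN6_R_one]
  | succ n ih =>
    have h1 := EN6_R_ratio (n + 1)
    push_cast at h1 ⊢
    have hR := EN6_R_pos (n + 1)
    have hn : (0 : ℝ) ≤ n := Nat.cast_nonneg n
    obtain ⟨a, ha⟩ : ∃ a : ℝ, a = 6 * ((n : ℝ) + 1) ^ 2 + 11 * ((n : ℝ) + 1) + 4 := ⟨_, rfl⟩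
    have hb : 6 * ((n : ℝ) + 1) ^ 2 + 14 * ((n : ℝ) + 1) + 4 = a + 3 * (n + 1) := by
      rw [ha]; ring
    rw [hb, ← ha] at h1
    have ha0 : 0 < a := by rw [ha]; positivity
    have hb0 : 0 < a + 3 * ((n : ℝ) + 1) := by positivity
    have h2 : EN6_R (n + 1 + 1) = EN6_R (n + 1) * (a / (a + 3 * (n + 1))) := by
      field_simp
      linarith
    rw [h2]
    have h3 : (a / (a + 3 * ((n : ℝ) + 1))) ^ 2 * (n + 1 + 4) ≤ n + 4 := by
      rw [div_pow, div_mul_eq_mul_div, div_le_iff₀ (by positivity)]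
      have h4 : (n + 4) * (a + 3 * ((n : ℝ) + 1)) ^ 2 - a ^ 2 * (n + 1 + 4) =
          a * (7 * (n + 1) - 4) + 9 * (n + 1) ^ 2 * (n + 4) := by
        rw [ha]; ring
      have h5 : 0 ≤ a * (7 * (n + 1) - 4) + 9 * ((n : ℝ) + 1) ^ 2 * (n + 4) := by
        have : (0 : ℝ) ≤ 7 * (n + 1) - 4 := by linarith
        positivity
      linarith
    calc (EN6_R (n + 1) * (a / (a + 3 * ((n : ℝ) + 1)))) ^ 2 * (n + 1 + 4) =
        EN6_R (n + 1) ^ 2 * ((a / (a + 3 * ((n : ℝ) + 1))) ^ 2 * (n + 1 + 4)) := by ring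
      _ ≤ EN6_R (n + 1) ^ 2 * (n + 4) := mul_le_mul_of_nonneg_left h3 (sq_nonneg _)
      _ ≤ 4 := ih

/-- EN6: sums of Tutte numbers at the critical point -/
theorem EN6 (h : ℕ) :
    (8 : ℝ) - 16 / √(h + 1) ≤ ∑ n ∈ Icc 1 h, (n : ℝ) * (gT n : ℝ) * 8 / 8 ^ n := by
  rw [EN6_sum]
  have h1 := EN6_R_sq h
  have h2 := EN6_R_pos (h + 1)
  have hs : 0 < √((h : ℝ) + 1) := Real.sqrt_pos.2 (by positivity)
  have h3 : EN6_R (h + 1) ≤ 2 / √((h : ℝ) + 1) := by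
    rw [le_div_iff₀ hs]
    apply le_of_sq_le_sq _ (by norm_num)
    rw [mul_pow, Real.sq_sqrt (by positivity)]
    nlinarith [sq_nonneg (EN6_R (h + 1))]
  have h4 : 16 / √((h : ℝ) + 1) = 8 * (2 / √((h : ℝ) + 1)) := by ring
  rw [h4]
  linarith

end Pool.Agent.Lib_helper12.NZ
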