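import Pool.Agent.Lib_helper12.NZ.Base
import Pool.Agent.Lib_helper12.NZ.Fin.U_NZ_EV2_helper80
import Pool.Agent.Lib_helper12.NZ.Fin.U_NZ_GEO_helper41
import Pool.Agent.Lib_helper12.NZ.Fin.U_NZ_GEOH_helper93

set_option autoImplicit false

open Finset
open scoped ENNReal

namespace Pool.Agent.Lib_helper12.NZ

open PowerSeries

theorem EV3_geo : ∑' t : ℕ, (1 / 3 : ℝ≥0∞) ^ t = 3 / 2 := by
  rw [ENNReal.tsum_geometric]
  have h1 : (1 : ℝ≥0∞) - 1 / 3 = 2 / 3 := by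
    apply ENNReal.sub_eq_of_eq_add (by norm_num)
    rw [← ENNReal.add_div]
    norm_num
    rw [ENNReal.div_self] <;> norm_num
  rw [h1, ENNReal.inv_div] <;> norm_num

/-- tails of the geometric series -/
theorem EV3_tail (s : ℕ) :
    ∑' t : ℕ, (if s < t + 1 then (1 / 3 : ℝ≥0∞) ^ t else 0) = (1 / 3) ^ s * (3 / 2) := by
  induction s with
  | zero =>
    rw [pow_zero, one_mul, ← EV3_geo]
    exact tsum_congr (fun t => if_pos (by omega))
  | succ s ih =>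
    rw [tsum_eq_zero_add' (f := fun t => (if s + 1 < t + 1 then (1 / 3 : ℝ≥0∞) ^ t else 0))
      ENNReal.summable, if_neg (by omega), zero_add, pow_succ]
    have h1 : ∀ t : ℕ, (if s + 1 < t + 1 + 1 then (1 / 3 : ℝ≥0∞) ^ (t + 1) else 0) =
        (1 / 3) * (if s < t + 1 then (1 / 3 : ℝ≥0∞) ^ t else 0) := by
      intro t
      by_cases h : s < t + 1
      · rw [if_pos h, if_pos (by omega), pow_succ, mul_comm]
      · rw [if_neg h, if_neg (by omega), mul_zero]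
    simp_rw [h1]
    rw [ENNReal.tsum_mul_left, ih]
    ring

theorem EV3_two : (1 : ℝ≥0∞) = 2 / 2 := (ENNReal.div_self (by norm_num) (by norm_num)).symm

theorem EV3_n1 : (1 : ℝ≥0∞) + 7 / 2 = 9 / 2 := by
  calc (1 : ℝ≥0∞) + 7 / 2 = 2 / 2 + 7 / 2 := by rw [← EV3_two]
    _ = (2 + 7) / 2 := ENNReal.add_div.symm
    _ = 9 / 2 := by norm_num

theorem EV3_n2 : (1 : ℝ≥0∞) + 3 / 2 + 2 = 9 / 2 := by
  have h : (2 : ℝ≥0∞) = 4 / 2 := by
    have h4 : (4 : ℝ≥0∞) = 2 * 2 := by norm_num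
    rw [h4, mul_div_assoc, ← EV3_two, mul_one]
  calc (1 : ℝ≥0∞) + 3 / 2 + 2 = 2 / 2 + 3 / 2 + 4 / 2 := by rw [← EV3_two, ← h]
    _ = (2 + 3 + 4) / 2 := by rw [ENNReal.add_div, ENNReal.add_div]
    _ = 9 / 2 := by norm_num

theorem EV3_n3 : (1 / 3 : ℝ≥0∞) * (9 / 2) = 3 / 2 := by
  have h : (9 : ℝ≥0∞) = 3 * 3 := by norm_num
  rw [h, mul_div_assoc, ← mul_assoc, ENNReal.div_mul_cancel (by norm_num) (by norm_num), one_mul]

/-- EV3: one step of the recursion at `y = 1/3` -/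
theorem EV3 (h : ℕ) (x : ℝ≥0∞) :
    yh (h + 1) x + 2 * x * gh h x + 7 / 2 * x = 9 / 2 * x * (1 - yh h x)⁻¹ := by
  have hF : ∀ t, constantCoeff (coeff t (Fh ℕ h)) = 0 := GEOH ℕ h
  have hG : 1 + ev2 x (1 / 3) (Gh ℕ h) = (1 - yh h x)⁻¹ := by
    rw [yh, ← EV2 x (1 / 3) (Fh ℕ h) hF, GEO (Fh ℕ h) hF, map_add, map_one]
    rfl
  set g : ℕ → ℝ≥0∞ := fun s => ev x (coeff s (Gh ℕ h)) with hg
  set E' : ℝ≥0∞ := ∑' s, g (s + 1) * (1 / 3) ^ (s + 1) with hE'
  have hE : ev2 x (1 / 3) (Gh ℕ h) = g 0 + E' := by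
    have h1 : ev2 x (1 / 3) (Gh ℕ h) = ∑' t, g t * (1 / 3) ^ t := rfl
    rw [h1, tsum_eq_zero_add' (f := fun t => g t * (1 / 3 : ℝ≥0∞) ^ t) ENNReal.summable, hE']
    simp
  have hXe : ev x (X : PowerSeries ℕ) = x := evf_X _ _
  have hco : ∀ t, ev x (coeff t (Fh ℕ (h + 1))) =
      x * ((if t = 0 then 1 + g 0 else 0) + ∑ s ∈ range (t + 2), g s) := by
    intro t
    have h1 : Fh ℕ (h + 1) = stp X (Gh ℕ h) := rfl
    rw [h1, stp, PowerSeries.coeff_mk, map_mul, hXe, map_add, map_sum]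
    congr 2
    split_ifs with h2
    · rw [map_add, map_one]
    · rw [map_zero]
  have hy : yh (h + 1) x = x * ((1 + g 0) + ((3 / 2) * g 0 + (9 / 2) * E')) := by
    have h1 : yh (h + 1) x = ∑' t, ev x (coeff t (Fh ℕ (h + 1))) * (1 / 3) ^ t := rfl
    rw [h1]
    simp_rw [hco, mul_assoc]
    rw [ENNReal.tsum_mul_left]
    congr 1
    simp_rw [add_mul]
    rw [ENNReal.tsum_add]
    congr 1
    · rw [tsum_eq_single 0]
      · simp
      · intro t ht
        rw [if_neg ht, zero_mul]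
    · have h2 : ∀ t, (∑ s ∈ range (t + 2), g s) * (1 / 3 : ℝ≥0∞) ^ t =
          g 0 * (1 / 3) ^ t + ∑' s, g (s + 1) * (if s < t + 1 then (1 / 3 : ℝ≥0∞) ^ t else 0) := by
        intro t
        rw [Finset.sum_range_succ', add_mul, add_comm]
        congr 1
        rw [tsum_eq_sum (s := range (t + 1)), Finset.sum_mul]
        · apply Finset.sum_congr rfl
          intro s hs
          rw [if_pos (Finset.mem_range.mp hs)]
        · intro s hs
          rw [if_neg (by simpa using hs), mul_zero]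
      simp_rw [h2]
      rw [ENNReal.tsum_add, ENNReal.tsum_mul_left, EV3_geo, mul_comm (g 0), ENNReal.tsum_comm]
      congr 1
      simp_rw [ENNReal.tsum_mul_left, EV3_tail]
      rw [hE', ← ENNReal.tsum_mul_left]
      congr 1
      ext s
      rw [← EV3_n3, pow_succ]
      ring
  have hgh : gh h x = g 0 := rfl
  rw [← hG, hE, hy, hgh]
  calc x * (1 + g 0 + (3 / 2 * g 0 + 9 / 2 * E')) + 2 * x * g 0 + 7 / 2 * x
      = x * ((1 + 7 / 2) + (1 + 3 / 2 + 2) * g 0 + 9 / 2 * E') := by ring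
    _ = 9 / 2 * x * (1 + (g 0 + E')) := by rw [EV3_n1, EV3_n2]; ring

end Pool.Agent.Lib_helper12.NZ
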