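import Pool.Agent.Lib_helper12.NZ.Base
import Pool.Agent.Lib_helper12.NZ.Fin.U_NZ_EN5_helper89
import Pool.Agent.Lib_helper12.NZ.Fin.U_NZ_GEO_helper41
import Pool.Agent.Lib_helper12.NZ.Fin.U_NZ_GEOH_helper93

/-!
# NZ: block K3 (uses GEO, GEOH, EN5)
-/

set_option autoImplicit false

open Finset
open scoped ENNReal

namespace Pool.Agent.Lib_helper12.NZ

open PowerSeries

theorem K3_coeff (h n : ℕ) (h1 : 1 ≤ n) (hn : n ≤ h) :
    ((coeff n (coeff 0 (Gh ℕ h)) : ℕ) : ℝ) = (gT n : ℝ) := by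
  have h2 := EN5 h n h1 hn
  have h3 := GEO (Fh ℕ h) (GEOH ℕ h)
  have h4 : Gam0 ℕ h = 1 + coeff 0 (Gh ℕ h) := by
    unfold Gam0 Gh
    conv_lhs => rw [h3]
    rw [map_add]
    simp
  rw [h4, map_add, PowerSeries.coeff_one, if_neg (by omega), zero_add] at h2
  rw [← h2]
  push_cast
  rfl

theorem K3_bern (ε : ℝ) (hε : 0 ≤ ε) (n : ℕ) :
    ((1 : ℝ) / 8) ^ n + ε * n * 8 / 8 ^ n ≤ (1 / 8 + ε) ^ n := by
  have h1 := one_add_mul_le_pow (a := 8 * ε) (by linarith) n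
  have h2 : (1 / 8 + ε) ^ n = (1 / 8) ^ n * (1 + 8 * ε) ^ n := by
    rw [← mul_pow]; congr 1; ring
  rw [h2]
  have h3 := mul_le_mul_of_nonneg_left h1 (by positivity : (0 : ℝ) ≤ (1 / 8) ^ n)
  refine le_trans (le_of_eq ?_) h3
  rw [div_pow, one_pow]
  ring

theorem K3 (h : ℕ) (ε : ℝ) (hε : 0 ≤ ε) :
    gh h (1 / 8) + ENNReal.ofReal (ε * ∑ n ∈ Icc 1 h, (n : ℝ) * (gT n : ℝ) * 8 / 8 ^ n) ≤
      gh h (ENNReal.ofReal (1 / 8 + ε)) := by
  have hgh : ∀ x : ℝ≥0∞, gh h x = ∑' n, ((coeff n (coeff 0 (Gh ℕ h)) : ℕ) : ℝ≥0∞) * x ^ n := by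
    intro x
    rfl
  rw [hgh, hgh]
  have h1 : ENNReal.ofReal (ε * ∑ n ∈ Icc 1 h, (n : ℝ) * (gT n : ℝ) * 8 / 8 ^ n) ≤
      ∑' n, (if n ∈ Icc 1 h then
        ((coeff n (coeff 0 (Gh ℕ h)) : ℕ) : ℝ≥0∞) * ENNReal.ofReal (ε * n * 8 / 8 ^ n) else 0) := by
    rw [tsum_eq_sum (s := Icc 1 h) (fun n hn => if_neg hn)]
    rw [mul_sum, ENNReal.ofReal_sum_of_nonneg]
    · refine sum_le_sum fun n hn => ?_
      rw [if_pos hn]
      rw [mem_Icc] at hn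
      have h2 := K3_coeff h n hn.1 hn.2
      have h3 : ((coeff n (coeff 0 (Gh ℕ h)) : ℕ) : ℝ≥0∞) = ENNReal.ofReal (gT n : ℝ) := by
        rw [← h2, ENNReal.ofReal_natCast]
      rw [h3, ← ENNReal.ofReal_mul (by rw [← h2]; positivity)]
      apply ENNReal.ofReal_le_ofReal
      exact le_of_eq (by ring)
    · intro n hn
      rw [mem_Icc] at hn
      have h2 := K3_coeff h n hn.1 hn.2
      rw [← h2]
      positivity
  refine (add_le_add_right h1 _).trans ?_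
  rw [← ENNReal.tsum_add]
  refine ENNReal.tsum_le_tsum fun n => ?_
  have hb := K3_bern ε hε n
  have h8 : ((1 : ℝ≥0∞) / 8) ^ n = ENNReal.ofReal ((1 / 8) ^ n) := by
    rw [ENNReal.ofReal_pow (by norm_num)]
    congr 1
    rw [ENNReal.ofReal_div_of_pos (by norm_num)]
    simp
  have hpow : (ENNReal.ofReal (1 / 8 + ε)) ^ n = ENNReal.ofReal ((1 / 8 + ε) ^ n) :=
    (ENNReal.ofReal_pow (by positivity) n).symm
  rw [hpow, h8]
  split_ifs with hn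
  · rw [← mul_add, ← ENNReal.ofReal_add (by positivity) (by positivity)]
    exact mul_le_mul_right (ENNReal.ofReal_le_ofReal hb) _
  · rw [add_zero]
    refine mul_le_mul_right (ENNReal.ofReal_le_ofReal ?_) _
    exact pow_le_pow_left₀ (by norm_num) (by linarith) n

end Pool.Agent.Lib_helper12.NZ
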