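import Pool.Agent.Lib_helper12.NZ.Base
import Pool.Agent.Lib_helper12.NZ.Fin.U_NZ_EN6_helper22
import Pool.Agent.Lib_helper12.NZ.Fin.U_NZ_EV3_helper80
import Pool.Agent.Lib_helper12.NZ.Fin.U_NZ_F1_helper24
import Pool.Agent.Lib_helper12.NZ.Fin.U_NZ_F2_helper24
import Pool.Agent.Lib_helper12.NZ.Fin.U_NZ_K3_helper22

set_option autoImplicit false

open Finset
open scoped ENNReal

namespace Pool.Agent.Lib_helper12.NZ

theorem K5_toReal (h : ℕ) (x : ℝ≥0∞) (xr : ℝ) (hx : 0 < xr) (hxe : x = ENNReal.ofReal xr)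
    (hy : yh h x < 1) : yh (h + 1) x ≠ ⊤ ∧ gh h x ≠ ⊤ ∧
      (yh (h + 1) x).toReal + 2 * xr * (gh h x).toReal + 7 / 2 * xr =
        9 / 2 * xr * (1 - (yh h x).toReal)⁻¹ := by
  have e := EV3 h x
  have hx0 : x ≠ 0 := by
    rw [hxe]
    exact (ENNReal.ofReal_pos.2 hx).ne'
  have hxt : x ≠ ⊤ := by
    rw [hxe]
    exact ENNReal.ofReal_ne_top
  have hxr : x.toReal = xr := by
    rw [hxe]
    exact ENNReal.toReal_ofReal hx.le
  have h1 : (1 - yh h x) ≠ 0 := (tsub_pos_of_lt hy).ne'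
  have hR : 9 / 2 * x * (1 - yh h x)⁻¹ ≠ ⊤ := by
    refine ENNReal.mul_ne_top (ENNReal.mul_ne_top ?_ hxt) (ENNReal.inv_ne_top.2 h1)
    exact ENNReal.div_ne_top (by simp) (by simp)
  have hL : yh (h + 1) x + 2 * x * gh h x + 7 / 2 * x ≠ ⊤ := by rw [e]; exact hR
  have hL1 : yh (h + 1) x + 2 * x * gh h x ≠ ⊤ := ne_top_of_le_ne_top hL le_self_add
  have hL2 : 7 / 2 * x ≠ ⊤ := ne_top_of_le_ne_top hL le_add_self
  have hY : yh (h + 1) x ≠ ⊤ := ne_top_of_le_ne_top hL1 le_self_add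
  have hG' : 2 * x * gh h x ≠ ⊤ := ne_top_of_le_ne_top hL1 le_add_self
  have hG : gh h x ≠ ⊤ := by
    intro hg
    rw [hg] at hG'
    apply hG'
    rw [ENNReal.mul_top]
    exact mul_ne_zero (by simp) hx0
  refine ⟨hY, hG, ?_⟩
  have e' := congrArg ENNReal.toReal e
  rw [ENNReal.toReal_add hL1 hL2, ENNReal.toReal_add hY hG', ENNReal.toReal_mul,
    ENNReal.toReal_mul, ENNReal.toReal_mul, ENNReal.toReal_mul, ENNReal.toReal_mul,
    ENNReal.toReal_inv, ENNReal.toReal_sub_of_le hy.le (by simp), hxr] at e'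
  simpa using e'

theorem K5_real (ε y0 y0' g0 g Y Y' s t : ℝ) (hε : 0 < ε) (hs : 0 ≤ s) (ht : 0 < t)
    (hst : t ^ 2 = s ^ 2 + 1) (hεt : ε * t ^ 3 ≤ 1 / 400) (hY : Y ≤ y0 + 16 * ε * s)
    (h1 : y0 ≤ 1 / 4) (h2 : y0' ≤ 1 / 4)
    (E1 : Y' + 2 * (1 / 8 + ε) * g + 7 / 2 * (1 / 8 + ε) = 9 / 2 * (1 / 8 + ε) * (1 - Y)⁻¹)
    (E0 : y0' + 2 * (1 / 8) * g0 + 7 / 2 * (1 / 8) = 9 / 2 * (1 / 8) * (1 - y0)⁻¹)
    (G1 : g0 + ε * (8 - 16 / t) ≤ g) (G2 : g0 ≤ g) : Y' ≤ y0' + 16 * ε * t := by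
  have ht1 : 1 ≤ t := by nlinarith
  have hsle : s ≤ t := by nlinarith
  -- bounds
  have hεs : ε * s * t ^ 2 ≤ 1 / 400 := by
    have : ε * s * t ^ 2 ≤ ε * t * t ^ 2 := by gcongr
    nlinarith
  have hεst : ε * s ≤ 1 / 400 := by
    have h3 : ε * s * 1 ≤ ε * s * t ^ 2 := by
      apply mul_le_mul_of_nonneg_left _ (by positivity)
      nlinarith
    linarith
  set R := 16 * ε * s with hR
  have hR0 : 0 ≤ R := by positivity
  have hR1 : R ≤ 1 / 25 := by rw [hR]; linarith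
  have hz : 0 < 1 - 4 / 3 * R := by linarith
  have hD : 9 / 16 * ((1 - Y)⁻¹ - (1 - y0)⁻¹) ≤ R / (1 - 4 / 3 * R) := by
    have a1 : 0 < 1 - y0 - R := by linarith
    have a2 : (1 - Y)⁻¹ ≤ (1 - y0 - R)⁻¹ := by
      apply inv_anti₀ a1
      linarith
    have a3 : 0 < 1 - y0 := by linarith
    have a4 : (1 - y0 - R)⁻¹ - (1 - y0)⁻¹ = R / ((1 - y0 - R) * (1 - y0)) := by
      field_simp
      ring
    have a5 : 9 / 16 * (1 - 4 / 3 * R) ≤ (1 - y0 - R) * (1 - y0) := by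
      nlinarith
    have a6 : R / ((1 - y0 - R) * (1 - y0)) ≤ R / (9 / 16 * (1 - 4 / 3 * R)) := by
      apply div_le_div_of_nonneg_left hR0 (by positivity) a5
    have a7 : R / (9 / 16 * (1 - 4 / 3 * R)) = 16 / 9 * (R / (1 - 4 / 3 * R)) := by
      field_simp
    rw [a7] at a6
    linarith
  have hB : (1 + 8 * ε) * (R / (1 - 4 / 3 * R)) ≤ R + 4 * ε / t := by
    rw [← mul_div_assoc, div_le_iff₀ hz]
    have b1 : 4 * ε / t * (1 - 4 / 3 * R) = 4 * ε * (1 - 4 / 3 * R) / t := by ring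
    have b2 : (R + 4 * ε / t) * (1 - 4 / 3 * R) = R * (1 - 4 / 3 * R) + 4 * ε * (1 - 4 / 3 * R) / t := by
      rw [add_mul, b1]
    rw [b2]
    have b3 : (1 + 8 * ε) * R - R * (1 - 4 / 3 * R) ≤ 4 * ε * (1 - 4 / 3 * R) / t := by
      rw [le_div_iff₀ ht]
      have b4 : ((1 + 8 * ε) * R - R * (1 - 4 / 3 * R)) * t =
          4 * ε * (4 * s * t * (8 * ε + 4 / 3 * R)) := by
        rw [hR]; ring
      rw [b4]
      apply mul_le_mul_of_nonneg_left _ (by positivity)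
      have b5 : 4 * s * t * (8 * ε + 4 / 3 * R) = 32 * (ε * s * t) + 256 / 3 * (ε * s * t * s) := by
        rw [hR]; ring
      rw [b5]
      have b6 : ε * s * t ≤ 1 / 400 := by
        have : ε * s * t ≤ ε * s * t ^ 2 := by
          apply mul_le_mul_of_nonneg_left _ (by positivity)
          nlinarith
        linarith
      have b7 : ε * s * t * s ≤ 1 / 400 := by
        have : ε * s * t * s ≤ ε * s * t ^ 2 := by
          have : ε * s * t * s ≤ ε * s * t * t := by gcongr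
          nlinarith
        linarith
      linarith
    linarith
  have hC : 8 * ε / t ≤ 16 * ε * t - R := by
    rw [div_le_iff₀ ht, hR]
    have c1 : (16 * ε * t - 16 * ε * s) * t = 8 * ε * (2 * t * (t - s)) := by ring
    rw [c1]
    have c2 : 1 ≤ 2 * t * (t - s) := by nlinarith
    nlinarith
  have hYe : Y' = (1 + 8 * ε) * (9 / 16 * (1 - Y)⁻¹ - g / 4 - 7 / 16) := by
    have : Y' = 9 / 2 * (1 / 8 + ε) * (1 - Y)⁻¹ - 2 * (1 / 8 + ε) * g - 7 / 2 * (1 / 8 + ε) := by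
      linarith
    rw [this]; ring
  have hye : y0' = 9 / 16 * (1 - y0)⁻¹ - g0 / 4 - 7 / 16 := by linarith
  have hdiff : Y' - y0' = 8 * ε * y0' + (1 + 8 * ε) * (9 / 16 * ((1 - Y)⁻¹ - (1 - y0)⁻¹)) -
      (1 + 8 * ε) * ((g - g0) / 4) := by
    rw [hYe, hye]; ring
  have d1 : 8 * ε * y0' ≤ 2 * ε := by nlinarith
  have d2 : (1 + 8 * ε) * (9 / 16 * ((1 - Y)⁻¹ - (1 - y0)⁻¹)) ≤ R + 4 * ε / t :=
    (mul_le_mul_of_nonneg_left hD (by positivity)).trans hB
  have d3 : (g - g0) / 4 ≤ (1 + 8 * ε) * ((g - g0) / 4) := by nlinarith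
  have d4 : 2 * ε - 4 * ε / t ≤ (g - g0) / 4 := by
    have : ε * (8 - 16 / t) = 4 * (2 * ε - 4 * ε / t) := by ring
    linarith
  have d5 : 4 * ε / t + 4 * ε / t = 8 * ε / t := by ring
  linarith

/-- K5: the KEY LEMMA -/
theorem K5 (H : ℕ) (ε : ℝ) (hε : 0 < ε) (hH : ε * (H : ℝ) ^ (3 / 2 : ℝ) ≤ 1 / 400) (h : ℕ)
    (hh : h ≤ H) : yh h (ENNReal.ofReal (1 / 8 + ε)) ≤ ENNReal.ofReal (3 / 10) := by
  obtain ⟨G, hG0, hG1, hG2, hG3⟩ := F1
  have hF2 := fun h => F2 G hG0 hG1 hG2 hG3 h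
  have h18 : (1 / 8 : ℝ≥0∞) = ENNReal.ofReal (1 / 8) := by
    rw [ENNReal.ofReal_div_of_pos (by norm_num)]
    simp
  have h14 : (1 / 4 : ℝ≥0∞) = ENNReal.ofReal (1 / 4) := by
    rw [ENNReal.ofReal_div_of_pos (by norm_num)]
    simp
  have hy0 : ∀ h, (yh h (1 / 8)).toReal ≤ 1 / 4 := by
    intro h
    apply ENNReal.toReal_le_of_le_ofReal (by norm_num)
    rw [← h14]
    exact (hF2 h).1
  have hy0lt : ∀ h, yh h (1 / 8) < 1 := by
    intro h
    refine lt_of_le_of_lt (hF2 h).1 ?_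
    rw [h14, ← ENNReal.ofReal_one]
    exact (ENNReal.ofReal_lt_ofReal_iff (by norm_num)).2 (by norm_num)
  -- √h bound
  have hsq : ∀ k : ℕ, k ≤ H → ε * √(k : ℝ) ^ 3 ≤ 1 / 400 := by
    intro k hk
    have h1 : √(k : ℝ) ^ 3 = (k : ℝ) ^ (3 / 2 : ℝ) := by
      rw [Real.sqrt_eq_rpow, ← Real.rpow_natCast, ← Real.rpow_mul (Nat.cast_nonneg _)]
      norm_num
    rw [h1]
    have h2 : (k : ℝ) ^ (3 / 2 : ℝ) ≤ (H : ℝ) ^ (3 / 2 : ℝ) :=
      Real.rpow_le_rpow (Nat.cast_nonneg _) (by exact_mod_cast hk) (by norm_num)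
    exact (mul_le_mul_of_nonneg_left h2 hε.le).trans hH
  have hsmall : ∀ k : ℕ, k ≤ H → 16 * ε * √(k : ℝ) ≤ 1 / 25 := by
    intro k hk
    rcases Nat.eq_zero_or_pos k with rfl | hk0
    · simp
    · have h1 := hsq k hk
      have h2 : 1 ≤ √(k : ℝ) := by
        rw [Real.one_le_sqrt]
        exact_mod_cast hk0
      have h3 : √(k : ℝ) ≤ √(k : ℝ) ^ 3 := by
        calc √(k : ℝ) = √(k : ℝ) ^ 1 := (pow_one _).symm
          _ ≤ √(k : ℝ) ^ 3 := pow_le_pow_right₀ h2 (by norm_num)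
      have h4 : ε * √(k : ℝ) ≤ ε * √(k : ℝ) ^ 3 := mul_le_mul_of_nonneg_left h3 hε.le
      linarith
  -- main claim
  have main : ∀ k : ℕ, k ≤ H → yh k (ENNReal.ofReal (1 / 8 + ε)) ≤
      ENNReal.ofReal ((yh k (1 / 8)).toReal + 16 * ε * √(k : ℝ)) := by
    intro k
    induction k with
    | zero =>
      intro _
      have : yh 0 (ENNReal.ofReal (1 / 8 + ε)) = 0 := by
        unfold yh
        rw [show Fh ℕ 0 = 0 from rfl, map_zero]
      rw [this]
      exact zero_le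
    | succ k ih =>
      intro hk
      have hk' : k ≤ H := by omega
      have ih := ih hk'
      set x := ENNReal.ofReal (1 / 8 + ε) with hx
      have b1 := hsmall k hk'
      have b2 := hy0 k
      have hYlt : yh k x < 1 := by
        refine lt_of_le_of_lt ih (ENNReal.ofReal_lt_one.2 ?_)
        linarith
      obtain ⟨p1, p2, p3⟩ := K5_toReal k x (1 / 8 + ε) (by linarith) hx hYlt
      obtain ⟨q1, q2, q3⟩ := K5_toReal k (1 / 8) (1 / 8) (by norm_num) h18 (hy0lt k)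
      rw [← ENNReal.toReal_le_toReal p1 ENNReal.ofReal_ne_top]
      rw [ENNReal.toReal_ofReal (by positivity)]
      have hk3 := K3 k ε hε.le
      rw [← hx] at hk3
      have hsum := EN6 k
      have hSnn : 0 ≤ ε * ∑ n ∈ Icc 1 k, (n : ℝ) * (gT n : ℝ) * 8 / 8 ^ n := by
        apply mul_nonneg hε.le
        apply Finset.sum_nonneg
        intro n _
        have : (0 : ℝ) ≤ (gT n : ℝ) := by
          have hg : ∀ n, 0 ≤ gT n := by
            intro n
            induction n with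
            | zero => norm_num [gT]
            | succ n ih =>
              rw [gT]
              positivity
          exact_mod_cast hg n
        positivity
      have hk4 := (ENNReal.toReal_le_toReal
        (ENNReal.add_ne_top.2 ⟨q2, ENNReal.ofReal_ne_top⟩) p2).2 hk3
      rw [ENNReal.toReal_add q2 ENNReal.ofReal_ne_top, ENNReal.toReal_ofReal hSnn] at hk4
      refine K5_real ε _ _ _ _ (yh k x).toReal _ (√(k : ℝ)) (√((k + 1 : ℕ) : ℝ)) hε
        (Real.sqrt_nonneg _) (Real.sqrt_pos.2 (by positivity)) ?_ (hsq (k + 1) hk) ?_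
        b2 (hy0 (k + 1)) p3 q3 ?_ ?_
      · rw [Real.sq_sqrt (Nat.cast_nonneg _), Real.sq_sqrt (Nat.cast_nonneg _)]
        push_cast
        ring
      · exact ENNReal.toReal_le_of_le_ofReal (by positivity) ih
      · have h5 : ε * (8 - 16 / √((k + 1 : ℕ) : ℝ)) ≤
            ε * ∑ n ∈ Icc 1 k, (n : ℝ) * (gT n : ℝ) * 8 / 8 ^ n := by
          apply mul_le_mul_of_nonneg_left _ hε.le
          push_cast
          exact hsum
        linarith
      · linarith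
  refine (main h hh).trans (ENNReal.ofReal_le_ofReal ?_)
  have c1 := hsmall h hh
  have c2 := hy0 h
  linarith

end Pool.Agent.Lib_helper12.NZ
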