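import Pool.Agent.Lib_helper12.NZ.Base

set_option autoImplicit false

open Finset
open scoped ENNReal

namespace Pool.Agent.Lib_helper12.NZ

/-- EV6: one-step identity for the walk weights -/
theorem EV6 (H : ℕ) (x : ℝ≥0∞) (l : List Bool) :
    Kw H x l = (if l = [] then 1 else 0) + x * ((∑ g ∈ range (H - l.length), Kw H x (push g l)) +
        ∑ j ∈ range (nt l), Kw H x (pop j l)) := by
  have h1 : Kw H x l = (wk H 0 l : ℝ≥0∞) * x ^ 0 + ∑' m, (wk H (m + 1) l : ℝ≥0∞) * x ^ (m + 1) := by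
    unfold Kw
    exact tsum_eq_zero_add' (f := fun m => (wk H m l : ℝ≥0∞) * x ^ m) ENNReal.summable
  rw [h1]
  congr 1
  · simp only [wk, pow_zero, mul_one]
    split_ifs <;> simp
  · have h2 : ∀ m, (wk H (m + 1) l : ℝ≥0∞) * x ^ (m + 1) =
        x * ((∑ g ∈ range (H - l.length), (wk H m (push g l) : ℝ≥0∞) * x ^ m) +
          ∑ j ∈ range (nt l), (wk H m (pop j l) : ℝ≥0∞) * x ^ m) := by
      intro m
      rw [← Finset.sum_mul, ← Finset.sum_mul, ← add_mul]
      simp only [wk]
      push_cast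
      rw [pow_succ]
      ring
    simp_rw [h2]
    rw [ENNReal.tsum_mul_left, ENNReal.tsum_add]
    unfold Kw
    rw [Summable.tsum_finsetSum (fun _ _ => ENNReal.summable),
      Summable.tsum_finsetSum (fun _ _ => ENNReal.summable)]

end Pool.Agent.Lib_helper12.NZ
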