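import Pool.Agent.Lib_helper12.NZ.Base
import Pool.Agent.Lib_helper12.NZ.Fin.U_NZ_EV6_helper80

set_option autoImplicit false

open Finset
open scoped ENNReal

namespace Pool.Agent.Lib_helper12.NZ

theorem UB1_kill_length (l : List Bool) : (kill l).length = l.length := by
  induction l with
  | nil => rfl
  | cons a l ih =>
    cases a
    · show (false :: kill l).length = _
      rw [List.length_cons, List.length_cons, ih]
    · rfl

theorem UB1_kill_iter (j : ℕ) (l : List Bool) : (kill^[j] l).length = l.length := by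
  induction j generalizing l with
  | zero => rfl
  | succ j ih => rw [Function.iterate_succ_apply, ih, UB1_kill_length]

theorem UB1_pop_length (j : ℕ) (l : List Bool) : (pop j l).length = l.length - 1 := by
  rw [pop, List.length_tail, UB1_kill_iter]

theorem UB1_push_length (g : ℕ) (l : List Bool) : (push g l).length = g + l.length := by
  rw [push, List.length_append, List.length_replicate]

theorem UB1_geom (w : ℝ) (hw : 0 < w) (hw1 : w < 1) (Y r : ℕ) :
    ∑ Y' ∈ Icc Y r, ENNReal.ofReal w ^ Y' ≤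
      ENNReal.ofReal w ^ Y * ENNReal.ofReal (1 / (1 - w)) := by
  have h : ∑ Y' ∈ Icc Y r, w ^ Y' ≤ w ^ Y * (1 / (1 - w)) := by
    have h1 : Icc Y r = Ico Y (r + 1) := by
      ext a
      simp only [mem_Icc, mem_Ico]
      omega
    rw [h1, mul_one_div]
    exact geom_sum_Ico_le_of_lt_one hw.le hw1
  have h2 : ∑ Y' ∈ Icc Y r, ENNReal.ofReal w ^ Y' = ENNReal.ofReal (∑ Y' ∈ Icc Y r, w ^ Y') := by
    rw [ENNReal.ofReal_sum_of_nonneg fun i _ => pow_nonneg hw.le i]
    exact sum_congr rfl fun i _ => (ENNReal.ofReal_pow hw.le i).symm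
  rw [h2, ← ENNReal.ofReal_pow hw.le, ← ENNReal.ofReal_mul (pow_nonneg hw.le Y)]
  exact ENNReal.ofReal_le_ofReal h

/-- the next lists -/
theorem UB1_next (H : ℕ) (x : ℝ≥0∞) (l : List Bool) (Y : ℕ) (hY : Y < H) :
    x * ((∑ g ∈ range (Y - l.length), Kw H x (push g l)) + ∑ j ∈ range (nt l), Kw H x (pop j l)) ≤
      Kw H x l := by
  rw [EV6 H x l]
  refine le_trans ?_ le_add_self
  gcongr

theorem UB1_main (H : ℕ) (x w : ℝ) (hx : 0 < x) (hw : 0 < w) (hw1 : w < 1) (r : ℕ) :
    ∀ (Y : ℕ) (l : List Bool), Y < H → l.length ≤ Y →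
      (cmpB H r Y l : ℝ≥0∞) * Kw H (ENNReal.ofReal x) [] ≤
        (ENNReal.ofReal (1 / (1 - w)) + ENNReal.ofReal (1 / (w * x))) ^ r * ENNReal.ofReal w ^ Y *
          Kw H (ENNReal.ofReal x) l := by
  set K := Kw H (ENNReal.ofReal x) with hK
  set A := ENNReal.ofReal (1 / (1 - w)) with hA
  set B := ENNReal.ofReal (1 / (w * x)) with hB
  set W := ENNReal.ofReal w with hW
  have hone : W * ENNReal.ofReal x * B = 1 := by
    rw [hW, hB, ← ENNReal.ofReal_mul hw.le, ← ENNReal.ofReal_mul (by positivity)]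
    have : w * x * (1 / (w * x)) = 1 := by
      field_simp
    rw [this, ENNReal.ofReal_one]
  induction r with
  | zero =>
    intro Y l _ _
    rw [cmpB]
    split_ifs with h
    · rw [h.1, h.2]
      simp
    · simp
  | succ r ih =>
    intro Y l hY hl
    rw [cmpB]
    have h1 : ((∑ Y' ∈ (Icc Y r).filter (· < H), cmpB H r Y' l : ℕ) : ℝ≥0∞) * K [] ≤
        (A + B) ^ r * W ^ Y * A * K l := by
      rw [Nat.cast_sum, sum_mul]
      calc ∑ Y' ∈ (Icc Y r).filter (· < H), (cmpB H r Y' l : ℝ≥0∞) * K []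
          ≤ ∑ Y' ∈ (Icc Y r).filter (· < H), (A + B) ^ r * W ^ Y' * K l := by
            refine sum_le_sum fun Y' hY' => ?_
            rw [mem_filter, mem_Icc] at hY'
            exact ih Y' l hY'.2 (hl.trans hY'.1.1)
        _ ≤ ∑ Y' ∈ Icc Y r, (A + B) ^ r * W ^ Y' * K l :=
            sum_le_sum_of_subset (filter_subset _ _)
        _ = (A + B) ^ r * (∑ Y' ∈ Icc Y r, W ^ Y') * K l := by
            rw [mul_sum, sum_mul]
        _ ≤ (A + B) ^ r * (W ^ Y * A) * K l := by
            gcongr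
            exact UB1_geom w hw hw1 Y r
        _ = _ := by ring
    have h2 : ((if Y = 0 then 0 else (∑ g ∈ range (Y - l.length), cmpB H r (Y - 1) (push g l)) +
        ∑ j ∈ range (nt l), cmpB H r (Y - 1) (pop j l) : ℕ) : ℝ≥0∞) * K [] ≤
        (A + B) ^ r * W ^ Y * B * K l := by
      split_ifs with h0
      · simp
      obtain ⟨Z, rfl⟩ : ∃ Z, Y = Z + 1 := ⟨Y - 1, by omega⟩
      rw [Nat.add_sub_cancel, Nat.cast_add, Nat.cast_sum, Nat.cast_sum, add_mul, sum_mul, sum_mul]
      calc ∑ g ∈ range (Z + 1 - l.length), (cmpB H r Z (push g l) : ℝ≥0∞) * K [] +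
            ∑ j ∈ range (nt l), (cmpB H r Z (pop j l) : ℝ≥0∞) * K []
          ≤ ∑ g ∈ range (Z + 1 - l.length), (A + B) ^ r * W ^ Z * K (push g l) +
            ∑ j ∈ range (nt l), (A + B) ^ r * W ^ Z * K (pop j l) := by
            refine add_le_add (sum_le_sum fun g hg => ?_) (sum_le_sum fun j _ => ?_)
            · rw [mem_range] at hg
              refine ih Z _ (by omega) ?_
              rw [UB1_push_length]
              omega
            · refine ih Z _ (by omega) ?_
              rw [UB1_pop_length]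
              omega
        _ = (A + B) ^ r * W ^ Z * (∑ g ∈ range (Z + 1 - l.length), K (push g l) +
            ∑ j ∈ range (nt l), K (pop j l)) := by
            rw [mul_add, mul_sum, mul_sum]
        _ = (A + B) ^ r * W ^ Z * (W * ENNReal.ofReal x * B) *
            (∑ g ∈ range (Z + 1 - l.length), K (push g l) + ∑ j ∈ range (nt l), K (pop j l)) := by
            rw [hone, mul_one]
        _ = (A + B) ^ r * W ^ (Z + 1) * B * (ENNReal.ofReal x *
            (∑ g ∈ range (Z + 1 - l.length), K (push g l) + ∑ j ∈ range (nt l), K (pop j l))) := by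
            ring
        _ ≤ (A + B) ^ r * W ^ (Z + 1) * B * K l := by
            gcongr
            exact UB1_next H _ l (Z + 1) hY
    rw [Nat.cast_add, add_mul]
    calc _ ≤ (A + B) ^ r * W ^ Y * A * K l + (A + B) ^ r * W ^ Y * B * K l := add_le_add h1 h2
      _ = _ := by ring

/-- UB1: potential bound, all `Y < H` -/
theorem UB1 (H : ℕ) (hH : 1 ≤ H) (x w : ℝ) (hx : 0 < x) (hw : 0 < w) (hw1 : w < 1)
    (hK : Kw H (ENNReal.ofReal x) [] < ⊤) (n : ℕ) :
    (cmpB H n 0 [] : ℝ) ≤ (1 / (1 - w) + 1 / (w * x)) ^ n := by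
  have h1 := UB1_main H x w hx hw hw1 n 0 [] (by omega) (by simp)
  have h0 : Kw H (ENNReal.ofReal x) [] ≠ 0 := by
    rw [EV6]
    simp
  rw [pow_zero, mul_one, ENNReal.mul_le_mul_iff_left h0 hK.ne] at h1
  have hw' : 0 < 1 - w := by linarith
  rw [← ENNReal.ofReal_add (by positivity) (by positivity), ← ENNReal.ofReal_pow (by positivity),
    ← ENNReal.ofReal_natCast] at h1
  exact (ENNReal.ofReal_le_ofReal_iff (by positivity)).1 h1

end Pool.Agent.Lib_helper12.NZ
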