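import Pool.Agent.Lib_helper12.NZ.Base

set_option autoImplicit false

open Finset
open scoped ENNReal

namespace Pool.Agent.Lib_helper12.NZ

/-- UB3 -/
theorem UB3 (ε : ℝ) (h0 : 0 < ε) (h1 : ε ≤ 1 / 8) : ∃ w : ℝ, 0 < w ∧ w < 1 ∧
    1 / (1 - w) + 1 / (w * (1 / 8 + ε)) ≤ muR * Real.exp (-(2 * ε)) := by
  set s : ℝ := √(1 / 8 + ε) with hs
  have hs0 : 0 < s := Real.sqrt_pos.mpr (by linarith)
  have hss : s ^ 2 = 1 / 8 + ε := Real.sq_sqrt (by linarith)
  have h80 : 0 < √(8 : ℝ) := Real.sqrt_pos.mpr (by norm_num)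
  have h88 : √(8 : ℝ) ^ 2 = 8 := Real.sq_sqrt (by norm_num)
  have h81 : 1 ≤ √(8 : ℝ) := by
    rw [show (1 : ℝ) = √1 by simp]
    exact Real.sqrt_le_sqrt (by norm_num)
  have h1s : 0 < 1 + s := by linarith
  refine ⟨1 / (1 + s), by positivity, ?_, ?_⟩
  · rw [div_lt_one h1s]; linarith
  · have hval : 1 / (1 - 1 / (1 + s)) + 1 / (1 / (1 + s) * (1 / 8 + ε)) = (1 + 1 / s) ^ 2 := by
      rw [← hss]
      have h2 : 1 - 1 / (1 + s) = s / (1 + s) := by field_simp; ring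
      rw [h2]
      field_simp
      ring
    rw [hval, muR]
    have hkey : 1 / s ≤ √8 * (1 - 2 * ε) := by
      rw [div_le_iff₀ hs0]
      have h3 : 0 ≤ √8 * (1 - 2 * ε) * s := by
        have : 0 ≤ 1 - 2 * ε := by linarith
        positivity
      have h4 : 1 ≤ (√8 * (1 - 2 * ε) * s) ^ 2 := by
        have h5 : (√8 * (1 - 2 * ε) * s) ^ 2 = √8 ^ 2 * (1 - 2 * ε) ^ 2 * s ^ 2 := by ring
        rw [h5, h88, hss]
        have h6 : 0 ≤ ε * (4 - 28 * ε + 32 * ε ^ 2) := by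
          apply mul_nonneg h0.le
          nlinarith [sq_nonneg ε]
        nlinarith
      nlinarith [sq_nonneg (√8 * (1 - 2 * ε) * s - 1)]
    have h7 : 1 + 1 / s ≤ (1 + √8) * (1 - ε) := by nlinarith
    have h8 : 0 ≤ 1 + 1 / s := by positivity
    calc (1 + 1 / s) ^ 2 ≤ ((1 + √8) * (1 - ε)) ^ 2 := pow_le_pow_left₀ h8 h7 2
      _ = (1 + √8) ^ 2 * (1 - ε) ^ 2 := by ring
      _ ≤ (1 + √8) ^ 2 * Real.exp (-(2 * ε)) := by
        apply mul_le_mul_of_nonneg_left _ (by positivity)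
        have h9 := Real.add_one_le_exp (-ε)
        have h10 : (1 - ε) ^ 2 ≤ (Real.exp (-ε)) ^ 2 :=
          pow_le_pow_left₀ (by linarith) (by linarith) 2
        rw [← Real.exp_nat_mul] at h10
        have h11 : ((2 : ℕ) : ℝ) * -ε = -(2 * ε) := by push_cast; ring
        rw [h11] at h10
        exact h10

end Pool.Agent.Lib_helper12.NZ
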