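import Pool.Agent.Lib_helper12.NZ.Base

set_option autoImplicit false

open Finset
open scoped ENNReal

namespace Pool.Agent.Lib_helper12.NZ

theorem UB4_val (η : ℝ) (h1 : η ^ 2 ≤ (1 / 10) ^ 2) (w : ℝ)
    (hw : (w - √8 / (1 + √8)) ^ 2 = η ^ 2) :
    0 < w ∧ w < 1 ∧ 1 / (1 - w) + 1 / (w * (1 / 8)) ≤ muR * Real.exp (8 * η ^ 2) := by
  have h88 : √(8 : ℝ) ^ 2 = 8 := Real.sq_sqrt (by norm_num)
  have hlo : (2.82 : ℝ) ≤ √8 := Real.le_sqrt_of_sq_le (by norm_num)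
  have hhi : √8 ≤ (2.83 : ℝ) := Real.sqrt_le_iff.mpr ⟨by norm_num, by norm_num⟩
  have hpos : 0 < 1 + √(8 : ℝ) := by linarith
  set w0 : ℝ := √8 / (1 + √8) with hw0
  have hw0lo : 0.738 ≤ w0 := by rw [hw0, le_div_iff₀ hpos]; linarith
  have hw0hi : w0 ≤ 0.739 := by rw [hw0, div_le_iff₀ hpos]; linarith
  have hd := abs_le_of_sq_le_sq' (a := w - w0) (b := 1 / 10) (by rw [hw]; exact h1) (by norm_num)
  have hwlo : 0.638 ≤ w := by linarith [hd.1]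
  have hwhi : w ≤ 0.839 := by linarith [hd.2]
  refine ⟨by linarith, by linarith, ?_⟩
  have hww : 1 / 8 ≤ w * (1 - w) := by nlinarith
  have hmu0 : 0 ≤ (1 + √(8 : ℝ)) ^ 2 := by positivity
  have hval : 1 / (1 - w) + 1 / (w * (1 / 8)) =
      (1 + √8) ^ 2 * (1 + η ^ 2 / (w * (1 - w))) := by
    have e1 : (1 - w) ≠ 0 := by linarith
    have e2 : w ≠ 0 := by linarith
    rw [← hw]
    have h3 : (1 + √8) * w0 = √8 := by rw [hw0]; field_simp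
    have h4 : (1 + √8) ^ 2 * (w - w0) ^ 2 = 8 - (7 + (9 + 2 * √8)) * w + (9 + 2 * √8) * w ^ 2 := by
      have h5 : (1 + √8) ^ 2 * (w - w0) ^ 2 = ((1 + √8) * w - (1 + √8) * w0) ^ 2 := by ring
      rw [h5, h3]
      nlinarith [h88]
    have h6 : (1 + √8) ^ 2 = 9 + 2 * √8 := by nlinarith [h88]
    have h7 : (1 + √8) ^ 2 * (1 + (w - w0) ^ 2 / (w * (1 - w))) =
        (1 + √8) ^ 2 + ((1 + √8) ^ 2 * (w - w0) ^ 2) / (w * (1 - w)) := by ring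
    rw [h7, h4, h6]
    field_simp
    ring
  rw [hval, muR]
  apply mul_le_mul_of_nonneg_left _ hmu0
  have h8 : η ^ 2 / (w * (1 - w)) ≤ 8 * η ^ 2 := by
    rw [div_le_iff₀ (by linarith)]
    nlinarith [sq_nonneg η]
  have h9 := Real.add_one_le_exp (8 * η ^ 2)
  linarith

/-- UB4 -/
theorem UB4 (η : ℝ) (h0 : 0 < η) (h1 : η ≤ 1 / 10) : ∃ w1 w2 : ℝ, 0 < w2 ∧ w2 ≤ w1 ∧ w1 < 1 ∧
    w2 / w1 ≤ Real.exp (-(2 * η)) ∧
    1 / (1 - w1) + 1 / (w1 * (1 / 8)) ≤ muR * Real.exp (8 * η ^ 2) ∧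
    1 / (1 - w2) + 1 / (w2 * (1 / 8)) ≤ muR * Real.exp (8 * η ^ 2) := by
  have hη2 : η ^ 2 ≤ (1 / 10) ^ 2 := pow_le_pow_left₀ h0.le h1 2
  obtain ⟨a1, a2, a3⟩ := UB4_val η hη2 (√8 / (1 + √8) + η) (by ring)
  obtain ⟨b1, b2, b3⟩ := UB4_val η hη2 (√8 / (1 + √8) - η) (by ring)
  refine ⟨√8 / (1 + √8) + η, √8 / (1 + √8) - η, b1, by linarith, a2, ?_, a3, b3⟩
  rw [div_le_iff₀ a1]
  have h2 := Real.add_one_le_exp (-(2 * η))
  have h3 : (-(2 * η) + 1) * (√8 / (1 + √8) + η) ≤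
      Real.exp (-(2 * η)) * (√8 / (1 + √8) + η) := mul_le_mul_of_nonneg_right h2 a1.le
  nlinarith

end Pool.Agent.Lib_helper12.NZ
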