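import Pool.Agent.Lib_helper12.NZ.Base
import Pool.Agent.Lib_helper12.NZ.Fin.U_NZ_EV4_helper80
import Pool.Agent.Lib_helper12.NZ.Fin.U_NZ_EV5_helper80
import Pool.Agent.Lib_helper12.NZ.Fin.U_NZ_F1_helper24
import Pool.Agent.Lib_helper12.NZ.Fin.U_NZ_F2_helper24
import Pool.Agent.Lib_helper12.NZ.Fin.U_NZ_K5_helper37
import Pool.Agent.Lib_helper12.NZ.Fin.U_L3
import Pool.Agent.Lib_helper12.NZ.Fin.U_NZ_UB1_helper50
import Pool.Agent.Lib_helper12.NZ.Fin.U_NZ_UB2_helper75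
import Pool.Agent.Lib_helper12.NZ.Fin.U_NZ_UB3_helper80
import Pool.Agent.Lib_helper12.NZ.Fin.U_NZ_UB4_helper80

set_option autoImplicit false
open Finset
open scoped ENNReal

namespace Pool.Agent.Lib_helper12.NZ

theorem UB5_fin (H : ℕ) (hH : 1 ≤ H) (x : ℝ) (hx : 0 < x) (hx1 : x ≤ 1 / 5)
    (h : yh (H - 1) (ENNReal.ofReal x) ≤ ENNReal.ofReal (3 / 10)) :
    Kw H (ENNReal.ofReal x) [] < ⊤ := by
  rw [EV5 H hH, ENNReal.inv_lt_top]
  rw [tsub_pos_iff_lt]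
  have h1 : gh (H - 1) (ENNReal.ofReal x) + 1 ≤ ENNReal.ofReal (10 / 7) := by
    refine (EV4 (H - 1) _).trans ?_
    have h2 : (1 : ℝ≥0∞) - ENNReal.ofReal (3 / 10) ≤ 1 - yh (H - 1) (ENNReal.ofReal x) :=
      tsub_le_tsub_left h 1
    refine (ENNReal.inv_le_inv.2 h2).trans ?_
    rw [← ENNReal.ofReal_one, ← ENNReal.ofReal_sub _ (by norm_num), ← ENNReal.ofReal_inv_of_pos
      (by norm_num)]
    exact ENNReal.ofReal_le_ofReal (by norm_num)
  rw [add_comm] at h1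
  calc ENNReal.ofReal x * (1 + gh (H - 1) (ENNReal.ofReal x))
      ≤ ENNReal.ofReal x * ENNReal.ofReal (10 / 7) := by gcongr
    _ = ENNReal.ofReal (x * (10 / 7)) := (ENNReal.ofReal_mul hx.le).symm
    _ < ENNReal.ofReal 1 := by
        rw [ENNReal.ofReal_lt_ofReal_iff (by norm_num)]
        linarith
    _ = 1 := ENNReal.ofReal_one

/-- UB5: combination -/
theorem UB5 (H n : ℕ) (hH : 1 ≤ H) (hn : (H : ℝ) ≤ 8 / 10 * n) :
    (cmp n 0 [] : ℝ) ≤ muR ^ n * (Real.exp (-(n / (200 * (H : ℝ) ^ (3 / 2 : ℝ)))) +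
      Real.exp (-((H : ℝ) ^ 2 / (8 * n)))) := by
  have hH' : (1 : ℝ) ≤ H := by exact_mod_cast hH
  have hHp : (1 : ℝ) ≤ (H : ℝ) ^ (3 / 2 : ℝ) := Real.one_le_rpow hH' (by norm_num)
  have hn' : (0 : ℝ) < n := by linarith
  have hmu : 0 < muR := by unfold muR; positivity
  -- part B
  set ε : ℝ := 1 / (400 * (H : ℝ) ^ (3 / 2 : ℝ)) with hε
  have hε0 : 0 < ε := by positivity
  have hεH : ε * (H : ℝ) ^ (3 / 2 : ℝ) ≤ 1 / 400 := by
    rw [hε]; apply le_of_eq; field_simp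
  have hε1 : ε ≤ 1 / 400 := by
    calc ε ≤ ε * (H : ℝ) ^ (3 / 2 : ℝ) := le_mul_of_one_le_right hε0.le hHp
      _ ≤ 1 / 400 := hεH
  have hfB : Kw H (ENNReal.ofReal (1 / 8 + ε)) [] < ⊤ :=
    UB5_fin H hH _ (by positivity) (by linarith) (K5 H ε hε0 hεH (H - 1) (by omega))
  obtain ⟨w, hw0, hw1, hw2⟩ := UB3 ε hε0 (by linarith)
  have hB : (cmpB H n 0 [] : ℝ) ≤ muR ^ n * Real.exp (-(n / (200 * (H : ℝ) ^ (3 / 2 : ℝ)))) := by
    refine (UB1 H hH (1 / 8 + ε) w (by positivity) hw0 hw1 hfB n).trans ?_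
    have hp : 0 ≤ 1 / (1 - w) + 1 / (w * (1 / 8 + ε)) := by
      have : 0 < 1 - w := by linarith
      positivity
    refine (pow_le_pow_left₀ hp hw2 n).trans ?_
    rw [mul_pow, ← Real.exp_nat_mul]
    apply le_of_eq
    congr 2
    rw [hε]
    field_simp
    ring
  -- part A
  obtain ⟨G, g0, g1, g2, g3⟩ := F1
  have h18 : ENNReal.ofReal (1 / 8) = (1 / 8 : ℝ≥0∞) := by
    rw [ENNReal.ofReal_div_of_pos (by norm_num)]; simp
  have hfA : Kw (n + 1) (ENNReal.ofReal (1 / 8)) [] < ⊤ := by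
    apply UB5_fin (n + 1) (by omega) _ (by norm_num) (by norm_num)
    rw [h18]
    refine ((F2 G g0 g1 g2 g3 _).1).trans ?_
    have : (1 / 4 : ℝ≥0∞) = ENNReal.ofReal (1 / 4) := by
      rw [ENNReal.ofReal_div_of_pos (by norm_num)]; simp
    rw [this]
    exact ENNReal.ofReal_le_ofReal (by norm_num)
  set η : ℝ := H / (8 * n) with hη
  have hη0 : 0 < η := by positivity
  have hη1 : η ≤ 1 / 10 := by
    rw [hη, div_le_iff₀ (by positivity)]; linarith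
  obtain ⟨w1, w2, k1, k2, k3, k4, k5, k6⟩ := UB4 η hη0 hη1
  have hA : (cmpA H n 0 [] : ℝ) ≤ muR ^ n * Real.exp (-((H : ℝ) ^ 2 / (8 * n))) := by
    refine (UB2 H n hH (1 / 8) w1 w2 (muR * Real.exp (8 * η ^ 2)) (by norm_num) k1 k2 k3 k5 k6
      hfA).trans ?_
    have hq : 0 ≤ w2 / w1 := by
      have : 0 < w1 := by linarith
      positivity
    calc (w2 / w1) ^ H * (muR * Real.exp (8 * η ^ 2)) ^ n
        ≤ (Real.exp (-(2 * η))) ^ H * (muR * Real.exp (8 * η ^ 2)) ^ n := by gcongr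
      _ = muR ^ n * Real.exp (-((H : ℝ) ^ 2 / (8 * n))) := by
          rw [mul_pow, ← Real.exp_nat_mul, ← Real.exp_nat_mul, mul_left_comm, ← Real.exp_add]
          congr 2
          rw [hη]
          field_simp
          ring
  rw [UB0 H n 0 [] (by omega)]
  push_cast
  rw [mul_add]
  linarith

end Pool.Agent.Lib_helper12.NZ
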