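import Pool.Agent.Lib_helper12.NZ.Base
import Pool.Agent.Lib_helper12.NZ.Fin.U_CG
import Pool.Agent.Lib_helper12.NZ.Fin.U_UB5

/-!
# NZ, block UB6: superpolynomial decay
-/

set_option autoImplicit false

open Finset
open scoped ENNReal

namespace Pool.Agent.Lib_helper12.NZ

theorem UB6_muR : (0 : ℝ) < muR := by
  unfold muR
  positivity

theorem UB6_large (K n : ℕ) (hn : 32 ≤ n) :
    (av n : ℝ) * (n : ℝ) ^ K ≤ (2 * (600 ^ (10 * K) * (10 * K).factorial)) * muR ^ n := by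
  obtain ⟨s, hs0, hs⟩ : ∃ s : ℝ, 0 ≤ s ∧ s ^ 10 = n := by
    refine ⟨(n : ℝ) ^ ((10 : ℕ) : ℝ)⁻¹, by positivity, ?_⟩
    exact Real.rpow_inv_natCast_pow (Nat.cast_nonneg n) (by norm_num)
  have hn' : (32 : ℝ) ≤ s ^ 10 := by rw [hs]; exact_mod_cast hn
  have hs2 : (2 : ℝ) ≤ s ^ 2 := by
    by_contra hcon
    push Not at hcon
    have h1 : (s ^ 2) ^ 5 < 2 ^ 5 := by
      exact pow_lt_pow_left₀ hcon (by positivity) (by norm_num)
    have h2 : (s ^ 2) ^ 5 = s ^ 10 := by ring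
    rw [h2] at h1
    norm_num at h1
    linarith
  have hs1 : (1 : ℝ) ≤ s := by nlinarith
  have hspos : 0 < s := by linarith
  set H : ℕ := ⌈s ^ 6⌉₊ with hH
  have hH1 : s ^ 6 ≤ H := Nat.le_ceil _
  have hH2 : (H : ℝ) < s ^ 6 + 1 := Nat.ceil_lt_add_one (by positivity)
  have hs6 : (1 : ℝ) ≤ s ^ 6 := one_le_pow₀ hs1
  have hH3 : (H : ℝ) ≤ 2 * s ^ 6 := by linarith
  have hH1' : 1 ≤ H := by
    have : (1 : ℝ) ≤ H := le_trans hs6 hH1
    exact_mod_cast this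
  have hHn : (H : ℝ) ≤ 8 / 10 * n := by
    rw [← hs]
    have h4 : (4 : ℝ) ≤ s ^ 4 := by
      have : s ^ 4 = s ^ 2 * s ^ 2 := by ring
      nlinarith
    have h10 : s ^ 10 = s ^ 6 * s ^ 4 := by ring
    nlinarith
  have key := UB5 H n hH1' hHn
  have hHpos : (0 : ℝ) < H := by linarith
  have hr : (H : ℝ) ^ (3 / 2 : ℝ) ≤ 3 * s ^ 9 := by
    have h1 : ((H : ℝ) ^ (3 / 2 : ℝ)) ^ 2 = (H : ℝ) ^ 3 := by
      rw [← Real.rpow_natCast, ← Real.rpow_mul hHpos.le, ← Real.rpow_natCast]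
      norm_num
    have h2 : (H : ℝ) ^ 3 ≤ (2 * s ^ 6) ^ 3 := pow_le_pow_left₀ hHpos.le hH3 3
    have h3 : (2 * s ^ 6) ^ 3 ≤ (3 * s ^ 9) ^ 2 := by
      have e1 : (2 * s ^ 6) ^ 3 = 8 * s ^ 18 := by ring
      have e2 : (3 * s ^ 9) ^ 2 = 9 * s ^ 18 := by ring
      rw [e1, e2]
      have : 0 ≤ s ^ 18 := by positivity
      linarith
    have h4 : ((H : ℝ) ^ (3 / 2 : ℝ)) ^ 2 ≤ (3 * s ^ 9) ^ 2 := by rw [h1]; exact h2.trans h3
    exact (pow_le_pow_iff_left₀ (by positivity) (by positivity) (by norm_num)).mp h4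
  have hrpos : (0 : ℝ) < (H : ℝ) ^ (3 / 2 : ℝ) := Real.rpow_pos_of_pos hHpos _
  have ha : s / 600 ≤ (n : ℝ) / (200 * (H : ℝ) ^ (3 / 2 : ℝ)) := by
    rw [← hs, div_le_div_iff₀ (by norm_num) (by positivity)]
    calc s * (200 * (H : ℝ) ^ (3 / 2 : ℝ)) ≤ s * (200 * (3 * s ^ 9)) := by gcongr
      _ = s ^ 10 * 600 := by ring
  have hb : s / 600 ≤ (H : ℝ) ^ 2 / (8 * n) := by
    rw [← hs, div_le_div_iff₀ (by norm_num) (by positivity)]
    have h1 : (s ^ 6) ^ 2 ≤ (H : ℝ) ^ 2 := pow_le_pow_left₀ (by positivity) hH1 2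
    have h2 : s * (8 * s ^ 10) ≤ (s ^ 6) ^ 2 * 600 := by
      have e1 : s * (8 * s ^ 10) = 8 * s ^ 11 := by ring
      have e2 : (s ^ 6) ^ 2 * 600 = 600 * s ^ 11 * s := by ring
      rw [e1, e2]
      have h0 : 0 ≤ s ^ 11 := by positivity
      nlinarith
    nlinarith
  have e1 : Real.exp (-(n / (200 * (H : ℝ) ^ (3 / 2 : ℝ)))) ≤ Real.exp (-(s / 600)) := by
    apply Real.exp_le_exp.mpr
    linarith
  have e2 : Real.exp (-((H : ℝ) ^ 2 / (8 * n))) ≤ Real.exp (-(s / 600)) := by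
    apply Real.exp_le_exp.mpr
    linarith
  have hexp : s ^ (10 * K) * Real.exp (-(s / 600)) ≤ 600 ^ (10 * K) * (10 * K).factorial := by
    have h1 := Real.pow_div_factorial_le_exp (s / 600) (by positivity) (10 * K)
    rw [Real.exp_neg, ← div_eq_mul_inv, div_le_iff₀ (Real.exp_pos _)]
    rw [div_le_iff₀ (by positivity), div_pow, div_le_iff₀ (by positivity)] at h1
    linarith
  have hmu : (0 : ℝ) < muR ^ n := pow_pos UB6_muR n
  have hnK : (n : ℝ) ^ K = s ^ (10 * K) := by rw [← hs, pow_mul]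
  rw [CG n, hnK]
  have hsK : (0 : ℝ) ≤ s ^ (10 * K) := by positivity
  calc (cmp n 0 [] : ℝ) * s ^ (10 * K)
      ≤ (muR ^ n * (Real.exp (-(n / (200 * (H : ℝ) ^ (3 / 2 : ℝ)))) +
          Real.exp (-((H : ℝ) ^ 2 / (8 * n))))) * s ^ (10 * K) := by gcongr
    _ ≤ (muR ^ n * (Real.exp (-(s / 600)) + Real.exp (-(s / 600)))) * s ^ (10 * K) := by
        gcongr
    _ = 2 * (s ^ (10 * K) * Real.exp (-(s / 600))) * muR ^ n := by ring
    _ ≤ 2 * (600 ^ (10 * K) * (10 * K).factorial) * muR ^ n := by gcongr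

/-- UB6: superpolynomial decay -/
theorem UB6 (K : ℕ) : ∃ C : ℝ, ∀ n : ℕ, (av n : ℝ) * (n : ℝ) ^ K ≤ C * muR ^ n := by
  refine ⟨2 * (600 ^ (10 * K) * (10 * K).factorial) +
    ∑ i ∈ range 32, (av i : ℝ) * (i : ℝ) ^ K / muR ^ i, fun n => ?_⟩
  have hmu : ∀ i : ℕ, (0 : ℝ) < muR ^ i := fun i => pow_pos UB6_muR i
  have hS : 0 ≤ ∑ i ∈ range 32, (av i : ℝ) * (i : ℝ) ^ K / muR ^ i := by
    apply Finset.sum_nonneg
    intro i _
    have := hmu i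
    positivity
  have h0 : (0 : ℝ) ≤ 2 * (600 ^ (10 * K) * (10 * K).factorial) := by positivity
  by_cases hn : 32 ≤ n
  · refine (UB6_large K n hn).trans ?_
    apply mul_le_mul_of_nonneg_right _ (hmu n).le
    linarith
  · push Not at hn
    have h1 : (av n : ℝ) * (n : ℝ) ^ K / muR ^ n ≤
        ∑ i ∈ range 32, (av i : ℝ) * (i : ℝ) ^ K / muR ^ i :=
      Finset.single_le_sum (f := fun i : ℕ => (av i : ℝ) * (i : ℝ) ^ K / muR ^ i)
        (fun i _ => by have := hmu i; positivity) (Finset.mem_range.mpr hn)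
    rw [div_le_iff₀ (hmu n)] at h1
    refine h1.trans ?_
    apply mul_le_mul_of_nonneg_right _ (hmu n).le
    linarith

end Pool.Agent.Lib_helper12.NZ
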