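import Pool.Agent.Lib_helper12.NZ.Base
import Pool.Agent.Lib_helper12.NZ.Fin.U_AR18
import Pool.Agent.Lib_helper12.NZ.Fin.U_NZ_UB6_helper87
import Pool.Agent.Lib_helper12.NZ.Fin.U_L5

set_option autoImplicit false
open Finset

namespace Pool.Agent.Lib_helper12.NZ

/-- the frozen negation: the class of permutations avoiding 12534 is not D-finite -/
theorem main :
    ¬ (∀ (k : ℕ) (q : Equiv.Perm (Fin k)),
      ∃ (d : ℕ) (p : ℕ → Polynomial ℚ),
        p d ≠ 0 ∧
        (∑ i ∈ Finset.range (d + 1),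
          (p i : PowerSeries ℚ) *
            (⇑(PowerSeries.derivative ℚ))^[i]
              (PowerSeries.mk (fun n : ℕ =>
                ((Nat.card {σ : Equiv.Perm (Fin n) //
                  ¬ ∃ f : Fin k ↪o Fin n,
                    ∀ i j : Fin k, q i < q j ↔ σ (f i) < σ (f j)} : ℕ) : ℚ)))) = 0) := by
  intro h
  obtain ⟨d, p, hp, hr⟩ := h 5 pat
  have hmu : 0 < muR := by unfold muR; positivity
  exact AR18 av muR hmu UB6 (fun ρ h0 h1 => L7 ρ h0 h1) d p hp hr

end Pool.Agent.Lib_helper12.NZ
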