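import Pool.Agent.Lib_helper12.NZ.Base
import Pool.Agent.Lib_helper12.NZ.Fin.U_NZ_EV6_helper80

set_option autoImplicit false

open Finset
open scoped ENNReal

namespace Pool.Agent.Lib_helper12.NZ

theorem UB2_push_length (g : ℕ) (l : List Bool) : (push g l).length = g + l.length := by
  simp [push]

theorem UB2_kill_length (l : List Bool) : (kill l).length = l.length := by
  induction l with
  | nil => rfl
  | cons a l ih =>
    cases a
    · simp [kill, ih]
    · simp [kill]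

theorem UB2_kill_iter_length (j : ℕ) (l : List Bool) : (kill^[j] l).length = l.length := by
  induction j generalizing l with
  | zero => rfl
  | succ j ih =>
    rw [Function.iterate_succ_apply, ih, UB2_kill_length]

theorem UB2_pop_length (j : ℕ) (l : List Bool) : (pop j l).length = l.length - 1 := by
  unfold pop
  rw [List.length_tail, UB2_kill_iter_length]

theorem UB2_geo (w : ℝ) (hw0 : 0 < w) (hw1 : w < 1) (Y r : ℕ) :
    ∑ Y' ∈ Icc Y r, (ENNReal.ofReal w) ^ Y' ≤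
      ENNReal.ofReal (1 / (1 - w)) * (ENNReal.ofReal w) ^ Y := by
  have h1 : Icc Y r = Ico Y (r + 1) := by
    ext t
    simp only [Finset.mem_Icc, Finset.mem_Ico]
    omega
  rw [h1, Finset.sum_Ico_eq_sum_range]
  simp only [pow_add]
  rw [← Finset.mul_sum, mul_comm]
  apply mul_le_mul_left
  have h3 : (0 : ℝ) < 1 - w := by linarith
  have h2 : ENNReal.ofReal (1 / (1 - w)) = (1 - ENNReal.ofReal w)⁻¹ := by
    rw [one_div, ENNReal.ofReal_inv_of_pos h3, ENNReal.ofReal_sub _ hw0.le, ENNReal.ofReal_one]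
  rw [h2, ← ENNReal.tsum_geometric]
  exact ENNReal.sum_le_tsum _

theorem UB2_step (n : ℕ) (x w ρ : ℝ) (hx : 0 < x) (hw0 : 0 < w) (hw1 : w < 1)
    (h : 1 / (1 - w) + 1 / (w * x) ≤ ρ) (Q : ℝ≥0∞) (r Y : ℕ) (l : List Bool) (hY : Y ≤ n) :
    (∑ Y' ∈ Icc Y r, Q * ENNReal.ofReal w ^ Y' * Kw (n + 1) (ENNReal.ofReal x) l) +
      (if Y = 0 then 0 else
        (∑ g ∈ range (Y - l.length), Q * ENNReal.ofReal w ^ (Y - 1) *
          Kw (n + 1) (ENNReal.ofReal x) (push g l)) +
          ∑ j ∈ range (nt l), Q * ENNReal.ofReal w ^ (Y - 1) *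
            Kw (n + 1) (ENNReal.ofReal x) (pop j l)) ≤
    Q * ENNReal.ofReal ρ * ENNReal.ofReal w ^ Y * Kw (n + 1) (ENNReal.ofReal x) l := by
  obtain ⟨W, hW⟩ : ∃ W, W = ENNReal.ofReal w := ⟨_, rfl⟩
  obtain ⟨X, hX⟩ : ∃ X, X = ENNReal.ofReal x := ⟨_, rfl⟩
  obtain ⟨A, hA⟩ : ∃ A, A = ENNReal.ofReal (1 / (1 - w)) := ⟨_, rfl⟩
  obtain ⟨B, hB⟩ : ∃ B, B = ENNReal.ofReal (1 / (w * x)) := ⟨_, rfl⟩
  have hAB : A + B ≤ ENNReal.ofReal ρ := by
    rw [hA, hB, ← ENNReal.ofReal_add]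
    · exact ENNReal.ofReal_le_ofReal h
    · exact div_nonneg zero_le_one (by linarith)
    · positivity
  have hBWX : B * W * X = 1 := by
    rw [hB, hW, hX, ← ENNReal.ofReal_mul (by positivity), ← ENNReal.ofReal_mul (by positivity)]
    rw [← ENNReal.ofReal_one]
    congr 1
    field_simp
  rw [← hW, ← hX]
  obtain ⟨K, hK⟩ : ∃ K : List Bool → ℝ≥0∞, K = Kw (n + 1) X := ⟨_, rfl⟩
  rw [← hK]
  have h1 : ∑ Y' ∈ Icc Y r, Q * W ^ Y' * K l ≤ Q * A * W ^ Y * K l := by
    rw [← Finset.sum_mul, ← Finset.mul_sum]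
    have h2 := UB2_geo w hw0 hw1 Y r
    rw [← hW, ← hA] at h2
    calc Q * (∑ Y' ∈ Icc Y r, W ^ Y') * K l ≤ Q * (A * W ^ Y) * K l := by gcongr
      _ = Q * A * W ^ Y * K l := by ring
  have h2 : (if Y = 0 then 0 else
        (∑ g ∈ range (Y - l.length), Q * W ^ (Y - 1) * K (push g l)) +
          ∑ j ∈ range (nt l), Q * W ^ (Y - 1) * K (pop j l)) ≤ Q * B * W ^ Y * K l := by
    split_ifs with hY0
    · exact bot_le
    · have e1 : (∑ g ∈ range (Y - l.length), K (push g l)) ≤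
          ∑ g ∈ range (n + 1 - l.length), K (push g l) := by
        apply Finset.sum_le_sum_of_subset
        intro t ht
        rw [Finset.mem_range] at ht ⊢
        omega
      have e2 : X * ((∑ g ∈ range (n + 1 - l.length), K (push g l)) +
          ∑ j ∈ range (nt l), K (pop j l)) ≤ K l := by
        have e3 := EV6 (n + 1) X l
        rw [← hK] at e3
        rw [e3]
        exact le_add_self
      have e3 : X * ((∑ g ∈ range (Y - l.length), K (push g l)) +
          ∑ j ∈ range (nt l), K (pop j l)) ≤ K l := by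
        refine le_trans ?_ e2
        gcongr
      rw [← Finset.mul_sum, ← Finset.mul_sum, ← mul_add]
      obtain ⟨S, hS⟩ : ∃ S, S = (∑ g ∈ range (Y - l.length), K (push g l)) +
          ∑ j ∈ range (nt l), K (pop j l) := ⟨_, rfl⟩
      rw [← hS] at e3 ⊢
      have e4 : W ^ Y = W ^ (Y - 1) * W := by
        rw [← pow_succ]
        congr 1
        omega
      calc Q * W ^ (Y - 1) * S = Q * W ^ (Y - 1) * (B * W * X) * S := by rw [hBWX, mul_one]
        _ = Q * B * (W ^ (Y - 1) * W) * (X * S) := by ring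
        _ ≤ Q * B * (W ^ (Y - 1) * W) * K l := by gcongr
        _ = Q * B * W ^ Y * K l := by rw [← e4]
  calc _ ≤ Q * A * W ^ Y * K l + Q * B * W ^ Y * K l := add_le_add h1 h2
    _ = Q * (A + B) * W ^ Y * K l := by ring
    _ ≤ Q * ENNReal.ofReal ρ * W ^ Y * K l := by gcongr

theorem UB2_cast (r Y : ℕ) (l : List Bool) (k : ℝ≥0∞) : (cmp (r + 1) Y l : ℝ≥0∞) * k =
    (∑ Y' ∈ Icc Y r, (cmp r Y' l : ℝ≥0∞) * k) +
      (if Y = 0 then 0 else
        (∑ g ∈ range (Y - l.length), (cmp r (Y - 1) (push g l) : ℝ≥0∞) * k) +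
          ∑ j ∈ range (nt l), (cmp r (Y - 1) (pop j l) : ℝ≥0∞) * k) := by
  rw [cmp]
  split_ifs with hY
  · push_cast
    rw [add_zero, add_zero, Finset.sum_mul]
  · push_cast
    rw [add_mul, add_mul, Finset.sum_mul, Finset.sum_mul, Finset.sum_mul]

theorem UB2_castA (H r Y : ℕ) (l : List Bool) (k : ℝ≥0∞) : (cmpA H (r + 1) Y l : ℝ≥0∞) * k =
    (∑ Y' ∈ Icc Y r, (if Y' < H then (cmpA H r Y' l : ℝ≥0∞) * k else (cmp r Y' l : ℝ≥0∞) * k)) +
      (if Y = 0 then 0 else
        (∑ g ∈ range (Y - l.length), (cmpA H r (Y - 1) (push g l) : ℝ≥0∞) * k) +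
          ∑ j ∈ range (nt l), (cmpA H r (Y - 1) (pop j l) : ℝ≥0∞) * k) := by
  rw [cmpA]
  have h0 : ((∑ Y' ∈ Icc Y r, if Y' < H then cmpA H r Y' l else cmp r Y' l : ℕ) : ℝ≥0∞) * k =
      (∑ Y' ∈ Icc Y r, (if Y' < H then (cmpA H r Y' l : ℝ≥0∞) * k
        else (cmp r Y' l : ℝ≥0∞) * k)) := by
    push_cast
    rw [Finset.sum_mul]
    apply Finset.sum_congr rfl
    intro Y' _
    split_ifs <;> rfl
  split_ifs with hY
  · rw [add_zero, add_zero, h0]
  · rw [Nat.cast_add, Nat.cast_add, add_mul, add_mul, h0]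
    push_cast
    rw [Finset.sum_mul, Finset.sum_mul]

theorem UB2_a (n : ℕ) (x w ρ : ℝ) (hx : 0 < x) (hw0 : 0 < w) (hw1 : w < 1)
    (h : 1 / (1 - w) + 1 / (w * x) ≤ ρ) : ∀ r Y : ℕ, ∀ l : List Bool, r ≤ n → Y ≤ n →
      l.length ≤ Y → (cmp r Y l : ℝ≥0∞) * Kw (n + 1) (ENNReal.ofReal x) [] ≤
        ENNReal.ofReal ρ ^ r * ENNReal.ofReal w ^ Y * Kw (n + 1) (ENNReal.ofReal x) l := by
  intro r
  induction r with
  | zero =>
    intro Y l _ _ _
    rw [cmp]
    split_ifs with h0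
    · rw [h0.1, h0.2]
      simp
    · simp
  | succ r ih =>
    intro Y l hr hY hl
    rw [UB2_cast]
    have h1 := UB2_step n x w ρ hx hw0 hw1 h (ENNReal.ofReal ρ ^ r) r Y l hY
    rw [← pow_succ] at h1
    refine le_trans (add_le_add ?_ ?_) h1
    · apply Finset.sum_le_sum
      intro Y' hY'
      rw [Finset.mem_Icc] at hY'
      exact ih Y' l (by omega) (by omega) (by omega)
    · split_ifs with hY0
      · exact le_rfl
      · apply add_le_add
        · apply Finset.sum_le_sum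
          intro g hg
          rw [Finset.mem_range] at hg
          apply ih _ _ (by omega) (by omega)
          rw [UB2_push_length]
          omega
        · apply Finset.sum_le_sum
          intro j _
          apply ih _ _ (by omega) (by omega)
          rw [UB2_pop_length]
          omega

theorem UB2_b (H n : ℕ) (x w1 w2 ρ : ℝ) (hx : 0 < x) (hw2 : 0 < w2) (hw : w2 ≤ w1)
    (hw1 : w1 < 1) (h1 : 1 / (1 - w1) + 1 / (w1 * x) ≤ ρ) (h2 : 1 / (1 - w2) + 1 / (w2 * x) ≤ ρ) :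
    ∀ r Y : ℕ, ∀ l : List Bool, r ≤ n → Y ≤ n → Y < H →
      l.length ≤ Y → (cmpA H r Y l : ℝ≥0∞) * Kw (n + 1) (ENNReal.ofReal x) [] ≤
        ENNReal.ofReal ρ ^ r * ENNReal.ofReal ((w2 / w1) ^ H) * ENNReal.ofReal w1 ^ Y *
          Kw (n + 1) (ENNReal.ofReal x) l := by
  have hw10 : 0 < w1 := lt_of_lt_of_le hw2 hw
  intro r
  induction r with
  | zero =>
    intro Y l _ _ _ _
    rw [cmpA]
    simp
  | succ r ih =>
    intro Y l hr hY hYH hl
    rw [UB2_castA]
    have h3 := UB2_step n x w1 ρ hx hw10 hw1 h1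
      (ENNReal.ofReal ρ ^ r * ENNReal.ofReal ((w2 / w1) ^ H)) r Y l hY
    have h4 : ENNReal.ofReal ρ ^ r * ENNReal.ofReal ((w2 / w1) ^ H) * ENNReal.ofReal ρ =
        ENNReal.ofReal ρ ^ (r + 1) * ENNReal.ofReal ((w2 / w1) ^ H) := by ring
    rw [h4] at h3
    refine le_trans (add_le_add ?_ ?_) h3
    · apply Finset.sum_le_sum
      intro Y' hY'
      rw [Finset.mem_Icc] at hY'
      split_ifs with hYH'
      · exact ih Y' l (by omega) (by omega) hYH' (by omega)
      · have h5 := UB2_a n x w2 ρ hx hw2 (lt_of_le_of_lt hw hw1) h2 r Y' l (by omega) (by omega)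
          (by omega)
        refine le_trans h5 ?_
        have h6 : ENNReal.ofReal w2 ^ Y' ≤
            ENNReal.ofReal ((w2 / w1) ^ H) * ENNReal.ofReal w1 ^ Y' := by
          rw [← ENNReal.ofReal_pow hw2.le, ← ENNReal.ofReal_pow hw10.le,
            ← ENNReal.ofReal_mul (by positivity)]
          apply ENNReal.ofReal_le_ofReal
          have h7 : w2 = (w2 / w1) * w1 := by field_simp
          have h8 : (w2 / w1) ^ Y' ≤ (w2 / w1) ^ H := by
            apply pow_le_pow_of_le_one (by positivity)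
            · rw [div_le_one hw10]
              exact hw
            · omega
          calc w2 ^ Y' = (w2 / w1) ^ Y' * w1 ^ Y' := by rw [← mul_pow, ← h7]
            _ ≤ (w2 / w1) ^ H * w1 ^ Y' := by gcongr
        calc ENNReal.ofReal ρ ^ r * ENNReal.ofReal w2 ^ Y' * Kw (n + 1) (ENNReal.ofReal x) l ≤
            ENNReal.ofReal ρ ^ r * (ENNReal.ofReal ((w2 / w1) ^ H) * ENNReal.ofReal w1 ^ Y') *
              Kw (n + 1) (ENNReal.ofReal x) l := by gcongr
          _ = _ := by ring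
    · split_ifs with hY0
      · exact le_rfl
      · apply add_le_add
        · apply Finset.sum_le_sum
          intro g hg
          rw [Finset.mem_range] at hg
          apply ih _ _ (by omega) (by omega) (by omega)
          rw [UB2_push_length]
          omega
        · apply Finset.sum_le_sum
          intro j _
          apply ih _ _ (by omega) (by omega) (by omega)
          rw [UB2_pop_length]
          omega

/-- UB2: two-phase potential bound (uses EV6) -/
theorem UB2 (H n : ℕ) (hH : 1 ≤ H) (x w1 w2 ρ : ℝ) (hx : 0 < x) (hw2 : 0 < w2) (hw : w2 ≤ w1)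
    (hw1 : w1 < 1) (h1 : 1 / (1 - w1) + 1 / (w1 * x) ≤ ρ) (h2 : 1 / (1 - w2) + 1 / (w2 * x) ≤ ρ)
    (hK : Kw (n + 1) (ENNReal.ofReal x) [] < ⊤) :
    (cmpA H n 0 [] : ℝ) ≤ (w2 / w1) ^ H * ρ ^ n := by
  have hw10 : 0 < w1 := lt_of_lt_of_le hw2 hw
  have hρ : 0 ≤ ρ := by
    refine le_trans ?_ h1
    have h3 : 0 ≤ 1 / (1 - w1) := div_nonneg zero_le_one (by linarith)
    positivity
  have h3 := UB2_b H n x w1 w2 ρ hx hw2 hw hw1 h1 h2 n 0 [] le_rfl (Nat.zero_le _) hH
    (Nat.zero_le _)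
  rw [pow_zero, mul_one] at h3
  have hK0 : Kw (n + 1) (ENNReal.ofReal x) [] ≠ 0 := by
    unfold Kw
    intro h0
    rw [ENNReal.tsum_eq_zero] at h0
    have := h0 0
    rw [wk] at this
    simp at this
  have h4 : (cmpA H n 0 [] : ℝ≥0∞) ≤ ENNReal.ofReal ρ ^ n * ENNReal.ofReal ((w2 / w1) ^ H) :=
    (ENNReal.mul_le_mul_iff_left hK0 hK.ne).mp h3
  rw [← ENNReal.ofReal_pow hρ, ← ENNReal.ofReal_mul (by positivity)] at h4
  have h5 : (cmpA H n 0 [] : ℝ≥0∞) = ENNReal.ofReal (cmpA H n 0 [] : ℝ) :=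
    (ENNReal.ofReal_natCast _).symm
  rw [h5, ENNReal.ofReal_le_ofReal_iff (by positivity)] at h4
  rw [mul_comm]
  exact h4

end Pool.Agent.Lib_helper12.NZ
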